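import Mathlib

/-!
The arithmetic of the comparison with the cyclic polytope.
-/

namespace Pool.Agent.Lib.MP_c8fb4d_co

open Finset

/-- iterated sums of initial segments -/
def TT (X : ℕ → ℤ) : ℕ → ℕ → ℤ
  | 0, r => X r
  | e + 1, r => ∑ i ∈ range (r + 1), TT X e i

theorem TT_succ (X : ℕ → ℤ) (e r : ℕ) :
    TT X (e + 1) (r + 1) = TT X (e + 1) r + TT X e (r + 1) := by
  simp only [TT]
  rw [sum_range_succ]

theorem TT_row (X : ℕ → ℤ) : ∀ e, TT X e 0 = X 0
  | 0 => rfl
  | e + 1 => by simp [TT, TT_row X e]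

theorem TT_TT (X : ℕ → ℤ) : ∀ e r, TT (TT X 1) e r = TT X (e + 1) r
  | 0, _ => rfl
  | e + 1, r => by
    rw [TT, TT]
    exact sum_congr rfl fun i _ => TT_TT X e i

theorem TT_closed (X : ℕ → ℤ) : ∀ e r, TT X (e + 1) r =
    ∑ i ∈ range (r + 1), X i * ((e + (r - i)).choose e : ℕ) := by
  intro e
  induction e with
  | zero => intro r; simp [TT]
  | succ e ih =>
    intro r
    induction r with
    | zero => simp [TT_row]
    | succ r ihr =>
      rw [TT_succ, ihr, ih, sum_range_succ _ (r + 1), sum_range_succ _ (r + 1), ← add_assoc,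
        ← sum_add_distrib]
      congr 1
      · refine sum_congr rfl fun i hi => ?_
        have := mem_range.1 hi
        rw [show e + 1 + (r + 1 - i) = (e + 1 + (r - i)) + 1 by omega, Nat.choose_succ_succ',
          show e + (r + 1 - i) = e + 1 + (r - i) by omega]
        push_cast
        ring
      · simp

theorem TT_diff {X X' : ℕ → ℤ} : ∀ e r, (∀ i < r, X i = X' i) →
    TT X e r - X r = TT X' e r - X' r := by
  intro e
  induction e with
  | zero => intro r _; simp [TT]
  | succ e ih =>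
    intro r h
    simp only [TT]
    rw [sum_range_succ, sum_range_succ, add_sub_assoc, add_sub_assoc, ih r h]
    congr 1
    refine sum_congr rfl fun i hi => ?_
    have h1 := mem_range.1 hi
    have h2 := ih i fun j hj => h j (hj.trans h1)
    rw [h i h1] at h2
    linarith

theorem TT_choose (y : ℕ) : ∀ e r, TT (fun i => ((y + i).choose i : ℕ)) e r =
    ((y + e + r).choose r : ℕ) := by
  intro e
  induction e with
  | zero => intro r; rfl
  | succ e ih =>
    intro r
    induction r with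
    | zero => simp [TT_row]
    | succ r ihr =>
      rw [TT_succ, ihr, ih, show y + (e + 1) + (r + 1) = (y + (e + 1) + r) + 1 by omega,
        Nat.choose_succ_succ', show y + e + (r + 1) = y + (e + 1) + r by omega]
      push_cast
      ring

theorem TT_solve {B : ℕ → ℤ} {y d m : ℕ} (hm : m ≤ d)
    (h : ∀ r ≤ m, TT B (d - r) r = ((y + d).choose r : ℕ)) :
    ∀ r ≤ m, B r = ((y + r).choose r : ℕ) := by
  intro r
  induction r using Nat.strong_induction_on with
  | _ r ih =>
    intro hr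
    have h1 := TT_diff (X := B) (X' := fun i => ((y + i).choose i : ℕ)) (d - r) r
      fun i hi => ih i hi (by omega)
    rw [h r hr, TT_choose, show y + (d - r) + r = y + d by omega] at h1
    linarith

theorem TT_diag (X : ℕ → ℤ) {d r : ℕ} (h : r < d) : TT X (d - r) r =
    ∑ i ∈ range d, X i * ((d - 1 - i).choose (d - 1 - r) : ℕ) := by
  rw [show d - r = (d - 1 - r) + 1 by omega, TT_closed]
  rw [← sum_subset (s₁ := range (r + 1)) (range_subset_range.2 h)]
  · refine sum_congr rfl fun i hi => ?_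
    have := mem_range.1 hi
    rw [show d - 1 - r + (r - i) = d - 1 - i by omega]
  · intro i h1 h2
    have := mem_range.1 h1
    have := mem_range.not.1 h2
    rw [Nat.choose_eq_zero_of_lt (by omega)]
    simp

theorem abel_sum {m : ℕ} {t ρ : ℕ → ℝ} {τ : ℝ} (h0 : 0 ≤ ρ 0) (hm : ∀ l < m, ρ l ≤ ρ (l + 1))
    (hτ : ∀ s ≤ m, ∑ l ∈ Ico s m, t l ≤ τ) :
    ∀ k ≤ m, ∑ l ∈ range k, t l * ρ l ≤ (τ - ∑ l ∈ Ico k m, t l) * ρ k := by
  intro k
  induction k with
  | zero => exact fun h => by simpa using mul_nonneg (sub_nonneg.2 (hτ 0 h)) h0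
  | succ k ih =>
    intro h
    have h1 := ih (by omega)
    rw [sum_eq_sum_Ico_succ_bot (by omega : k < m)] at h1
    rw [sum_range_succ]
    have h2 := mul_le_mul_of_nonneg_left (hm k (by omega)) (sub_nonneg.2 (hτ _ h))
    linarith

theorem exists_stop (m : ℕ) (t : ℕ → ℝ) : ∃ s ≤ m, (s = m ∨ 0 < t s) ∧
    ∀ s' ≤ m, ∑ l ∈ Ico s' m, t l ≤ ∑ l ∈ Ico s m, t l := by
  have key : ∀ j ≤ m, ∃ s ≤ m, (s = m ∨ 0 < t s) ∧
      ∀ s', m - j ≤ s' → s' ≤ m → ∑ l ∈ Ico s' m, t l ≤ ∑ l ∈ Ico s m, t l := by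
    intro j
    induction j with
    | zero =>
      refine fun _ => ⟨m, le_rfl, Or.inl rfl, fun s' h1 h2 => ?_⟩
      rw [show s' = m by omega]
    | succ j ih =>
      intro hj
      obtain ⟨s, h1, h2, h3⟩ := ih (by omega)
      by_cases c : ∑ l ∈ Ico (m - (j + 1)) m, t l ≤ ∑ l ∈ Ico s m, t l
      · refine ⟨s, h1, h2, fun s' g1 g2 => ?_⟩
        by_cases e : s' = m - (j + 1)
        · rwa [e]
        · exact h3 s' (by omega) g2
      · refine ⟨m - (j + 1), by omega, Or.inr ?_, fun s' g1 g2 => ?_⟩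
        · have := h3 (m - (j + 1) + 1) (by omega) (by omega)
          rw [sum_eq_sum_Ico_succ_bot (by omega : m - (j + 1) < m)] at c
          linarith
        · by_cases e : s' = m - (j + 1)
          · rw [e]
          · exact (h3 s' (by omega) g2).trans (not_le.1 c).le
  obtain ⟨s, h1, h2, h3⟩ := key m le_rfl
  exact ⟨s, h1, h2, fun s' h => h3 s' (by omega) h⟩

theorem exists_row {d c m : ℕ} (hd : 2 ≤ d) (hm : m = d / 2) (hc : c + m ≤ d - 1) {δ : ℕ → ℤ}
    (hδ : ∀ i j, i + j + 1 = d → 0 ≤ δ i + δ j) : ∃ s ≤ m, 0 ≤ δ s ∧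
      0 ≤ ∑ i ∈ Ico s d, δ i * ((d - 1 - i).choose c : ℕ) := by
  let t : ℕ → ℝ := fun l => δ l * ((d - 1 - l).choose c : ℕ)
  let ρ : ℕ → ℝ := fun l => if l < m then (l.choose c : ℝ) / ((d - 1 - l).choose c : ℕ) else 1
  have hp : ∀ l ≤ m, (0 : ℝ) < ((d - 1 - l).choose c : ℕ) := fun l hl => by
    exact_mod_cast Nat.choose_pos (by omega)
  obtain ⟨s, h1, h2, h3⟩ := exists_stop m t
  have h4 := abel_sum (ρ := ρ) (by simp only [ρ]; split_ifs <;> positivity) (fun l hl => by
    simp only [ρ, if_pos hl]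
    split_ifs with e
    · have a1 : (l.choose c : ℝ) ≤ ((l + 1).choose c : ℕ) := by
        exact_mod_cast Nat.choose_le_choose c (by omega)
      have a2 : (((d - 1 - (l + 1)).choose c : ℕ) : ℝ) ≤ ((d - 1 - l).choose c : ℕ) := by
        exact_mod_cast Nat.choose_le_choose c (by omega)
      have a3 := hp (l + 1) e.le
      gcongr
    · rw [div_le_one (hp l hl.le)]
      exact_mod_cast Nat.choose_le_choose c (by omega)) h3 m le_rfl
  simp only [Ico_self, sum_empty, sub_zero, ρ, lt_irrefl, if_false, mul_one] at h4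
  have h5 : ∑ l ∈ range m, (δ l : ℝ) * (l.choose c : ℕ) ≤ ∑ l ∈ Ico s m, t l := by
    refine le_of_eq_of_le (sum_congr rfl fun l hl => ?_) h4
    have := hp l (mem_range.1 hl).le
    rw [if_pos (mem_range.1 hl)]
    simp only [t]
    field_simp
  have h6 : -∑ l ∈ range m, (δ l : ℝ) * (l.choose c : ℕ) ≤ ∑ l ∈ Ico m d, t l := by
    have e1 : ∑ l ∈ Ico m d, t l = ∑ l ∈ range (d - m), t (d - 1 - l) := by
      rw [sum_Ico_eq_sum_range, ← sum_range_reflect]
      exact sum_congr rfl fun l hl => by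
        have := mem_range.1 hl
        congr 1
        omega
    have e2 : -∑ l ∈ range m, (δ l : ℝ) * (l.choose c : ℕ) ≤ ∑ l ∈ range m, t (d - 1 - l) := by
      rw [← sum_neg_distrib]
      refine sum_le_sum fun l hl => ?_
      have := mem_range.1 hl
      have a1 : (0 : ℝ) ≤ δ l + δ (d - 1 - l) := by exact_mod_cast hδ l (d - 1 - l) (by omega)
      simp only [t]
      rw [show d - 1 - (d - 1 - l) = l by omega]
      have a2 : (0 : ℝ) ≤ (l.choose c : ℕ) := by positivity
      nlinarith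
    rw [e1]
    by_cases e : d - m = m
    · rwa [e]
    · rw [show d - m = m + 1 by omega, sum_range_succ]
      have a1 := hδ m m (by omega)
      have a2 : (0 : ℝ) ≤ δ m := by exact_mod_cast (by omega : 0 ≤ δ m)
      have a3 : 0 ≤ t (d - 1 - m) := by
        rw [show d - 1 - m = m by omega]
        exact mul_nonneg a2 (hp m le_rfl).le
      linarith
  have fin : ∀ s' ≤ m, ∑ l ∈ Ico s m, t l ≤ ∑ l ∈ Ico s' m, t l →
      0 ≤ ∑ i ∈ Ico s' d, δ i * ((d - 1 - i).choose c : ℕ) := by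
    intro s' g1 g2
    have : (0 : ℝ) ≤ ∑ l ∈ Ico s' d, t l := by
      rw [← sum_Ico_consecutive t g1 (by omega : m ≤ d)]
      linarith
    simp only [t] at this
    exact_mod_cast this
  by_cases c0 : 0 ≤ δ s
  · exact ⟨s, h1, c0, fin s h1 le_rfl⟩
  · have e : s = m := h2.resolve_right fun h => c0 (by
      have := (mul_pos_iff_of_pos_right (hp s h1)).1 h
      exact_mod_cast this.le)
    subst e
    have a1 := hδ s (d - 1 - s) (by omega)
    have e' : d - 1 - s = s - 1 := by
      by_contra e'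
      rw [show d - 1 - s = s by omega] at a1
      omega
    rw [e'] at a1
    refine ⟨s - 1, by omega, by omega, fin _ (by omega) ?_⟩
    rw [sum_eq_sum_Ico_succ_bot (by omega : s - 1 < s), show s - 1 + 1 = s by omega]
    have a2 : (0 : ℝ) ≤ δ (s - 1) := by exact_mod_cast (by omega : 0 ≤ δ (s - 1))
    have a3 : 0 ≤ t (s - 1) := mul_nonneg a2 (hp _ (by omega)).le
    linarith

/-- The properties of the table of dimensions. -/
structure Tab (d M : ℕ) (u : ℕ → ℕ → ℕ) : Prop where
  pas : ∀ t ρ, t + 1 ≤ ρ → u (t + 1) (ρ + 1) + u t ρ ≤ u (t + 1) ρ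
  zero : ∀ ρ, u 0 (ρ + 1) ≤ u 0 ρ
  inc : ∀ t ρ z, t + 1 ≤ ρ → t + 1 ≤ z → t + 1 ≤ d → z.choose (t + 1) ≤ u (t + 1) (ρ + 1) →
    u (t + 1) (ρ + 1) + z.choose t ≤ u (t + 1) ρ
  kk : ∀ s n, s + 3 ≤ n → s + 2 ≤ d → n.choose (s + 1 + 1) ≤ u (s + 1 + 1) (s + 1 + 1) →
    n.choose (s + 1) ≤ u (s + 1) (s + 1)
  dual : ∀ i j, i + j + 1 = d → M ≤ u i d + u j d

namespace Tab

variable {d M : ℕ} {u : ℕ → ℕ → ℕ} (h : Tab d M u)
include h

theorem row {y s : ℕ} (hs : (y + s).choose s ≤ u s d) : ∀ e ρ, ρ + e = d → s ≤ ρ →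
    (y + e + s).choose s + u s d ≤ u s ρ + (y + s).choose s := by
  intro e
  induction e with
  | zero =>
    intro ρ h1 _
    rw [add_zero] at h1
    rw [h1, add_zero, add_comm]
  | succ e ih =>
    intro ρ h1 h2
    have h3 := ih (ρ + 1) (by omega) (by omega)
    rcases s with _ | t
    · have := h.zero ρ
      simp only [Nat.choose_zero_right] at h3 ⊢
      omega
    · have h4 := h.inc t ρ (y + e + (t + 1)) h2 (by omega) (by omega) (by omega)
      rw [show y + (e + 1) + (t + 1) = (y + e + (t + 1)) + 1 by omega, Nat.choose_succ_succ']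
      omega

theorem lower {y s : ℕ} (hs : (y + s).choose s ≤ u s d) {Y : ℕ → ℤ}
    (h1 : ∀ i < s, Y i = ((y + i).choose i : ℕ)) (h2 : ∀ i, s ≤ i → Y i = u i d) :
    ∀ r, s ≤ r → ∀ e ρ, ρ + e = d → r ≤ ρ → TT Y e r ≤ u r ρ := by
  intro r hr
  induction r, hr using Nat.le_induction with
  | base =>
    intro e ρ g1 g2
    have a1 := TT_diff (X := Y) (X' := fun i => ((y + i).choose i : ℕ)) e s h1
    have a2 := h.row hs e ρ g1 g2
    rw [TT_choose, h2 s le_rfl] at a1
    omega
  | succ r hr ih =>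
    intro e
    induction e with
    | zero =>
      intro ρ g1 _
      rw [add_zero] at g1
      rw [g1, TT, h2 _ (by omega)]
    | succ e ihe =>
      intro ρ g1 g2
      have a1 := ih (e + 1) ρ g1 (by omega)
      have a2 := ihe (ρ + 1) (by omega) (by omega)
      have a3 := h.pas r ρ g2
      rw [TT_succ]
      omega

theorem down {n : ℕ} (hn : d + 1 ≤ n) : ∀ (j r : ℕ), r + 1 + j ≤ d →
    n.choose (r + 1 + j) ≤ u (r + 1 + j) (r + 1 + j) → n.choose (r + 1) ≤ u (r + 1) (r + 1) := by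
  intro j
  induction j with
  | zero => exact fun _ _ g => g
  | succ j ih =>
    intro r g1 g2
    refine h.kk r n (by omega) (by omega) (ih (r + 1) (by omega) ?_)
    rwa [show r + 1 + 1 + j = r + 1 + (j + 1) by omega]

/-- The comparison. -/
theorem main (hd : 2 ≤ d) {y : ℕ} (hy : 1 ≤ y) {B : ℕ → ℤ}
    (b1 : ∀ i ≤ d / 2, B i = ((y + i).choose i : ℕ)) (b2 : ∀ i j, i + j + 1 = d → B i + B j ≤ M)
    {g r : ℕ} (hr : 1 ≤ r) (hr' : r < d) (g1 : g ≤ (y + d).choose r)
    (g2 : (g : ℤ) ≤ TT B (d - r) r) : g ≤ u r r := by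
  have hδ : ∀ i j, i + j + 1 = d → 0 ≤ ((u i d : ℤ) - B i) + (u j d - B j) := fun i j e => by
    have := h.dual i j e
    have := b2 i j e
    omega
  by_cases c : d / 2 ≤ r
  · obtain ⟨s, a1, a2, a3⟩ := exists_row (c := d - 1 - r) hd rfl (by omega)
      (δ := fun i => u i d - B i) hδ
    rw [b1 s a1] at a2
    have a4 := h.lower (y := y) (s := s) (by omega) (Y := fun i => if i < s then B i else u i d)
      (fun i hi => by rw [if_pos hi, b1 i (by omega)]) (fun i hi => by rw [if_neg (by omega)])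
      r (by omega) (d - r) r (by omega) le_rfl
    rw [TT_diag _ hr'] at a4 g2
    have a5 : ∑ i ∈ range d, (if i < s then B i else u i d) * ((d - 1 - i).choose (d - 1 - r) : ℕ) =
        ∑ i ∈ range d, B i * ((d - 1 - i).choose (d - 1 - r) : ℕ) +
        ∑ i ∈ Ico s d, ((u i d : ℤ) - B i) * ((d - 1 - i).choose (d - 1 - r) : ℕ) := by
      simp only [range_eq_Ico]
      rw [← sum_Ico_consecutive _ (Nat.zero_le s) (by omega : s ≤ d),
        ← sum_Ico_consecutive _ (Nat.zero_le s) (by omega : s ≤ d), add_assoc, ← sum_add_distrib]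
      congr 1
      · exact sum_congr rfl fun i hi => by rw [if_pos (mem_Ico.1 hi).2]
      · exact sum_congr rfl fun i hi => by
          rw [if_neg (not_lt.2 (mem_Ico.1 hi).1)]
          ring
    omega
  · obtain ⟨s, a1, a2, a3⟩ : ∃ s, r ≤ s ∧ s ≤ d / 2 ∧ B s ≤ u s d := by
      have := hδ (d / 2) (d - 1 - d / 2) (by omega)
      by_cases e : B (d / 2) ≤ u (d / 2) d
      · exact ⟨_, by omega, le_rfl, e⟩
      · exact ⟨d - 1 - d / 2, by omega, by omega, by omega⟩
    rw [b1 s a2] at a3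
    have a4 := h.row (y := y) (s := s) (by omega) (d - s) s (by omega) le_rfl
    rw [show y + (d - s) + s = y + d by omega] at a4
    obtain ⟨r', rfl⟩ : ∃ r', r = r' + 1 := ⟨r - 1, by omega⟩
    obtain ⟨j, rfl⟩ := Nat.exists_eq_add_of_le a1
    exact g1.trans (h.down (by omega) j r' (by omega) (by omega))

end Tab

end Pool.Agent.Lib.MP_c8fb4d_co
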