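import Pool.Agent.Lib.MP_c8fb4d_co.Cyclic
import Pool.Agent.Lib.MP_c8fb4d_co.AllAr

/-!
The face numbers of the cyclic polytope.
-/

namespace Pool.Agent.Lib.MP_c8fb4d_co

open Module Finset
open scoped Classical

theorem card_between {α : Type} [DecidableEq α] {R F : Finset α} (h : R ⊆ F) (r : ℕ) :
    ((F.powersetCard r).filter fun s => R ⊆ s).card =
      if R.card ≤ r then (F.card - R.card).choose (r - R.card) else 0 := by
  split_ifs with c
  · rw [← card_sdiff_of_subset h, ← card_powersetCard]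
    refine card_nbij' (fun s => s \ R) (fun s => s ∪ R) (fun s hs => ?_) (fun s hs => ?_)
      (fun s hs => ?_) fun s hs => ?_
    · obtain ⟨a, b⟩ := mem_filter.1 (mem_coe.1 hs)
      obtain ⟨a1, a2⟩ := mem_powersetCard.1 a
      exact mem_coe.2 (mem_powersetCard.2 ⟨sdiff_subset_sdiff a1 le_rfl,
        by rw [card_sdiff_of_subset b, a2]⟩)
    · obtain ⟨a1, a2⟩ := mem_powersetCard.1 (mem_coe.1 hs)
      refine mem_coe.2 (mem_filter.2 ⟨mem_powersetCard.2 ⟨union_subset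
        (a1.trans sdiff_subset) h, ?_⟩, subset_union_right⟩)
      rw [card_union_of_disjoint (disjoint_of_subset_left a1 sdiff_disjoint), a2]
      omega
    · exact sdiff_union_of_subset (mem_filter.1 (mem_coe.1 hs)).2
    · exact union_sdiff_cancel_right
        (disjoint_of_subset_left (mem_powersetCard.1 (mem_coe.1 hs)).1 sdiff_disjoint)
  · refine card_eq_zero.2 (filter_eq_empty_iff.2 fun s hs e => c ?_)
    rw [← (mem_powersetCard.1 hs).2]
    exact card_le_card e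

variable {d n : ℕ}

/-- the number of facets with at most `i` marked vertices -/
noncomputable def cum (R : Face (hom (cyc d n)) → Finset (Fin n)) (i : ℕ) : ℤ :=
  ((((faceML (hom (cyc d n))).I ⊥ ⊤ d).filter fun F => (R F).card ≤ i).card : ℕ)

theorem sum_cum (R : Face (hom (cyc d n)) → Finset (Fin n)) {r : ℕ} (hr : r ≤ d) :
    ((∑ F ∈ (faceML (hom (cyc d n))).I ⊥ ⊤ d, if (R F).card ≤ r then
      (d - (R F).card).choose (r - (R F).card) else 0 : ℕ) : ℤ) = TT (cum R) (d - r) r := by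
  let h : ℕ → ℤ := fun i =>
    ((((faceML (hom (cyc d n))).I ⊥ ⊤ d).filter fun F => (R F).card = i).card : ℕ)
  have h1 : cum R = TT h 1 := by
    funext i
    simp only [TT, cum, h]
    rw [card_eq_sum_card_fiberwise (f := fun F => (R F).card) (t := range (i + 1))
      fun F hF => mem_coe.2 (mem_range.2 (Nat.lt_succ_of_le (mem_filter.1 (mem_coe.1 hF)).2))]
    push_cast
    refine sum_congr rfl fun j hj => ?_
    rw [filter_filter]
    congr 2
    refine filter_congr fun F _ => ⟨fun c => c.2, fun c => ⟨?_, c⟩⟩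
    have := mem_range.1 hj
    omega
  rw [h1, TT_TT, TT_closed, ← sum_filter,
    ← sum_fiberwise_of_maps_to (g := fun F => (R F).card) (t := range (r + 1))
      fun F hF => mem_range.2 (Nat.lt_succ_of_le (mem_filter.1 hF).2)]
  push_cast
  refine sum_congr rfl fun i hi => ?_
  have hi' := mem_range.1 hi
  rw [sum_congr rfl (g := fun _ => (((d - r + (r - i)).choose (d - r) : ℕ) : ℤ)) fun F hF => by
    rw [(mem_filter.1 hF).2, show d - i = d - r + (r - i) by omega, Nat.choose_symm_add]]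
  rw [sum_const, nsmul_eq_mul, filter_filter]
  congr 3
  refine filter_congr fun F _ => ⟨fun c => c.2, fun c => ⟨?_, c⟩⟩
  omega

theorem count_min (hn : d + 1 ≤ n) {ψ : Face (hom (cyc d n)) → ℝ}
    {R : Face (hom (cyc d n)) → Finset (Fin n)}
    (hinj : ∀ F F', frk _ F = d → frk _ F' = d → ψ F = ψ F' → F = F')
    (hR : ∀ F, frk _ F = d → R F ⊆ F.1 ∧ ∀ G, G ≤ F →
      (R F ⊆ G.1 ↔ ∀ F', frk _ F' = d → G ≤ F' → ψ F ≤ ψ F')) {r : ℕ} (hr : r ≤ d) :
    ((faceML (hom (cyc d n))).f ⊥ ⊤ r : ℤ) ≤ TT (cum R) (d - r) r ∧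
    (2 * r ≤ d → ((faceML (hom (cyc d n))).f ⊥ ⊤ r : ℤ) = TT (cum R) (d - r) r) := by
  have ht := frk_top_cyc hn
  have hβ : ∀ G : Face (hom (cyc d n)), ∃ F, frk _ G ≤ d → frk _ F = d ∧ G ≤ F ∧
      ∀ F', frk _ F' = d → G ≤ F' → ψ F ≤ ψ F' := by
    intro G
    by_cases c : frk _ G ≤ d
    · obtain ⟨F0, b1, -, b3⟩ := (faceML _).exists_rank' (k := d) (le_top (a := G)) c
        (by change d ≤ frk _ ⊤; omega)
      obtain ⟨F, g1, g2⟩ := exists_min_image (univ.filter fun F => frk _ F = d ∧ G ≤ F) ψ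
        ⟨F0, mem_filter.2 ⟨mem_univ _, b3, b1⟩⟩
      obtain ⟨-, g3, g4⟩ := mem_filter.1 g1
      exact ⟨F, fun _ => ⟨g3, g4, fun F' k1 k2 => g2 F' (mem_filter.2 ⟨mem_univ _, k1, k2⟩)⟩⟩
    · exact ⟨G, fun e => absurd e c⟩
  choose β hβ using hβ
  have h1 : (faceML (hom (cyc d n))).f ⊥ ⊤ r = ∑ F ∈ (faceML (hom (cyc d n))).I ⊥ ⊤ d,
      (((faceML (hom (cyc d n))).I ⊥ ⊤ r).filter fun G => β G = F).card :=
    card_eq_sum_card_fiberwise fun G hG => mem_coe.2 (ML.mem_I.2 ⟨bot_le, le_top,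
      (hβ G ((ML.mem_I.1 (mem_coe.1 hG)).2.2.le.trans hr)).1⟩)
  have h2 : ∀ F ∈ (faceML (hom (cyc d n))).I ⊥ ⊤ d,
      ((F.1.powersetCard r).filter fun s => R F ⊆ s).card =
      if (R F).card ≤ r then (d - (R F).card).choose (r - (R F).card) else 0 := by
    intro F hF
    have hF' : frk _ F = d := (ML.mem_I.1 hF).2.2
    rw [card_between (hR F hF').1, card_of_rk hF' le_rfl]
  rw [← sum_cum R hr, ← sum_congr rfl h2, h1]
  have h3 : ∀ F ∈ (faceML (hom (cyc d n))).I ⊥ ⊤ d,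
      (((faceML (hom (cyc d n))).I ⊥ ⊤ r).filter fun G => β G = F).card ≤
      ((F.1.powersetCard r).filter fun s => R F ⊆ s).card := by
    intro F hF
    have hF' : frk _ F = d := (ML.mem_I.1 hF).2.2
    refine card_le_card_of_injOn (fun G => G.1) (fun G hG => ?_) fun G _ G' _ e => Subtype.ext e
    obtain ⟨a1, rfl⟩ := mem_filter.1 (mem_coe.1 hG)
    have a2 : frk _ G = r := (ML.mem_I.1 a1).2.2
    obtain ⟨-, b2, b3⟩ := hβ G (by omega)
    exact mem_coe.2 (mem_filter.2 ⟨mem_powersetCard.2 ⟨b2, card_of_rk a2 hr⟩,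
      ((hR _ hF').2 G b2).2 b3⟩)
  refine ⟨by exact_mod_cast sum_le_sum h3, fun h => ?_⟩
  congr 1
  refine sum_congr rfl fun F hF => le_antisymm (h3 F hF) ?_
  have hF' : frk _ F = d := (ML.mem_I.1 hF).2.2
  refine card_le_card_of_surjOn (fun G => G.1) fun s hs => ?_
  obtain ⟨a1, a2⟩ := mem_filter.1 (mem_coe.1 hs)
  obtain ⟨a3, a4⟩ := mem_powersetCard.1 a1
  let G : Face (hom (cyc d n)) := ⟨s, isFace_cyc s (by omega)⟩
  have a5 : frk _ G = r := by
    change rk _ s = r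
    rw [rk_cyc s (by omega), a4]
  obtain ⟨b1, b2, b3⟩ := hβ G (by omega)
  exact ⟨G, mem_coe.2 (mem_filter.2 ⟨ML.mem_I.2 ⟨bot_le, le_top, a5⟩, hinj _ _ b1 hF'
    (le_antisymm (b3 F hF' a3) (((hR F hF').2 G a3).1 a2 _ b1 b2))⟩), rfl⟩

theorem ridge_eq {F R : Face (hom (cyc d n))} (hF : frk _ F = d) (h : Cv (frk _) R F) {v : Fin n}
    (hv : v ∈ F.1) (hv' : v ∉ R.1) : R.1 = F.1.erase v := by
  have h1 := h.2
  refine eq_of_subset_of_card_le (fun i hi => mem_erase.2 ⟨fun e => hv' (e ▸ hi), h.1 hi⟩) ?_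
  rw [card_erase_of_mem hv, card_of_rk hF le_rfl,
    card_of_rk (F := R.1) (k := frk _ R) rfl (by omega)]
  omega

/-- the vertices whose opposite ridge fails `P` -/
noncomputable def mark (F : Face (hom (cyc d n))) (P : Face (hom (cyc d n)) → Prop) :
    Finset (Fin n) := F.1.filter fun v => ∃ R, Cv (frk _) R F ∧ v ∉ R.1 ∧ ¬ P R

theorem mem_mark {F : Face (hom (cyc d n))} {P : Face (hom (cyc d n)) → Prop} {v : Fin n} :
    v ∈ mark F P ↔ v ∈ F.1 ∧ ∃ R, Cv (frk _) R F ∧ v ∉ R.1 ∧ ¬ P R := mem_filter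

theorem mark_le (F : Face (hom (cyc d n))) (P : Face (hom (cyc d n)) → Prop) :
    mark F P ⊆ F.1 := fun _ h => (mem_mark.1 h).1

theorem mark_subset {F G : Face (hom (cyc d n))} (hF : frk _ F = d) (h : G ≤ F)
    (P : Face (hom (cyc d n)) → Prop) :
    mark F P ⊆ G.1 ↔ ∀ R, Cv (frk _) R F → G ≤ R → P R := by
  constructor
  · intro H R c1 c2
    by_contra c
    obtain ⟨v, hv, hv'⟩ := exists_of_ssubset c1.lt_face
    exact hv' (c2 (H (mem_mark.2 ⟨hv, R, c1, hv', c⟩)))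
  · intro H v hv
    obtain ⟨a1, R, a2, a3, a4⟩ := mem_mark.1 hv
    by_contra c
    refine a4 (H R a2 ?_)
    change G.1 ⊆ R.1
    rw [ridge_eq hF a2 a1 a3]
    exact fun i hi => mem_erase.2 ⟨fun e => c (e ▸ hi), h hi⟩

theorem mark_card {F : Face (hom (cyc d n))} (hF : frk _ F = d)
    (P : Face (hom (cyc d n)) → Prop) : (mark F P).card + (mark F fun R => ¬ P R).card = d := by
  rw [← card_union_of_disjoint]
  · refine Eq.trans ?_ (card_of_rk hF le_rfl)
    congr 1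
    refine Subset.antisymm (union_subset (mark_le _ _) (mark_le _ _)) fun v hv => ?_
    obtain ⟨R, h1, h2, h3, -, h5⟩ := exists_facet F.2 (hom_empty _) (empty_subset _) hv
      (notMem_empty v)
    by_cases c : P ⟨R, h1⟩
    · exact mem_union_right _ (mem_mark.2 ⟨hv, ⟨R, h1⟩, ⟨h2, h3⟩, h5, not_not.2 c⟩)
    · exact mem_union_left _ (mem_mark.2 ⟨hv, ⟨R, h1⟩, ⟨h2, h3⟩, h5, c⟩)
  · refine disjoint_left.2 fun v h1 h2 => ?_
    obtain ⟨a1, R, a2, a3, a4⟩ := mem_mark.1 h1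
    obtain ⟨-, R', b2, b3, b4⟩ := mem_mark.1 h2
    rw [show R' = R from Subtype.ext ((ridge_eq hF b2 a1 b3).trans (ridge_eq hF a2 a1 a3).symm)]
      at b4
    exact b4 a4

theorem cyc_table {y : ℕ} (hd : 1 ≤ d) (hy : 1 ≤ y) : ∃ B : ℕ → ℤ,
    (∀ i ≤ d / 2, B i = ((y + i).choose i : ℕ)) ∧
    (∀ i j, i + j + 1 = d → B i + B j = (faceML (hom (cyc d (y + d)))).f ⊥ ⊤ d) ∧
    ∀ r ≤ d, ((faceML (hom (cyc d (y + d)))).f ⊥ ⊤ r : ℤ) ≤ TT B (d - r) r := by
  have hn : d + 1 ≤ y + d := by omega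
  have ht := frk_top_cyc hn
  obtain ⟨φ, ⟨hinj, hgood⟩, -⟩ := (faceML (hom (cyc d (y + d)))).refine ⊤ _
    ((faceML _).re_true ⊤)
  have hcv : ∀ F : Face (hom (cyc d (y + d))), Cv (frk _) F ⊤ ↔ frk _ F = d := fun F =>
    ⟨fun h => by have := h.2; omega, fun h => ⟨le_top, by omega⟩⟩
  choose! P _ hP using hgood
  have k1 := fun r hr => count_min hn (ψ := φ) (R := fun F => mark F (P F)) (r := r)
    (fun F F' a b => hinj F F' ((hcv F).2 a) ((hcv F').2 b))
    (fun F hF => ⟨mark_le _ _, fun G hG => (mark_subset hF hG _).trans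
      ((hP F ((hcv F).2 hF) G hG).1.trans (forall_congr' fun F' => imp_congr_left (hcv F')))⟩) hr
  have k2 := fun r hr => count_min hn (ψ := fun F => -φ F)
    (R := fun F => mark F fun R => ¬ P F R) (r := r)
    (fun F F' a b e => hinj F F' ((hcv F).2 a) ((hcv F').2 b) (neg_injective e))
    (fun F hF => ⟨mark_le _ _, fun G hG => (mark_subset hF hG _).trans
      ((hP F ((hcv F).2 hF) G hG).2.trans (forall_congr' fun F' =>
        imp_congr (hcv F') (imp_congr_right fun _ => neg_le_neg_iff.symm)))⟩) hr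
  have k3 : ∀ r, 2 * r ≤ d → ((faceML (hom (cyc d (y + d)))).f ⊥ ⊤ r : ℤ) =
      ((y + d).choose r : ℕ) := fun r hr => by
    rw [f_cyc_eq hr]
    congr 2
    exact card_fin _
  have s1 := TT_solve (y := y) (Nat.div_le_self d 2) fun r hr =>
    ((k1 r (by omega)).2 (by omega)).symm.trans (k3 r (by omega))
  have s2 := TT_solve (y := y) (Nat.div_le_self d 2) fun r hr =>
    ((k2 r (by omega)).2 (by omega)).symm.trans (k3 r (by omega))
  have k4 : ∀ i j, i + j + 1 = d → cum (fun F => mark F (P F)) i +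
      cum (fun F => mark F fun R => ¬ P F R) j = (faceML (hom (cyc d (y + d)))).f ⊥ ⊤ d := by
    intro i j h
    unfold cum
    rw [← Nat.cast_add, ML.f, ← card_filter_add_card_filter_not
      (s := (faceML (hom (cyc d (y + d)))).I ⊥ ⊤ d) fun F => (mark F (P F)).card ≤ i]
    congr 3
    refine filter_congr fun F hF => ?_
    have := mark_card (ML.mem_I.1 hF).2.2 (P F)
    beta_reduce
    omega
  refine ⟨_, s1, fun i j h => ?_, fun r hr => (k1 r hr).1⟩
  rcases le_total i j with c | c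
  · rw [← k4 j i (by omega), s1 i (by omega), s2 i (by omega), add_comm]
  · rw [← k4 i j h, s1 j (by omega), s2 j (by omega)]

end Pool.Agent.Lib.MP_c8fb4d_co
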