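import Pool.Agent.Lib.MP_c8fb4d_co.AllU
import Pool.Agent.Lib.MP_c8fb4d_co.AllCyc

/-!
The comparison with the cyclic polytope in every dimension.
-/

namespace Pool.Agent.Lib.MP_c8fb4d_co

open Module Finset
open scoped Classical

variable {ι : Type} [Fintype ι] [DecidableEq ι]

theorem DS.tab {E : Type} [AddCommGroup E] [Module ℝ E] [FiniteDimensional ℝ E] {a : ι → E}
    (D : DS a) (hb : IsFace a ∅) {d : ℕ} (hd : frk a ⊤ = d + 1) :
    Tab d ((faceML a).f ⊥ ⊤ d) fun t ρ => finrank ℝ (D.U t ρ) where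
  pas := fun _ _ h => D.pascal h
  zero := fun _ => Submodule.finrank_mono (D.U_succ_le (Nat.zero_le _))
  inc := fun _ _ _ h1 h2 h3 h4 => D.inc hb h1 h2 (by omega) h4
  kk := fun _ _ h1 h2 h3 => D.kk hb h1 (by omega) h3
  dual := fun _ _ h => D.dual hb hd h

theorem compare_all {d : ℕ} (hd : 2 ≤ d) (p : ι → EuclideanSpace ℝ (Fin d))
    (ht : frk (hom p) ⊤ = d + 1) {n : ℕ} (hn : d + 1 ≤ n)
    (h : (faceML (hom (cyc d n))).f ⊥ ⊤ d ≤ (faceML (hom p)).f ⊥ ⊤ d) (r : ℕ) (hr : 1 ≤ r)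
    (hr' : r ≤ d) : (faceML (hom (cyc d n))).f ⊥ ⊤ r ≤ (faceML (hom p)).f ⊥ ⊤ r := by
  rcases hr'.eq_or_lt with rfl | hr'
  · exact h
  obtain ⟨y, rfl⟩ : ∃ y, n = y + d := ⟨n - d, by omega⟩
  obtain ⟨D⟩ := exists_ds (hom_empty p)
  obtain ⟨B, b1, b2, b3⟩ := cyc_table (d := d) (y := y) (by omega) (by omega)
  refine ((D.tab (hom_empty p) ht).main hd (by omega) b1 (fun i j e => ?_) hr hr' ?_
    (b3 r hr'.le)).trans (D.finrank_self r)
  · rw [b2 i j e]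
    exact_mod_cast h
  · refine (f_cyc_le hr'.le ⊤).trans (le_of_eq ?_)
    congr 1
    exact card_fin _

end Pool.Agent.Lib.MP_c8fb4d_co
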