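import Pool.Agent.Lib.MP_c8fb4d_co.Green

/-!
The restriction theorem in every codimension.
-/

namespace Pool.Agent.Lib.MP_c8fb4d_co

open Module Finset
open scoped Classical

/-- knots -/
noncomputable def kn (s a : ℕ) : ℝ := ((s + a).choose (s + 1) : ℕ)

/-- values at the knots -/
noncomputable def vl (s a : ℕ) : ℝ := ((s + a).choose s : ℕ)

/-- the linear pieces of the interpolated shadow function -/
noncomputable def lp (s a : ℕ) (r : ℝ) : ℝ := vl s a + (r - kn s a) * (s / (a + 1))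

theorem vl_pos (s a : ℕ) : 1 ≤ vl s a := by
  unfold vl
  exact_mod_cast Nat.choose_pos (Nat.le_add_right s a)

theorem kn_zero (s : ℕ) : kn s 0 = 0 := by simp [kn]

theorem kn_one (s : ℕ) : kn s 1 = 1 := by simp [kn]

theorem kn_succ (s a : ℕ) : kn s (a + 1) = kn s a + vl s a := by
  unfold kn vl
  rw [← add_assoc, Nat.choose_succ_succ']
  push_cast
  ring

theorem vl_succ (s a : ℕ) : vl s (a + 1) = vl s a + vl s a * (s / (a + 1)) := by
  unfold vl
  have h := Nat.choose_mul_succ_eq (s + a) s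
  rw [show s + a + 1 - s = a + 1 by omega] at h
  have h' : (((s + a).choose s : ℕ) : ℝ) * (s + a + 1) =
      ((s + a + 1).choose s : ℕ) * (a + 1) := by exact_mod_cast h
  rw [← add_assoc]
  field_simp
  linear_combination -h'

theorem vl_top (s a : ℕ) : vl (s + 1) a * (((s + 1 : ℕ) : ℝ) / (a + 1)) = vl s (a + 1) := by
  unfold vl
  have h := Nat.choose_succ_right_eq (s + 1 + a) s
  rw [show s + 1 + a - s = a + 1 by omega] at h
  have h' : (((s + 1 + a).choose (s + 1) : ℕ) : ℝ) * (s + 1) =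
      ((s + 1 + a).choose s : ℕ) * (a + 1) := by exact_mod_cast h
  rw [show s + (a + 1) = s + 1 + a by omega]
  push_cast
  field_simp
  linear_combination h'

theorem kn_eq_vl (s a : ℕ) : kn s (a + 1) = vl (s + 1) a := by
  unfold kn vl
  rw [show s + (a + 1) = s + 1 + a by omega]

theorem vl_pascal (s a : ℕ) : vl (s + 1) (a + 1) = vl s (a + 1) + vl (s + 1) a := by
  unfold vl
  rw [show s + 1 + (a + 1) = (s + 1 + a) + 1 by omega, Nat.choose_succ_succ',
    show s + (a + 1) = s + 1 + a by omega]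
  push_cast
  ring

theorem kn_pascal (s a : ℕ) : kn (s + 1) (a + 1) = kn s (a + 1) + kn (s + 1) a := by
  rw [kn_succ, kn_eq_vl, add_comm]

theorem slope_le (s : ℕ) {a b : ℕ} (h : a ≤ b) : (s : ℝ) / (b + 1) ≤ s / (a + 1) := by
  have : (a : ℝ) ≤ b := by exact_mod_cast h
  gcongr

theorem lp_knot (s a b : ℕ) : vl s b ≤ lp s a (kn s b) := by
  rcases le_total a b with h | h
  · induction b, h using Nat.le_induction with
    | base => simp [lp]
    | succ b h ih =>
      have h1 := slope_le s h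
      have h2 := vl_pos s b
      rw [vl_succ, kn_succ]
      unfold lp at ih ⊢
      nlinarith
  · induction h using Nat.decreasingInduction with
    | self => simp [lp]
    | of_succ b h ih =>
      have h1 := slope_le s h.le
      have h2 := vl_pos s b
      rw [vl_succ, kn_succ] at ih
      unfold lp at ih ⊢
      nlinarith

theorem lp_mid (s a b : ℕ) {l : ℝ} (h0 : 0 ≤ l) (h1 : l ≤ 1) :
    vl s b + l * (vl s b * (s / (b + 1))) ≤ lp s a (kn s b + l * vl s b) := by
  have e1 := lp_knot s a b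
  have e2 := lp_knot s a (b + 1)
  rw [vl_succ, kn_succ] at e2
  unfold lp at e1 e2 ⊢
  nlinarith

theorem lp_mono (s a : ℕ) {r r' : ℝ} (h : r ≤ r') : lp s a r ≤ lp s a r' := by
  unfold lp
  have : (0 : ℝ) ≤ s / (a + 1) := by positivity
  nlinarith

theorem exists_piece (s : ℕ) : ∀ r : ℕ, ∃ c : ℕ, kn s (c + 1) ≤ (r + 1 : ℕ) ∧
    ((r + 1 : ℕ) : ℝ) ≤ kn s (c + 2) := by
  intro r
  induction r with
  | zero =>
    refine ⟨0, by simp [kn_one], ?_⟩
    have := vl_pos s 1
    rw [kn_succ, kn_one]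
    push_cast
    linarith
  | succ r ih =>
    obtain ⟨c, h1, h2⟩ := ih
    by_cases h : ((r + 1 + 1 : ℕ) : ℝ) ≤ kn s (c + 2)
    · refine ⟨c, ?_, h⟩
      push_cast at h1 ⊢
      linarith
    · refine ⟨c + 1, (not_le.1 h).le, ?_⟩
      have := vl_pos s (c + 2)
      rw [kn_succ s (c + 2)]
      push_cast at h2 ⊢
      linarith

/-- `e` is at least the interpolated shadow of `r` -/
def Ub (s : ℕ) (r e : ℝ) : Prop := ∃ a, lp s a r ≤ e

theorem Ub.use {s z : ℕ} {r e : ℝ} (h : Ub s r e) (hz : s ≤ z)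
    (hr : (z.choose (s + 1) : ℝ) ≤ r) : (z.choose s : ℝ) ≤ e := by
  obtain ⟨b, rfl⟩ := Nat.exists_eq_add_of_le hz
  obtain ⟨a, ha⟩ := h
  exact (lp_knot s a b).trans ((lp_mono s a hr).trans ha)

theorem ub_step {s r' r'' : ℕ} {e' e'' e : ℝ} (h1 : r' = 0 ∨ Ub (s + 1) r' e')
    (h2 : r'' = 0 ∨ Ub s r'' e'') (h3 : r'' = 0 → 0 ≤ e'') (h4 : e' + e'' ≤ e)
    (h5 : r'' + e'' ≤ e) : r' + r'' = 0 ∨ Ub (s + 1) ((r' + r'' : ℕ) : ℝ) e := by
  by_cases h0 : r' + r'' = 0
  · exact Or.inl h0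
  right
  rcases h2 with rfl | ⟨a2, h2⟩
  · obtain ⟨a, ha⟩ := h1.resolve_left h0
    exact ⟨a, by have := h3 rfl; simp only [add_zero]; linarith⟩
  obtain ⟨r, hr⟩ : ∃ r, r' + r'' = r + 1 := ⟨r' + r'' - 1, by omega⟩
  obtain ⟨c, c1, c2⟩ := exists_piece (s + 1) r
  rw [← hr] at c1 c2
  have hv := vl_pos (s + 1) (c + 1)
  set l : ℝ := (((r' + r'' : ℕ) : ℝ) - kn (s + 1) (c + 1)) / vl (s + 1) (c + 1) with hl
  have l0 : 0 ≤ l := div_nonneg (by linarith) (by linarith)
  have l1 : l ≤ 1 := by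
    rw [hl, div_le_one (by linarith)]
    rw [kn_succ (s + 1) (c + 1)] at c2
    linarith
  have er : ((r' + r'' : ℕ) : ℝ) = kn (s + 1) (c + 1) + l * vl (s + 1) (c + 1) := by
    rw [hl]
    field_simp
    ring
  have ek : lp (s + 1) (c + 1) ((r' + r'' : ℕ) : ℝ) =
      vl (s + 1) (c + 1) + l * vl s (c + 2) := by
    rw [er, ← vl_top s (c + 1)]
    unfold lp
    ring
  refine ⟨c + 1, ?_⟩
  rw [ek]
  have m1 := lp_mid s a2 (c + 1) l0 l1
  have m2 := vl_succ s (c + 1)
  have m3 := vl_pascal s c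
  have m4 := kn_eq_vl s c
  have m5 := kn_pascal s c
  have m6 : vl (s + 1) (c + 1) + l * vl s (c + 2) = kn s (c + 1) + l * vl s (c + 1) +
      (vl s (c + 1) + l * (vl s (c + 1) * (s / (((c + 1 : ℕ) : ℝ) + 1)))) := by
    rw [m2, m3, m4]
    ring
  have hv1 := vl_pos s (c + 1)
  have hv2 := vl_pos (s + 1) c
  by_cases hb : kn s (c + 1) + l * vl s (c + 1) ≤ r''
  · have := lp_mono s a2 hb
    linarith
  have hb' := (not_le.1 hb).le
  rcases h1 with rfl | ⟨a1, h1⟩
  · exfalso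
    have : 0 ≤ kn (s + 1) c := by unfold kn; positivity
    rw [zero_add] at er
    rw [er, m5, m3] at hb
    apply hb
    nlinarith
  have g0 := lp_mid (s + 1) a1 (c + 1) l0 l1
  rw [vl_top, ← er] at g0
  have g1 := lp_mid (s + 1) a1 c l0 l1
  rw [vl_top] at g1
  have g2 := lp_knot s a2 0
  have g3 := vl_pos s 0
  rw [kn_zero] at g2
  have r0 : (0 : ℝ) ≤ r'' := by positivity
  rw [m5, m3] at er
  push_cast at er g0
  unfold lp at *
  generalize ((s + 1 : ℕ) : ℝ) / (a1 + 1) = p at *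
  generalize (s : ℝ) / (a2 + 1) = q at *
  rcases le_total p q with h | h
  · nlinarith [mul_nonneg r0 (sub_nonneg.2 h)]
  · nlinarith [mul_nonneg (sub_nonneg.2 hb') (sub_nonneg.2 h)]

variable {L : Type} [Lattice L] [Fintype L] [BoundedOrder L]

namespace ML

variable {m : ML L} {φ : L → L → ℝ} {t : ℕ}

theorem GH.all (h0 : m.ρ ⊥ = 0) (ht : t < m.ρ ⊤)
    (hφ : ∀ u σ, m.ρ u = 1 → m.ρ σ = t → (φ u σ = 0 ↔ u ≤ σ)) :
    ∀ (s : ℕ) (B : L), m.ρ B + (s + 1) = t → ∀ (n : ℕ) (R W : Submodule ℝ (L → ℝ)),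
      finrank ℝ W = n → m.GH φ t B R W →
      finrank ℝ R = 0 ∨ Ub s (finrank ℝ R) ((finrank ℝ W : ℝ) - finrank ℝ R) := by
  intro s
  induction s with
  | zero =>
    intro B hB n R W _ h
    refine (h.one h0 ht hB hφ).imp id fun e => ⟨0, ?_⟩
    have : (finrank ℝ R : ℝ) + 1 ≤ finrank ℝ W := by exact_mod_cast e
    simp only [lp, vl]
    simp
    linarith
  | succ s ihs =>
    intro B hB n
    induction n using Nat.strong_induction_on with
    | _ n ih =>
    intro R W hn h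
    rcases h.step h0 ht (by omega) hφ with e | ⟨x, R', W', R'', W'', a1, a2, a3, a4, a5, a6, a7⟩
    · exact Or.inl e
    · have b1 := ih _ (by omega) R' W' rfl a2
      have b2 := ihs x (by omega) _ R'' W'' rfl a3
      rw [← a4]
      have a4' : (finrank ℝ R' : ℝ) + finrank ℝ R'' = finrank ℝ R := by exact_mod_cast a4
      have a5' : (finrank ℝ W' : ℝ) + finrank ℝ W'' = finrank ℝ W := by exact_mod_cast a5
      have a7' : (finrank ℝ R : ℝ) ≤ finrank ℝ W' := by exact_mod_cast a7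
      refine ub_step b1 b2 (fun e => ?_) ?_ ?_
      · rw [e]
        simp
      · push_cast
        linarith
      · push_cast
        linarith

/-- The restriction theorem at a binomial threshold. -/
theorem GH.inc {R W : Submodule ℝ (L → ℝ)} {s z : ℕ} (h : m.GH φ (s + 1) ⊥ R W) (h0 : m.ρ ⊥ = 0)
    (ht : s + 1 < m.ρ ⊤) (hφ : ∀ u σ, m.ρ u = 1 → m.ρ σ = s + 1 → (φ u σ = 0 ↔ u ≤ σ))
    (hz : s + 1 ≤ z) (hR : z.choose (s + 1) ≤ finrank ℝ R) :
    finrank ℝ R + z.choose s ≤ finrank ℝ W := by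
  rcases GH.all h0 ht hφ s ⊥ (by omega) _ R W rfl h with e | e
  · have := Nat.choose_pos hz
    omega
  · have := e.use (z := z) (by omega) (by exact_mod_cast hR)
    have h2 : ((finrank ℝ R + z.choose s : ℕ) : ℝ) ≤ finrank ℝ W := by
      push_cast
      linarith
    exact_mod_cast h2

end ML

end Pool.Agent.Lib.MP_c8fb4d_co
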