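import Pool.Agent.Lib.MP_c8fb4d_co.AllFin

namespace Pool.Agent.Lib.MP_c8fb4d_co.AllPolytopes

open Pool.Agent.Lib.MP_c8fb4d_co

/-- The generalized upper bound theorem for all convex polytopes. -/
theorem result (d : ℕ) (hd : 2 ≤ d) (S : Finset (EuclideanSpace ℝ (Fin d)))
    (hS : affineSpan ℝ (S : Set (EuclideanSpace ℝ (Fin d))) = ⊤) (n : ℕ) (hn : d + 1 ≤ n)
    (h : faceNumber (cyclicPolytope d n) (d - 1) ≤
      faceNumber (convexHull ℝ (S : Set (EuclideanSpace ℝ (Fin d)))) (d - 1))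
    (k : ℕ) (hk : k ≤ d - 1) :
    faceNumber (cyclicPolytope d n) k ≤
      faceNumber (convexHull ℝ (S : Set (EuclideanSpace ℝ (Fin d)))) k := by
  classical
  have hr : (S : Set (EuclideanSpace ℝ (Fin d))) = Set.range (Subtype.val : S → _) := by simp
  have e : ∀ k, faceNumber (convexHull ℝ (S : Set (EuclideanSpace ℝ (Fin d)))) k =
      (faceML (hom (Subtype.val : S → _))).f ⊥ ⊤ (k + 1) := by
    intro k
    rw [← faceNumber_eq, ← hr]
  have e' : ∀ k, faceNumber (cyclicPolytope d n) k = (faceML (hom (cyc d n))).f ⊥ ⊤ (k + 1) :=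
    faceNumber_eq (cyc d n)
  have hne : (Finset.univ : Finset S).Nonempty := by
    obtain ⟨x, hx⟩ := AffineSubspace.nonempty_of_affineSpan_eq_top ℝ _ _ hS
    exact ⟨⟨x, hx⟩, Finset.mem_univ _⟩
  have ht : frk (hom (Subtype.val : S → _)) ⊤ = d + 1 := by
    change rk _ Finset.univ = d + 1
    rw [rk_hom _ hne, Finset.coe_univ, Set.image_univ, ← hr,
      AffineSubspace.vectorSpan_eq_top_of_affineSpan_eq_top ℝ _ _ hS, finrank_top,
      finrank_euclideanSpace_fin]
  rw [e, e'] at h ⊢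
  rw [show d - 1 + 1 = d by omega] at h
  exact compare_all hd _ ht hn h (k + 1) (by omega) (by omega)

end Pool.Agent.Lib.MP_c8fb4d_co.AllPolytopes
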