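import Pool.Agent.Lib.MP_c8fb4d_co.Morse

/-!
Basic combinatorics of Eulerian lattices.
-/

namespace Pool.Agent.Lib.MP_c8fb4d_co

open Finset
open scoped Classical

set_option linter.unusedSectionVars false

variable {L : Type} [Lattice L] [Fintype L]

namespace ML

variable (m : ML L)

/-- Elements of rank `k` in the interval from `x` to `y`. -/
noncomputable def I (x y : L) (k : ℕ) : Finset L :=
  univ.filter fun z => x ≤ z ∧ z ≤ y ∧ m.ρ z = k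

/-- Number of elements of rank `k` in the interval from `x` to `y`. -/
noncomputable def f (x y : L) (k : ℕ) : ℕ := (m.I x y k).card

variable {m}

theorem mem_I {x y z : L} {k : ℕ} : z ∈ m.I x y k ↔ x ≤ z ∧ z ≤ y ∧ m.ρ z = k := by
  simp [I]

variable (m)

theorem ρ_le {x y : L} (h : x ≤ y) : m.ρ x ≤ m.ρ y := by
  rcases h.lt_or_eq with h | h
  · exact (m.mono _ _ h).le
  · rw [h]

theorem eq_of_ρ {x y : L} (h : x ≤ y) (h' : m.ρ y ≤ m.ρ x) : x = y := by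
  rcases h.lt_or_eq with h | h
  · have := m.mono _ _ h; omega
  · exact h

theorem lt_of_ρ {x y : L} (h : x ≤ y) (h' : m.ρ x < m.ρ y) : x < y :=
  lt_of_le_of_ne h fun e => by rw [e] at h'; omega

theorem not_le_of_ρ {x y : L} (h' : m.ρ x < m.ρ y) : ¬ y ≤ x := fun h => by
  have := m.ρ_le h; omega

theorem not_le_of_ne {x y : L} (h' : m.ρ x = m.ρ y) (hne : x ≠ y) : ¬ x ≤ y := fun h =>
  hne (m.eq_of_ρ h h'.ge)

theorem ρ_lt_sup {x y : L} (h : ¬ y ≤ x) : m.ρ x < m.ρ (x ⊔ y) :=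
  m.mono _ _ (left_lt_sup.2 h)

theorem ρ_inf_lt {x y : L} (h : ¬ x ≤ y) : m.ρ (x ⊓ y) < m.ρ x :=
  m.mono _ _ (inf_lt_left.2 h)

theorem exists_rank {x : L} {k : ℕ} (hk : m.ρ x ≤ k) : ∀ (n : ℕ) (y : L), x ≤ y → m.ρ y = k + n →
    ∃ z, x ≤ z ∧ z ≤ y ∧ m.ρ z = k := by
  intro n
  induction n with
  | zero => intro y h1 h2; exact ⟨y, h1, le_rfl, h2⟩
  | succ n ih =>
    intro y h1 h2
    obtain ⟨z, a, b, c⟩ := m.co x y (m.lt_of_ρ h1 (by omega))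
    obtain ⟨w, d, e, g⟩ := ih z a (by omega)
    exact ⟨w, d, e.trans b, g⟩

theorem exists_rank' {x y : L} {k : ℕ} (h : x ≤ y) (h1 : m.ρ x ≤ k) (h2 : k ≤ m.ρ y) :
    ∃ z, x ≤ z ∧ z ≤ y ∧ m.ρ z = k :=
  m.exists_rank h1 (m.ρ y - k) y h (by omega)

theorem f_lo {x y : L} {k : ℕ} (h : k < m.ρ x) : m.f x y k = 0 := by
  rw [f, card_eq_zero, eq_empty_iff_forall_notMem]
  intro z hz
  obtain ⟨a, -, c⟩ := mem_I.1 hz
  have := m.ρ_le a
  omega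

theorem f_bot {x y : L} {k : ℕ} (h : x ≤ y) (hk : m.ρ x = k) : m.f x y k = 1 := by
  rw [f, card_eq_one]
  refine ⟨x, eq_singleton_iff_unique_mem.2 ⟨mem_I.2 ⟨le_rfl, h, hk⟩, fun z hz => ?_⟩⟩
  obtain ⟨a, -, c⟩ := mem_I.1 hz
  exact (m.eq_of_ρ a (by omega)).symm

theorem f_top {x y : L} {k : ℕ} (h : x ≤ y) (hk : m.ρ y = k) : m.f x y k = 1 := by
  rw [f, card_eq_one]
  refine ⟨y, eq_singleton_iff_unique_mem.2 ⟨mem_I.2 ⟨h, le_rfl, hk⟩, fun z hz => ?_⟩⟩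
  obtain ⟨-, b, c⟩ := mem_I.1 hz
  exact m.eq_of_ρ b (by omega)

theorem euler_rank {x y : L} (h : x < y) :
    ∑ k ∈ range (m.ρ y + 1 - m.ρ x), (-1 : ℤ) ^ k * m.f x y (m.ρ x + k) = 0 := by
  have h1 := m.euler h
  rw [← sum_fiberwise_of_maps_to (t := range (m.ρ y + 1 - m.ρ x)) (g := fun z => m.ρ z - m.ρ x)
    (by
      intro z hz
      obtain ⟨a, b⟩ := (mem_filter.1 hz).2
      have := m.ρ_le a
      have := m.ρ_le b
      rw [mem_range]; omega)] at h1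
  have h2 : ∀ k ∈ range (m.ρ y + 1 - m.ρ x),
      ∑ z ∈ (univ.filter fun z => x ≤ z ∧ z ≤ y).filter (fun z => m.ρ z - m.ρ x = k),
        (-1 : ℤ) ^ m.ρ z = (-1) ^ m.ρ x * ((-1) ^ k * m.f x y (m.ρ x + k)) := by
    intro k _
    have : (univ.filter fun z => x ≤ z ∧ z ≤ y).filter (fun z => m.ρ z - m.ρ x = k) =
        m.I x y (m.ρ x + k) := by
      ext z
      simp only [mem_filter, mem_univ, true_and, mem_I, and_assoc]
      refine and_congr_right fun a => and_congr_right fun _ => ?_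
      have := m.ρ_le a
      omega
    rw [this, sum_congr rfl (g := fun _ => (-1 : ℤ) ^ (m.ρ x + k))
      (fun z hz => by rw [(mem_I.1 hz).2.2]), sum_const, f, pow_add, nsmul_eq_mul]
    ring
  rw [sum_congr rfl h2, ← mul_sum] at h1
  exact (mul_eq_zero.1 h1).resolve_left (pow_ne_zero _ (by norm_num))

theorem diamond {x y : L} {k : ℕ} (h : x ≤ y) (hx : m.ρ x + 1 = k) (hy : m.ρ y = k + 1) :
    m.f x y k = 2 := by
  have h1 := m.euler_rank (m.lt_of_ρ h (by omega))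
  rw [show m.ρ y + 1 - m.ρ x = 3 by omega] at h1
  simp only [sum_range_succ, sum_range_zero, add_zero] at h1
  rw [m.f_bot h rfl, m.f_top h (by omega : m.ρ y = m.ρ x + 2), hx] at h1
  norm_num at h1
  omega

theorem euler3 {x y : L} {k : ℕ} (h : x ≤ y) (hx : m.ρ x = k) (hy : m.ρ y = k + 3) :
    m.f x y (k + 1) = m.f x y (k + 2) := by
  have h1 := m.euler_rank (m.lt_of_ρ h (by omega))
  rw [show m.ρ y + 1 - m.ρ x = 4 by omega] at h1
  simp only [sum_range_succ, sum_range_zero, add_zero] at h1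
  rw [m.f_bot h rfl, m.f_top h (by omega : m.ρ y = m.ρ x + 3), hx] at h1
  norm_num at h1
  omega

theorem euler4 {x y : L} {k : ℕ} (h : x ≤ y) (hx : m.ρ x = k) (hy : m.ρ y = k + 4) :
    m.f x y (k + 1) + m.f x y (k + 3) = m.f x y (k + 2) + 2 := by
  have h1 := m.euler_rank (m.lt_of_ρ h (by omega))
  rw [show m.ρ y + 1 - m.ρ x = 5 by omega] at h1
  simp only [sum_range_succ, sum_range_zero, add_zero] at h1
  rw [m.f_bot h rfl, m.f_top h (by omega : m.ρ y = m.ρ x + 4), hx] at h1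
  norm_num at h1
  omega

theorem euler5 {x y : L} {k : ℕ} (h : x ≤ y) (hx : m.ρ x = k) (hy : m.ρ y = k + 5) :
    m.f x y (k + 1) + m.f x y (k + 3) = m.f x y (k + 2) + m.f x y (k + 4) := by
  have h1 := m.euler_rank (m.lt_of_ρ h (by omega))
  rw [show m.ρ y + 1 - m.ρ x = 6 by omega] at h1
  simp only [sum_range_succ, sum_range_zero, add_zero] at h1
  rw [m.f_bot h rfl, m.f_top h (by omega : m.ρ y = m.ρ x + 5), hx] at h1
  norm_num at h1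
  omega

theorem euler6 {x y : L} {k : ℕ} (h : x ≤ y) (hx : m.ρ x = k) (hy : m.ρ y = k + 6) :
    m.f x y (k + 1) + m.f x y (k + 3) + m.f x y (k + 5) =
      m.f x y (k + 2) + m.f x y (k + 4) + 2 := by
  have h1 := m.euler_rank (m.lt_of_ρ h (by omega))
  rw [show m.ρ y + 1 - m.ρ x = 7 by omega] at h1
  simp only [sum_range_succ, sum_range_zero, add_zero] at h1
  rw [m.f_bot h rfl, m.f_top h (by omega : m.ρ y = m.ρ x + 6), hx] at h1
  norm_num at h1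
  omega

/-- In an interval of length two, every middle element has exactly one partner. -/
theorem other {x y z : L} (h1 : x ≤ z) (h2 : z ≤ y) (hz : m.ρ z = m.ρ x + 1)
    (hy : m.ρ y = m.ρ x + 2) :
    ∃ w, x ≤ w ∧ w ≤ y ∧ m.ρ w = m.ρ x + 1 ∧ w ≠ z ∧
      ∀ u, x ≤ u → u ≤ y → m.ρ u = m.ρ x + 1 → u = z ∨ u = w := by
  have h := m.diamond (h1.trans h2) rfl hy
  obtain ⟨p, q, hpq, e⟩ := card_eq_two.1 h
  have hm : ∀ u, (x ≤ u ∧ u ≤ y ∧ m.ρ u = m.ρ x + 1) ↔ (u = p ∨ u = q) := by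
    intro u
    rw [← mem_I, e]; simp
  rcases (hm z).1 ⟨h1, h2, hz⟩ with rfl | rfl
  · obtain ⟨a, b, c⟩ := (hm q).2 (Or.inr rfl)
    exact ⟨q, a, b, c, hpq.symm, fun u a b c => (hm u).1 ⟨a, b, c⟩⟩
  · obtain ⟨a, b, c⟩ := (hm p).2 (Or.inl rfl)
    exact ⟨p, a, b, c, hpq, fun u a b c => ((hm u).1 ⟨a, b, c⟩).symm⟩

theorem sup_eq_of {z w y : L} (h1 : z ≤ y) (h2 : w ≤ y) (hw : ¬ w ≤ z) (hy : m.ρ y = m.ρ z + 1) :
    z ⊔ w = y :=
  m.eq_of_ρ (sup_le h1 h2) (by have := m.ρ_lt_sup hw; omega)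

theorem inf_eq_of {z w x : L} (h1 : x ≤ z) (h2 : x ≤ w) (hw : ¬ z ≤ w) (hx : m.ρ z = m.ρ x + 1) :
    z ⊓ w = x :=
  (m.eq_of_ρ (le_inf h1 h2) (by have := m.ρ_inf_lt hw; omega)).symm

theorem atomic {x w : L} (hw : x ≤ w) : ∀ (n : ℕ) (y : L), m.ρ y = n → x ≤ y → ¬ y ≤ w →
    ∃ z, x ≤ z ∧ z ≤ y ∧ m.ρ z = m.ρ x + 1 ∧ ¬ z ≤ w := by
  intro n
  induction n using Nat.strong_induction_on with
  | _ n ih =>
  intro y hn h1 h2
  have hlt : m.ρ x < m.ρ y := m.mono _ _ (lt_of_le_of_ne h1 fun e => h2 (e ▸ hw))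
  by_cases h : m.ρ y = m.ρ x + 1
  · exact ⟨y, h1, le_rfl, h, h2⟩
  obtain ⟨t, a1, a2, a3⟩ := m.exists_rank' (k := m.ρ y - 2) h1 (by omega) (by omega)
  obtain ⟨z, b1, b2, b3⟩ := m.exists_rank' (k := m.ρ y - 1) a2 (by omega) (by omega)
  obtain ⟨u, c1, c2, c3, c4, -⟩ := m.other b1 b2 (by omega) (by omega)
  have e := m.sup_eq_of b2 c2 (m.not_le_of_ne (by omega) c4) (by omega)
  by_cases hz : z ≤ w
  · obtain ⟨r, d1, d2, d3, d4⟩ := ih (m.ρ u) (by omega) u rfl (a1.trans c1)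
      (fun hu => h2 (e ▸ sup_le hz hu))
    exact ⟨r, d1, d2.trans c2, d3, d4⟩
  · obtain ⟨r, d1, d2, d3, d4⟩ := ih (m.ρ z) (by omega) z rfl (a1.trans b1) hz
    exact ⟨r, d1, d2.trans b2, d3, d4⟩

theorem atomic' {x y w : L} (hw : x ≤ w) (h1 : x ≤ y) (h2 : ¬ y ≤ w) :
    ∃ z, x ≤ z ∧ z ≤ y ∧ m.ρ z = m.ρ x + 1 ∧ ¬ z ≤ w := m.atomic hw _ y rfl h1 h2

theorem coatomic {y w : L} (hw : w ≤ y) : ∀ (n : ℕ) (x : L), m.ρ y - m.ρ x = n → x ≤ y → ¬ w ≤ x →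
    ∃ z, x ≤ z ∧ z ≤ y ∧ m.ρ z + 1 = m.ρ y ∧ ¬ w ≤ z := by
  intro n
  induction n using Nat.strong_induction_on with
  | _ n ih =>
  intro x hn h1 h2
  have hlt : m.ρ x < m.ρ y := m.mono _ _ (lt_of_le_of_ne h1 fun e => h2 (e ▸ hw))
  by_cases h : m.ρ y = m.ρ x + 1
  · exact ⟨x, le_rfl, h1, h.symm, h2⟩
  obtain ⟨t, a1, a2, a3⟩ := m.exists_rank' (k := m.ρ x + 2) h1 (by omega) (by omega)
  obtain ⟨z, b1, b2, b3⟩ := m.exists_rank' (k := m.ρ x + 1) a1 (by omega) (by omega)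
  obtain ⟨u, c1, c2, c3, c4, -⟩ := m.other b1 b2 b3 a3
  have e := m.inf_eq_of b1 c1 (m.not_le_of_ne (by omega) c4.symm) b3
  by_cases hz : w ≤ z
  · obtain ⟨r, d1, d2, d3, d4⟩ := ih (m.ρ y - m.ρ u) (by omega) u rfl (c2.trans a2)
      (fun hu => h2 (e ▸ le_inf hz hu))
    exact ⟨r, c1.trans d1, d2, d3, d4⟩
  · obtain ⟨r, d1, d2, d3, d4⟩ := ih (m.ρ y - m.ρ z) (by omega) z rfl (b2.trans a2) hz
    exact ⟨r, b1.trans d1, d2, d3, d4⟩

theorem coatomic' {x y w : L} (hw : w ≤ y) (h1 : x ≤ y) (h2 : ¬ w ≤ x) :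
    ∃ z, x ≤ z ∧ z ≤ y ∧ m.ρ z + 1 = m.ρ y ∧ ¬ w ≤ z := m.coatomic hw _ x rfl h1 h2

/-- Enlarging the top of an interval adds an atom. -/
theorem atoms_lt {x z y : L} {k : ℕ} (hk : m.ρ x + 1 = k) (h1 : x ≤ z) (hy : x ≤ y)
    (h2 : ¬ y ≤ z) : m.f x (y ⊓ z) k < m.f x y k := by
  obtain ⟨w, a, b, c, d⟩ := m.atomic' h1 hy h2
  apply card_lt_card
  refine ⟨fun u hu => ?_, fun h => d ?_⟩
  · obtain ⟨p, q, r⟩ := mem_I.1 hu
    exact mem_I.2 ⟨p, q.trans inf_le_left, r⟩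
  · exact (mem_I.1 (h (mem_I.2 ⟨a, b, by omega⟩))).2.1.trans inf_le_right

theorem coatoms_lt {x z y : L} {k : ℕ} (hk : k + 1 = m.ρ y) (h1 : z ≤ y) (hx : x ≤ y)
    (h2 : ¬ z ≤ x) : m.f (x ⊔ z) y k < m.f x y k := by
  obtain ⟨w, a, b, c, d⟩ := m.coatomic' h1 hx h2
  apply card_lt_card
  refine ⟨fun u hu => ?_, fun h => d ?_⟩
  · obtain ⟨p, q, r⟩ := mem_I.1 hu
    exact mem_I.2 ⟨le_sup_left.trans p, q, r⟩
  · exact le_sup_right.trans (mem_I.1 (h (mem_I.2 ⟨a, b, by omega⟩))).1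

theorem atoms_ge {x : L} {k : ℕ} (hk : m.ρ x + 1 = k) : ∀ (n : ℕ) (y : L), x ≤ y →
    m.ρ y = m.ρ x + n → n ≤ m.f x y k := by
  intro n
  induction n with
  | zero => intro _ _ _; exact Nat.zero_le _
  | succ n ih =>
    intro y h1 h2
    obtain ⟨z, a, b, c⟩ := m.exists_rank' (k := m.ρ x + n) h1 (by omega) (by omega)
    have h3 := ih z a c
    have h4 := m.atoms_lt hk a h1 (m.not_le_of_ρ (by omega))
    rw [inf_eq_right.2 b] at h4
    omega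

theorem coatoms_ge {y : L} {k : ℕ} (hk : k + 1 = m.ρ y) : ∀ (n : ℕ) (x : L), x ≤ y →
    m.ρ y = m.ρ x + n → n ≤ m.f x y k := by
  intro n
  induction n with
  | zero => intro _ _ _; exact Nat.zero_le _
  | succ n ih =>
    intro x h1 h2
    obtain ⟨z, a, b, c⟩ := m.exists_rank' (k := m.ρ x + 1) h1 (by omega) (by omega)
    have h3 := ih z b (by omega)
    have h4 := m.coatoms_lt hk b h1 (m.not_le_of_ρ (by omega))
    rw [sup_eq_right.2 a] at h4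
    omega

/-- Double counting of comparable pairs. -/
theorem double (s t : Finset L) :
    ∑ z ∈ s, (t.filter fun w => z ≤ w).card = ∑ w ∈ t, (s.filter fun z => z ≤ w).card := by
  simp only [card_filter]
  exact sum_comm

theorem double_f (x y : L) (k l : ℕ) :
    ∑ z ∈ m.I x y k, m.f z y l = ∑ w ∈ m.I x y l, m.f x w k := by
  have := double (m.I x y k) (m.I x y l)
  refine (sum_congr rfl fun z hz => ?_).trans (this.trans (sum_congr rfl fun w hw => ?_))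
  · unfold f
    congr 1
    ext w
    simp only [mem_filter, mem_I]
    exact ⟨fun h => ⟨⟨(mem_I.1 hz).1.trans h.1, h.2⟩, h.1⟩, fun h => ⟨h.2, h.1.2⟩⟩
  · unfold f
    congr 1
    ext z
    simp only [mem_filter, mem_I]
    exact ⟨fun h => ⟨h.1.1, h.2, h.1.2.2⟩,
      fun h => ⟨⟨h.1, h.2.1.trans (mem_I.1 hw).2.1, h.2.2⟩, h.2.1⟩⟩

end ML

end Pool.Agent.Lib.MP_c8fb4d_co
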