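import Mathlib

/-!
Graded lattices with Morse functions on coatoms; the Euler relation.
-/

namespace Pool.Agent.Lib.MP_c8fb4d_co

open Finset
open scoped Classical

variable {L : Type} [Lattice L]

/-- `F` is a facet of `H`. -/
def Cv (ρ : L → ℕ) (F H : L) : Prop := F ≤ H ∧ ρ F + 1 = ρ H

/-- `φ` is an injective function on the facets of `H` whose local behaviour at each facet is given by
a realizable sign pattern, and local extrema are global extrema. -/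
def Good (ρ : L → ℕ) (Re : L → (L → Prop) → Prop) (H : L) (φ : L → ℝ) : Prop :=
  (∀ F F', Cv ρ F H → Cv ρ F' H → φ F = φ F' → F = F') ∧
  ∀ F, Cv ρ F H → ∃ P, Re F P ∧ ∀ G, G ≤ F →
    ((∀ R, Cv ρ R F → G ≤ R → P R) ↔ (∀ F', Cv ρ F' H → G ≤ F' → φ F ≤ φ F')) ∧
    ((∀ R, Cv ρ R F → G ≤ R → ¬ P R) ↔ (∀ F', Cv ρ F' H → G ≤ F' → φ F' ≤ φ F))

/-- A ranked lattice with enough Morse functions. -/
structure ML (L : Type) [Lattice L] where
  ρ : L → ℕ
  mono : ∀ x y, x < y → ρ x < ρ y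
  co : ∀ x y, x < y → ∃ z, x ≤ z ∧ Cv ρ z y
  Re : L → (L → Prop) → Prop
  re_true : ∀ H, Re H fun _ => True
  refine : ∀ H P, Re H P → ∃ φ, Good ρ Re H φ ∧ ∀ F, Cv ρ F H → (P F ↔ 0 < φ F)

variable [Fintype L]

theorem ML.eulerP (m : ML L) : ∀ (n : ℕ) (H : L), m.ρ H = n → ∀ G, G ≤ H → ∀ P, m.Re H P →
    ∑ K ∈ univ.filter (fun K => G ≤ K ∧ K ≤ H ∧ ∀ F, Cv m.ρ F H → K ≤ F → P F),
      (-1 : ℤ) ^ m.ρ K = if ∀ F, Cv m.ρ F H → G ≤ F → ¬ P F then (-1) ^ m.ρ H else 0 := by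
  intro n
  induction n using Nat.strong_induction_on with
  | _ n ih =>
  intro H hH G hG P hP
  obtain ⟨φ, ⟨hinj, hgood⟩, hφ⟩ := m.refine H P hP
  set S := univ.filter (fun K => G ≤ K ∧ K ≤ H ∧ ∀ F, Cv m.ρ F H → K ≤ F → P F) with hS
  have hnot : ∀ F, Cv m.ρ F H → ¬ H ≤ F := by
    intro F hF h
    have : F = H := le_antisymm hF.1 h
    have := hF.2
    rw [‹F = H›] at this
    omega
  have hHS : H ∈ S := by
    simp only [hS, mem_filter, mem_univ, true_and, le_refl]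
    exact ⟨hG, fun F hF h => absurd h (hnot F hF)⟩
  set T := univ.filter (fun F => Cv m.ρ F H ∧ G ≤ F ∧ P F) with hT
  set SF : L → Finset L := fun F => univ.filter
    (fun K => G ≤ K ∧ K ≤ F ∧ ∀ F', Cv m.ρ F' H → K ≤ F' → φ F ≤ φ F') with hSF
  have hsplit : S.erase H = T.biUnion SF := by
    ext K
    simp only [hS, hT, hSF, mem_erase, mem_filter, mem_univ, true_and, mem_biUnion]
    constructor
    · rintro ⟨h1, h2, h3, h4⟩
      obtain ⟨z, hz, hz'⟩ := m.co K H (lt_of_le_of_ne h3 h1)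
      obtain ⟨F, hF, hmin⟩ := exists_min_image (univ.filter fun F => Cv m.ρ F H ∧ K ≤ F) φ
        ⟨z, by simp [hz, hz']⟩
      simp only [mem_filter, mem_univ, true_and] at hF hmin
      exact ⟨F, ⟨hF.1, h2.trans hF.2, h4 F hF.1 hF.2⟩, h2, hF.2, fun F' a b => hmin F' ⟨a, b⟩⟩
    · rintro ⟨F, ⟨h1, h2, h3⟩, h4, h5, h6⟩
      refine ⟨fun e => hnot F h1 (e ▸ h5), h4, h5.trans h1.1, fun F' a b => ?_⟩
      exact (hφ F' a).2 (lt_of_lt_of_le ((hφ F h1).1 h3) (h6 F' a b))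
  have hdisj : (T : Set L).PairwiseDisjoint SF := by
    intro F hF F' hF' hne
    simp only [hT, coe_filter, mem_univ, true_and, Set.mem_ofPred_eq] at hF hF'
    rw [Function.onFun, disjoint_left]
    intro K h1 h2
    simp only [hSF, mem_filter, mem_univ, true_and] at h1 h2
    exact hne (hinj F F' hF.1 hF'.1 (le_antisymm (h1.2.2 F' hF'.1 h2.2.1) (h2.2.2 F hF.1 h1.2.1)))
  have hinner : ∀ F ∈ T, ∑ K ∈ SF F, (-1 : ℤ) ^ m.ρ K =
      if ∀ F', Cv m.ρ F' H → G ≤ F' → φ F' ≤ φ F then -(-1) ^ m.ρ H else 0 := by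
    intro F hF
    simp only [hT, mem_filter, mem_univ, true_and] at hF
    obtain ⟨Q, hQ, hloc⟩ := hgood F hF.1
    have h1 := ih (m.ρ F) (by have := hF.1.2; omega) F rfl G hF.2.1 Q hQ
    have h2 : SF F = univ.filter
        (fun K => G ≤ K ∧ K ≤ F ∧ ∀ R, Cv m.ρ R F → K ≤ R → Q R) := by
      ext K
      simp only [hSF, mem_filter, mem_univ, true_and]
      refine and_congr_right fun _ => and_congr_right fun hK => (hloc K hK).1.symm
    rw [h2, h1, ← hF.1.2, pow_succ]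
    simp only [(hloc G hF.2.1).2, mul_neg, mul_one, neg_neg]
  rw [← add_sum_erase S _ hHS, hsplit, sum_biUnion hdisj, sum_congr rfl hinner]
  split_ifs with hc
  · have : T = ∅ := by
      rw [hT, filter_eq_empty_iff]
      rintro F - ⟨h1, h2, h3⟩
      exact hc F h1 h2 h3
    simp [this]
  · push Not at hc
    obtain ⟨F0, a0, b0, c0⟩ := hc
    obtain ⟨F, hF, hmax⟩ := exists_max_image (univ.filter fun F => Cv m.ρ F H ∧ G ≤ F) φ
      ⟨F0, by simp [a0, b0]⟩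
    simp only [mem_filter, mem_univ, true_and] at hF hmax
    have hFT : F ∈ T := by
      simp only [hT, mem_filter, mem_univ, true_and]
      exact ⟨hF.1, hF.2, (hφ F hF.1).2 (lt_of_lt_of_le ((hφ F0 a0).1 c0) (hmax F0 ⟨a0, b0⟩))⟩
    rw [sum_eq_single_of_mem F hFT]
    · rw [if_pos (fun F' a b => hmax F' ⟨a, b⟩)]; ring
    · intro F' hF' hne
      simp only [hT, mem_filter, mem_univ, true_and] at hF'
      rw [if_neg]
      intro h
      exact hne (hinj F' F hF'.1 hF.1 (le_antisymm (hmax F' ⟨hF'.1, hF'.2.1⟩) (h F hF.1 hF.2)))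

theorem ML.euler (m : ML L) {x y : L} (h : x < y) :
    ∑ z ∈ univ.filter (fun z => x ≤ z ∧ z ≤ y), (-1 : ℤ) ^ m.ρ z = 0 := by
  have h1 := m.eulerP _ y rfl x h.le _ (m.re_true y)
  obtain ⟨z, hz, hz'⟩ := m.co x y h
  rw [if_neg (fun hc => hc z hz' hz trivial)] at h1
  simpa using h1

end Pool.Agent.Lib.MP_c8fb4d_co
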