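import Pool.Agent.Lib.MP_c8fb4d_co.Cone
import Pool.Agent.Lib.MP_c8fb4d_co.Morse

/-!
The face lattice of a finite vector family carries Morse functions.
-/

namespace Pool.Agent.Lib.MP_c8fb4d_co

open Module Finset
open scoped Classical

set_option linter.unusedSectionVars false

variable {ι : Type} [Fintype ι] [DecidableEq ι] {E : Type} [AddCommGroup E] [Module ℝ E]
  [FiniteDimensional ℝ E]

/-- The type of faces. -/
def Face (a : ι → E) : Type := {F : Finset ι // IsFace a F}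

variable {a : ι → E}

noncomputable instance : Fintype (Face a) := inferInstanceAs (Fintype {F : Finset ι // IsFace a F})

instance : SemilatticeInf (Face a) :=
  Subtype.semilatticeInf (P := IsFace a) fun _ _ hx hy => hx.inter hy

instance : OrderTop (Face a) where
  top := ⟨univ, isFace_univ⟩
  le_top := fun F => subset_univ F.1

noncomputable instance : Lattice (Face a) :=
  { (inferInstance : SemilatticeInf (Face a)) with
    sup := fun x y => (univ.filter fun z => x ≤ z ∧ y ≤ z).inf id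
    le_sup_left := fun _ _ => Finset.le_inf fun _ hz => (mem_filter.1 hz).2.1
    le_sup_right := fun _ _ => Finset.le_inf fun _ hz => (mem_filter.1 hz).2.2
    sup_le := fun _ _ z h1 h2 => Finset.inf_le (f := id) (mem_filter.2 ⟨mem_univ z, h1, h2⟩) }

omit [FiniteDimensional ℝ E] in
theorem Face.le_iff {F G : Face a} : F ≤ G ↔ F.1 ⊆ G.1 := Iff.rfl

omit [FiniteDimensional ℝ E] in
theorem Face.lt_iff {F G : Face a} : F < G ↔ F.1 ⊂ G.1 := Iff.rfl

/-- Rank of a face. -/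
noncomputable def frk (a : ι → E) (F : Face a) : ℕ := rk a F.1

/-- Realizable sign patterns on the facets of `H`. -/
def FRe (a : ι → E) (H : Face a) (P : Face a → Prop) : Prop :=
  ∃ x ∈ sp a H.1, ∀ F, Cv (frk a) F H → (P F ↔ 0 < cov a F.1 x) ∧ cov a F.1 x ≠ 0

theorem frk_lt {F G : Face a} (h : F < G) : frk a F < frk a G := rk_lt F.2 h

theorem Cv.lt_face {F H : Face a} (h : Cv (frk a) F H) : F < H := by
  refine lt_of_le_of_ne h.1 fun e => ?_
  have := h.2
  rw [e] at this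
  omega

theorem not_le_of_cv {F F' H : Face a} (h : Cv (frk a) F H) (h' : Cv (frk a) F' H) (hne : F ≠ F') :
    ∃ i ∈ F.1, i ∉ F'.1 := by
  by_contra hc
  push Not at hc
  have := frk_lt (lt_of_le_of_ne (Face.le_iff.2 hc) hne)
  have := h.2
  have := h'.2
  omega

theorem good_of {H : Face a} {x x0 : E} (hx : x ∈ sp a H.1) (hx0 : x0 ∈ sp a H.1)
    (h0 : ∀ F, Cv (frk a) F H → 0 < cov a F.1 x0)
    (hinj : ∀ F F', Cv (frk a) F H → Cv (frk a) F' H →
      cov a F.1 x / cov a F.1 x0 = cov a F'.1 x / cov a F'.1 x0 → F = F') :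
    Good (frk a) (FRe a) H fun F => cov a F.1 x / cov a F.1 x0 := by
  refine ⟨hinj, fun F hF => ?_⟩
  set φ : Face a → ℝ := fun F => cov a F.1 x / cov a F.1 x0 with hφ
  set w : E := x - φ F • x0 with hw
  have hval : ∀ F', Cv (frk a) F' H → cov a F'.1 w = (φ F' - φ F) * cov a F'.1 x0 := by
    intro F' hF'
    have := (h0 F' hF').ne'
    simp only [hw, map_sub, map_smul, smul_eq_mul, sub_mul, hφ]
    rw [div_mul_cancel₀ _ this]
  have hwF : w ∈ sp a F.1 :=
    mem_sp_of_cov F.2 hF.1 hF.2 ((sp a H.1).sub_mem hx ((sp a H.1).smul_mem _ hx0))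
      (by rw [hval F hF]; simp)
  have hnb : ∀ R, Cv (frk a) R F → ∃ F', Cv (frk a) F' H ∧ R ≤ F' ∧ φ F' ≠ φ F ∧
      ∃ c : ℝ, 0 < c ∧ cov a R.1 w = c * (φ F' - φ F) := by
    intro R hR
    obtain ⟨i, hi, hi'⟩ := exists_of_ssubset hR.lt_face
    obtain ⟨F', h1, h2, h3, h4, h5⟩ := exists_facet H.2 R.2 (hR.1.trans hF.1) (hF.1 hi) hi'
    have hF' : Cv (frk a) (⟨F', h1⟩ : Face a) H := ⟨h2, h3⟩
    refine ⟨⟨F', h1⟩, hF', h4, fun e => ?_, ?_⟩
    · have := hinj _ _ hF' hF e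
      rw [← this] at hi
      exact h5 hi
    · have e1 := prop_cov R.2 hR.1 hR.2 hi hi' (y := cov a F')
        (fun j hj => (cov_eq_zero h1 j).1 (h4 hj)) hwF
      have p1 := cov_pos h1 h5
      have p2 := cov_pos R.2 hi'
      have p3 := h0 _ hF'
      have e2 := hval _ hF'
      refine ⟨cov a F' x0 * cov a R.1 (a i) / cov a F' (a i), by positivity, ?_⟩
      change cov a F' w = _ * cov a F' x0 at e2
      rw [e2] at e1
      field_simp
      linarith
  refine ⟨fun R => 0 < cov a R.1 w, ⟨w, hwF, fun R hR => ⟨Iff.rfl, ?_⟩⟩, fun G hG => ⟨?_, ?_⟩⟩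
  · obtain ⟨F', -, -, h3, c, hc, h4⟩ := hnb R hR
    rw [h4]
    exact mul_ne_zero hc.ne' (sub_ne_zero.2 h3)
  · constructor
    · intro h F' hF' hGF'
      by_contra hlt
      push Not at hlt
      have p : 0 < cov a F'.1 (-w) := by
        rw [map_neg, hval F' hF']
        have := h0 F' hF'
        nlinarith
      obtain ⟨R, h1, h2, h3, h4, h5⟩ := decomp' F.2 ((sp a F.1).neg_mem hwF) F'.2 p
      have := h ⟨R, h1⟩ ⟨h2, h3⟩ (fun j hj => h4 (mem_inter.2 ⟨hG hj, hGF' hj⟩))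
      rw [map_neg] at h5
      change 0 < cov a R w at this
      linarith
    · intro h R hR hGR
      obtain ⟨F', h1, h2, h3, c, hc, h4⟩ := hnb R hR
      rw [h4]
      exact mul_pos hc (sub_pos.2 (lt_of_le_of_ne (h F' h1 (hGR.trans h2)) h3.symm))
  · constructor
    · intro h F' hF' hGF'
      by_contra hlt
      push Not at hlt
      have p : 0 < cov a F'.1 w := by
        rw [hval F' hF']
        have := h0 F' hF'
        nlinarith
      obtain ⟨R, h1, h2, h3, h4, h5⟩ := decomp' F.2 hwF F'.2 p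
      exact h ⟨R, h1⟩ ⟨h2, h3⟩ (fun j hj => h4 (mem_inter.2 ⟨hG hj, hGF' hj⟩)) h5
    · intro h R hR hGR
      obtain ⟨F', h1, h2, h3, c, hc, h4⟩ := hnb R hR
      show ¬ 0 < cov a R.1 w
      rw [h4, not_lt]
      exact mul_nonpos_of_nonneg_of_nonpos hc.le (sub_nonpos.2 (h F' h1 (hGR.trans h2)))

theorem perturb {H : Face a} {x x0 : E} (hx : x ∈ sp a H.1)
    (h0 : ∀ F, Cv (frk a) F H → 0 < cov a F.1 x0) :
    ∃ x' ∈ sp a H.1, (∀ F F', Cv (frk a) F H → Cv (frk a) F' H →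
      cov a F.1 x' / cov a F.1 x0 = cov a F'.1 x' / cov a F'.1 x0 → F = F') ∧
      (∀ F F' : Face a, cov a F.1 x / cov a F.1 x0 < cov a F'.1 x / cov a F'.1 x0 →
        cov a F.1 x' / cov a F.1 x0 < cov a F'.1 x' / cov a F'.1 x0) ∧
      ∀ F : Face a, (0 < cov a F.1 x → 0 < cov a F.1 x') ∧ (cov a F.1 x < 0 → cov a F.1 x' < 0) := by
  let l : (Face a × Face a) ⊕ Face a → E →ₗ[ℝ] ℝ := Sum.elim
    (fun p => (cov a p.2.1 x0)⁻¹ • cov a p.2.1 - (cov a p.1.1 x0)⁻¹ • cov a p.1.1) fun F => cov a F.1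
  have hl : ∀ F F' z, l (Sum.inl (F, F')) z =
      cov a F'.1 z / cov a F'.1 x0 - cov a F.1 z / cov a F.1 x0 := by
    intro F F' z
    simp only [l, Sum.elim_inl, LinearMap.sub_apply, LinearMap.smul_apply, smul_eq_mul,
      div_eq_inv_mul]
  obtain ⟨x', h1, h2, h3⟩ := exists_generic (sp a H.1) l univ
    ((univ.filter fun p : Face a × Face a =>
      Cv (frk a) p.1 H ∧ Cv (frk a) p.2 H ∧ p.1 ≠ p.2).image Sum.inl) (by
      intro k hk
      obtain ⟨⟨F, F'⟩, hp, rfl⟩ := mem_image.1 hk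
      obtain ⟨a1, a2, a3⟩ := (mem_filter.1 hp).2
      obtain ⟨i, hi, hi'⟩ := not_le_of_cv a1 a2 a3
      refine ⟨a i, mem_sp (a1.1 hi), ?_⟩
      rw [hl, (cov_eq_zero F.2 i).1 hi, zero_div, sub_zero]
      exact (div_pos (cov_pos F'.2 hi') (h0 _ a2)).ne') hx
  refine ⟨x', h1, fun F F' a1 a2 e => ?_, fun F F' h => ?_, fun F => h3 (Sum.inr F) (mem_univ _)⟩
  · by_contra hne
    apply h2 (Sum.inl (F, F')) (mem_image.2 ⟨(F, F'), mem_filter.2 ⟨mem_univ _, a1, a2, hne⟩, rfl⟩)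
    rw [hl, e, sub_self]
  · have := (h3 (Sum.inl (F, F')) (mem_univ _)).1
    rw [hl, hl] at this
    exact sub_pos.1 (this (sub_pos.2 h))

omit [Fintype ι] [DecidableEq ι] [FiniteDimensional ℝ E] in
theorem sum_mem_sp (H : Finset ι) : ∑ i ∈ H, a i ∈ sp a H :=
  Submodule.sum_mem _ fun _ hi => mem_sp hi

theorem cov_sum_pos {F H : Face a} (h : Cv (frk a) F H) : 0 < cov a F.1 (∑ i ∈ H.1, a i) := by
  obtain ⟨i, hi, hi'⟩ := exists_of_ssubset h.lt_face
  rw [map_sum]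
  exact sum_pos' (fun j _ => cov_nonneg _ j) ⟨i, hi, cov_pos F.2 hi'⟩

/-- The face lattice as a lattice with Morse functions. -/
noncomputable def faceML (a : ι → E) : ML (Face a) where
  ρ := frk a
  mono := fun _ _ h => frk_lt h
  co := fun x y h => by
    obtain ⟨i, hi, hi'⟩ := exists_of_ssubset h
    obtain ⟨F, h1, h2, h3, h4, -⟩ := exists_facet y.2 x.2 h.le hi hi'
    exact ⟨⟨F, h1⟩, h4, h2, h3⟩
  Re := FRe a
  re_true := fun H => ⟨_, sum_mem_sp H.1, fun F hF => ⟨by simpa using cov_sum_pos hF,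
    (cov_sum_pos hF).ne'⟩⟩
  refine := fun H P ⟨x, hx, hP⟩ => by
    obtain ⟨x', h1, h2, -, h3⟩ := perturb hx (fun F (hF : Cv (frk a) F H) => cov_sum_pos hF)
    refine ⟨_, good_of h1 (sum_mem_sp H.1) (fun F hF => cov_sum_pos hF) h2, fun F hF => ?_⟩
    rw [(hP F hF).1, div_pos_iff_of_pos_right (cov_sum_pos hF)]
    refine ⟨(h3 F).1, fun h => ?_⟩
    rcases lt_or_gt_of_ne (hP F hF).2 with h' | h'
    · exact absurd ((h3 F).2 h') h.not_gt
    · exact h'

theorem rk_empty : rk a ∅ = 0 := by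
  have : sp a ∅ = ⊥ := by simp [sp]
  rw [rk, this, finrank_bot]

theorem exists_mem_iff {v : Face a} (hv : frk a v = 1) (hb : IsFace a ∅) :
    ∃ i, ∀ F : Face a, v ≤ F ↔ i ∈ F.1 := by
  have hne : v.1.Nonempty := by
    rw [nonempty_iff_ne_empty]
    intro e
    unfold frk at hv
    rw [e, rk_empty] at hv
    omega
  obtain ⟨i, hi⟩ := hne
  refine ⟨i, fun F => ⟨fun h => h hi, fun h => ?_⟩⟩
  by_contra hc
  have h1 : v ⊓ F < v := inf_lt_left.2 hc
  have h2 : (⟨∅, hb⟩ : Face a) < v ⊓ F :=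
    Face.lt_iff.2 (empty_ssubset.2 ⟨i, mem_inter.2 ⟨hi, h⟩⟩)
  have := frk_lt h1
  have := frk_lt h2
  omega

/-- A line shelling order that starts with the star of `v` and ends with the rest of the star of
`w`. -/
theorem exists_order (hb : IsFace a ∅) {v w : Face a} (hv : frk a v = 1) (hw : frk a w = 1) :
    ∃ φ, Good (frk a) (FRe a) ⊤ φ ∧
      (∀ F F', Cv (frk a) F ⊤ → Cv (frk a) F' ⊤ → v ≤ F → ¬ v ≤ F' → φ F < φ F') ∧
      (∀ F F', Cv (frk a) F ⊤ → Cv (frk a) F' ⊤ → w ≤ F → ¬ v ≤ F → ¬ w ≤ F' → φ F' < φ F) := by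
  obtain ⟨i, hi⟩ := exists_mem_iff hv hb
  obtain ⟨j, hj⟩ := exists_mem_iff hw hb
  obtain ⟨δ, hδ, h1⟩ := exists_small (univ : Finset (Face a × Face a))
    (fun p => cov a p.1.1 (a i) • cov a p.2.1 - cov a p.2.1 (a i) • cov a p.1.1) (a j)
    (∑ i ∈ (⊤ : Face a).1, a i)
  set x0 := a j + δ • ∑ i ∈ (⊤ : Face a).1, a i with hx0
  have h0 : ∀ F, Cv (frk a) F ⊤ → 0 < cov a F.1 x0 := by
    intro F hF
    rw [hx0, map_add, map_smul, smul_eq_mul]
    have := cov_nonneg (a := a) F.1 j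
    have := mul_pos hδ (cov_sum_pos hF)
    linarith
  have hx0m : x0 ∈ sp a (⊤ : Face a).1 :=
    Submodule.add_mem _ (mem_sp (mem_univ j)) (Submodule.smul_mem _ _ (sum_mem_sp _))
  obtain ⟨x', a1, a2, a3, -⟩ := perturb (H := ⊤) (x := a i) (mem_sp (mem_univ i)) h0
  refine ⟨_, good_of a1 hx0m h0 a2, fun F F' hF hF' b1 b2 => a3 F F' ?_,
    fun F F' hF hF' b1 b2 b3 => a3 F' F ?_⟩
  · rw [(cov_eq_zero F.2 i).1 ((hi F).1 b1), zero_div]
    exact div_pos (cov_pos F'.2 fun h => b2 ((hi F').2 h)) (h0 F' hF')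
  · have c1 := (h1 (F, F') (mem_univ _)).1
    simp only [LinearMap.sub_apply, LinearMap.smul_apply, smul_eq_mul] at c1
    rw [(cov_eq_zero F.2 j).1 ((hj F).1 b1), mul_zero, sub_zero] at c1
    have c2 := c1 (mul_pos (cov_pos F.2 fun h => b2 ((hi F).2 h))
      (cov_pos F'.2 fun h => b3 ((hj F').2 h)))
    rw [div_lt_div_iff₀ (h0 F' hF') (h0 F hF)]
    linarith

end Pool.Agent.Lib.MP_c8fb4d_co
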