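import Pool.Agent.Lib.MP_c8fb4d_co.Defs
import Pool.Agent.Lib.MP_c8fb4d_co.Faces
import Pool.Agent.Lib.MP_c8fb4d_co.Eul

/-!
Exposed faces of a polytope correspond to faces of the homogenized vector family.
-/

namespace Pool.Agent.Lib.MP_c8fb4d_co

open Module Finset
open scoped Classical

set_option linter.unusedSectionVars false

section general

variable {ι : Type} [Fintype ι] [DecidableEq ι] {E : Type} [AddCommGroup E] [Module ℝ E]
  [FiniteDimensional ℝ E] {a : ι → E}

noncomputable instance : BoundedOrder (Face a) :=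
  { (inferInstance : OrderTop (Face a)) with
    bot := univ.inf id
    bot_le := fun z => Finset.inf_le (f := id) (mem_univ z) }

theorem frk_bot (hb : IsFace a ∅) : frk a ⊥ = 0 := by
  have h : (⊥ : Face a) ≤ ⟨∅, hb⟩ := bot_le
  have : (⊥ : Face a).1 = ∅ := subset_empty.1 h
  rw [frk, this, rk_empty]

end general

variable {ι : Type} [Fintype ι] [DecidableEq ι] {d : ℕ}

/-- Homogenization of a point family. -/
def hom (p : ι → EuclideanSpace ℝ (Fin d)) (i : ι) : ℝ × EuclideanSpace ℝ (Fin d) := (1, p i)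

variable (p : ι → EuclideanSpace ℝ (Fin d))

theorem hom_empty : IsFace (hom p) ∅ := ⟨LinearMap.fst ℝ _ _, by simp [hom], by simp [hom]⟩

theorem rk_hom {G : Finset ι} (hG : G.Nonempty) :
    rk (hom p) G = finrank ℝ (vectorSpan ℝ (p '' (G : Set ι))) + 1 := by
  obtain ⟨i, hi⟩ := hG
  set W := (vectorSpan ℝ (p '' (G : Set ι))).map
    (LinearMap.inr ℝ ℝ (EuclideanSpace ℝ (Fin d))) with hW
  have h1 : finrank ℝ W = finrank ℝ (vectorSpan ℝ (p '' (G : Set ι))) :=
    (Submodule.equivMapOfInjective _ LinearMap.inr_injective _).finrank_eq.symm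
  have h2 : hom p i ∉ W := by
    rintro ⟨x, -, hx⟩
    simpa [hom] using congrArg Prod.fst hx
  have h3 : sp (hom p) G = W ⊔ Submodule.span ℝ {hom p i} := by
    apply le_antisymm
    · apply Submodule.span_le.2
      rintro _ ⟨j, hj, rfl⟩
      have : hom p j = LinearMap.inr ℝ ℝ _ (p j -ᵥ p i) + hom p i := by simp [hom]
      rw [this]
      exact Submodule.add_mem _ (Submodule.mem_sup_left (Submodule.mem_map_of_mem
        (vsub_mem_vectorSpan ℝ ⟨j, hj, rfl⟩ ⟨i, hi, rfl⟩)))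
        (Submodule.mem_sup_right (Submodule.mem_span_singleton_self _))
    · refine sup_le ?_ (Submodule.span_le.2 (by simpa using mem_sp hi))
      rw [hW, Submodule.map_le_iff_le_comap, vectorSpan_def]
      apply Submodule.span_le.2
      rintro _ ⟨_, ⟨j, hj, rfl⟩, _, ⟨k, hk, rfl⟩, rfl⟩
      have : LinearMap.inr ℝ ℝ _ (p j -ᵥ p k) = hom p j - hom p k := by simp [hom]
      change LinearMap.inr ℝ ℝ _ (p j -ᵥ p k) ∈ sp (hom p) G
      rw [this]
      exact Submodule.sub_mem _ (mem_sp hj) (mem_sp hk)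
  rw [rk, h3, Submodule.finrank_sup_span_singleton h2, h1]

theorem hull_zero {y : ℝ × EuclideanSpace ℝ (Fin d) →ₗ[ℝ] ℝ} {s : Set (EuclideanSpace ℝ (Fin d))}
    (h : ∀ x ∈ s, y (1, x) = 0) {x} (hx : x ∈ convexHull ℝ s) : y (1, x) = 0 := by
  refine convexHull_min (t := {x | y (1, x) = 0}) h ?_ hx
  intro x1 h1 x2 h2 α β _ _ hs
  have : ((1 : ℝ), α • x1 + β • x2) = α • ((1 : ℝ), x1) + β • ((1 : ℝ), x2) := by simp [hs]
  simp only [Set.mem_ofPred_eq] at h1 h2 ⊢
  rw [this, map_add, map_smul, map_smul, h1, h2]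
  simp

theorem hull_face {y : ℝ × EuclideanSpace ℝ (Fin d) →ₗ[ℝ] ℝ} {G : Finset ι}
    (hy : ∀ i, 0 ≤ y (hom p i)) (hG : ∀ i, i ∈ G ↔ y (hom p i) = 0) {x}
    (hx : x ∈ convexHull ℝ (Set.range p)) :
    0 ≤ y (1, x) ∧ (y (1, x) = 0 ↔ x ∈ convexHull ℝ (p '' (G : Set ι))) := by
  have key : 0 ≤ y (1, x) ∧ (y (1, x) = 0 → x ∈ convexHull ℝ (p '' (G : Set ι))) := by
    refine convexHull_min (t := {x | 0 ≤ y (1, x) ∧
      (y (1, x) = 0 → x ∈ convexHull ℝ (p '' (G : Set ι)))}) ?_ ?_ hx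
    · rintro _ ⟨i, rfl⟩
      exact ⟨hy i, fun h => subset_convexHull _ _ ⟨i, (hG i).2 h, rfl⟩⟩
    · intro x1 h1 x2 h2 α β hα hβ hs
      have : ((1 : ℝ), α • x1 + β • x2) = α • ((1 : ℝ), x1) + β • ((1 : ℝ), x2) := by simp [hs]
      simp only [Set.mem_ofPred_eq] at h1 h2 ⊢
      rw [this, map_add, map_smul, map_smul, smul_eq_mul, smul_eq_mul]
      have p1 := mul_nonneg hα h1.1
      have p2 := mul_nonneg hβ h2.1
      refine ⟨by linarith, fun h => ?_⟩
      have q1 : α * y (1, x1) = 0 := by linarith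
      have q2 : β * y (1, x2) = 0 := by linarith
      rcases mul_eq_zero.1 q1 with r1 | r1
      · have : β = 1 := by linarith
        rw [this, one_mul] at q2
        simpa [r1, this] using h2.2 q2
      rcases mul_eq_zero.1 q2 with r2 | r2
      · have : α = 1 := by linarith
        simpa [r2, this] using h1.2 r1
      exact convex_convexHull ℝ _ (h1.2 r1) (h2.2 r2) hα hβ hs
  refine ⟨key.1, key.2, hull_zero ?_⟩
  rintro _ ⟨i, hi, rfl⟩
  exact (hG i).1 hi

theorem exposed_iff {F : Set (EuclideanSpace ℝ (Fin d))} (hF : F.Nonempty) :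
    IsExposed ℝ (convexHull ℝ (Set.range p)) F ↔
      ∃ G : Face (hom p), convexHull ℝ (p '' (G.1 : Set ι)) = F := by
  constructor
  · intro h
    obtain ⟨l, hl⟩ := h hF
    obtain ⟨x0, hx0⟩ := hF
    rw [hl] at hx0
    set y : ℝ × EuclideanSpace ℝ (Fin d) →ₗ[ℝ] ℝ :=
      l x0 • LinearMap.fst ℝ _ _ - l.toLinearMap ∘ₗ LinearMap.snd ℝ _ _ with hy
    have hval : ∀ x, y (1, x) = l x0 - l x := by intro x; simp [hy]
    have h1 : ∀ i, 0 ≤ y (hom p i) := fun i => by
      rw [hom, hval]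
      exact sub_nonneg.2 (hx0.2 _ (subset_convexHull _ _ ⟨i, rfl⟩))
    have h2 : ∀ i, i ∈ (univ.filter fun i => y (hom p i) = 0) ↔ y (hom p i) = 0 := by simp
    refine ⟨⟨_, y, h1, h2⟩, ?_⟩
    rw [hl]
    ext x
    constructor
    · intro hx
      have hx' : x ∈ convexHull ℝ (Set.range p) :=
        convexHull_mono (Set.image_subset_range _ _) hx
      have := (hull_face p h1 h2 hx').2.2 hx
      rw [hval] at this
      exact ⟨hx', fun z hz => by linarith [hx0.2 z hz]⟩
    · rintro ⟨hx, hx'⟩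
      apply (hull_face p h1 h2 hx).2.1
      rw [hval]
      linarith [hx0.2 x hx, hx' x0 hx0.1]
  · rintro ⟨⟨G, y, h1, h2⟩, rfl⟩ -
    obtain ⟨x0, hx0⟩ := hF
    have hsub : convexHull ℝ (p '' (G : Set ι)) ⊆ convexHull ℝ (Set.range p) :=
      convexHull_mono (Set.image_subset_range _ _)
    refine ⟨LinearMap.toContinuousLinearMap (-(y ∘ₗ LinearMap.inr ℝ ℝ _)), ?_⟩
    have hval : ∀ x, LinearMap.toContinuousLinearMap (-(y ∘ₗ LinearMap.inr ℝ ℝ _)) x =
        y (1, 0) - y (1, x) := by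
      intro x
      rw [← map_sub]
      simp [← map_neg]
    ext x
    simp only [Set.mem_ofPred_eq, hval]
    constructor
    · intro hx
      refine ⟨hsub hx, fun z hz => ?_⟩
      linarith [(hull_face p h1 h2 (hsub hx)).2.2 hx, (hull_face p h1 h2 hz).1]
    · rintro ⟨hx, hx'⟩
      apply (hull_face p h1 h2 hx).2.1
      linarith [(hull_face p h1 h2 (hsub hx0)).2.2 hx0, (hull_face p h1 h2 hx).1,
        hx' x0 (hsub hx0)]

theorem hull_inj : Function.Injective
    fun G : Face (hom p) => convexHull ℝ (p '' (G.1 : Set ι)) := by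
  have key : ∀ G G' : Face (hom p), convexHull ℝ (p '' (G.1 : Set ι)) =
      convexHull ℝ (p '' (G'.1 : Set ι)) → G ≤ G' := by
    rintro G ⟨G', y, h1, h2⟩ e i hi
    have h : p i ∈ convexHull ℝ (p '' (G.1 : Set ι)) := subset_convexHull _ _ ⟨i, hi, rfl⟩
    rw [e] at h
    exact (h2 i).2 ((hull_face p h1 h2 (subset_convexHull _ _ ⟨i, rfl⟩)).2.2 h)
  exact fun G G' e => le_antisymm (key _ _ e) (key _ _ e.symm)

theorem vectorSpan_hull (s : Set (EuclideanSpace ℝ (Fin d))) :
    vectorSpan ℝ (convexHull ℝ s) = vectorSpan ℝ s := by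
  rw [← direction_affineSpan, affineSpan_convexHull, direction_affineSpan]

theorem faceNumber_eq (k : ℕ) :
    faceNumber (convexHull ℝ (Set.range p)) k = (faceML (hom p)).f ⊥ ⊤ (k + 1) := by
  rw [ML.f, ← Set.ncard_coe_finset, ← Set.ncard_image_of_injective _ (hull_inj p), faceNumber]
  congr 1
  ext F
  simp only [Set.mem_ofPred_eq, Set.mem_image, mem_coe, ML.mem_I, bot_le, le_top, true_and]
  constructor
  · rintro ⟨h1, h2, h3⟩
    obtain ⟨G, rfl⟩ := (exposed_iff p h2).1 h1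
    refine ⟨G, ?_, rfl⟩
    have : G.1.Nonempty := by simpa using h2
    change rk (hom p) G.1 = k + 1
    rw [rk_hom p this, ← h3, vectorSpan_hull]
  · rintro ⟨G, h, rfl⟩
    change rk (hom p) G.1 = k + 1 at h
    have hne : G.1.Nonempty := by
      rw [nonempty_iff_ne_empty]
      intro e
      rw [e, rk_empty] at h
      omega
    have h2 : (convexHull ℝ (p '' (G.1 : Set ι))).Nonempty := by simpa using hne
    refine ⟨(exposed_iff p h2).2 ⟨G, rfl⟩, h2, ?_⟩
    rw [rk_hom p hne] at h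
    rw [vectorSpan_hull]
    omega

end Pool.Agent.Lib.MP_c8fb4d_co
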