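import Pool.Agent.Lib.MP_c8fb4d_co.AllW
import Pool.Agent.Lib.MP_c8fb4d_co.Bridge

/-!
A generic flag of functionals and the dual weights attached to it.
-/

namespace Pool.Agent.Lib.MP_c8fb4d_co

open Module Finset
open scoped Classical

set_option linter.unusedSectionVars false

variable {ι : Type} [Fintype ι] [DecidableEq ι] {E : Type} [AddCommGroup E] [Module ℝ E]
  [FiniteDimensional ℝ E]

/-- the first `frk H` functionals are coordinates on the span of `H` -/
def Sur (a : ι → E) (y : ℕ → E →ₗ[ℝ] ℝ) (H : Face a) : Prop :=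
  ∀ b : ℕ → ℝ, ∃ x ∈ sp a H.1, ∀ s < frk a H, y s x = b s

/-- the functional attached to a face -/
structure Att (a : ι → E) (y : ℕ → E →ₗ[ℝ] ℝ) (σ : Face a) (lam : E →ₗ[ℝ] ℝ) : Prop where
  eq : ∃ co : ℕ → ℝ, ∀ x, lam x = y (frk a σ) x + ∑ s ∈ range (frk a σ), co s * y s x
  zero : ∀ x ∈ sp a σ.1, lam x = 0
  ne : ∀ i, i ∉ σ.1 → lam (a i) ≠ 0
  gen : ∀ G, σ < G → lam (ip a G) ≠ 0
  supp : ∀ G, dw a σ lam G ≠ 0 ↔ σ ≤ G

variable {a : ι → E}

theorem Sur.inj {y : ℕ → E →ₗ[ℝ] ℝ} {H : Face a} (h : Sur a y H) {x : E} (hx : x ∈ sp a H.1)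
    (h0 : ∀ s < frk a H, y s x = 0) : x = 0 := by
  let f : sp a H.1 →ₗ[ℝ] (Fin (frk a H) → ℝ) :=
    LinearMap.pi fun s => (y s.1).domRestrict (sp a H.1)
  have hs : Function.Surjective f := fun b => by
    obtain ⟨x, hx, hb⟩ := h fun s => if hs : s < frk a H then b ⟨s, hs⟩ else 0
    refine ⟨⟨x, hx⟩, funext fun s => ?_⟩
    have := hb s.1 s.2
    rw [dif_pos s.2] at this
    exact this
  have hi := (LinearMap.injective_iff_surjective_of_finrank_eq_finrank (f := f) (by
    rw [finrank_fin_fun]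
    rfl)).2 hs
  have : (⟨x, hx⟩ : sp a H.1) = 0 := hi (by
    rw [map_zero]
    exact funext fun s => h0 s.1 s.2)
  exact congrArg Subtype.val this

theorem exists_flag (hb : IsFace a ∅) : ∀ T : ℕ, ∃ (y : ℕ → E →ₗ[ℝ] ℝ)
    (lam : Face a → E →ₗ[ℝ] ℝ), (∀ σ, frk a σ < T → Att a y σ (lam σ)) ∧
      ∀ H, frk a H ≤ T → Sur a y H := by
  intro T
  induction T with
  | zero =>
    exact ⟨0, 0, fun σ h => absurd h (Nat.not_lt_zero _), fun H h b =>
      ⟨0, Submodule.zero_mem _, fun s hs => by omega⟩⟩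
  | succ T ih =>
    obtain ⟨y, lam, h1, h2⟩ := ih
    have h3 : ∀ σ : Face a, ∃ x : ℕ → E, frk a σ = T → ∀ s, x s ∈ sp a σ.1 ∧
        ∀ s' < T, y s' (x s) = if s' = s then 1 else 0 := by
      intro σ
      by_cases h : frk a σ = T
      · choose x hx hx' using fun s => h2 σ h.le fun s' => if s' = s then 1 else 0
        exact ⟨x, fun _ s => ⟨hx s, fun s' hs' => hx' s s' (by omega)⟩⟩
      · exact ⟨0, fun e => absurd e h⟩
    choose xx hxx using h3
    let π : Face a → (E →ₗ[ℝ] ℝ) →ₗ[ℝ] (E →ₗ[ℝ] ℝ) := fun σ =>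
      LinearMap.id - ∑ s ∈ range T, (LinearMap.applyₗ (xx σ s)).smulRight (y s)
    have hπ : ∀ σ z x, π σ z x = z x - ∑ s ∈ range T, z (xx σ s) * y s x := by
      intro σ z x
      simp [π, LinearMap.sum_apply]
    have hπ' : ∀ σ z x, π σ z x = z (x - ∑ s ∈ range T, y s x • xx σ s) := by
      intro σ z x
      rw [hπ]
      simp [mul_comm]
    have hy0 : ∀ σ, frk a σ = T → ∀ x, ∀ s' < T,
        y s' (x - ∑ s ∈ range T, y s x • xx σ s) = 0 := by
      intro σ hσ x s' hs'
      rw [map_sub, map_sum, sum_eq_single s']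
      · simp [(hxx σ hσ s').2 s' hs']
      · intro s _ hs
        simp [(hxx σ hσ s).2 s' hs', hs.symm]
      · intro h
        exact absurd (mem_range.2 hs') h
    have hm : ∀ σ, frk a σ = T → ∀ c : ℕ → ℝ, ∑ s ∈ range T, c s • xx σ s ∈ sp a σ.1 :=
      fun σ hσ c => Submodule.sum_mem _ fun s _ => Submodule.smul_mem _ _ (hxx σ hσ s).1
    choose P hP hP0 hP1 using fun σ : Face a => exists_dual_poly σ
    obtain ⟨z, hz⟩ := exists_common (univ.filter fun σ : Face a => frk a σ = T)
      (f := fun σ z => P σ (π σ z)) (fun σ _ => (hP σ).comp (π σ)) (fun σ hσ => by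
        refine ⟨cov a σ.1, ?_⟩
        have : π σ (cov a σ.1) = cov a σ.1 := LinearMap.ext fun x => by
          rw [hπ', map_sub, cov_sp (hm σ (mem_filter.1 hσ).2 _), sub_zero]
        simpa only [this] using hP0 σ)
    have hu : ∀ s < T, Function.update y T z s = y s := fun s hs =>
      Function.update_of_ne hs.ne _ _
    have hA : ∀ σ, frk a σ = T → Att a (Function.update y T z) σ (π σ z) := by
      intro σ hσ
      obtain ⟨g1, g2, g3⟩ := hP1 σ _ (hz σ (mem_filter.2 ⟨mem_univ _, hσ⟩))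
      refine ⟨⟨fun s => -z (xx σ s), fun x => ?_⟩, fun x hx => ?_, g3, g1, g2⟩
      · rw [hπ, hσ, Function.update_self, sub_eq_add_neg, ← sum_neg_distrib]
        refine congrArg _ (sum_congr rfl fun s hs => ?_)
        rw [hu s (mem_range.1 hs)]
        ring
      · rw [hπ', (h2 σ hσ.le).inj (Submodule.sub_mem _ hx (hm σ hσ _))
          (fun s hs => hy0 σ hσ x s (by omega)), map_zero]
    refine ⟨Function.update y T z, fun σ => if frk a σ = T then π σ z else lam σ,
      fun σ hσ => ?_, fun H hH b => ?_⟩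
    · by_cases h : frk a σ = T
      · simp only [if_pos h]
        exact hA σ h
      · simp only [if_neg h]
        have g := h1 σ (by omega)
        obtain ⟨co, hco⟩ := g.eq
        refine ⟨⟨co, fun x => ?_⟩, g.zero, g.ne, g.gen, g.supp⟩
        rw [hco, hu _ (by omega)]
        exact congrArg _ (sum_congr rfl fun s hs => by
          rw [hu s (by have := mem_range.1 hs; omega)])
    · by_cases h : frk a H ≤ T
      · obtain ⟨x, hx, hx'⟩ := h2 H h b
        exact ⟨x, hx, fun s hs => by rw [hu s (by omega), hx' s hs]⟩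
      · obtain ⟨σ, -, b2, b3⟩ := (faceML a).exists_rank' (k := T) (bot_le (a := H))
          (by change frk a ⊥ ≤ T; rw [frk_bot hb]; omega) (by change T ≤ frk a H; omega)
        have b3' : frk a σ = T := b3
        obtain ⟨i, hi, hi'⟩ := exists_of_ssubset
          ((faceML a).lt_of_ρ b2 (by change frk a σ < frk a H; omega))
        have g := (hA σ b3').ne i hi'
        rw [hπ'] at g
        set v := a i - ∑ s ∈ range T, y s (a i) • xx σ s with hv
        set p := ∑ s ∈ range T, b s • xx σ s with hp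
        refine ⟨p + ((b T - z p) / z v) • v, Submodule.add_mem _ (sp_mono b2 (hm σ b3' _))
          (Submodule.smul_mem _ _ (Submodule.sub_mem _ (mem_sp hi) (sp_mono b2 (hm σ b3' _)))),
          fun s hs => ?_⟩
        by_cases c : s = T
        · rw [c, Function.update_self, map_add, map_smul, smul_eq_mul, div_mul_cancel₀ _ g]
          ring
        · have hs' : s < T := by omega
          rw [hu s hs', map_add, map_smul, hv, hy0 σ b3' _ s hs', smul_zero, add_zero, hp,
            map_sum, sum_eq_single s]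
          · simp [(hxx σ b3' s).2 s hs']
          · intro s' _ h'
            simp [(hxx σ b3' s').2 s hs', h'.symm]
          · intro h'
            exact absurd (mem_range.2 hs') h'

/-- The data used in the dimension count. -/
structure DS (a : ι → E) where
  lam : Face a → E →ₗ[ℝ] ℝ
  w : Face a → Face a → ℝ
  sl : Face a → ℝ
  ne : ∀ σ i, lam σ (a i) = 0 ↔ i ∈ σ.1
  supp : ∀ G σ, w G σ ≠ 0 ↔ σ ≤ G
  self : ∀ σ, w σ σ = 1
  rel : ∀ σ G, ∀ x ∈ sp a G.1, dn a G (fun G' => w G' σ) x = lam σ x * w G σ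
  tr : ∀ (t : ℕ) (H : Face a), t < frk a H → ∀ x, ∃ x' ∈ sp a H.1,
    ∀ σ, frk a σ = t → lam σ x' = lam σ x
  one : ∀ (t : ℕ) (H : Face a), t < frk a H → ∃ x ∈ sp a H.1,
    (∀ σ, frk a σ = t → lam σ x = 1) ∧ ∀ τ, frk a τ < t → lam τ x = 0
  two : ∀ (t : ℕ) (H : Face a), t + 1 < frk a H → ∃ x ∈ sp a H.1,
    (∀ σ, frk a σ = t + 1 → lam σ x = sl σ) ∧ ∀ τ, frk a τ = t → lam τ x = 1

theorem exists_ds (hb : IsFace a ∅) : Nonempty (DS a) := by
  obtain ⟨y, lam, h1, h2⟩ := exists_flag hb (frk a ⊤ + 1)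
  have hr : ∀ σ : Face a, frk a σ ≤ frk a ⊤ := fun σ => (faceML a).ρ_le le_top
  have hA : ∀ σ, Att a y σ (lam σ) := fun σ => h1 σ (by have := hr σ; omega)
  have hS : ∀ H, Sur a y H := fun H => h2 H (by have := hr H; omega)
  choose co hco using fun σ => (hA σ).eq
  refine ⟨⟨lam, fun G σ => dw a σ (lam σ) G, fun σ => co σ (frk a σ - 1), fun σ i =>
    ⟨fun h => by_contra fun c => (hA σ).ne i c h, fun h => (hA σ).zero _ (mem_sp h)⟩,
    fun G σ => (hA σ).supp G, fun σ => dw_self, fun σ G x hx => dw_rel (hA σ).zero (hA σ).gen G hx,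
    fun t H ht x => ?_, fun t H ht => ?_, fun t H ht => ?_⟩⟩
  · obtain ⟨x', hx, hx'⟩ := hS H fun s => y s x
    refine ⟨x', hx, fun σ hσ => ?_⟩
    rw [hco, hco, hx' _ (by omega)]
    exact congrArg _ (sum_congr rfl fun s hs => by
      rw [hx' s (by have := mem_range.1 hs; omega)])
  · obtain ⟨x, hx, hx'⟩ := hS H fun s => if s = t then 1 else 0
    refine ⟨x, hx, fun σ hσ => ?_, fun τ hτ => ?_⟩
    · rw [hco, hσ, hx' _ ht, if_pos rfl, sum_eq_zero, add_zero]
      intro s hs
      have := mem_range.1 hs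
      rw [hx' s (by omega), if_neg this.ne, mul_zero]
    · rw [hco, hx' _ (by omega), if_neg hτ.ne, sum_eq_zero, add_zero]
      intro s hs
      have := mem_range.1 hs
      rw [hx' s (by omega), if_neg (by omega), mul_zero]
  · obtain ⟨x, hx, hx'⟩ := hS H fun s => if s = t then 1 else 0
    refine ⟨x, hx, fun σ hσ => ?_, fun τ hτ => ?_⟩
    · rw [hco, hσ, hx' _ ht, if_neg (by omega), zero_add, sum_range_succ, hx' t (by omega),
        if_pos rfl, sum_eq_zero]
      · simp
      intro s hs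
      have := mem_range.1 hs
      rw [hx' s (by omega), if_neg this.ne, mul_zero]
    · rw [hco, hτ, hx' _ (by omega), if_pos rfl, sum_eq_zero, add_zero]
      intro s hs
      have := mem_range.1 hs
      rw [hx' s (by omega), if_neg this.ne, mul_zero]

end Pool.Agent.Lib.MP_c8fb4d_co
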