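import Pool.Agent.Lib.MP_c8fb4d_co.Final

/-!
Hinman's lemma in all ranks, faces as joins of vertices, and polygons against edges.
-/

namespace Pool.Agent.Lib.MP_c8fb4d_co

open Finset
open scoped Classical

set_option linter.unusedSectionVars false

variable {L : Type} [Lattice L] [Fintype L] [BoundedOrder L]

namespace ML

variable (m : ML L)

theorem hinman_all (h0 : m.ρ ⊥ = 0) (i : ℕ) : ∀ (j : ℕ) (F : L) (P : L → Prop),
    m.ρ F = i + j + 1 → m.Re F P →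
    (∃ e, e ≤ F ∧ m.ρ e = i ∧ ∀ R, Cv m.ρ R F → e ≤ R → P R) ∨
      ∃ e, e ≤ F ∧ m.ρ e = j ∧ ∀ R, Cv m.ρ R F → e ≤ R → ¬ P R := by
  intro j
  induction j with
  | zero =>
    intro F P hF _
    by_cases h : ∃ R, Cv m.ρ R F ∧ P R
    · obtain ⟨R, h1, h2⟩ := h
      refine Or.inl ⟨R, h1.1, by have := h1.2; omega, fun R' a b => ?_⟩
      rwa [← m.eq_of_ρ b (by have := h1.2; have := a.2; omega)]
    · exact Or.inr ⟨⊥, bot_le, h0, fun R a _ b => h ⟨R, a, b⟩⟩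
  | succ j ih =>
    intro F P hF hP
    obtain ⟨φ, ⟨hinj, hgood⟩, hφ⟩ := m.refine F P hP
    by_cases hne : (univ.filter fun R => Cv m.ρ R F ∧ P R).Nonempty
    swap
    · obtain ⟨e, -, a, b⟩ := m.exists_rank' (k := j + 1) (bot_le (a := F)) (by omega) (by omega)
      exact Or.inr ⟨e, a, b, fun R h1 _ h2 => hne ⟨R, mem_filter.2 ⟨mem_univ _, h1, h2⟩⟩⟩
    obtain ⟨R, hR, hmin⟩ := exists_min_image _ φ hne
    simp only [mem_filter, mem_univ, true_and] at hR hmin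
    obtain ⟨hR, hPR⟩ := hR
    obtain ⟨Q, hQ, hloc⟩ := hgood R hR
    have hρ := hR.2
    rcases ih R Q (by omega) hQ with ⟨e, a1, a2, a3⟩ | ⟨w, a1, a2, a3⟩
    · have c := (hloc e a1).1.1 a3
      exact Or.inl ⟨e, a1.trans hR.1, a2, fun R' h1 h2 =>
        (hφ R' h1).2 (lt_of_lt_of_le ((hφ R hR).1 hPR) (c R' h1 h2))⟩
    · have c := (hloc w a1).2.1 a3
      obtain ⟨e, b1, b2, b3, b4⟩ := m.atomic' a1 (a1.trans hR.1) (m.not_le_of_ρ (by omega))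
      refine Or.inr ⟨e, b2, by omega, fun R' h1 h2 h3 => b4 ?_⟩
      rw [hinj R R' hR h1 (le_antisymm (hmin R' ⟨h1, h3⟩) (c R' h1 (b1.trans h2)))]
      exact h2

/-- Facets that are first, for the order `φ`, among the facets above some face of rank `i`. -/
noncomputable def first (φ : L → ℝ) (i : ℕ) : Finset L :=
  univ.filter fun F => Cv m.ρ F ⊤ ∧ ∃ e, e ≤ F ∧ m.ρ e = i ∧
    ∀ F', Cv m.ρ F' ⊤ → e ≤ F' → F' ≠ F → φ F < φ F'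

theorem exists_first (h0 : m.ρ ⊥ = 0) : ∃ φ : L → ℝ, ∀ i j, m.ρ ⊤ = i + j + 2 →
    m.f ⊥ ⊤ (i + j + 1) ≤ (m.first φ i).card + (m.first (fun F => -φ F) j).card := by
  obtain ⟨φ, ⟨hinj, hgood⟩, -⟩ := m.refine ⊤ _ (m.re_true ⊤)
  refine ⟨φ, fun i j h => (card_le_card fun F hF => ?_).trans (card_union_le _ _)⟩
  have hρ := (mem_I.1 hF).2.2
  have hF' : Cv m.ρ F ⊤ := ⟨le_top, by omega⟩
  obtain ⟨P, hP, hloc⟩ := hgood F hF'
  rcases m.hinman_all h0 i j F P hρ hP with ⟨e, a1, a2, a3⟩ | ⟨e, a1, a2, a3⟩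
  · exact mem_union_left _ (mem_filter.2 ⟨mem_univ _, hF', e, a1, a2, fun F' b1 b2 b3 =>
      lt_of_le_of_ne ((hloc e a1).1.1 a3 F' b1 b2) fun c => b3 (hinj _ _ hF' b1 c).symm⟩)
  · exact mem_union_right _ (mem_filter.2 ⟨mem_univ _, hF', e, a1, a2, fun F' b1 b2 b3 =>
      neg_lt_neg (lt_of_le_of_ne ((hloc e a1).2.1 a3 F' b1 b2) fun c => b3 (hinj _ _ b1 hF' c))⟩)

theorem exists_atoms (h0 : m.ρ ⊥ = 0) : ∀ (r : ℕ) (σ : L), m.ρ σ = r →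
    ∃ l : List L, l.length = r ∧ (∀ u ∈ l, m.ρ u = 1) ∧ ∀ G, σ ≤ G ↔ ∀ u ∈ l, u ≤ G := by
  intro r
  induction r with
  | zero =>
    intro σ h
    exact ⟨[], rfl, by simp, fun G => by simp [← m.eq_of_ρ (bot_le (a := σ)) (by omega)]⟩
  | succ r ih =>
    intro σ h
    obtain ⟨τ, -, a2, a3⟩ := m.exists_rank' (k := r) (bot_le (a := σ)) (by omega) (by omega)
    obtain ⟨l, b1, b2, b3⟩ := ih τ a3
    obtain ⟨u, -, c2, c3, c4⟩ := m.atomic' (bot_le (a := τ)) (bot_le (a := σ))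
      (m.not_le_of_ρ (by omega))
    refine ⟨u :: l, by simp [b1], ?_, fun G => ?_⟩
    · simp only [List.forall_mem_cons]
      exact ⟨by omega, b2⟩
    · rw [← m.sup_eq_of a2 c2 c4 (by omega), sup_le_iff, b3, List.forall_mem_cons, and_comm]

theorem euler7 {x y : L} {k : ℕ} (h : x ≤ y) (hx : m.ρ x = k) (hy : m.ρ y = k + 7) :
    m.f x y (k + 1) + m.f x y (k + 3) + m.f x y (k + 5) =
      m.f x y (k + 2) + m.f x y (k + 4) + m.f x y (k + 6) := by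
  have h1 := m.euler_rank (m.lt_of_ρ h (by omega))
  rw [show m.ρ y + 1 - m.ρ x = 8 by omega] at h1
  simp only [sum_range_succ, sum_range_zero, add_zero] at h1
  rw [m.f_bot h rfl, m.f_top h (by omega : m.ρ y = m.ρ x + 7), hx] at h1
  norm_num at h1
  omega

theorem ridges_le {d : ℕ} (h0 : m.ρ ⊥ = 0) (h : m.ρ ⊤ = d + 2) :
    (d + 1) * m.f ⊥ ⊤ (d + 1) ≤ 2 * m.f ⊥ ⊤ d := by
  have h1 := m.double_f ⊥ ⊤ d (d + 1)
  rw [m.sum_f_two (l := 2) fun z hz => m.diamond le_top (by rw [(mem_I.1 hz).2.2]) h] at h1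
  have h2 := card_nsmul_le_sum (m.I ⊥ ⊤ (d + 1)) (fun F => m.f ⊥ F d) (d + 1)
    (fun F hF => m.coatoms_ge (by rw [(mem_I.1 hF).2.2]) (d + 1) ⊥ bot_le
      (by have := (mem_I.1 hF).2.2; omega))
  rw [← h1, smul_eq_mul, ← f, mul_comm] at h2
  exact h2

theorem polygons_le_pairs {v : L} (hv : m.ρ v = 1) :
    2 * m.f v ⊤ 3 + m.f v ⊤ 2 ≤ m.f v ⊤ 2 * m.f v ⊤ 2 := by
  have h1 := m.double_f v ⊤ 2 3
  rw [m.sum_f_two (x := v) (y := ⊤) (k := 3) (l := 2) fun z hz =>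
    m.diamond (mem_I.1 hz).1 (by omega) (mem_I.1 hz).2.2] at h1
  rw [← h1, f, card_eq_sum_ones, ← sum_add_distrib, ← card_eq_sum_ones, ← smul_eq_mul]
  refine sum_le_card_nsmul _ _ _ fun e he => ?_
  obtain ⟨a1, -, a3⟩ := mem_I.1 he
  rw [← card_erase_add_one he]
  refine Nat.add_le_add_right ?_ _
  have key : ∀ G ∈ m.I e ⊤ 3, ∃ e', e' ∈ (m.I v ⊤ 2).erase e ∧ e ⊔ e' = G := by
    intro G hG
    obtain ⟨b1, -, b3⟩ := mem_I.1 hG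
    obtain ⟨e', c1, c2, c3, c4, -⟩ := m.other a1 b1 (by omega) (by omega)
    exact ⟨e', mem_erase.2 ⟨c4, mem_I.2 ⟨c1, le_top, by omega⟩⟩,
      m.sup_eq_of b1 c2 (m.not_le_of_ne (by omega) c4) (by omega)⟩
  choose! g hg hg' using key
  exact card_le_card_of_injOn g hg fun G h1 G' h2 e => by rw [← hg' G h1, ← hg' G' h2, e]

theorem polygons_le_far (h0 : m.ρ ⊥ = 0) {v : L} (hv : m.ρ v = 1) :
    m.f v ⊤ 3 + m.f v ⊤ 2 ≤ m.f ⊥ ⊤ 2 := by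
  have hsub : m.I v ⊤ 2 ⊆ m.I ⊥ ⊤ 2 := fun e he => mem_I.2 ⟨bot_le, (mem_I.1 he).2⟩
  rw [f, f, f, ← card_sdiff_add_card_eq_card hsub]
  refine Nat.add_le_add_right ?_ _
  have key : ∀ G ∈ m.I v ⊤ 3, ∃ e, e ∈ m.I ⊥ ⊤ 2 \ m.I v ⊤ 2 ∧ e ⊔ v = G := by
    intro G hG
    obtain ⟨b1, -, b3⟩ := mem_I.1 hG
    obtain ⟨e, -, c2, c3, c4⟩ := m.coatomic' b1 (bot_le (a := G)) (m.not_le_of_ρ (by omega))
    exact ⟨e, mem_sdiff.2 ⟨mem_I.2 ⟨bot_le, le_top, by omega⟩, fun h => c4 (mem_I.1 h).1⟩,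
      m.sup_eq_of c2 b1 c4 c3.symm⟩
  choose! g hg hg' using key
  exact card_le_card_of_injOn g hg fun G h1 G' h2 e => by rw [← hg' G h1, ← hg' G' h2, e]

/-- A case of the Kruskal-Katona theorem for face lattices. -/
theorem kk (h0 : m.ρ ⊥ = 0) {n : ℤ} (hn : 3 ≤ n) (h : n * (n - 1) * (n - 2) ≤ 6 * m.f ⊥ ⊤ 3) :
    n * (n - 1) ≤ 2 * m.f ⊥ ⊤ 2 := by
  by_contra hc
  push Not at hc
  have h1 : ∀ v ∈ m.I ⊥ ⊤ 1, 2 * (m.f v ⊤ 3 : ℤ) ≤ (n - 2) * m.f v ⊤ 2 := by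
    intro v hv
    have a1 := m.polygons_le_pairs (mem_I.1 hv).2.2
    have a2 := m.polygons_le_far h0 (mem_I.1 hv).2.2
    zify at a1 a2
    have a3 : (0 : ℤ) ≤ m.f v ⊤ 2 := by positivity
    rcases le_total (m.f v ⊤ 2 : ℤ) (n - 1) with a | a <;> nlinarith
  have h2 := sum_le_sum h1
  rw [← mul_sum, ← mul_sum, ← Nat.cast_sum, ← Nat.cast_sum, m.sum_deg h0, m.double_f] at h2
  have h3 := card_nsmul_le_sum (m.I ⊥ ⊤ 3) (fun G => m.f ⊥ G 1) 3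
    (fun G hG => m.atoms_ge (by omega) 3 G bot_le (by have := (mem_I.1 hG).2.2; omega))
  rw [smul_eq_mul, ← f] at h3
  zify at h3
  push_cast at h2
  nlinarith

theorem vertices_ge (h0 : m.ρ ⊥ = 0) (h1 : 1 ≤ m.ρ ⊤) {n : ℤ}
    (h : n * (n - 1) ≤ 2 * m.f ⊥ ⊤ 2) : n ≤ m.f ⊥ ⊤ 1 := by
  by_contra hc
  have a1 := m.edges_le h0
  have a2 := m.atoms_ge (k := 1) (x := ⊥) (by omega) (m.ρ ⊤) ⊤ le_top (by omega)
  have a3 : 1 ≤ m.f ⊥ ⊤ 1 := h1.trans a2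
  zify at a1 a3
  nlinarith

end ML

end Pool.Agent.Lib.MP_c8fb4d_co
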