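import Mathlib

/-!
Piecewise linear forms of Green's restriction bound in degrees two and three.
-/

namespace Pool.Agent.Lib.MP_c8fb4d_co

/-- Supporting lines in degree two. -/
noncomputable def l2 (j x : ℝ) : ℝ := j * x / (j + 1) - j / 2

/-- Supporting lines in degree three. -/
noncomputable def l3 (j x : ℝ) : ℝ := j * x / (j + 2) - j * (j + 1) / 6

theorem l2_sub {j k : ℝ} (hj : 0 ≤ j) (hk : 0 ≤ k) (x : ℝ) :
    l2 j x - l2 k x = (j - k) * (2 * x - (j + 1) * (k + 1)) / (2 * ((j + 1) * (k + 1))) := by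
  unfold l2
  field_simp
  ring

theorem l3_sub {j k : ℝ} (hj : 0 ≤ j) (hk : 0 ≤ k) (x : ℝ) :
    l3 j x - l3 k x =
      (j - k) * (12 * x - (j + 2) * (k + 2) * (j + k + 1)) / (6 * ((j + 2) * (k + 2))) := by
  unfold l3
  field_simp
  ring

theorem l2_le_of_ge {k m : ℕ} (h : k ≤ m) {x : ℝ} (hx : (m : ℝ) * (m + 1) ≤ 2 * x) :
    l2 k x ≤ l2 m x := by
  rcases h.eq_or_lt with rfl | h
  · exact le_rfl
  have h1 : (k : ℝ) + 1 ≤ m := by exact_mod_cast h
  have h0 : (0 : ℝ) ≤ k := by positivity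
  rw [← sub_nonneg, l2_sub (by positivity) (by positivity)]
  refine div_nonneg (mul_nonneg (by linarith) ?_) (by positivity)
  nlinarith

theorem l2_le_of_le {k m : ℕ} (h : m ≤ k) {x : ℝ} (hx : 2 * x ≤ ((m : ℝ) + 1) * (m + 2)) :
    l2 k x ≤ l2 m x := by
  rcases h.eq_or_lt with rfl | h
  · exact le_rfl
  have h1 : (m : ℝ) + 1 ≤ k := by exact_mod_cast h
  have h0 : (0 : ℝ) ≤ m := by positivity
  rw [← sub_nonneg, l2_sub (by positivity) (by positivity)]
  refine div_nonneg (mul_nonneg_of_nonpos_of_nonpos (by linarith) ?_) (by positivity)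
  nlinarith

theorem l3_le_of_ge {k m : ℕ} (h : k ≤ m) {x : ℝ} (hx : (m : ℝ) * (m + 1) * (m + 2) ≤ 6 * x) :
    l3 k x ≤ l3 m x := by
  rcases h.eq_or_lt with rfl | h
  · exact le_rfl
  have h1 : (k : ℝ) + 1 ≤ m := by exact_mod_cast h
  have h0 : (0 : ℝ) ≤ k := by positivity
  rw [← sub_nonneg, l3_sub (by positivity) (by positivity)]
  refine div_nonneg (mul_nonneg (by linarith) ?_) (by positivity)
  have h2 : ((m : ℝ) + 2) * (k + 2) * (m + k + 1) ≤ (m + 2) * (m + 1) * (2 * m) :=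
    mul_le_mul (mul_le_mul_of_nonneg_left (by linarith) (by positivity)) (by linarith)
      (by positivity) (by positivity)
  linarith

theorem l3_le_of_le {k m : ℕ} (h : m ≤ k) {x : ℝ}
    (hx : 6 * x ≤ ((m : ℝ) + 1) * (m + 2) * (m + 3)) : l3 k x ≤ l3 m x := by
  rcases h.eq_or_lt with rfl | h
  · exact le_rfl
  have h1 : (m : ℝ) + 1 ≤ k := by exact_mod_cast h
  have h0 : (0 : ℝ) ≤ m := by positivity
  rw [← sub_nonneg, l3_sub (by positivity) (by positivity)]
  refine div_nonneg (mul_nonneg_of_nonpos_of_nonpos (by linarith) ?_) (by positivity)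
  have h2 : ((m : ℝ) + 2) * (m + 3) * (2 * m + 2) ≤ (m + 2) * (k + 2) * (m + k + 1) :=
    mul_le_mul (mul_le_mul_of_nonneg_left (by linarith) (by positivity)) (by linarith)
      (by positivity) (by positivity)
  linarith

theorem bd2_step {s s' w : ℝ} {p : ℕ} (hp : 1 ≤ p) (h1 : ∃ j : ℕ, s ≤ l2 j w) (h2 : s' + 1 ≤ p)
    (h3 : s + s' ≤ w) : ∃ j : ℕ, s + s' ≤ l2 j (w + p) := by
  obtain ⟨j, hj⟩ := h1
  obtain ⟨q, rfl⟩ : ∃ q, p = q + 1 := ⟨p - 1, by omega⟩
  push_cast at h2 ⊢
  have hq : (0 : ℝ) ≤ q := by positivity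
  rcases le_total q j with h | h
  · refine ⟨j, ?_⟩
    have h4 : (q : ℝ) ≤ j := by exact_mod_cast h
    have h5 : l2 j (w + (q + 1)) = l2 j w + q + (j - q) / (j + 1) := by
      unfold l2
      field_simp
      ring
    have h6 : 0 ≤ ((j : ℝ) - q) / (j + 1) := div_nonneg (by linarith) (by positivity)
    linarith
  · refine ⟨q, ?_⟩
    rcases le_total (2 * w) (q * (q + 1)) with h' | h'
    · have h5 : l2 q (w + (q + 1)) = w + (q * (q + 1) - 2 * w) / (2 * (q + 1)) := by
        unfold l2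
        field_simp
        ring
      have h6 : 0 ≤ ((q : ℝ) * (q + 1) - 2 * w) / (2 * (q + 1)) :=
        div_nonneg (by linarith) (by positivity)
      linarith
    · have h5 : l2 q (w + (q + 1)) = l2 q w + q := by
        unfold l2
        field_simp
        ring
      have := l2_le_of_ge h h'
      linarith

theorem exists_knot {p : ℕ} (hp : 1 ≤ p) :
    ∃ m : ℕ, (m + 1) * (m + 2) ≤ 2 * p ∧ 2 * p ≤ (m + 2) * (m + 3) := by
  induction p, hp using Nat.le_induction with
  | base => exact ⟨0, by norm_num⟩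
  | succ p _ ih =>
    obtain ⟨m, h1, h2⟩ := ih
    by_cases h : 2 * (p + 1) ≤ (m + 2) * (m + 3)
    · exact ⟨m, by omega, h⟩
    · have : Even ((m + 2) * (m + 3)) := Nat.even_mul_succ_self (m + 2)
      obtain ⟨r, hr⟩ := this
      refine ⟨m + 1, by nlinarith, by nlinarith⟩

theorem bd3_step {s s' w : ℝ} {p : ℕ} (hp : 1 ≤ p) (h1 : ∃ j : ℕ, s ≤ l3 j w)
    (h2 : ∃ j : ℕ, s' ≤ l2 j p) (h3 : s + s' ≤ w) : ∃ j : ℕ, s + s' ≤ l3 j (w + p) := by
  obtain ⟨i, hi⟩ := h1
  obtain ⟨k, hk⟩ := h2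
  obtain ⟨m, a1, a2⟩ := exists_knot hp
  have b1 : ((m : ℝ) + 1) * (m + 2) ≤ 2 * p := by exact_mod_cast a1
  have b2 : 2 * (p : ℝ) ≤ (m + 2) * (m + 3) := by exact_mod_cast a2
  have hm : (0 : ℝ) ≤ m := by positivity
  have c1 : l2 k p ≤ l2 (m + 1 : ℕ) p := by
    rcases le_total k (m + 1) with h | h
    · exact l2_le_of_ge h (by push_cast; linarith)
    · exact l2_le_of_le h (by push_cast; linarith)
  push_cast at c1
  generalize (p : ℝ) = x at *
  rcases le_total (12 * w) (6 * (m + 1) * x - (m + 1) * (m + 2) * (m + 3)) with h | h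
  · refine ⟨m + 1, ?_⟩
    push_cast
    have h5 : l3 (m + 1) (w + x) =
        w + (6 * (m + 1) * x - (m + 1) * (m + 2) * (m + 3) - 12 * w) / (6 * (m + 3)) := by
      unfold l3
      field_simp
      ring
    have h6 : 0 ≤ (6 * (m + 1) * x - (m + 1) * (m + 2) * (m + 3) - 12 * w) / (6 * (m + 3)) :=
      div_nonneg (by linarith) (by positivity)
    linarith
  rcases le_total i m with h' | h'
  · refine ⟨m + 1, ?_⟩
    push_cast
    have h4 : l3 i w ≤ l3 m w := l3_le_of_ge h' (by nlinarith)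
    have h5 : l3 (m + 1) (w + x) = l3 m w + l2 (m + 1) x +
        (12 * w - (6 * (m + 1) * x - (m + 1) * (m + 2) * (m + 3))) / (6 * ((m + 2) * (m + 3))) := by
      unfold l3 l2
      field_simp
      ring
    have h6 : 0 ≤ (12 * w - (6 * (m + 1) * x - (m + 1) * (m + 2) * (m + 3))) /
        (6 * ((m + 2) * (m + 3))) := div_nonneg (by linarith) (by positivity)
    linarith
  · rcases h'.eq_or_lt with rfl | h'
    · refine ⟨m + 1, ?_⟩
      push_cast
      have h5 : l3 (m + 1) (w + x) = l3 m w + l2 (m + 1) x +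
          (12 * w - (6 * (m + 1) * x - (m + 1) * (m + 2) * (m + 3))) /
            (6 * ((m + 2) * (m + 3))) := by
        unfold l3 l2
        field_simp
        ring
      have h6 : 0 ≤ (12 * w - (6 * (m + 1) * x - (m + 1) * (m + 2) * (m + 3))) /
          (6 * ((m + 2) * (m + 3))) := div_nonneg (by linarith) (by positivity)
      linarith
    · refine ⟨i, ?_⟩
      have h4 : (m : ℝ) + 1 ≤ i := by exact_mod_cast h'
      have hx : 0 ≤ x := by nlinarith
      have h5 : l3 i (w + x) = l3 i w + l2 (m + 1) x +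
          (2 * (i - (m + 1)) * x / ((i + 2) * (m + 3)) +
            (m + 1) * ((m + 2) * (m + 3) - 2 * x) / (2 * ((m + 2) * (m + 3)))) := by
        unfold l3 l2
        field_simp
        ring
      have h6 : 0 ≤ 2 * (i - (m + 1)) * x / ((i + 2) * (m + 3)) :=
        div_nonneg (mul_nonneg (by linarith) hx) (by positivity)
      have h7 : 0 ≤ (m + 1) * ((m + 2) * (m + 3) - 2 * x) / (2 * ((m + 2) * (m + 3))) :=
        div_nonneg (mul_nonneg (by positivity) (by linarith)) (by positivity)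
      linarith

theorem bd3_use {s w : ℝ} {y : ℕ} (h : ∃ j : ℕ, s ≤ l3 j w)
    (hs : ((y : ℝ) + 1) * (y + 2) * (y + 3) ≤ 6 * s) :
    ((y : ℝ) + 2) * (y + 3) * (y + 4) ≤ 6 * w := by
  obtain ⟨j, hj⟩ := h
  by_contra hc
  push Not at hc
  have hy : (0 : ℝ) ≤ y := by positivity
  rcases Nat.eq_zero_or_pos j with rfl | hj0
  · have : (0 : ℝ) < (y + 1) * (y + 2) * (y + 3) := by positivity
    simp [l3] at hj
    linarith
  have h1 : (0 : ℝ) < j := by exact_mod_cast hj0
  set x := ((y : ℝ) + 2) * (y + 3) * (y + 4) / 6 with hx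
  have h2 : l3 j w < l3 j x := by
    unfold l3
    have : w < x := by rw [hx]; linarith
    gcongr
  have h3 : l3 j x ≤ l3 (y + 2 : ℕ) x := by
    rcases le_total j (y + 2) with h | h
    · exact l3_le_of_ge h (by push_cast; rw [hx]; linarith)
    · exact l3_le_of_le h (by push_cast; rw [hx]; nlinarith)
  have h4 : l3 (y + 2 : ℕ) x = (y + 1) * (y + 2) * (y + 3) / 6 := by
    unfold l3
    push_cast
    rw [hx]
    field_simp
    ring
  linarith

end Pool.Agent.Lib.MP_c8fb4d_co
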