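import Mathlib

/-!
Linear algebra: rank and nullity on a subspace, triangular families, products of functions.
-/

namespace Pool.Agent.Lib.MP_c8fb4d_co

open Module Finset
open scoped Classical

theorem finrank_split {V W : Type} [AddCommGroup V] [Module ℝ V] [AddCommGroup W] [Module ℝ W]
    [FiniteDimensional ℝ V] (f : V →ₗ[ℝ] W) (R : Submodule ℝ V) :
    finrank ℝ (R.map f) + finrank ℝ (R ⊓ LinearMap.ker f : Submodule ℝ V) = finrank ℝ R := by
  have h := LinearMap.finrank_range_add_finrank_ker (f.domRestrict R)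
  rw [LinearMap.range_domRestrict, LinearMap.ker_domRestrict,
    ← Submodule.finrank_map_subtype_eq, Submodule.map_comap_subtype] at h
  exact h

variable {L : Type} [Fintype L]

theorem finrank_le_card (R : Submodule ℝ (L → ℝ)) (I : Finset L)
    (h : ∀ w ∈ R, ∀ σ, w σ ≠ 0 → σ ∈ I) : finrank ℝ R ≤ I.card := by
  have hinj : Function.Injective
      ((LinearMap.funLeft ℝ ℝ (Subtype.val : I → L)).domRestrict R) := by
    rw [← LinearMap.ker_eq_bot, LinearMap.ker_eq_bot']
    intro w hw
    refine Subtype.ext (funext fun σ => ?_)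
    by_contra h0
    exact h0 (congrFun hw ⟨σ, h w.1 w.2 σ h0⟩)
  simpa using LinearMap.finrank_le_finrank_of_injective hinj

theorem tri_indep {κ : Type} (T : Finset κ) (v : κ → L → ℝ) (pt : κ → L) (ψ : κ → ℝ)
    (h1 : ∀ k ∈ T, v k (pt k) ≠ 0)
    (h2 : ∀ k ∈ T, ∀ l ∈ T, k ≠ l → v l (pt k) ≠ 0 → ψ k < ψ l)
    (U : Submodule ℝ (L → ℝ)) (hU : ∀ k ∈ T, v k ∈ U) : T.card ≤ finrank ℝ U := by
  have hli : LinearIndependent ℝ fun k : T => (⟨v k, hU k k.2⟩ : U) := by
    rw [Fintype.linearIndependent_iff]
    intro g hg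
    by_contra hc
    push Not at hc
    obtain ⟨k, hk, hmax⟩ := exists_max_image (univ.filter fun k : T => g k ≠ 0) (fun k => ψ k)
      (by obtain ⟨k, hk⟩ := hc; exact ⟨k, mem_filter.2 ⟨mem_univ _, hk⟩⟩)
    have h3 := congrFun (congrArg Subtype.val hg) (pt k)
    simp only [AddSubmonoidClass.coe_finsetSum, SetLike.mk_smul_mk, Finset.sum_apply,
      Pi.smul_apply, smul_eq_mul, ZeroMemClass.coe_zero, Pi.zero_apply] at h3
    rw [sum_eq_single k] at h3
    · exact mul_ne_zero (mem_filter.1 hk).2 (h1 k k.2) h3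
    · intro l _ hl
      by_contra h0
      have h4 := hmax l (mem_filter.2 ⟨mem_univ _, left_ne_zero_of_mul h0⟩)
      exact absurd (h2 k k.2 l l.2 (fun e => hl (Subtype.ext e.symm)) (right_ne_zero_of_mul h0))
        (not_lt.2 h4)
    · simp
  simpa using hli.fintype_card_le_finrank

omit [Fintype L] in
theorem prod_mem_span {y : ℕ} (c : Fin y → L → ℝ) : ∀ (r : ℕ) (l : List (L → ℝ)), l.length = r →
    (∀ x ∈ l, x ∈ Submodule.span ℝ (Set.range c)) →
    l.prod ∈ Submodule.span ℝ (Set.range fun m : Sym (Fin y) r => (m.1.map c).prod) := by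
  intro r
  induction r with
  | zero =>
    intro l hl _
    rw [List.length_eq_zero_iff.1 hl]
    exact Submodule.subset_span ⟨Sym.nil, by simp [Sym.nil]⟩
  | succ r ih =>
    intro l hl h
    obtain _ | ⟨x, l⟩ := l
    · simp at hl
    have h1 := ih l (by simpa using hl) fun z hz => h z (List.mem_cons_of_mem _ hz)
    have h2 := h x List.mem_cons_self
    rw [List.prod_cons]
    generalize l.prod = p at h1
    clear h hl
    induction h2 using Submodule.span_induction with
    | mem x hx =>
      obtain ⟨j, rfl⟩ := hx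
      induction h1 using Submodule.span_induction with
      | mem p hp =>
        obtain ⟨m, rfl⟩ := hp
        exact Submodule.subset_span ⟨Sym.cons j m, by
          change ((j ::ₘ m.1).map c).prod = _
          rw [Multiset.map_cons, Multiset.prod_cons]⟩
      | zero => simp
      | add p q _ _ hp hq => rw [mul_add]; exact Submodule.add_mem _ hp hq
      | smul t p _ hp => rw [mul_smul_comm]; exact Submodule.smul_mem _ _ hp
    | zero => simp
    | add x z _ _ hx hz => rw [add_mul]; exact Submodule.add_mem _ hx hz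
    | smul t x _ hx => rw [smul_mul_assoc]; exact Submodule.smul_mem _ _ hx

omit [Fintype L] in
theorem finrank_span_sym {y : ℕ} (c : Fin y → L → ℝ) (r : ℕ) :
    finrank ℝ (Submodule.span ℝ (Set.range fun m : Sym (Fin y) r => (m.1.map c).prod)) ≤
      (y + r - 1).choose r := by
  refine (finrank_range_le_card _).trans ?_
  rw [Sym.card_sym_eq_choose, Fintype.card_fin]

end Pool.Agent.Lib.MP_c8fb4d_co
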