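import Pool.Agent.Lib.MP_c8fb4d_co.Eul
import Pool.Agent.Lib.MP_c8fb4d_co.Lin
import Pool.Agent.Lib.MP_c8fb4d_co.GreenNum

/-!
A restriction theorem for spaces of weights without free faces.
-/

namespace Pool.Agent.Lib.MP_c8fb4d_co

open Module Finset
open scoped Classical

set_option linter.unusedSectionVars false

variable {L : Type} [Lattice L] [Fintype L] [BoundedOrder L]

namespace ML

variable (m : ML L)

/-- The hypotheses of the restriction theorem above the base `B`. -/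
structure GH (φ : L → L → ℝ) (t : ℕ) (B : L) (R W : Submodule ℝ (L → ℝ)) : Prop where
  suppR : ∀ w ∈ R, ∀ σ, w σ ≠ 0 → B ≤ σ ∧ m.ρ σ = t
  suppW : ∀ w ∈ W, ∀ σ, w σ ≠ 0 → B ≤ σ
  bal : ∀ w ∈ R, ∀ τ σ, B ≤ τ → Cv m.ρ τ σ → (∀ σ', Cv m.ρ τ σ' → σ' ≠ σ → w σ' = 0) → w σ = 0
  mul : ∀ u, m.ρ u = 1 → ∀ w ∈ R, φ u * w ∈ W

/-- Restriction to the elements above `x`. -/
noncomputable def up (x : L) : (L → ℝ) →ₗ[ℝ] (L → ℝ) :=
  LinearMap.mulLeft ℝ fun σ => if x ≤ σ then 1 else 0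

theorem up_apply (x : L) (w : L → ℝ) (σ : L) : up x w σ = if x ≤ σ then w σ else 0 := by
  simp [up]

variable {m} {φ : L → L → ℝ} {t : ℕ} {B : L} {R W : Submodule ℝ (L → ℝ)}

theorem GH.step (h : m.GH φ t B R W) (h0 : m.ρ ⊥ = 0) (ht : t < m.ρ ⊤) (hB : m.ρ B < t)
    (hφ : ∀ u σ, m.ρ u = 1 → m.ρ σ = t → (φ u σ = 0 ↔ u ≤ σ)) :
    finrank ℝ R = 0 ∨ ∃ (x : L) (R' W' R'' W'' : Submodule ℝ (L → ℝ)), m.ρ x = m.ρ B + 1 ∧
      m.GH φ t B R' W' ∧ m.GH φ t x R'' W'' ∧ finrank ℝ R' + finrank ℝ R'' = finrank ℝ R ∧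
      finrank ℝ W' + finrank ℝ W'' = finrank ℝ W ∧ 1 ≤ finrank ℝ W'' ∧
      finrank ℝ R ≤ finrank ℝ W' := by
  by_cases hR : R = ⊥
  · left
    rw [hR, finrank_bot]
  right
  obtain ⟨w0, hw0, hw0'⟩ := Submodule.exists_mem_ne_zero_of_ne_bot hR
  obtain ⟨σ0, hσ0⟩ := Function.ne_iff.1 hw0'
  obtain ⟨a1, a2⟩ := h.suppR w0 hw0 σ0 hσ0
  obtain ⟨x, b1, b2, b3⟩ := m.exists_rank' (k := m.ρ B + 1) a1 (by omega) (by omega)
  have hker : ∀ w : L → ℝ, w ∈ LinearMap.ker (up x) ↔ ∀ σ, x ≤ σ → w σ = 0 := by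
    intro w
    rw [LinearMap.mem_ker, funext_iff]
    refine forall_congr' fun σ => ?_
    rw [up_apply]
    by_cases c : x ≤ σ <;> simp [c]
  refine ⟨x, R ⊓ LinearMap.ker (up x), W ⊓ LinearMap.ker (up x), R.map (up x), W.map (up x), b3,
    ⟨fun w hw => h.suppR w hw.1, fun w hw => h.suppW w hw.1, fun w hw => h.bal w hw.1,
      fun u hu w hw => ⟨h.mul u hu w hw.1, (hker _).2 fun σ c => ?_⟩⟩,
    ⟨?_, ?_, ?_, ?_⟩, ?_, ?_, ?_, ?_⟩
  · rw [Pi.mul_apply, (hker w).1 hw.2 σ c, mul_zero]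
  · rintro _ ⟨w, hw, rfl⟩ σ c
    rw [up_apply] at c
    by_cases c' : x ≤ σ
    · rw [if_pos c'] at c
      exact ⟨c', (h.suppR w hw σ c).2⟩
    · exact absurd (if_neg c') c
  · rintro _ ⟨w, hw, rfl⟩ σ c
    rw [up_apply] at c
    by_contra c'
    exact c (if_neg c')
  · rintro _ ⟨w, hw, rfl⟩ τ σ c1 c2 c3
    rw [up_apply, if_pos (c1.trans c2.1)]
    refine h.bal w hw τ σ (b1.trans c1) c2 fun σ' d1 d2 => ?_
    have := c3 σ' d1 d2
    rwa [up_apply, if_pos (c1.trans d1.1)] at this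
  · rintro u hu _ ⟨w, hw, rfl⟩
    refine ⟨_, h.mul u hu w hw, funext fun σ => ?_⟩
    simp only [up_apply, Pi.mul_apply]
    split_ifs <;> simp
  · rw [add_comm]
    exact finrank_split _ _
  · rw [add_comm]
    exact finrank_split _ _
  · obtain ⟨u, -, -, c3, c4⟩ := m.atomic' (bot_le (a := σ0)) (bot_le (a := ⊤))
      (m.not_le_of_ρ (by omega))
    have hu : m.ρ u = 1 := by omega
    refine Nat.one_le_iff_ne_zero.2 fun e => ?_
    have e1 := Submodule.finrank_eq_zero.1 e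
    have e2 : up x (φ u * w0) ∈ W.map (up x) := ⟨_, h.mul u hu w0 hw0, rfl⟩
    rw [e1, Submodule.mem_bot] at e2
    have e3 := congrFun e2 σ0
    rw [up_apply, if_pos b2, Pi.mul_apply] at e3
    exact mul_ne_zero (fun e => c4 ((hφ u σ0 hu a2).1 e)) hσ0 e3
  · obtain ⟨u, -, c2, c3, c4⟩ := m.atomic' (bot_le (a := B)) (bot_le (a := x))
      (m.not_le_of_ρ (by omega))
    have hu : m.ρ u = 1 := by omega
    have hx : B ⊔ u = x := m.sup_eq_of b1 c2 c4 b3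
    let f : R →ₗ[ℝ] (W ⊓ LinearMap.ker (up x) : Submodule ℝ (L → ℝ)) :=
      ((LinearMap.mulLeft ℝ (φ u)).domRestrict R).codRestrict _ fun w =>
        ⟨h.mul u hu w.1 w.2, (hker _).2 fun σ c => by
          change φ u σ * w.1 σ = 0
          by_cases c' : w.1 σ = 0
          · rw [c', mul_zero]
          · rw [(hφ u σ hu (h.suppR w.1 w.2 σ c').2).2 (c2.trans c), zero_mul]⟩
    refine LinearMap.finrank_le_finrank_of_injective (f := f) ?_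
    rw [← LinearMap.ker_eq_bot, LinearMap.ker_eq_bot']
    rintro ⟨w, hw⟩ e
    have e1 : ∀ σ, φ u σ * w σ = 0 := fun σ => congrFun (congrArg Subtype.val e) σ
    have e2 : ∀ σ, w σ ≠ 0 → u ≤ σ := fun σ c =>
      (hφ u σ hu (h.suppR w hw σ c).2).1 ((mul_eq_zero.1 (e1 σ)).resolve_right c)
    refine Subtype.ext (funext fun σ => ?_)
    by_contra c
    obtain ⟨τ, d1, d2, d3, d4⟩ := m.coatomic' (sup_le (h.suppR w hw σ c).1 (e2 σ c))
      (h.suppR w hw σ c).1 (fun e => c4 (le_sup_right.trans e))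
    have d5 : ¬ u ≤ τ := fun e => d4 (sup_le d1 e)
    refine c (h.bal w hw τ σ d1 ⟨d2, d3⟩ fun σ' g1 g2 => ?_)
    by_contra c'
    exact g2 ((m.sup_eq_of g1.1 (e2 σ' c') d5 g1.2.symm).symm.trans
      (m.sup_eq_of d2 (e2 σ c) d5 d3.symm))

theorem GH.one (h : m.GH φ t B R W) (h0 : m.ρ ⊥ = 0) (ht : t < m.ρ ⊤) (hB : m.ρ B + 1 = t)
    (hφ : ∀ u σ, m.ρ u = 1 → m.ρ σ = t → (φ u σ = 0 ↔ u ≤ σ)) :
    finrank ℝ R = 0 ∨ finrank ℝ R + 1 ≤ finrank ℝ W := by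
  rcases h.step h0 ht (by omega) hφ with e | ⟨x, R', W', R'', W'', -, -, -, -, a, b, c⟩
  · exact Or.inl e
  · exact Or.inr (by omega)

theorem GH.two (h0 : m.ρ ⊥ = 0) (ht : t < m.ρ ⊤) (hB : m.ρ B + 2 = t)
    (hφ : ∀ u σ, m.ρ u = 1 → m.ρ σ = t → (φ u σ = 0 ↔ u ≤ σ)) :
    ∀ (n : ℕ) (R W : Submodule ℝ (L → ℝ)), finrank ℝ W = n → m.GH φ t B R W →
      ∃ j : ℕ, (finrank ℝ R : ℝ) ≤ l2 j (finrank ℝ W) := by
  intro n
  induction n using Nat.strong_induction_on with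
  | _ n ih =>
  intro R W hn h
  rcases h.step h0 ht (by omega) hφ with e | ⟨x, R', W', R'', W'', a1, a2, a3, a4, a5, a6, a7⟩
  · exact ⟨0, by simp [e, l2]⟩
  · have b1 := ih _ (by omega) R' W' rfl a2
    have b2 := a3.one h0 ht (by omega) hφ
    rw [← a4, ← a5, Nat.cast_add, Nat.cast_add]
    refine bd2_step a6 b1 ?_ ?_
    · have : finrank ℝ R'' + 1 ≤ finrank ℝ W'' := by omega
      exact_mod_cast this
    · rw [← a4] at a7
      exact_mod_cast a7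

theorem GH.three (h0 : m.ρ ⊥ = 0) (ht : t < m.ρ ⊤) (hB : m.ρ B + 3 = t)
    (hφ : ∀ u σ, m.ρ u = 1 → m.ρ σ = t → (φ u σ = 0 ↔ u ≤ σ)) :
    ∀ (n : ℕ) (R W : Submodule ℝ (L → ℝ)), finrank ℝ W = n → m.GH φ t B R W →
      ∃ j : ℕ, (finrank ℝ R : ℝ) ≤ l3 j (finrank ℝ W) := by
  intro n
  induction n using Nat.strong_induction_on with
  | _ n ih =>
  intro R W hn h
  rcases h.step h0 ht (by omega) hφ with e | ⟨x, R', W', R'', W'', a1, a2, a3, a4, a5, a6, a7⟩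
  · exact ⟨0, by simp [e, l3]⟩
  · have b1 := ih _ (by omega) R' W' rfl a2
    have b2 := GH.two h0 ht (by omega) hφ _ R'' W'' rfl a3
    rw [← a4, ← a5, Nat.cast_add, Nat.cast_add]
    refine bd3_step a6 b1 b2 ?_
    rw [← a4] at a7
    exact_mod_cast a7

end ML

end Pool.Agent.Lib.MP_c8fb4d_co
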