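import Pool.Agent.Lib.MP_c8fb4d_co.Generic
import Pool.Agent.Lib.MP_c8fb4d_co.Green
import Pool.Agent.Lib.MP_c8fb4d_co.Comb
import Pool.Agent.Lib.MP_c8fb4d_co.Bridge

/-!
Spaces spanned by the weights of the facets and their dimensions.
-/

namespace Pool.Agent.Lib.MP_c8fb4d_co

open Module Finset
open scoped Classical

set_option linter.unusedSectionVars false

variable {ι : Type} [Fintype ι] [DecidableEq ι] {E : Type} [AddCommGroup E] [Module ℝ E]
  [FiniteDimensional ℝ E] {a : ι → E}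

/-- Restriction of weights to the faces of rank `r`. -/
noncomputable def res (a : ι → E) (r : ℕ) : (Face a → ℝ) →ₗ[ℝ] (Face a → ℝ) :=
  LinearMap.mulLeft ℝ fun σ => if frk a σ = r then 1 else 0

theorem res_apply (r : ℕ) (w : Face a → ℝ) (σ : Face a) :
    res a r w σ = if frk a σ = r then w σ else 0 := by
  simp [res]

theorem nsum_res {τ : Face a} {r : ℕ} (h : frk a τ = r) (w : Face a → ℝ) :
    nsum a τ (res a (r + 1) w) = nsum a τ w :=
  nsum_congr fun σ c => by rw [res_apply, if_pos (by have := c.2; omega)]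

theorem supp_res {r : ℕ} {w : Face a → ℝ} (h : w ∈ LinearMap.range (res a r)) {σ : Face a}
    (hσ : w σ ≠ 0) : frk a σ = r := by
  obtain ⟨v, rfl⟩ := h
  by_contra hc
  exact hσ (by rw [res_apply, if_neg hc])

theorem mem_range_res {r : ℕ} {w : Face a → ℝ} (h : ∀ σ, w σ ≠ 0 → frk a σ = r) :
    w ∈ LinearMap.range (res a r) :=
  ⟨w, funext fun σ => by
    rw [res_apply]
    split_ifs with c
    · rfl
    · by_contra c'
      exact c (h σ (Ne.symm c'))⟩

theorem finrank_res (r : ℕ) : finrank ℝ (LinearMap.range (res a r)) ≤ (faceML a).f ⊥ ⊤ r :=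
  finrank_le_card _ _ fun _ hw _ hσ => ML.mem_I.2 ⟨bot_le, le_top, supp_res hw hσ⟩

/-- The derivative of weights along a family of functionals. -/
noncomputable def der (r : ℕ) (y : Face a → E →ₗ[ℝ] ℝ) : (Face a → ℝ) →ₗ[ℝ] (Face a → ℝ) :=
  LinearMap.pi fun τ => if frk a τ = r then y τ ∘ₗ nsum a τ else 0

theorem der_apply (r : ℕ) (y : Face a → E →ₗ[ℝ] ℝ) (w : Face a → ℝ) (τ : Face a) :
    der r y w τ = if frk a τ = r then y τ (nsum a τ w) else 0 := by
  simp only [der, LinearMap.pi_apply]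
  split_ifs <;> simp

namespace Setup

variable (G : Setup a)

/-- The span of the weights in rank `r` for parameters in `T`. -/
noncomputable def V (r : ℕ) (T : Finset ℝ) : Submodule ℝ (Face a → ℝ) :=
  Submodule.span ℝ {v | ∃ F s, frk a F = 6 ∧ s ∈ T ∧ v = res a r (G.w F s)}

theorem mem_V {r : ℕ} {T : Finset ℝ} {F : Face a} {s : ℝ} (hF : frk a F = 6) (hs : s ∈ T) :
    res a r (G.w F s) ∈ G.V r T := Submodule.subset_span ⟨F, s, hF, hs, rfl⟩

theorem V_le {r : ℕ} {T : Finset ℝ} {U : Submodule ℝ (Face a → ℝ)}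
    (h : ∀ F s, frk a F = 6 → s ∈ T → res a r (G.w F s) ∈ U) : G.V r T ≤ U :=
  Submodule.span_le.2 (by rintro _ ⟨F, s, h1, h2, rfl⟩; exact h F s h1 h2)

theorem der_w {r : ℕ} (hr : r ≤ 4) (s : ℝ) {F : Face a} (hF : frk a F = 6) {s' : ℝ}
    (hs' : s' ∈ G.S) : der r (fun τ => G.η τ s) (res a (r + 1) (G.w F s')) =
      (G.c F * (s' - s)) • res a r (G.w F s') := by
  funext τ
  rw [der_apply, Pi.smul_apply, res_apply]
  split_ifs with h
  · have h1 := G.η_sp τ (by omega) s _ (G.rel F hF s' hs' τ (by omega))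
    rw [map_sub, map_smul, G.η_ξ τ (by omega), sub_eq_zero] at h1
    rw [nsum_res h, h1, smul_eq_mul, smul_eq_mul, mul_comm]
  · simp

theorem V_rec {r : ℕ} (hr : r ≤ 4) {T : Finset ℝ} (hT : T ⊆ G.S) {s : ℝ} (hs : s ∈ T) :
    finrank ℝ (G.V r (T.erase s)) + finrank ℝ (G.V (r + 1) {s}) ≤ finrank ℝ (G.V (r + 1) T) := by
  rw [← finrank_split (der r fun τ => G.η τ s) (G.V (r + 1) T)]
  refine add_le_add (Submodule.finrank_mono (G.V_le fun F s' hF hs' => ?_))
    (Submodule.finrank_mono (G.V_le fun F s' hF hs' => ?_))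
  · obtain ⟨h1, h2⟩ := mem_erase.1 hs'
    have h3 : G.c F * (s' - s) ≠ 0 := mul_ne_zero (G.hc F hF) (sub_ne_zero.2 h1)
    rw [← Submodule.smul_mem_iff _ h3, ← G.der_w hr s hF (hT h2)]
    exact Submodule.mem_map_of_mem (G.mem_V hF h2)
  · obtain rfl := mem_singleton.1 hs'
    refine ⟨G.mem_V hF hs, ?_⟩
    rw [SetLike.mem_coe, LinearMap.mem_ker, G.der_w hr _ hF (hT hs)]
    simp

theorem first_le (h7 : frk a ⊤ = 7) (φ : Face a → ℝ) (r : ℕ) {s : ℝ} (hs : s ∈ G.S) :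
    ((faceML a).first φ r).card ≤ finrank ℝ (G.V r {s}) := by
  have h6 : ∀ F, Cv (faceML a).ρ F ⊤ → frk a F = 6 := fun F h => by
    have : frk a F + 1 = frk a ⊤ := h.2
    omega
  have key := fun F (hF : F ∈ (faceML a).first φ r) => (mem_filter.1 hF).2.2
  choose! e h1 h2 h3 using key
  have hc := fun F (hF : F ∈ (faceML a).first φ r) => (mem_filter.1 hF).2.1
  refine tri_indep _ (fun F => res a r (G.w F s)) e φ (fun F hF => ?_) (fun F hF F' hF' hne h => ?_)
    _ fun F hF => G.mem_V (h6 F (hc F hF)) (mem_singleton_self _)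
  · rw [res_apply, if_pos (show frk a _ = r from h2 F hF)]
    exact (G.supp F (h6 F (hc F hF)) s hs _).2 (h1 F hF)
  · rw [res_apply, if_pos (show frk a _ = r from h2 F hF)] at h
    exact h3 F hF F' (hc F' hF') ((G.supp F' (h6 F' (hc F' hF')) s hs _).1 h) hne.symm

theorem first_le_choose (hb : IsFace a ∅) (h7 : frk a ⊤ = 7) (φ : Face a → ℝ) (r : ℕ) {s : ℝ}
    (hs : s ∈ G.S) :
    ((faceML a).first φ r).card ≤ (finrank ℝ (G.V 1 {s}) + r - 1).choose r := by
  have h6 : ∀ F, Cv (faceML a).ρ F ⊤ → frk a F = 6 := fun F h => by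
    have : frk a F + 1 = frk a ⊤ := h.2
    omega
  have key := fun F (hF : F ∈ (faceML a).first φ r) => (mem_filter.1 hF).2.2
  choose! e h1 h2 h3 using key
  have hc := fun F (hF : F ∈ (faceML a).first φ r) => (mem_filter.1 hF).2.1
  choose l l1 l2 l3 using fun σ : Face a => (faceML a).exists_atoms (frk_bot hb) _ σ rfl
  let b := finBasis ℝ (G.V 1 {s})
  let v : Face a → G.V 1 {s} := fun F =>
    if h : frk a F = 6 then ⟨_, G.mem_V h (mem_singleton_self s)⟩ else 0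
  let c : Fin (finrank ℝ (G.V 1 {s})) → Face a → ℝ := fun j F => b.repr (v F) j
  let x : Face a → Face a → ℝ := fun u F => (v F).1 u
  have hx : ∀ u, x u ∈ Submodule.span ℝ (Set.range c) := by
    intro u
    have : x u = ∑ j, (b j).1 u • c j := by
      funext F
      have h := congrFun (congrArg Subtype.val (b.sum_repr (v F))) u
      simp only [AddSubmonoidClass.coe_finsetSum, SetLike.val_smul, Finset.sum_apply,
        Pi.smul_apply, smul_eq_mul] at h ⊢
      simp only [x, c, ← h, mul_comm]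
    rw [this]
    exact Submodule.sum_mem _ fun j _ => Submodule.smul_mem _ _ (Submodule.subset_span ⟨j, rfl⟩)
  have hne : ∀ σ F, frk a F = 6 → (((l σ).map x).prod F ≠ 0 ↔ σ ≤ F) := by
    intro σ F hF
    rw [l3, Pi.list_prod_apply, List.map_map, Ne, List.prod_eq_zero_iff, List.mem_map]
    simp only [not_exists, not_and, Function.comp]
    refine forall₂_congr fun u hu => ?_
    simp only [x, v, dif_pos hF]
    rw [res_apply, if_pos (show frk a u = 1 from l2 σ u hu)]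
    exact G.supp F hF s hs u
  refine le_trans ?_ (finrank_span_sym c r)
  refine tri_indep _ (fun F => ((l (e F)).map x).prod) id (fun F => -φ F) (fun F hF => ?_)
    (fun F hF F' hF' hn h => ?_) _ fun F hF => ?_
  · exact (hne _ F (h6 F (hc F hF))).2 (h1 F hF)
  · exact neg_lt_neg (h3 F' hF' F (hc F hF) ((hne _ F (h6 F (hc F hF))).1 h) hn)
  · refine prod_mem_span c r _ (by rw [List.length_map, l1, h2 F hF]) fun z hz => ?_
    obtain ⟨u, -, rfl⟩ := List.mem_map.1 hz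
    exact hx u

theorem V_zero_pos (hb : IsFace a ∅) (h7 : frk a ⊤ = 7) {T : Finset ℝ} (hT : T ⊆ G.S)
    (hne : T.Nonempty) : 1 ≤ finrank ℝ (G.V 0 T) := by
  obtain ⟨s, hs⟩ := hne
  obtain ⟨F, -, -, hF⟩ := (faceML a).exists_rank' (k := 6) (bot_le (a := ⊤))
    (by change frk a ⊥ ≤ 6; rw [frk_bot hb]; omega) (by change 6 ≤ frk a ⊤; omega)
  refine Nat.one_le_iff_ne_zero.2 fun e => ?_
  have h1 := G.mem_V (r := 0) hF hs
  rw [Submodule.finrank_eq_zero.1 e, Submodule.mem_bot] at h1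
  have h2 := congrFun h1 ⊥
  rw [res_apply, if_pos (frk_bot hb)] at h2
  exact (G.supp F hF s (hT hs) ⊥).2 bot_le h2

theorem dims (hb : IsFace a ∅) (h7 : frk a ⊤ = 7) : ∃ (T : Finset ℝ) (y : ℕ), T ⊆ G.S ∧
    (faceML a).f ⊥ ⊤ 6 ≤ (y + 2).choose 3 + (y + 1).choose 2 ∧
    (faceML a).f ⊥ ⊤ 6 + y + 1 ≤ finrank ℝ (G.V 3 T) ∧
    2 * (faceML a).f ⊥ ⊤ 6 + 1 ≤ finrank ℝ (G.V 4 G.S) := by
  obtain ⟨φ, hφ⟩ := (faceML a).exists_first (frk_bot hb)
  have m1 := hφ 3 2 h7
  have m2 := hφ 4 1 h7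
  have hS := G.hS
  obtain ⟨s0, a0⟩ : G.S.Nonempty := card_pos.1 (by omega)
  have c0 := card_erase_of_mem a0
  obtain ⟨s1, a1⟩ : (G.S.erase s0).Nonempty := card_pos.1 (by omega)
  have c1 := card_erase_of_mem a1
  obtain ⟨s2, a2⟩ : ((G.S.erase s0).erase s1).Nonempty := card_pos.1 (by omega)
  have c2 := card_erase_of_mem a2
  obtain ⟨s3, a3⟩ : (((G.S.erase s0).erase s1).erase s2).Nonempty := card_pos.1 (by omega)
  have c3 := card_erase_of_mem a3
  have t1 : G.S.erase s0 ⊆ G.S := erase_subset _ _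
  have t2 : (G.S.erase s0).erase s1 ⊆ G.S := (erase_subset _ _).trans t1
  have t3 : ((G.S.erase s0).erase s1).erase s2 ⊆ G.S := (erase_subset _ _).trans t2
  have r0 : finrank ℝ (G.V 3 _) + finrank ℝ (G.V 4 _) ≤ finrank ℝ (G.V 4 _) :=
    G.V_rec (r := 3) (by omega) subset_rfl a0
  have r1 : finrank ℝ (G.V 2 _) + finrank ℝ (G.V 3 _) ≤ finrank ℝ (G.V 3 _) :=
    G.V_rec (r := 2) (by omega) t1 a1
  have r2 : finrank ℝ (G.V 1 _) + finrank ℝ (G.V 2 _) ≤ finrank ℝ (G.V 2 _) :=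
    G.V_rec (r := 1) (by omega) t2 a2
  have r3 : finrank ℝ (G.V 0 _) + finrank ℝ (G.V 1 _) ≤ finrank ℝ (G.V 1 _) :=
    G.V_rec (r := 0) (by omega) t3 a3
  have r4 := G.V_zero_pos hb h7 ((erase_subset s3 _).trans t3) (card_pos.1 (by omega))
  have p4 := G.first_le h7 φ 4 a0
  have p3 := G.first_le h7 φ 3 (t1 a1)
  have p2 := G.first_le h7 (fun F => -φ F) 2 (t2 a2)
  have p1 := G.first_le h7 (fun F => -φ F) 1 (t3 a3)
  have q3 := G.first_le_choose hb h7 φ 3 (t3 a3)
  have q2 := G.first_le_choose hb h7 (fun F => -φ F) 2 (t3 a3)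
  norm_num at m1 m2 q3 q2
  exact ⟨_, finrank ℝ (G.V 1 {s3}), t1, by omega, by omega, by omega⟩

end Setup

end Pool.Agent.Lib.MP_c8fb4d_co
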