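import Pool.Agent.Lib.MP_c8fb4d_co.AllSet
import Pool.Agent.Lib.MP_c8fb4d_co.AllNum
import Pool.Agent.Lib.MP_c8fb4d_co.Spaces

/-!
The spaces spanned by the dual weights and their dimensions.
-/

namespace Pool.Agent.Lib.MP_c8fb4d_co

open Module Finset
open scoped Classical

set_option linter.unusedSectionVars false

variable {ι : Type} [Fintype ι] [DecidableEq ι] {E : Type} [AddCommGroup E] [Module ℝ E]
  [FiniteDimensional ℝ E] {a : ι → E}

namespace DS

variable (D : DS a)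

/-- The span of the weights of the faces of rank `ρ` on the faces of rank `t`. -/
noncomputable def U (t ρ : ℕ) : Submodule ℝ (Face a → ℝ) :=
  Submodule.span ℝ {v | ∃ G, frk a G = ρ ∧ v = res a t (D.w G)}

theorem mem_U {t ρ : ℕ} {G : Face a} (hG : frk a G = ρ) : res a t (D.w G) ∈ D.U t ρ :=
  Submodule.subset_span ⟨G, hG, rfl⟩

theorem U_le {t ρ : ℕ} {V : Submodule ℝ (Face a → ℝ)}
    (h : ∀ G, frk a G = ρ → res a t (D.w G) ∈ V) : D.U t ρ ≤ V :=
  Submodule.span_le.2 (by rintro _ ⟨G, h1, rfl⟩; exact h G h1)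

theorem U_le_res (t ρ : ℕ) : D.U t ρ ≤ LinearMap.range (res a t) :=
  D.U_le fun _ _ => ⟨_, rfl⟩

theorem w_eq_zero {G σ : Face a} (h : frk a G ≤ frk a σ) (hne : σ ≠ G) : D.w G σ = 0 := by
  by_contra c
  exact hne ((faceML a).eq_of_ρ ((D.supp G σ).1 c) h)

theorem U_self (t : ℕ) : D.U t t = LinearMap.range (res a t) := by
  refine le_antisymm (D.U_le_res t t) fun x hx => ?_
  have : x = ∑ G, x G • res a t (D.w G) := by
    funext σ
    rw [Finset.sum_apply, sum_eq_single σ]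
    · by_cases c : x σ = 0
      · simp [c]
      · simp [res_apply, supp_res hx c, D.self]
    · intro G _ hG
      by_cases c : x G = 0
      · simp [c]
      · rw [Pi.smul_apply, res_apply]
        split_ifs with c'
        · rw [D.w_eq_zero (by rw [c', supp_res hx c]) hG.symm, smul_zero]
        · simp
    · simp
  rw [this]
  refine Submodule.sum_mem _ fun G _ => ?_
  by_cases c : x G = 0
  · simp [c]
  · exact Submodule.smul_mem _ _ (D.mem_U (supp_res hx c))

theorem mul_mem {t ρ : ℕ} (h : t ≤ ρ) {G : Face a} (hG : frk a G = ρ + 1) (x : E) :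
    (fun σ => D.lam σ x) * res a t (D.w G) ∈ D.U t ρ := by
  obtain ⟨x', hx, hx'⟩ := D.tr t G (by omega) x
  have : (fun σ => D.lam σ x) * res a t (D.w G) =
      ∑ G', bf E (nu a G G') x' • res a t (D.w G') := by
    funext σ
    simp only [Finset.sum_apply, Pi.mul_apply, Pi.smul_apply, res_apply, smul_eq_mul]
    split_ifs with c
    · rw [← hx' σ c, ← D.rel σ G x' hx, dn]
      exact sum_congr rfl fun _ _ => mul_comm _ _
    · simp
  rw [this]
  refine Submodule.sum_mem _ fun G' _ => ?_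
  by_cases c : Cv (frk a) G' G
  · exact Submodule.smul_mem _ _ (D.mem_U (by have := c.2; omega))
  · simp [nu_of_not c]

theorem mul_U {t ρ : ℕ} (h : t ≤ ρ) (x : E) {v : Face a → ℝ} (hv : v ∈ D.U t (ρ + 1)) :
    (fun σ => D.lam σ x) * v ∈ D.U t ρ :=
  D.U_le (V := (D.U t ρ).comap (LinearMap.mulLeft ℝ fun σ => D.lam σ x))
    (fun _ hG => D.mul_mem h hG x) hv

theorem U_succ_le {t ρ : ℕ} (h : t ≤ ρ) : D.U t (ρ + 1) ≤ D.U t ρ := by
  refine D.U_le fun G hG => ?_
  obtain ⟨x, -, hx, -⟩ := D.one t G (by omega)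
  have := D.mul_mem h hG x
  convert this using 1
  funext σ
  simp only [Pi.mul_apply, res_apply]
  split_ifs with c
  · rw [hx σ c, one_mul]
  · simp

theorem U_anti {t ρ ρ' : ℕ} (h : t ≤ ρ) (h' : ρ ≤ ρ') : D.U t ρ' ≤ D.U t ρ := by
  induction ρ', h' using Nat.le_induction with
  | base => exact le_rfl
  | succ k hk ih => exact (D.U_succ_le (h.trans hk)).trans ih

/-- The map to the weights one rank lower. -/
noncomputable def be (t k : ℕ) : (Face a → ℝ) →ₗ[ℝ] (Face a → ℝ) :=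
  LinearMap.pi fun τ => if frk a τ = t then
    ∑ σ, (D.sl σ ^ k * D.w σ τ) • LinearMap.proj σ else 0

theorem be_apply (t k : ℕ) (x : Face a → ℝ) (τ : Face a) :
    D.be t k x τ = if frk a τ = t then ∑ σ, D.sl σ ^ k * D.w σ τ * x σ else 0 := by
  simp only [be, LinearMap.pi_apply]
  split_ifs <;> simp [LinearMap.sum_apply]

theorem be_step {t k : ℕ} {τ : Face a}
    (ih : ∀ G, frk a G = t + 1 + k →
      ∑ σ, D.sl σ ^ k * D.w σ τ * res a (t + 1) (D.w G) σ = D.w G τ)
    {H : Face a} (hH : frk a H = t + 1 + k + 1) {x : E} (hx : x ∈ sp a H.1) :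
    D.lam τ x * D.w H τ =
      ∑ σ, D.lam σ x * (D.sl σ ^ k * D.w σ τ * res a (t + 1) (D.w H) σ) := by
  rw [← D.rel τ H x hx, dn_congr (w' := fun G =>
    ∑ σ, D.sl σ ^ k * D.w σ τ * res a (t + 1) (D.w G) σ) fun G c =>
      (ih G (by have := c.2; omega)).symm]
  simp only [dn, sum_mul]
  rw [sum_comm]
  refine sum_congr rfl fun σ _ => ?_
  simp only [res_apply]
  split_ifs with c
  · have := D.rel σ H x hx
    rw [dn] at this
    rw [show D.lam σ x * (D.sl σ ^ k * D.w σ τ * D.w H σ) =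
      D.sl σ ^ k * D.w σ τ * (D.lam σ x * D.w H σ) by ring, ← this, mul_sum]
    exact sum_congr rfl fun _ _ => by ring
  · simp

theorem be_sum {t : ℕ} {τ : Face a} (hτ : frk a τ = t) : ∀ (k : ℕ) (G : Face a),
    frk a G = t + 1 + k → ∑ σ, D.sl σ ^ k * D.w σ τ * res a (t + 1) (D.w G) σ = D.w G τ := by
  intro k
  induction k with
  | zero =>
    intro G hG
    rw [sum_eq_single G]
    · simp [res_apply, hG, D.self]
    · intro σ _ hσ
      rw [res_apply]
      split_ifs with c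
      · rw [D.w_eq_zero (G := G) (by omega) hσ, mul_zero]
      · simp
    · simp
  | succ k ih =>
    intro H hH
    obtain ⟨x, hx, h1, h2⟩ := D.two t H (by omega)
    have := D.be_step ih hH hx
    rw [h2 τ hτ, one_mul] at this
    rw [this]
    refine sum_congr rfl fun σ _ => ?_
    rw [res_apply]
    split_ifs with c
    · rw [h1 σ c]
      ring
    · simp

theorem be_w {t k : ℕ} {G : Face a} (hG : frk a G = t + 1 + k) :
    D.be t k (res a (t + 1) (D.w G)) = res a t (D.w G) := by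
  funext τ
  rw [be_apply, res_apply]
  split_ifs with c
  · exact D.be_sum c k G hG
  · rfl

theorem be_zero {t k : ℕ} {H : Face a} (hH : frk a H = t + 1 + k + 1) :
    D.be t k (res a (t + 1) (D.w H)) = 0 := by
  funext τ
  rw [be_apply, Pi.zero_apply]
  split_ifs with c
  · obtain ⟨x, hx, h1, h2⟩ := D.one (t + 1) H (by omega)
    have := D.be_step (D.be_sum c k) hH hx
    rw [h2 τ (by omega), zero_mul] at this
    rw [this]
    refine sum_congr rfl fun σ _ => ?_
    rw [res_apply]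
    split_ifs with c'
    · rw [h1 σ c', one_mul]
    · simp
  · rfl

theorem map_be (t k : ℕ) : (D.U (t + 1) (t + 1 + k)).map (D.be t k) = D.U t (t + 1 + k) := by
  refine le_antisymm (Submodule.map_le_iff_le_comap.2 (D.U_le fun G hG => ?_))
    (D.U_le fun G hG => ⟨_, D.mem_U hG, D.be_w hG⟩)
  rw [Submodule.mem_comap, D.be_w hG]
  exact D.mem_U hG

theorem U_le_ker (t k : ℕ) : D.U (t + 1) (t + 1 + k + 1) ≤ LinearMap.ker (D.be t k) :=
  D.U_le fun _ hG => D.be_zero hG

theorem pascal {t ρ : ℕ} (h : t + 1 ≤ ρ) : finrank ℝ (D.U (t + 1) (ρ + 1)) +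
    finrank ℝ (D.U t ρ) ≤ finrank ℝ (D.U (t + 1) ρ) := by
  obtain ⟨k, rfl⟩ := Nat.exists_eq_add_of_le h
  have h1 := finrank_split (D.be t k) (D.U (t + 1) (t + 1 + k))
  rw [D.map_be] at h1
  have h2 := Submodule.finrank_mono (le_inf (D.U_succ_le h) (D.U_le_ker t k))
  omega

/-- multiplication by the functionals evaluated at a vertex -/
noncomputable def ph (hb : IsFace a ∅) (u σ : Face a) : ℝ :=
  D.lam σ (if h : frk a u = 1 then a (exists_mem_iff h hb).choose else 0)

theorem ph_iff (hb : IsFace a ∅) {u : Face a} (h : frk a u = 1) (σ : Face a) :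
    D.ph hb u σ = 0 ↔ u ≤ σ := by
  rw [ph, dif_pos h, D.ne, (exists_mem_iff h hb).choose_spec]

theorem gh (hb : IsFace a ∅) {t : ℕ} {R W : Submodule ℝ (Face a → ℝ)}
    (h1 : R ≤ LinearMap.range (res a (t + 1))) (h2 : R ≤ LinearMap.ker (D.be t 0))
    (h3 : ∀ x, ∀ v ∈ R, (fun σ => D.lam σ x) * v ∈ W) :
    (faceML a).GH (D.ph hb) (t + 1) ⊥ R W where
  suppR := fun _ hv _ hσ => ⟨bot_le, supp_res (h1 hv) hσ⟩
  suppW := fun _ _ _ _ => bot_le
  bal := fun v hv τ σ _ c c' => by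
    by_contra h0
    have r1 : frk a σ = t + 1 := supp_res (h1 hv) h0
    have r2 : frk a τ + 1 = frk a σ := c.2
    have e := congrFun (LinearMap.mem_ker.1 (h2 hv)) τ
    rw [be_apply, if_pos (by omega), sum_eq_single σ] at e
    · exact mul_ne_zero (mul_ne_zero (by simp) ((D.supp σ τ).2 c.1)) h0 e
    · intro σ' _ hσ'
      by_contra e'
      have g1 := right_ne_zero_of_mul e'
      have g2 := (D.supp σ' τ).1 (right_ne_zero_of_mul (left_ne_zero_of_mul e'))
      have r3 : frk a σ' = t + 1 := supp_res (h1 hv) g1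
      exact g1 (c' σ' ⟨g2, by change frk a τ + 1 = frk a σ'; omega⟩ hσ')
    · simp
  mul := fun _ _ v hv => h3 _ v hv

theorem inc (hb : IsFace a ∅) {t ρ z : ℕ} (h : t + 1 ≤ ρ) (hz : t + 1 ≤ z)
    (ht : t + 1 < frk a ⊤) (H : z.choose (t + 1) ≤ finrank ℝ (D.U (t + 1) (ρ + 1))) :
    finrank ℝ (D.U (t + 1) (ρ + 1)) + z.choose t ≤ finrank ℝ (D.U (t + 1) ρ) :=
  (D.gh hb (D.U_le_res _ _) ((D.U_anti (by omega) (by omega)).trans (D.U_le_ker t 0))
    fun x _ hv => D.mul_U h x hv).inc (frk_bot hb) ht (fun _ σ hu _ => D.ph_iff hb hu σ) hz H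

theorem kk (hb : IsFace a ∅) {s n : ℕ} (hn : s + 3 ≤ n) (ht : s + 1 + 1 < frk a ⊤)
    (H : n.choose (s + 1 + 1) ≤ finrank ℝ (D.U (s + 1 + 1) (s + 1 + 1))) :
    n.choose (s + 1) ≤ finrank ℝ (D.U (s + 1) (s + 1)) := by
  obtain ⟨z, rfl⟩ : ∃ z, n = z + 1 := ⟨n - 1, by omega⟩
  have h1 := finrank_split (D.be (s + 1) 0) (D.U (s + 1 + 1) (s + 1 + 1))
  have h2 : (D.U (s + 1 + 1) (s + 1 + 1)).map (D.be (s + 1) 0) = D.U (s + 1) (s + 1 + 1) :=
    D.map_be (s + 1) 0
  rw [h2] at h1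
  have h3 : z.choose (s + 1) ≤ finrank ℝ (D.U (s + 1) (s + 1 + 1)) := by
    by_cases c : z.choose (s + 1 + 1) ≤ finrank ℝ
      (D.U (s + 1 + 1) (s + 1 + 1) ⊓ LinearMap.ker (D.be (s + 1) 0) : Submodule ℝ (Face a → ℝ))
    · have := (D.gh hb (t := s + 1) (W := D.U (s + 1 + 1) (s + 1 + 1))
        (inf_le_left.trans (D.U_le_res (s + 1 + 1) (s + 1 + 1))) inf_le_right fun x v hv => by
          rw [D.U_self]
          exact mem_range_res fun σ hσ =>
            supp_res (D.U_le_res _ _ hv.1) (right_ne_zero_of_mul hσ)).inc (frk_bot hb) ht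
          (fun _ σ hu _ => D.ph_iff hb hu σ) (by omega) c
      omega
    · rw [Nat.choose_succ_succ'] at H
      omega
  have h4 := D.inc hb le_rfl (by omega) (by omega) h3
  rw [Nat.choose_succ_succ']
  omega

theorem one_le (hb : IsFace a ∅) {ρ : ℕ} (h : ρ ≤ frk a ⊤) : 1 ≤ finrank ℝ (D.U 0 ρ) := by
  obtain ⟨G, -, -, b3⟩ := (faceML a).exists_rank' (k := ρ) (bot_le (a := ⊤))
    (by change frk a ⊥ ≤ ρ; rw [frk_bot hb]; omega) h
  refine Nat.one_le_iff_ne_zero.2 fun e => ?_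
  have h1 := D.mem_U (t := 0) (G := G) b3
  rw [Submodule.finrank_eq_zero.1 e, Submodule.mem_bot] at h1
  have h2 := congrFun h1 ⊥
  rw [res_apply, if_pos (frk_bot hb)] at h2
  exact (D.supp G ⊥).2 bot_le h2

theorem first_le {d : ℕ} (hd : frk a ⊤ = d + 1) (φ : Face a → ℝ) (r : ℕ) :
    ((faceML a).first φ r).card ≤ finrank ℝ (D.U r d) := by
  have h6 : ∀ F, Cv (faceML a).ρ F ⊤ → frk a F = d := fun F h => by
    have : frk a F + 1 = frk a ⊤ := h.2
    omega
  have key := fun F (hF : F ∈ (faceML a).first φ r) => (mem_filter.1 hF).2.2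
  choose! e h1 h2 h3 using key
  have hc := fun F (hF : F ∈ (faceML a).first φ r) => (mem_filter.1 hF).2.1
  refine tri_indep _ (fun F => res a r (D.w F)) e φ (fun F hF => ?_) (fun F hF F' hF' hne h => ?_)
    _ fun F hF => D.mem_U (h6 F (hc F hF))
  · rw [res_apply, if_pos (show frk a _ = r from h2 F hF)]
    exact (D.supp F _).2 (h1 F hF)
  · rw [res_apply, if_pos (show frk a _ = r from h2 F hF)] at h
    exact h3 F hF F' (hc F' hF') ((D.supp F' _).1 h) hne.symm

theorem dual (hb : IsFace a ∅) {d i j : ℕ} (hd : frk a ⊤ = d + 1) (h : i + j + 1 = d) :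
    (faceML a).f ⊥ ⊤ d ≤ finrank ℝ (D.U i d) + finrank ℝ (D.U j d) := by
  obtain ⟨φ, hφ⟩ := (faceML a).exists_first (frk_bot hb)
  have h1 := hφ i j (by change frk a ⊤ = _; omega)
  rw [h] at h1
  exact h1.trans (add_le_add (D.first_le hd _ _) (D.first_le hd _ _))

theorem finrank_self (t : ℕ) : finrank ℝ (D.U t t) ≤ (faceML a).f ⊥ ⊤ t := by
  rw [D.U_self]
  exact finrank_res t

end DS

end Pool.Agent.Lib.MP_c8fb4d_co
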