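import Pool.Agent.Lib.MP_c8fb4d_co.Weights

/-!
Weights on the faces above a face, attached to a generic functional vanishing on it.
-/

namespace Pool.Agent.Lib.MP_c8fb4d_co

open Module Finset
open scoped Classical

set_option linter.unusedSectionVars false

variable {ι : Type} [Fintype ι] [DecidableEq ι] {E : Type} [AddCommGroup E] [Module ℝ E]
  [FiniteDimensional ℝ E]

/-- an inner point of a face -/
noncomputable def ip (a : ι → E) (G : Face a) : E := ∑ i ∈ G.1, a i

/-- the weighted sum of the facet normals, tested against a vector -/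
noncomputable def dn (a : ι → E) (G : Face a) (w : Face a → ℝ) (x : E) : ℝ :=
  ∑ G', w G' * bf E (nu a G G') x

/-- The dual weights in corank `k`. -/
noncomputable def Dk (a : ι → E) (σ : Face a) (lam : E →ₗ[ℝ] ℝ) : ℕ → Face a → ℝ
  | 0 => fun G => if G = σ then 1 else 0
  | k + 1 => fun G => dn a G (Dk a σ lam k) (ip a G) / lam (ip a G)

variable {a : ι → E} {σ : Face a} {lam : E →ₗ[ℝ] ℝ}

theorem ip_mem (G : Face a) : ip a G ∈ sp a G.1 := sum_mem_sp G.1

theorem dn_eq_zero {G : Face a} {w : Face a → ℝ} (h : ∀ G', Cv (frk a) G' G → w G' = 0) (x : E) :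
    dn a G w x = 0 := by
  refine sum_eq_zero fun G' _ => ?_
  by_cases c : Cv (frk a) G' G
  · rw [h G' c, zero_mul]
  · simp [nu_of_not c]

theorem dn_congr {G : Face a} {w w' : Face a → ℝ} (h : ∀ G', Cv (frk a) G' G → w G' = w' G')
    (x : E) : dn a G w x = dn a G w' x := by
  refine sum_congr rfl fun G' _ => ?_
  by_cases c : Cv (frk a) G' G
  · rw [h G' c]
  · simp [nu_of_not c]

theorem Dk_supp : ∀ (k : ℕ) (G : Face a), Dk a σ lam k G ≠ 0 → σ ≤ G ∧ frk a G = frk a σ + k := by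
  intro k
  induction k with
  | zero =>
    intro G h
    have : G = σ := by
      by_contra hc
      exact h (if_neg hc)
    exact ⟨this.ge, by rw [this, add_zero]⟩
  | succ k ih =>
    intro G h
    by_contra hc
    refine h ?_
    have : dn a G (Dk a σ lam k) (ip a G) = 0 := dn_eq_zero (fun G' c => by
      by_contra h0
      obtain ⟨h1, h2⟩ := ih G' h0
      exact hc ⟨h1.trans c.1, by have := c.2; omega⟩) _
    simp [Dk, this]

theorem mem_of_orth {G G' : Face a} (c : Cv (frk a) G' G) {z : E} (hz : z ∈ sp a G.1)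
    (h : bf E (nu a G G') z = 0) : z ∈ sp a G'.1 := by
  have h1 := (nu_spec c).sub_mem c hz
  have h2 := (nu_spec c).2.1 _ h1
  rw [map_sub, map_smul, h, (nu_spec c).2.2.1, smul_eq_mul, mul_one, zero_sub, neg_eq_zero] at h2
  rwa [h2, zero_smul, sub_zero] at h1

theorem bf_ip_pos {G G' : Face a} (c : Cv (frk a) G' G) : 0 < bf E (nu a G G') (ip a G) := by
  have h1 := (nu_spec c).sub_mem c (ip_mem G)
  have h2 := (nu_spec c).2.1 _ h1
  rw [map_sub, map_smul, (nu_spec c).2.2.1, smul_eq_mul, mul_one, sub_eq_zero] at h2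
  rw [h2]
  exact div_pos (cov_sum_pos c) (nu_spec c).2.2.2

theorem dn_wedge {w w' : Face a → ℝ}
    (H : ∀ G', ∀ z ∈ sp a G'.1, dn a G' w' z = lam z * w G') (G : Face a) {x y : E}
    (hx : x ∈ sp a G.1) (hy : y ∈ sp a G.1) : dn a G w x * lam y = dn a G w y * lam x := by
  rw [← sub_eq_zero]
  have h1 : ∀ G', w G' * bf E (nu a G G') x * lam y - w G' * bf E (nu a G G') y * lam x =
      ∑ G'', w' G'' * wedge ((bf E).flip x) ((bf E).flip y) (nu a G G') (nu a G' G'') := by
    intro G'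
    by_cases c : Cv (frk a) G' G
    · have hz : bf E (nu a G G') x • y - bf E (nu a G G') y • x ∈ sp a G'.1 :=
        mem_of_orth c (Submodule.sub_mem _ (Submodule.smul_mem _ _ hy)
          (Submodule.smul_mem _ _ hx)) (by simp [mul_comm])
      have h2 := H G' _ hz
      simp only [dn, map_sub, map_smul, smul_eq_mul] at h2
      simp only [wedge, LinearMap.flip_apply]
      rw [show ∑ G'', w' G'' * (bf E (nu a G G') x * bf E (nu a G' G'') y -
          bf E (nu a G' G'') x * bf E (nu a G G') y) = ∑ G'', w' G'' *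
          (bf E (nu a G G') x * bf E (nu a G' G'') y -
          bf E (nu a G G') y * bf E (nu a G' G'') x) from
        sum_congr rfl fun G'' _ => by ring, h2]
      ring
    · simp [wedge, nu_of_not c]
  simp only [dn, sum_mul, ← sum_sub_distrib, h1]
  rw [sum_comm]
  refine sum_eq_zero fun G'' _ => ?_
  rw [← mul_sum]
  refine mul_eq_zero_of_right _ ?_
  have h3 := diamond_sum G'' (Pi.single G 1) ((bf E).flip x) ((bf E).flip y)
  have h4 : ∀ u, nsum a u (Pi.single G 1) = nu a G u := fun u => by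
    rw [nsum_apply, sum_eq_single G] <;> simp +contextual
  simpa only [h4] using h3

theorem Dk_rel (hl : ∀ x ∈ sp a σ.1, lam x = 0) (hg : ∀ G, σ < G → lam (ip a G) ≠ 0) :
    ∀ (k : ℕ) (G : Face a), ∀ x ∈ sp a G.1,
      dn a G (Dk a σ lam k) x = lam x * Dk a σ lam (k + 1) G := by
  have key : ∀ (k : ℕ) (w' : Face a → ℝ),
      (∀ G', ∀ z ∈ sp a G'.1, dn a G' w' z = lam z * Dk a σ lam k G') →
      ∀ G, ∀ x ∈ sp a G.1, dn a G (Dk a σ lam k) x = lam x * Dk a σ lam (k + 1) G := by
    intro k w' H G x hx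
    by_cases hG : σ < G
    · have h1 := dn_wedge H G hx (ip_mem G)
      have h2 := hg G hG
      change _ = lam x * (dn a G (Dk a σ lam k) (ip a G) / lam (ip a G))
      field_simp
      linear_combination h1
    · have h1 : ∀ y, dn a G (Dk a σ lam k) y = 0 := dn_eq_zero fun G' c => by
        by_contra h0
        exact hG (lt_of_le_of_lt (Dk_supp k G' h0).1 c.lt_face)
      simp [Dk, h1]
  intro k
  induction k with
  | zero =>
    refine key 0 0 fun G' z hz => ?_
    by_cases c : G' = σ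
    · rw [hl z (c ▸ hz)]
      simp [dn]
    · simp [dn, Dk, c]
  | succ k ih => exact key _ _ ih

theorem Dk_pos (hg : ∀ G, σ < G → 0 < lam (ip a G)) : ∀ (k : ℕ) (G : Face a),
    σ ≤ G → frk a G = frk a σ + k → 0 < Dk a σ lam k G := by
  intro k
  induction k with
  | zero =>
    intro G h1 h2
    have : σ = G := (faceML a).eq_of_ρ h1 (le_of_eq h2)
    simp [Dk, this]
  | succ k ih =>
    intro G h1 h2
    refine div_pos ?_ (hg G ((faceML a).lt_of_ρ h1 (by change frk a σ < frk a G; omega)))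
    obtain ⟨u, b1, b2, b3⟩ := (faceML a).exists_rank' (k := frk a σ + k) h1
      (Nat.le_add_right _ _) (by change _ ≤ frk a G; omega)
    have b3' : frk a u = frk a σ + k := b3
    have c : Cv (frk a) u G := ⟨b2, by omega⟩
    refine sum_pos' (fun v _ => ?_) ⟨u, mem_univ _, mul_pos (ih u b1 b3') (bf_ip_pos c)⟩
    by_cases c' : Cv (frk a) v G
    · by_cases h0 : Dk a σ lam k v = 0
      · simp [h0]
      · obtain ⟨d1, d2⟩ := Dk_supp k v h0
        exact (mul_pos (ih v d1 d2) (bf_ip_pos c')).le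
    · simp [nu_of_not c']

/-- The common denominator. -/
noncomputable def dd (a : ι → E) (σ : Face a) (lam : E →ₗ[ℝ] ℝ) : ℝ :=
  ∏ G ∈ univ.filter (fun G => σ < G), lam (ip a G)

theorem pl_eval (x : E) : PL fun lam : E →ₗ[ℝ] ℝ => lam x := PL.lin (LinearMap.applyₗ x)

theorem Dk_rat (σ : Face a) : ∀ (k : ℕ) (G : Face a), ∃ P : (E →ₗ[ℝ] ℝ) → ℝ, PL P ∧
    ∀ lam, dd a σ lam ≠ 0 → Dk a σ lam k G * dd a σ lam ^ k = P lam := by
  intro k
  induction k with
  | zero => exact fun G => ⟨_, PL.const (if G = σ then 1 else 0), fun lam _ => by simp [Dk]⟩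
  | succ k ih =>
    intro G
    by_cases hG : σ < G
    swap
    · refine ⟨_, PL.const 0, fun lam _ => mul_eq_zero_of_left ?_ _⟩
      by_contra h0
      obtain ⟨h1, h2⟩ := Dk_supp _ G h0
      exact hG ((faceML a).lt_of_ρ h1 (by change frk a σ < frk a G; omega))
    choose P hP hP' using ih
    refine ⟨_, (PL.sum univ fun u _ => (hP u).mul (PL.const (bf E (nu a G u) (ip a G)))).mul
      (PL.prod ((univ.filter fun G => σ < G).erase G) fun u _ => pl_eval (ip a u)),
      fun lam hl => ?_⟩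
    have hm : G ∈ univ.filter fun G => σ < G := mem_filter.2 ⟨mem_univ _, hG⟩
    have h1 := mul_prod_erase _ (fun u : Face a => lam (ip a u)) hm
    have h2 : lam (ip a G) ≠ 0 := prod_ne_zero_iff.1 hl G hm
    simp only [← hP' _ lam hl]
    have h3 : dd a σ lam = lam (ip a G) *
      ∏ u ∈ (univ.filter fun G => σ < G).erase G, lam (ip a u) := h1.symm
    generalize ∏ u ∈ (univ.filter fun G => σ < G).erase G, lam (ip a u) = R at h3
    have h4 : ∑ u, Dk a σ lam k u * dd a σ lam ^ k * bf E (nu a G u) (ip a G) =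
        dn a G (Dk a σ lam k) (ip a G) * dd a σ lam ^ k := by
      rw [dn, sum_mul]
      exact sum_congr rfl fun u _ => by ring
    rw [h4, pow_succ]
    change dn a G (Dk a σ lam k) (ip a G) / lam (ip a G) * _ = _
    generalize dd a σ lam ^ k = D
    rw [h3]
    field_simp

/-- The dual weights on all faces. -/
noncomputable def dw (a : ι → E) (σ : Face a) (lam : E →ₗ[ℝ] ℝ) (G : Face a) : ℝ :=
  Dk a σ lam (frk a G - frk a σ) G

theorem dw_rel (hl : ∀ x ∈ sp a σ.1, lam x = 0) (hg : ∀ G, σ < G → lam (ip a G) ≠ 0)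
    (G : Face a) {x : E} (hx : x ∈ sp a G.1) :
    dn a G (dw a σ lam) x = lam x * dw a σ lam G := by
  by_cases h : frk a σ < frk a G
  · obtain ⟨k, hk⟩ : ∃ k, frk a G - frk a σ = k + 1 := ⟨frk a G - frk a σ - 1, by omega⟩
    rw [dn_congr (w' := Dk a σ lam k) fun G' c => by
      rw [dw, show frk a G' - frk a σ = k by have := c.2; omega], dw, hk]
    exact Dk_rel hl hg k G x hx
  · rw [dn_eq_zero fun G' c => by
      by_contra h0
      have := (Dk_supp _ G' h0).2
      have := c.2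
      omega]
    by_cases c : G = σ
    · rw [hl x (c ▸ hx), zero_mul]
    · rw [dw, show frk a G - frk a σ = 0 by omega]
      simp [Dk, c]

theorem dw_self : dw a σ lam σ = 1 := by simp [dw, Dk]

theorem exists_dual_poly (σ : Face a) : ∃ P : (E →ₗ[ℝ] ℝ) → ℝ, PL P ∧ P (cov a σ.1) ≠ 0 ∧
    ∀ lam, P lam ≠ 0 → (∀ G, σ < G → lam (ip a G) ≠ 0) ∧ (∀ G, dw a σ lam G ≠ 0 ↔ σ ≤ G) ∧
      ∀ i, i ∉ σ.1 → lam (a i) ≠ 0 := by
  choose P hP hP' using Dk_rat σ
  refine ⟨_, ((PL.prod (univ.filter fun G => σ < G) fun u _ => pl_eval (ip a u)).mul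
    (PL.prod (univ.filter fun G => σ ≤ G) fun G _ => hP (frk a G - frk a σ) G)).mul
    (PL.prod (univ.filter fun i => i ∉ σ.1) fun i _ => pl_eval (a i)), ?_, fun lam h => ?_⟩
  · have hg : ∀ G, σ < G → 0 < cov a σ.1 (ip a G) := by
      intro G hG
      obtain ⟨i, hi, hi'⟩ := exists_of_ssubset hG
      rw [ip, map_sum]
      exact sum_pos' (fun j _ => cov_nonneg _ j) ⟨i, hi, cov_pos σ.2 hi'⟩
    have hd : dd a σ (cov a σ.1) ≠ 0 :=
      prod_ne_zero_iff.2 fun G hG => (hg G (mem_filter.1 hG).2).ne'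
    refine mul_ne_zero (mul_ne_zero hd (prod_ne_zero_iff.2 fun G hG => ?_))
      (prod_ne_zero_iff.2 fun i hi => (cov_pos σ.2 (mem_filter.1 hi).2).ne')
    rw [← hP' _ _ _ hd]
    have h1 := (mem_filter.1 hG).2
    have h2 : frk a σ ≤ frk a G := (faceML a).ρ_le h1
    exact mul_ne_zero (Dk_pos hg _ G h1 (by omega)).ne' (pow_ne_zero _ hd)
  · have hd : dd a σ lam ≠ 0 := left_ne_zero_of_mul (left_ne_zero_of_mul h)
    refine ⟨fun G hG => prod_ne_zero_iff.1 hd G (mem_filter.2 ⟨mem_univ _, hG⟩),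
      fun G => ⟨fun h0 => (Dk_supp _ G h0).1, fun hG => ?_⟩, fun i hi =>
        prod_ne_zero_iff.1 (right_ne_zero_of_mul h) i (mem_filter.2 ⟨mem_univ _, hi⟩)⟩
    have h1 := prod_ne_zero_iff.1 (right_ne_zero_of_mul (left_ne_zero_of_mul h)) G
      (mem_filter.2 ⟨mem_univ _, hG⟩)
    rw [← hP' _ _ _ hd] at h1
    exact left_ne_zero_of_mul h1

end Pool.Agent.Lib.MP_c8fb4d_co
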