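import Mathlib

/-!
Faces of a finite vector family: zero sets of nonnegative linear functionals.
-/

namespace Pool.Agent.Lib.MP_c8fb4d_co

open Module Finset

variable {ι : Type} [Fintype ι] [DecidableEq ι] {E : Type} [AddCommGroup E] [Module ℝ E]
  [FiniteDimensional ℝ E]

/-- `F` is the zero set of a functional that is nonnegative on the family. -/
def IsFace (a : ι → E) (F : Finset ι) : Prop :=
  ∃ y : E →ₗ[ℝ] ℝ, (∀ i, 0 ≤ y (a i)) ∧ ∀ i, i ∈ F ↔ y (a i) = 0

/-- Linear span of the vectors indexed by `F`. -/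
def sp (a : ι → E) (F : Finset ι) : Submodule ℝ E := Submodule.span ℝ (a '' (F : Set ι))

/-- Rank of a set of indices. -/
noncomputable def rk (a : ι → E) (F : Finset ι) : ℕ := finrank ℝ (sp a F)

variable {a : ι → E}

omit [Fintype ι] [DecidableEq ι] [FiniteDimensional ℝ E] in
theorem mem_sp {F : Finset ι} {i : ι} (h : i ∈ F) : a i ∈ sp a F :=
  Submodule.subset_span ⟨i, h, rfl⟩

omit [Fintype ι] [DecidableEq ι] [FiniteDimensional ℝ E] in
theorem sp_mono {F G : Finset ι} (h : F ⊆ G) : sp a F ≤ sp a G :=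
  Submodule.span_mono (Set.image_mono (by exact_mod_cast h))

omit [Fintype ι] [DecidableEq ι] [FiniteDimensional ℝ E] in
theorem sp_le_ker {F : Finset ι} {y : E →ₗ[ℝ] ℝ} (h : ∀ i ∈ F, y (a i) = 0) :
    sp a F ≤ LinearMap.ker y := by
  apply Submodule.span_le.2
  rintro _ ⟨i, hi, rfl⟩
  exact h i hi

omit [Fintype ι] [DecidableEq ι] [FiniteDimensional ℝ E] in
theorem eq_zero_of_sp {F : Finset ι} {y : E →ₗ[ℝ] ℝ} (h : ∀ i ∈ F, y (a i) = 0) {x : E}
    (hx : x ∈ sp a F) : y x = 0 := sp_le_ker h hx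

omit [DecidableEq ι] [FiniteDimensional ℝ E] in
theorem isFace_univ : IsFace a univ := ⟨0, by simp, by simp⟩

omit [Fintype ι] [FiniteDimensional ℝ E] in
theorem IsFace.inter {F G : Finset ι} (hF : IsFace a F) (hG : IsFace a G) : IsFace a (F ∩ G) := by
  obtain ⟨y, hy, hy'⟩ := hF
  obtain ⟨z, hz, hz'⟩ := hG
  refine ⟨y + z, fun i => by simpa using add_nonneg (hy i) (hz i), fun i => ?_⟩
  simp only [mem_inter, hy', hz', LinearMap.add_apply]
  constructor
  · rintro ⟨h1, h2⟩; rw [h1, h2, add_zero]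
  · intro h; have := hy i; have := hz i; constructor <;> linarith

omit [FiniteDimensional ℝ E] in
/-- A face of a face is a face. -/
theorem IsFace.trans {H : Finset ι} (hH : IsFace a H) {y : E →ₗ[ℝ] ℝ}
    (hy : ∀ i ∈ H, 0 ≤ y (a i)) : IsFace a (H.filter fun i => y (a i) = 0) := by
  obtain ⟨z, hz, hz'⟩ := hH
  set M : ℝ := 1 + ∑ i, |y (a i)| / z (a i) with hM
  have key : ∀ i, i ∉ H → 0 < y (a i) + M * z (a i) := by
    intro i hi
    have h1 : 0 < z (a i) := lt_of_le_of_ne (hz i) (fun h => hi ((hz' i).2 h.symm))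
    have h2 : |y (a i)| / z (a i) ≤ ∑ i, |y (a i)| / z (a i) :=
      single_le_sum (f := fun i => |y (a i)| / z (a i))
        (fun j _ => div_nonneg (abs_nonneg _) (hz j)) (mem_univ i)
    have h3 : |y (a i)| ≤ (∑ i, |y (a i)| / z (a i)) * z (a i) := by
      rwa [div_le_iff₀ h1] at h2
    have h4 := neg_abs_le (y (a i))
    rw [hM]; nlinarith
  refine ⟨y + M • z, fun i => ?_, fun i => ?_⟩
  · simp only [LinearMap.add_apply, LinearMap.smul_apply, smul_eq_mul]
    by_cases hi : i ∈ H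
    · rw [(hz' i).1 hi]; simpa using hy i hi
    · exact (key i hi).le
  · simp only [LinearMap.add_apply, LinearMap.smul_apply, smul_eq_mul, mem_filter]
    by_cases hi : i ∈ H
    · rw [(hz' i).1 hi]; simp [hi]
    · have := key i hi
      simp only [hi, false_and, false_iff]
      exact this.ne'

omit [Fintype ι] [DecidableEq ι] [FiniteDimensional ℝ E] in
theorem IsFace.mem_of_sp {F : Finset ι} (hF : IsFace a F) {i : ι} (h : a i ∈ sp a F) : i ∈ F := by
  obtain ⟨y, -, hy'⟩ := hF
  exact (hy' i).2 (eq_zero_of_sp (fun j hj => (hy' j).1 hj) h)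

omit [Fintype ι] [DecidableEq ι] in
theorem rk_lt {F H : Finset ι} (hF : IsFace a F) (h : F ⊂ H) : rk a F < rk a H := by
  obtain ⟨i, hi, hi'⟩ := exists_of_ssubset h
  apply Submodule.finrank_lt_finrank_of_lt
  refine lt_of_le_of_ne (sp_mono h.1) (fun e => hi' (hF.mem_of_sp ?_))
  rw [e]; exact mem_sp hi

/-- A chosen functional that defines the face `F`. -/
noncomputable def cov (a : ι → E) (F : Finset ι) : E →ₗ[ℝ] ℝ := by
  classical exact if h : IsFace a F then h.choose else 0

omit [Fintype ι] [DecidableEq ι] [FiniteDimensional ℝ E] in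
theorem cov_nonneg (F : Finset ι) (i : ι) : 0 ≤ cov a F (a i) := by
  unfold cov
  split_ifs with h
  · exact h.choose_spec.1 i
  · simp

omit [Fintype ι] [DecidableEq ι] [FiniteDimensional ℝ E] in
theorem cov_eq_zero {F : Finset ι} (h : IsFace a F) (i : ι) : i ∈ F ↔ cov a F (a i) = 0 := by
  unfold cov
  rw [dif_pos h]
  exact h.choose_spec.2 i

omit [Fintype ι] [DecidableEq ι] [FiniteDimensional ℝ E] in
theorem cov_pos {F : Finset ι} (h : IsFace a F) {i : ι} (hi : i ∉ F) : 0 < cov a F (a i) :=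
  lt_of_le_of_ne (cov_nonneg F i) (fun e => hi ((cov_eq_zero h i).2 e.symm))

omit [Fintype ι] [DecidableEq ι] in
theorem sp_eq_sup {F H : Finset ι} (hF : IsFace a F) (h : F ⊆ H) (hr : rk a F + 1 = rk a H)
    {i : ι} (hi : i ∈ H) (hi' : i ∉ F) : sp a H = sp a F ⊔ Submodule.span ℝ {a i} := by
  symm
  apply Submodule.eq_of_le_of_finrank_eq
  · exact sup_le (sp_mono h) (Submodule.span_le.2 (by simpa using mem_sp hi))
  · rw [Submodule.finrank_sup_span_singleton (fun e => hi' (hF.mem_of_sp e))]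
    exact hr

omit [Fintype ι] [DecidableEq ι] in
/-- A functional vanishing on a facet `F` of `H` is a multiple of `cov F` on the span of `H`. -/
theorem prop_cov {F H : Finset ι} (hF : IsFace a F) (h : F ⊆ H) (hr : rk a F + 1 = rk a H)
    {i : ι} (hi : i ∈ H) (hi' : i ∉ F) {y : E →ₗ[ℝ] ℝ} (hy : ∀ j ∈ F, y (a j) = 0)
    {x : E} (hx : x ∈ sp a H) : y x * cov a F (a i) = y (a i) * cov a F x := by
  rw [sp_eq_sup hF h hr hi hi'] at hx
  obtain ⟨u, hu, w, hw, rfl⟩ := Submodule.mem_sup.1 hx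
  obtain ⟨t, rfl⟩ := Submodule.mem_span_singleton.1 hw
  have h1 : y u = 0 := eq_zero_of_sp hy hu
  have h2 : cov a F u = 0 := eq_zero_of_sp (fun j hj => (cov_eq_zero hF j).1 hj) hu
  simp only [map_add, map_smul, h1, h2, smul_eq_mul]
  ring

omit [Fintype ι] [DecidableEq ι] in
theorem mem_sp_of_cov {F H : Finset ι} (hF : IsFace a F) (h : F ⊆ H) (hr : rk a F + 1 = rk a H)
    {x : E} (hx : x ∈ sp a H) (h0 : cov a F x = 0) : x ∈ sp a F := by
  have hne : F ⊂ H := by
    refine lt_of_le_of_ne h (fun e => ?_)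
    rw [e] at hr; omega
  obtain ⟨i, hi, hi'⟩ := exists_of_ssubset hne
  rw [sp_eq_sup hF h hr hi hi'] at hx
  obtain ⟨u, hu, w, hw, rfl⟩ := Submodule.mem_sup.1 hx
  obtain ⟨t, rfl⟩ := Submodule.mem_span_singleton.1 hw
  have h2 : cov a F u = 0 := eq_zero_of_sp (fun j hj => (cov_eq_zero hF j).1 hj) hu
  have h3 := cov_pos hF hi'
  simp only [map_add, map_smul, h2, smul_eq_mul, zero_add] at h0
  have : t = 0 := by
    rcases mul_eq_zero.1 h0 with h | h
    · exact h
    · exact absurd h h3.ne'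
  simpa [this] using hu

/-- Decomposition lemma: a functional that is nonnegative on the face `H` and positive at a point of
its span forces a facet of `H`, containing its zero set, that is positive at that point. -/
theorem decomp {H : Finset ι} (hH : IsFace a H) {x : E} (hx : x ∈ sp a H) :
    ∀ (n : ℕ) (y : E →ₗ[ℝ] ℝ), (H.filter fun i => y (a i) ≠ 0).card ≤ n →
      (∀ i ∈ H, 0 ≤ y (a i)) → 0 < y x →
      ∃ F, IsFace a F ∧ F ⊆ H ∧ rk a F + 1 = rk a H ∧ (∀ i ∈ H, y (a i) = 0 → i ∈ F) ∧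
        0 < cov a F x := by
  intro n
  induction n with
  | zero =>
    intro y hn hy hyx
    have : ∀ i ∈ H, y (a i) = 0 := by
      intro i hi
      by_contra h
      have : i ∈ H.filter fun i => y (a i) ≠ 0 := mem_filter.2 ⟨hi, h⟩
      rw [card_eq_zero.1 (Nat.le_zero.1 hn)] at this
      simp at this
    exact absurd (eq_zero_of_sp this hx) hyx.ne'
  | succ n ih =>
    intro y hn hy hyx
    set Z := H.filter fun i => y (a i) = 0 with hZ
    have hZf : IsFace a Z := hH.trans hy
    have hZH : Z ⊆ H := filter_subset _ _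
    have hZy : ∀ j ∈ Z, y (a j) = 0 := fun j hj => (mem_filter.1 hj).2
    obtain ⟨i0, hi0, hi0'⟩ : ∃ i ∈ H, y (a i) ≠ 0 := by
      by_contra h
      push Not at h
      exact absurd (eq_zero_of_sp h hx) hyx.ne'
    have hi0Z : i0 ∉ Z := fun h => hi0' (hZy _ h)
    have hlt : rk a Z < rk a H := rk_lt hZf ⟨hZH, fun h => hi0Z (h hi0)⟩
    by_cases hr : rk a Z + 1 = rk a H
    · refine ⟨Z, hZf, hZH, hr, fun i hi h => mem_filter.2 ⟨hi, h⟩, ?_⟩
      have h1 := prop_cov hZf hZH hr hi0 hi0Z hZy hx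
      have h2 := cov_pos hZf hi0Z
      have h3 : 0 < y (a i0) := lt_of_le_of_ne (hy i0 hi0) (Ne.symm hi0')
      by_contra hc
      push Not at hc
      nlinarith [mul_pos hyx h2, mul_nonneg h3.le (neg_nonneg.2 hc)]
    · set x0 : E := ∑ i ∈ H, a i with hx0
      obtain ⟨j, hj, hj'⟩ : ∃ j ∈ H, a j ∉ sp a Z ⊔ Submodule.span ℝ {x0} := by
        by_contra h
        push Not at h
        have h1 : sp a H ≤ sp a Z ⊔ Submodule.span ℝ {x0} := by
          apply Submodule.span_le.2
          rintro _ ⟨i, hi, rfl⟩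
          exact h i hi
        have h2 := Submodule.finrank_mono h1
        have h3 := Submodule.finrank_add_le_finrank_add_finrank (sp a Z) (Submodule.span ℝ {x0})
        have h4 : finrank ℝ (Submodule.span ℝ ({x0} : Set E)) ≤ 1 := by
          simpa using finrank_span_le_card (R := ℝ) ({x0} : Set E)
        unfold rk at hlt hr
        omega
      obtain ⟨z, hz1, hz2, hz3⟩ : ∃ z : E →ₗ[ℝ] ℝ, z (a j) ≠ 0 ∧
          sp a Z ⊔ Submodule.span ℝ {x0} ≤ LinearMap.ker z ∧ 0 ≤ z x := by
        obtain ⟨z, hz1, hz2⟩ := Submodule.exists_le_ker_of_notMem hj'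
        rcases le_total 0 (z x) with h | h
        · exact ⟨z, hz1, hz2, h⟩
        · refine ⟨-z, by simpa using hz1, by simpa using hz2, by simpa using h⟩
      have hzZ : ∀ i ∈ Z, z (a i) = 0 := fun i hi => hz2 (Submodule.mem_sup_left (mem_sp hi))
      have hz0 : ∑ i ∈ H, z (a i) = 0 := by
        have : z x0 = 0 := hz2 (Submodule.mem_sup_right (Submodule.mem_span_singleton_self _))
        rw [hx0, map_sum] at this
        exact this
      have hneg : (H.filter fun i => z (a i) < 0).Nonempty := by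
        by_contra h
        rw [not_nonempty_iff_eq_empty, filter_eq_empty_iff] at h
        have := (sum_eq_zero_iff_of_nonneg (fun i hi => not_lt.1 (h hi))).1 hz0 j hj
        exact hz1 this
      obtain ⟨k, hk, hkmin⟩ := exists_min_image _ (fun i => y (a i) / (-z (a i))) hneg
      obtain ⟨hkH, hkz⟩ := mem_filter.1 hk
      set t := y (a k) / (-z (a k)) with ht
      have ht0 : 0 ≤ t := div_nonneg (hy k hkH) (by linarith)
      have hky : y (a k) ≠ 0 := fun h => hkz.ne (hzZ k (mem_filter.2 ⟨hkH, h⟩))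
      have hyk : (y + t • z) (a k) = 0 := by
        have : z (a k) ≠ 0 := hkz.ne
        simp only [LinearMap.add_apply, LinearMap.smul_apply, smul_eq_mul, ht]
        field_simp
        ring
      have hzero : ∀ i ∈ H, y (a i) = 0 → (y + t • z) (a i) = 0 := by
        intro i hi h
        simp [h, hzZ i (mem_filter.2 ⟨hi, h⟩)]
      have c1 : (H.filter fun i => (y + t • z) (a i) ≠ 0).card ≤ n := by
        have hsub : (H.filter fun i => (y + t • z) (a i) ≠ 0) ⊂ H.filter fun i => y (a i) ≠ 0 := by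
          refine ⟨fun i hi => ?_, fun h => ?_⟩
          · obtain ⟨h1, h2⟩ := mem_filter.1 hi
            exact mem_filter.2 ⟨h1, fun h => h2 (hzero i h1 h)⟩
          · exact (mem_filter.1 (h (mem_filter.2 ⟨hkH, hky⟩))).2 hyk
        have := card_lt_card hsub
        omega
      have c2 : ∀ i ∈ H, 0 ≤ (y + t • z) (a i) := by
        intro i hi
        simp only [LinearMap.add_apply, LinearMap.smul_apply, smul_eq_mul]
        by_cases hzi : z (a i) < 0
        · have h1 := hkmin i (mem_filter.2 ⟨hi, hzi⟩)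
          rw [le_div_iff₀ (by linarith)] at h1
          linarith
        · have := hy i hi
          have := mul_nonneg ht0 (not_lt.1 hzi)
          linarith
      have c3 : 0 < (y + t • z) x := by
        simp only [LinearMap.add_apply, LinearMap.smul_apply, smul_eq_mul]
        have := mul_nonneg ht0 hz3
        linarith
      obtain ⟨F, h1, h2, h3, h4, h5⟩ := ih (y + t • z) c1 c2 c3
      exact ⟨F, h1, h2, h3, fun i hi h => h4 i hi (hzero i hi h), h5⟩

theorem decomp' {H : Finset ι} (hH : IsFace a H) {x : E} (hx : x ∈ sp a H) {G : Finset ι}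
    (hG : IsFace a G) (hpos : 0 < cov a G x) :
    ∃ F, IsFace a F ∧ F ⊆ H ∧ rk a F + 1 = rk a H ∧ H ∩ G ⊆ F ∧ 0 < cov a F x := by
  obtain ⟨F, h1, h2, h3, h4, h5⟩ := decomp hH hx _ (cov a G) le_rfl (fun i _ => cov_nonneg G i) hpos
  exact ⟨F, h1, h2, h3, fun i hi => h4 i (mem_inter.1 hi).1
    ((cov_eq_zero hG i).1 (mem_inter.1 hi).2), h5⟩

/-- A face `G` of `H` missing the point `i` of `H` lies in a facet of `H` missing `i`. -/
theorem exists_facet {H G : Finset ι} (hH : IsFace a H) (hG : IsFace a G) (h : G ⊆ H) {i : ι}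
    (hi : i ∈ H) (hi' : i ∉ G) :
    ∃ F, IsFace a F ∧ F ⊆ H ∧ rk a F + 1 = rk a H ∧ G ⊆ F ∧ i ∉ F := by
  obtain ⟨F, h1, h2, h3, h4, h5⟩ := decomp' hH (mem_sp hi) hG (cov_pos hG hi')
  refine ⟨F, h1, h2, h3, fun j hj => h4 (mem_inter.2 ⟨h hj, hj⟩), fun e => ?_⟩
  exact h5.ne' ((cov_eq_zero h1 i).1 e)

omit [FiniteDimensional ℝ E] in
/-- Moving a little in a given direction keeps finitely many strict signs. -/
theorem exists_small {κ : Type} (s : Finset κ) (l : κ → E →ₗ[ℝ] ℝ) (x g : E) :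
    ∃ δ : ℝ, 0 < δ ∧ ∀ k ∈ s, (0 < l k x → 0 < l k (x + δ • g)) ∧
      (l k x < 0 → l k (x + δ • g) < 0) := by
  have key : ∀ k ∈ s, ∀ᶠ δ in nhdsWithin (0 : ℝ) (Set.Ioi 0),
      (0 < l k x → 0 < l k (x + δ • g)) ∧ (l k x < 0 → l k (x + δ • g) < 0) := by
    intro k _
    have hc : Filter.Tendsto (fun δ : ℝ => l k (x + δ • g)) (nhdsWithin 0 (Set.Ioi 0))
        (nhds (l k x)) := by
      apply Filter.Tendsto.mono_left _ nhdsWithin_le_nhds
      have : Continuous fun δ : ℝ => l k x + δ * l k g := by fun_prop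
      simpa using this.tendsto 0
    refine Filter.Eventually.and ?_ ?_
    · by_cases h : 0 < l k x
      · exact (hc.eventually (lt_mem_nhds h)).mono fun δ hδ _ => hδ
      · exact Filter.Eventually.of_forall fun δ h' => absurd h' h
    · by_cases h : l k x < 0
      · exact (hc.eventually (gt_mem_nhds h)).mono fun δ hδ _ => hδ
      · exact Filter.Eventually.of_forall fun δ h' => absurd h' h
  obtain ⟨δ, h1, h2⟩ := (((Filter.eventually_all_finset s).2 key).and self_mem_nhdsWithin).exists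
  exact ⟨δ, h2, h1⟩

omit [FiniteDimensional ℝ E] in
/-- Generic perturbation inside a subspace. -/
theorem exists_generic {κ : Type} (W : Submodule ℝ E) (l : κ → E →ₗ[ℝ] ℝ) (s : Finset κ)
    (t : Finset κ) (ht : ∀ k ∈ t, ∃ g ∈ W, l k g ≠ 0) {x : E} (hx : x ∈ W) :
    ∃ x' ∈ W, (∀ k ∈ t, l k x' ≠ 0) ∧
      ∀ k ∈ s, (0 < l k x → 0 < l k x') ∧ (l k x < 0 → l k x' < 0) := by
  classical
  induction t using Finset.induction_on with
  | empty => exact ⟨x, hx, by simp, fun k _ => ⟨id, id⟩⟩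
  | insert k t hk ih =>
    obtain ⟨x', hx', h1, h2⟩ := ih (fun j hj => ht j (mem_insert_of_mem hj))
    by_cases h0 : l k x' = 0
    · obtain ⟨g, hg, hg'⟩ := ht k (mem_insert_self _ _)
      obtain ⟨δ, hδ, h3⟩ := exists_small (s ∪ t) l x' g
      refine ⟨x' + δ • g, W.add_mem hx' (W.smul_mem _ hg), fun j hj => ?_, fun j hj => ?_⟩
      · rcases mem_insert.1 hj with rfl | hj
        · simp only [map_add, map_smul, h0, smul_eq_mul, zero_add]
          exact mul_ne_zero hδ.ne' hg'
        · rcases lt_or_gt_of_ne (h1 j hj) with h | h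
          · exact ((h3 j (mem_union_right _ hj)).2 h).ne
          · exact ((h3 j (mem_union_right _ hj)).1 h).ne'
      · exact ⟨fun h => (h3 j (mem_union_left _ hj)).1 ((h2 j hj).1 h),
          fun h => (h3 j (mem_union_left _ hj)).2 ((h2 j hj).2 h)⟩
    · refine ⟨x', hx', fun j hj => ?_, h2⟩
      rcases mem_insert.1 hj with rfl | hj
      · exact h0
      · exact h1 j hj

end Pool.Agent.Lib.MP_c8fb4d_co
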