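import Pool.Agent.Lib.MP_c8fb4d_co.Eul

/-!
Every realizable split of the ridges of a four-dimensional face leaves an edge on one side.
-/

namespace Pool.Agent.Lib.MP_c8fb4d_co

open Finset
open scoped Classical

variable {L : Type} [Lattice L] [Fintype L] [OrderBot L]

theorem ML.hinman (m : ML L) (h0 : m.ρ ⊥ = 0) {F : L} (hF : m.ρ F = 5) {P : L → Prop}
    (hP : m.Re F P) : ∃ e, e ≤ F ∧ m.ρ e = 2 ∧
      ((∀ R, Cv m.ρ R F → e ≤ R → P R) ∨ (∀ R, Cv m.ρ R F → e ≤ R → ¬ P R)) := by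
  obtain ⟨φ, ⟨hinj, hgood⟩, hφ⟩ := m.refine F P hP
  by_cases hne : (univ.filter fun R => Cv m.ρ R F ∧ P R).Nonempty
  swap
  · obtain ⟨e, -, a, b⟩ := m.exists_rank' (k := 2) (bot_le (a := F)) (by omega) (by omega)
    exact ⟨e, a, b, Or.inr fun R h1 _ h2 => hne ⟨R, mem_filter.2 ⟨mem_univ _, h1, h2⟩⟩⟩
  obtain ⟨R, hR, hmin⟩ := exists_min_image _ φ hne
  simp only [mem_filter, mem_univ, true_and] at hR hmin
  obtain ⟨hR, hPR⟩ := hR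
  have hρR : m.ρ R = 4 := by have := hR.2; omega
  obtain ⟨Q, hQ, hloc⟩ := hgood R hR
  by_cases two : ∃ T1 T2, Cv m.ρ T1 R ∧ Cv m.ρ T2 R ∧ T1 ≠ T2 ∧ Q T1 ∧ Q T2
  · obtain ⟨ψ, ⟨hinj', hgood'⟩, hψ⟩ := m.refine R Q hQ
    obtain ⟨T1, T2, a1, a2, a3, a4⟩ :
        ∃ T1 T2, Cv m.ρ T1 R ∧ Cv m.ρ T2 R ∧ ψ T1 < ψ T2 ∧ Q T1 := by
      obtain ⟨T1, T2, a1, a2, a3, a4, a5⟩ := two
      rcases lt_trichotomy (ψ T1) (ψ T2) with h | h | h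
      · exact ⟨T1, T2, a1, a2, h, a4⟩
      · exact absurd (hinj' _ _ a1 a2 h) a3
      · exact ⟨T2, T1, a2, a1, h, a5⟩
    obtain ⟨Q', -, hloc'⟩ := hgood' T1 a1
    obtain ⟨e, b1, b2⟩ : ∃ e, Cv m.ρ e T1 ∧ Q' e := by
      by_contra hc
      push Not at hc
      exact absurd ((hloc' ⊥ bot_le).2.1 (fun e h _ => hc e h) T2 a2 bot_le) (not_le.2 a3)
    have c1 := (hloc' e b1.1).1.1 (fun e' h1 h2 => by
      rw [← m.eq_of_ρ h2 (by have := h1.2; have := b1.2; omega)]; exact b2)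
    have c2 := (hloc e (b1.1.trans a1.1)).1.1 fun T h1 h2 =>
      (hψ T h1).2 (lt_of_lt_of_le ((hψ T1 a1).1 a4) (c1 T h1 h2))
    refine ⟨e, (b1.1.trans a1.1).trans hR.1, by have := b1.2; have := a1.2; omega,
      Or.inl fun R' h1 h2 => (hφ R' h1).2 (lt_of_lt_of_le ((hφ R hR).1 hPR) (c2 R' h1 h2))⟩
  · obtain ⟨w, a1, a2, a3⟩ : ∃ w, w ≤ R ∧ m.ρ w = 1 ∧ ∀ T, Cv m.ρ T R → w ≤ T → ¬ Q T := by
      by_cases h : ∃ T, Cv m.ρ T R ∧ Q T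
      · obtain ⟨T, h1, h2⟩ := h
        obtain ⟨w, -, b1, b2, b3⟩ := m.atomic' (bot_le (a := T)) (bot_le (a := R))
          (m.not_le_of_ρ (by have := h1.2; omega))
        refine ⟨w, b1, by omega, fun T' c1 c2 c3 => two ⟨T, T', h1, c1, fun e => b3 (e ▸ c2), h2, c3⟩⟩
      · obtain ⟨w, -, a, b⟩ := m.exists_rank' (k := 1) (bot_le (a := R)) (by omega) (by omega)
        exact ⟨w, a, b, fun T c1 _ c3 => h ⟨T, c1, c3⟩⟩
    have c1 := (hloc w a1).2.1 a3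
    obtain ⟨e, b1, b2, b3, b4⟩ := m.atomic' a1 (a1.trans hR.1) (m.not_le_of_ρ (by omega))
    refine ⟨e, b2, by omega, Or.inr fun R' h1 h2 h3 => b4 ?_⟩
    rw [hinj R R' hR h1 (le_antisymm (hmin R' ⟨h1, h3⟩) (c1 R' h1 (b1.trans h2)))]
    exact h2

end Pool.Agent.Lib.MP_c8fb4d_co
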