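import Pool.Agent.Lib.MP_c8fb4d_co.Ridge
import Pool.Agent.Lib.MP_c8fb4d_co.Hinman

/-!
Births and deaths of vertices and edges along a line shelling.
-/

namespace Pool.Agent.Lib.MP_c8fb4d_co

open Finset
open scoped Classical

set_option linter.unusedSectionVars false

variable {L : Type} [Lattice L] [Fintype L] [BoundedOrder L]

namespace ML

variable (m : ML L)

/-- `β` selects, for every face of rank at most five, a facet above it minimizing `ψ`. -/
def Sel (ψ : L → ℝ) (β : L → L) : Prop :=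
  ∀ x, m.ρ x ≤ 5 → m.ρ (β x) = 5 ∧ x ≤ β x ∧ ∀ F, m.ρ F = 5 → x ≤ F → ψ (β x) ≤ ψ F

theorem exists_sel (h6 : m.ρ ⊤ = 6) (ψ : L → ℝ) : ∃ β, m.Sel ψ β := by
  have : ∀ x, ∃ y, m.ρ x ≤ 5 → m.ρ y = 5 ∧ x ≤ y ∧ ∀ F, m.ρ F = 5 → x ≤ F → ψ y ≤ ψ F := by
    intro x
    by_cases hx : m.ρ x ≤ 5
    · obtain ⟨z, a, b, c⟩ := m.exists_rank' (k := 5) (le_top (a := x)) hx (by omega)
      obtain ⟨y, hy, hmin⟩ := exists_min_image (m.I x ⊤ 5) ψ ⟨z, mem_I.2 ⟨a, b, c⟩⟩
      exact ⟨y, fun _ => ⟨(mem_I.1 hy).2.2, (mem_I.1 hy).1,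
        fun F h1 h2 => hmin F (mem_I.2 ⟨h2, le_top, h1⟩)⟩⟩
    · exact ⟨x, fun h => absurd h hx⟩
  choose β hβ using this
  exact ⟨β, hβ⟩

/-- Number of faces of rank `k` whose selected facet lies in `S`. -/
noncomputable def cnt (β : L → L) (k : ℕ) (S : Finset L) : ℕ :=
  (univ.filter fun x => m.ρ x = k ∧ β x ∈ S).card

theorem cnt_sum (β : L → L) (k : ℕ) (S : Finset L) :
    m.cnt β k S = ∑ F ∈ S, (univ.filter fun x => m.ρ x = k ∧ β x = F).card := by
  rw [cnt, card_eq_sum_card_fiberwise (f := β) (t := S) (fun x hx => (mem_filter.1 hx).2.2)]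
  refine sum_congr rfl fun F hF => congrArg card ?_
  ext x
  simp only [mem_filter, mem_univ, true_and]
  exact ⟨fun h => ⟨h.1.1, h.2⟩, fun h => ⟨⟨h.1, h.2 ▸ hF⟩, h.2⟩⟩

theorem local_count (h0 : m.ρ ⊥ = 0) {ψ : L → ℝ} {β : L → L} (hβ : m.Sel ψ β)
    (hinj : ∀ F F', m.ρ F = 5 → m.ρ F' = 5 → ψ F = ψ F' → F = F') {F : L} (hF : m.ρ F = 5)
    (hR : ∃ R F', m.ρ R = 4 ∧ R ≤ F ∧ m.ρ F' = 5 ∧ R ≤ F' ∧ ψ F' < ψ F) :
    2 * (univ.filter fun x => m.ρ x = 1 ∧ β x = F).card ≤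
      (univ.filter fun x => m.ρ x = 2 ∧ β x = F).card ∧
    ((univ.filter fun x => m.ρ x = 1 ∧ β x = F).card = 1 →
      4 ≤ (univ.filter fun x => m.ρ x = 2 ∧ β x = F).card) ∧
    (m.f ⊥ F 4 ≤ 5 → (univ.filter fun x => m.ρ x = 1 ∧ β x = F).card ≤ 1) := by
  set B := univ.filter fun x => m.ρ x = 1 ∧ β x = F with hB
  set N := univ.filter fun x => m.ρ x = 2 ∧ β x = F with hN
  have hle : ∀ u ∈ B, u ≤ F := fun u hu => by
    obtain ⟨a, b⟩ := (mem_filter.1 hu).2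
    exact b ▸ (hβ u (by omega)).2.1
  have h4 : ∀ u ∈ B, 4 ≤ (N.filter fun e => u ≤ e).card := by
    intro u hu
    obtain ⟨a, b⟩ := (mem_filter.1 hu).2
    refine (m.atoms_ge (k := 2) (by omega) 4 F (hle u hu) (by omega)).trans (card_le_card ?_)
    intro e he
    obtain ⟨c, d, g⟩ := mem_I.1 he
    obtain ⟨p1, p2, p3⟩ := hβ e (by omega)
    refine mem_filter.2 ⟨mem_filter.2 ⟨mem_univ _, g, hinj _ _ p1 hF (le_antisymm (p3 F hF d) ?_)⟩, c⟩
    exact b ▸ (hβ u (by omega)).2.2 _ p1 (c.trans p2)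
  refine ⟨?_, fun h => ?_, fun h => ?_⟩
  · have h1 := m.half_edges h0 N (fun e he => (mem_filter.1 he).2.1)
    have h2 := card_nsmul_le_sum B _ 4 h4
    have h3 : ∑ u ∈ B, (N.filter fun e => u ≤ e).card ≤
        ∑ u ∈ univ.filter (fun u => m.ρ u = 1), (N.filter fun e => u ≤ e).card :=
      sum_le_sum_of_subset fun u hu => mem_filter.2 ⟨mem_univ _, (mem_filter.1 hu).2.1⟩
    rw [smul_eq_mul] at h2
    omega
  · obtain ⟨u, hu⟩ := card_pos.1 (by omega : 0 < B.card)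
    exact (h4 u hu).trans (card_filter_le _ _)
  · obtain ⟨R, F', a1, a2, a3, a4, a5⟩ := hR
    have hRm : R ∈ m.I ⊥ F 4 := mem_I.2 ⟨bot_le, a2, a1⟩
    have key : ∀ u ∈ B, m.I u F 4 = (m.I ⊥ F 4).erase R := by
      intro u hu
      obtain ⟨a, b⟩ := (mem_filter.1 hu).2
      apply eq_of_subset_of_card_le
      · intro z hz
        obtain ⟨c, d, g⟩ := mem_I.1 hz
        refine mem_erase.2 ⟨fun e => ?_, mem_I.2 ⟨bot_le, d, g⟩⟩
        have := (hβ u (by omega)).2.2 F' a3 ((e ▸ c).trans a4)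
        rw [b] at this
        exact absurd a5 (not_lt.2 this)
      · have := m.coatoms_ge (k := 4) (by omega) 4 u (hle u hu) (by omega)
        rw [card_erase_of_mem hRm]
        unfold f at *
        omega
    refine card_le_one.2 fun u hu u' hu' => ?_
    by_contra hne
    obtain ⟨z, b1, b2, b3, b4⟩ := m.coatomic' (hle u hu) (hle u' hu') (m.not_le_of_ne
      ((mem_filter.1 hu).2.1.trans (mem_filter.1 hu').2.1.symm) hne)
    have : z ∈ m.I u' F 4 := mem_I.2 ⟨b1, b2, by omega⟩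
    rw [key u' hu', ← key u hu] at this
    exact b4 (mem_I.1 this).1

theorem cnt_split {ψ : L → ℝ} {β : L → L} (hβ : m.Sel ψ β) {k : ℕ} (hk : k ≤ 5) (v w : L) :
    m.f ⊥ ⊤ k = m.cnt β k (m.I v ⊤ 5) + m.cnt β k ((m.I w ⊤ 5).filter fun F => ¬ v ≤ F) +
      m.cnt β k ((m.I ⊥ ⊤ 5).filter fun F => ¬ v ≤ F ∧ ¬ w ≤ F) := by
  unfold cnt f
  rw [← card_union_of_disjoint, ← card_union_of_disjoint]
  · congr 1
    ext x
    simp only [mem_union, mem_filter, mem_univ, true_and, mem_I, bot_le, le_top]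
    constructor
    · intro h
      have := (hβ x (by omega)).1
      tauto
    · tauto
  · rw [disjoint_left]
    intro x
    simp only [mem_union, mem_filter, mem_univ, true_and, mem_I, bot_le, le_top]
    tauto
  · rw [disjoint_left]
    intro x
    simp only [mem_filter, mem_univ, true_and, mem_I, le_top]
    tauto

end ML

end Pool.Agent.Lib.MP_c8fb4d_co
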