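import Pool.Agent.Lib.MP_c8fb4d_co.Main

/-!
From the two inequalities to the bounds on all face numbers.
-/

namespace Pool.Agent.Lib.MP_c8fb4d_co

open Finset
open scoped Classical

set_option linter.unusedSectionVars false

theorem arith_edges (n N D E M : ℤ) (hn : 6 ≤ n) (hN : 6 ≤ N) (hD : 0 ≤ D)
    (hM : (n - 3) * (n - 4) ≤ M) (h1 : 6 * N + 3 * D + 2 * M ≤ 4 * E + 18) (h2 : 4 * E ≤ N * D) :
    n * (n - 1) ≤ 2 * E := by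
  by_contra hc
  have hev : Even (n * (n - 1)) := by
    have := Int.even_mul_pred_self n
    exact this
  obtain ⟨r, hr⟩ := hev
  have h3 : 2 * E ≤ n * (n - 1) - 2 := by omega
  obtain ⟨j, hj⟩ : ∃ j, j = n * (n - 1) - 2 - 2 * E := ⟨_, rfl⟩
  have hj0 : 0 ≤ j := by omega
  have h4 : 3 * (2 * N + D) ≤ 12 * n - 10 - 2 * j := by nlinarith
  have h5 : 32 * E ≤ (2 * N + D) ^ 2 := by nlinarith [sq_nonneg (2 * N - D)]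
  have h6 : (3 * (2 * N + D)) ^ 2 ≤ (12 * n - 10 - 2 * j) ^ 2 :=
    pow_le_pow_left₀ (by omega) h4 2
  have h7 : 2 * j ≤ 12 * n - 46 := by omega
  nlinarith [mul_le_mul_of_nonneg_left h7 hj0, mul_nonneg hj0 (by omega : 0 ≤ n - 6)]

theorem arith_sum (n N D E : ℤ) (hn : 6 ≤ n) (hN : 0 ≤ N) (hD : 0 ≤ D) (h1 : n * (n - 1) ≤ 2 * E)
    (h2 : 4 * E ≤ N * D) : 4 * n - 2 ≤ 2 * N + D := by
  by_contra hc
  have h4 : 2 * N + D ≤ 4 * n - 3 := by omega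
  have h5 : 32 * E ≤ (2 * N + D) ^ 2 := by nlinarith [sq_nonneg (2 * N - D)]
  have h6 : (2 * N + D) ^ 2 ≤ (4 * n - 3) ^ 2 := pow_le_pow_left₀ (by omega) h4 2
  nlinarith

variable {L : Type} [Lattice L] [Fintype L] [BoundedOrder L]

namespace ML

variable (m : ML L)

theorem sum_deg (h0 : m.ρ ⊥ = 0) : ∑ u ∈ m.I ⊥ ⊤ 1, m.f u ⊤ 2 = 2 * m.f ⊥ ⊤ 2 := by
  rw [m.double_f]
  exact m.sum_f_two fun z hz => m.diamond bot_le (by omega) (mem_I.1 hz).2.2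

theorem edges_le (h0 : m.ρ ⊥ = 0) : 2 * m.f ⊥ ⊤ 2 + m.f ⊥ ⊤ 1 ≤ m.f ⊥ ⊤ 1 * m.f ⊥ ⊤ 1 := by
  rw [← m.sum_deg h0, f, card_eq_sum_ones, ← sum_add_distrib, ← card_eq_sum_ones, ← smul_eq_mul]
  refine sum_le_card_nsmul _ _ _ fun u hu => ?_
  rw [← m.card_Nb h0 (mem_I.1 hu).2.2, ← card_erase_add_one hu]
  refine Nat.add_le_add_right (card_le_card fun z hz => ?_) _
  obtain ⟨a, b⟩ := (mem_filter.1 hz).2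
  refine mem_erase.2 ⟨fun e => ?_, mem_I.2 ⟨bot_le, le_top, a⟩⟩
  rw [e, sup_idem, (mem_I.1 hu).2.2] at b
  omega

theorem good_edge (h0 : m.ρ ⊥ = 0) (h6 : m.ρ ⊤ = 6) : ∃ v w, m.ρ v = 1 ∧ m.ρ w = 1 ∧
    m.ρ (w ⊔ v) = 2 ∧ 4 * m.f ⊥ ⊤ 2 ≤ m.f ⊥ ⊤ 1 * (m.f v ⊤ 2 + m.f w ⊤ 2) := by
  obtain ⟨e0, a0, b0, c0⟩ := m.exists_rank' (k := 2) (bot_le (a := ⊤)) (by omega) (by omega)
  set g : L → ℕ := fun e => ∑ u ∈ (m.I ⊥ ⊤ 1).filter (fun u => u ≤ e), m.f u ⊤ 2 with hg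
  obtain ⟨e, he, hmax⟩ := exists_max_image (m.I ⊥ ⊤ 2) g ⟨e0, mem_I.2 ⟨a0, b0, c0⟩⟩
  have h1 : ∑ e ∈ m.I ⊥ ⊤ 2, g e = ∑ u ∈ m.I ⊥ ⊤ 1, m.f u ⊤ 2 ^ 2 := by
    simp only [hg, sum_filter]
    rw [sum_comm]
    refine sum_congr rfl fun u _ => ?_
    rw [← sum_filter, sum_const, smul_eq_mul, sq]
    congr 1
    unfold f
    congr 1
    ext z
    simp only [mem_filter, mem_I, bot_le, le_top, true_and]
    tauto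
  have h2 := sum_le_card_nsmul _ _ _ hmax
  have h3 := sq_sum_le_card_mul_sum_sq (s := m.I ⊥ ⊤ 1) (f := fun u => m.f u ⊤ 2)
  rw [m.sum_deg h0, ← h1] at h3
  have hpos : 0 < m.f ⊥ ⊤ 2 := card_pos.2 ⟨e, he⟩
  have h4 : 4 * m.f ⊥ ⊤ 2 ≤ m.f ⊥ ⊤ 1 * g e := by
    rw [smul_eq_mul] at h2
    apply Nat.le_of_mul_le_mul_left _ hpos
    calc m.f ⊥ ⊤ 2 * (4 * m.f ⊥ ⊤ 2) = (2 * m.f ⊥ ⊤ 2) ^ 2 := by ring
      _ ≤ _ := h3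
      _ ≤ m.f ⊥ ⊤ 1 * (m.f ⊥ ⊤ 2 * g e) := Nat.mul_le_mul_left _ h2
      _ = _ := by ring
  have hρ := (mem_I.1 he).2.2
  obtain ⟨v, -, a1, a2⟩ := m.exists_rank' (k := 1) (bot_le (a := e)) (by omega) (by omega)
  obtain ⟨w, -, b1, b2, b3, b4⟩ := m.other bot_le a1 (by omega) (by omega)
  have e1 : w ⊔ v = e := m.sup_eq_of b1 a1 (m.not_le_of_ne (by omega) b3.symm) (by omega)
  refine ⟨v, w, a2, by omega, e1 ▸ hρ, ?_⟩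
  have e2 : (m.I ⊥ ⊤ 1).filter (fun u => u ≤ e) = {v, w} := by
    ext u
    simp only [mem_filter, mem_I, bot_le, le_top, true_and, mem_insert, mem_singleton]
    refine ⟨fun h => b4 u bot_le h.2 (by omega), ?_⟩
    rintro (rfl | rfl)
    · exact ⟨a2, a1⟩
    · exact ⟨by omega, b1⟩
  simp only [hg, e2, sum_pair b3.symm] at h4
  exact h4

theorem gubt (h0 : m.ρ ⊥ = 0) (h6 : m.ρ ⊤ = 6)
    (hord : ∀ v w, m.ρ v = 1 → m.ρ w = 1 → ∃ φ, Good m.ρ m.Re ⊤ φ ∧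
      (∀ F F', Cv m.ρ F ⊤ → Cv m.ρ F' ⊤ → v ≤ F → ¬ v ≤ F' → φ F < φ F') ∧
      (∀ F F', Cv m.ρ F ⊤ → Cv m.ρ F' ⊤ → w ≤ F → ¬ v ≤ F → ¬ w ≤ F' → φ F' < φ F))
    (n : ℤ) (hn : 6 ≤ n) (hM : (n - 3) * (n - 4) ≤ m.f ⊥ ⊤ 5) :
    n ≤ m.f ⊥ ⊤ 1 ∧ n * (n - 1) ≤ 2 * m.f ⊥ ⊤ 2 ∧ 2 * n ^ 2 - 12 * n + 20 ≤ m.f ⊥ ⊤ 3 ∧
      5 * ((n - 3) * (n - 4)) ≤ 2 * m.f ⊥ ⊤ 4 := by
  obtain ⟨v, w, hv, hw, hvw, hD⟩ := m.good_edge h0 h6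
  obtain ⟨φ, hG, o1, o2⟩ := hord v w hv hw
  obtain ⟨i1, i2⟩ := m.main_ineq h0 h6 hv hw hvw hG o1 o2
  have hN := m.atoms_ge (k := 1) (x := ⊥) (by omega) 6 ⊤ le_top (by omega)
  have hE := m.edges_le h0
  have hEu := m.euler6 (le_top (a := ⊥)) h0 h6
  have hR := card_nsmul_le_sum (m.I ⊥ ⊤ 5) (fun F => m.f ⊥ F 4) 5
    (fun F hF => m.coatoms_ge (by have := (mem_I.1 hF).2.2; omega) 5 ⊥ bot_le
      (by have := (mem_I.1 hF).2.2; omega))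
  rw [m.ridges_facets h6, smul_eq_mul, ← f] at hR
  norm_num at hEu
  generalize m.f v ⊤ 2 + m.f w ⊤ 2 = D at *
  have k1 := arith_edges n (m.f ⊥ ⊤ 1) D (m.f ⊥ ⊤ 2) (m.f ⊥ ⊤ 5) hn (by exact_mod_cast hN)
    (by positivity) hM (by exact_mod_cast i1) (by exact_mod_cast hD)
  have k2 := arith_sum n (m.f ⊥ ⊤ 1) D (m.f ⊥ ⊤ 2) hn (by positivity) (by positivity) k1
    (by exact_mod_cast hD)
  refine ⟨?_, k1, ?_, ?_⟩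
  · by_contra hc
    have h1 : (m.f ⊥ ⊤ 1 : ℤ) ≤ n - 1 := by omega
    have h2 : 2 * (m.f ⊥ ⊤ 2 : ℤ) + m.f ⊥ ⊤ 1 ≤ m.f ⊥ ⊤ 1 * m.f ⊥ ⊤ 1 := by exact_mod_cast hE
    have h3 : (6 : ℤ) ≤ m.f ⊥ ⊤ 1 := by exact_mod_cast hN
    nlinarith
  · have : 2 * n ^ 2 - 12 * n + 20 = 2 * ((n - 3) * (n - 4)) + 2 * n - 4 := by ring
    omega
  · omega

end ML

end Pool.Agent.Lib.MP_c8fb4d_co
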