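import Pool.Agent.Lib.MP_c8fb4d_co.Bridge
import Pool.Agent.Lib.MP_c8fb4d_co.Final

/-!
Face numbers of the five-dimensional cyclic polytope.
-/

namespace Pool.Agent.Lib.MP_c8fb4d_co

open Module Finset Polynomial
open scoped Classical

theorem poly_cov {d : ℕ} (q : ℝ[X]) (hq : q.natDegree ≤ d) :
    ∃ y : ℝ × EuclideanSpace ℝ (Fin d) →ₗ[ℝ] ℝ, ∀ t, y (1, moment d t) = q.eval t := by
  refine ⟨q.coeff 0 • LinearMap.fst ℝ _ _ + ∑ j : Fin d, q.coeff (j.val + 1) •
    ((EuclideanSpace.projₗ j : EuclideanSpace ℝ (Fin d) →ₗ[ℝ] ℝ) ∘ₗ LinearMap.snd ℝ _ _),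
    fun t => ?_⟩
  rw [eval_eq_sum_range' (Nat.lt_succ_of_le hq), sum_range_succ',
    ← Fin.sum_univ_eq_sum_range (fun j => q.coeff (j + 1) * t ^ (j + 1))]
  simp [moment, LinearMap.sum_apply, add_comm]

/-- The vertices of the cyclic polytope. -/
noncomputable def cyc (d n : ℕ) (i : Fin n) : EuclideanSpace ℝ (Fin d) := moment d (i.val : ℝ)

theorem prod_cov {d n : ℕ} (s : Multiset (Fin n)) (hs : s.card ≤ d) :
    ∃ y : ℝ × EuclideanSpace ℝ (Fin d) →ₗ[ℝ] ℝ, ∀ i : Fin n,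
      y (hom (cyc d n) i) = (s.map fun j => ((i.val : ℝ) - j.val)).prod := by
  obtain ⟨y, hy⟩ := poly_cov (d := d) (s.map fun j => X - C (j.val : ℝ)).prod (by
    have := natDegree_multiset_prod_X_sub_C_eq_card (s.map fun j => (j.val : ℝ))
    rw [Multiset.map_map, Multiset.card_map] at this
    exact this.le.trans hs)
  refine ⟨y, fun i => ?_⟩
  rw [hom, cyc, hy, eval_multiset_prod, Multiset.map_map]
  simp

theorem rk_cyc {d n : ℕ} (F : Finset (Fin n)) (hF : F.card ≤ d + 1) :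
    rk (hom (cyc d n)) F = F.card := by
  induction F using Finset.induction_on with
  | empty => simpa using rk_empty
  | insert i F hi ih =>
    rw [card_insert_of_notMem hi] at hF ⊢
    have h1 : sp (hom (cyc d n)) (insert i F) =
        sp (hom (cyc d n)) F ⊔ Submodule.span ℝ {hom (cyc d n) i} := by
      rw [sp, coe_insert, Set.image_insert_eq, Submodule.span_insert, sup_comm, sp]
    obtain ⟨y, hy⟩ := prod_cov (d := d) F.val (by simpa using hF)
    have h2 : hom (cyc d n) i ∉ sp (hom (cyc d n)) F := by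
      intro h
      have := eq_zero_of_sp (y := y) (fun j hj => by
        rw [hy]
        exact Multiset.prod_eq_zero (Multiset.mem_map.2 ⟨j, hj, sub_self _⟩)) h
      rw [hy, Multiset.prod_eq_zero_iff, Multiset.mem_map] at this
      obtain ⟨j, hj, e⟩ := this
      have : i = j := Fin.ext (by exact_mod_cast sub_eq_zero.1 e)
      exact hi (this ▸ hj)
    rw [rk, h1, Submodule.finrank_sup_span_singleton h2, ← ih (by omega), rk]

theorem card_of_rk {d n k : ℕ} {F : Finset (Fin n)} (h : rk (hom (cyc d n)) F = k) (hk : k ≤ d) :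
    F.card = k := by
  by_cases hF : F.card ≤ d + 1
  · rw [← rk_cyc F hF, h]
  · obtain ⟨G, h1, h2⟩ := exists_subset_card_eq (s := F) (n := d + 1) (by omega)
    have h3 := rk_cyc (d := d) G h2.le
    have h4 : rk (hom (cyc d n)) G ≤ rk (hom (cyc d n)) F := Submodule.finrank_mono (sp_mono h1)
    omega

theorem isFace_cyc {d n : ℕ} (F : Finset (Fin n)) (hF : 2 * F.card ≤ d) :
    IsFace (hom (cyc d n)) F := by
  obtain ⟨y, hy⟩ := prod_cov (d := d) (F.val + F.val) (by simp; omega)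
  refine ⟨y, fun i => ?_, fun i => ?_⟩
  · rw [hy, Multiset.map_add, Multiset.prod_add]
    exact mul_self_nonneg _
  · rw [hy, Multiset.map_add, Multiset.prod_add, mul_self_eq_zero, Multiset.prod_eq_zero_iff,
      Multiset.mem_map]
    constructor
    · intro h
      exact ⟨i, h, sub_self _⟩
    · rintro ⟨j, hj, e⟩
      have : i = j := Fin.ext (by exact_mod_cast sub_eq_zero.1 e)
      exact this ▸ hj

theorem f_cyc_le {d n k : ℕ} (hk : k ≤ d) (G : Face (hom (cyc d n))) :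
    (faceML (hom (cyc d n))).f ⊥ G k ≤ G.1.card.choose k := by
  rw [← card_powersetCard]
  refine card_le_card_of_injOn (fun F => F.1) (fun F hF => ?_) fun F _ F' _ e => Subtype.ext e
  obtain ⟨-, a, b⟩ := ML.mem_I.1 hF
  exact mem_coe.2 (mem_powersetCard.2 ⟨a, card_of_rk b hk⟩)

theorem f_cyc_eq {d n k : ℕ} (hk : 2 * k ≤ d) (G : Face (hom (cyc d n))) :
    (faceML (hom (cyc d n))).f ⊥ G k = G.1.card.choose k := by
  refine le_antisymm (f_cyc_le (by omega) G) ?_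
  rw [← card_powersetCard]
  refine card_le_card_of_surjOn (fun F => F.1) fun s hs => ?_
  obtain ⟨a, b⟩ := mem_powersetCard.1 (mem_coe.1 hs)
  refine ⟨⟨s, isFace_cyc s (by omega)⟩, mem_coe.2 (ML.mem_I.2 ⟨bot_le, a, ?_⟩), rfl⟩
  change rk _ s = k
  rw [rk_cyc s (by omega), b]

theorem frk_top_cyc {d n : ℕ} (hn : d + 1 ≤ n) : frk (hom (cyc d n)) ⊤ = d + 1 := by
  obtain ⟨G, h1, h2⟩ := exists_subset_card_eq (s := (univ : Finset (Fin n))) (n := d + 1)
    (by simpa using hn)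
  have h3 := rk_cyc (d := d) G h2.le
  have h4 : rk (hom (cyc d n)) G ≤ rk (hom (cyc d n)) univ := Submodule.finrank_mono (sp_mono h1)
  have h5 : rk (hom (cyc d n)) univ ≤ finrank ℝ (ℝ × EuclideanSpace ℝ (Fin d)) :=
    Submodule.finrank_le _
  rw [finrank_prod, finrank_self, finrank_euclideanSpace_fin] at h5
  change rk _ univ = _
  omega

theorem cyclic_five {n : ℕ} (hn : 6 ≤ n) :
    (faceNumber (cyclicPolytope 5 n) 0 : ℤ) = n ∧
    2 * (faceNumber (cyclicPolytope 5 n) 1 : ℤ) = n * (n - 1) ∧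
    (faceNumber (cyclicPolytope 5 n) 2 : ℤ) = 2 * n ^ 2 - 12 * n + 20 ∧
    2 * (faceNumber (cyclicPolytope 5 n) 3 : ℤ) = 5 * ((n - 3) * (n - 4)) ∧
    (faceNumber (cyclicPolytope 5 n) 4 : ℤ) = (n - 3) * (n - 4) := by
  have e : ∀ k, faceNumber (cyclicPolytope 5 n) k = (faceML (hom (cyc 5 n))).f ⊥ ⊤ (k + 1) :=
    faceNumber_eq (cyc 5 n)
  simp only [e]
  set m := faceML (hom (cyc 5 n)) with hm
  have h0 : m.ρ ⊥ = 0 := frk_bot (hom_empty _)
  have h6 : m.ρ ⊤ = 6 := frk_top_cyc hn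
  have htop : (⊤ : Face (hom (cyc 5 n))).1.card = n := by
    change (univ : Finset (Fin n)).card = n
    simp
  have a1 : m.f ⊥ ⊤ 1 = n := by rw [f_cyc_eq (by omega), htop, Nat.choose_one_right]
  have a2 : m.f ⊥ ⊤ 2 = n.choose 2 := by rw [f_cyc_eq (by omega), htop]
  have a3 := m.euler6 (le_top (a := ⊥)) h0 h6
  have a4 := m.ridges_facets h6 ⊥
  rw [m.sum_f_two (l := 5) (fun F hF => by
    have h := (ML.mem_I.1 hF).2.2
    have h1 := f_cyc_le (k := 4) (by omega) F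
    rw [card_of_rk h le_rfl, ← hm] at h1
    exact le_antisymm h1 (m.coatoms_ge (by omega) 5 ⊥ bot_le (by omega)))] at a4
  have b : ∀ l, l ≤ 5 → ∑ z ∈ m.I ⊥ ⊤ 2, m.f z ⊤ l = l.choose 2 * m.f ⊥ ⊤ l := by
    intro l hl
    rw [m.double_f]
    exact m.sum_f_two fun G hG => by
      rw [f_cyc_eq (by omega), card_of_rk (ML.mem_I.1 hG).2.2 hl]
  have a5 : ∑ z ∈ m.I ⊥ ⊤ 2, (m.f z ⊤ 3 + m.f z ⊤ 5) = ∑ z ∈ m.I ⊥ ⊤ 2, (m.f z ⊤ 4 + 2) :=
    sum_congr rfl fun z hz => m.euler4 le_top (ML.mem_I.1 hz).2.2 h6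
  rw [sum_add_distrib, sum_add_distrib, b 3 (by omega), b 4 (by omega), b 5 (by omega), sum_const,
    smul_eq_mul, ← ML.f] at a5
  have a6 : 2 * (n.choose 2 : ℤ) = n * (n - 1) := by
    have := Nat.cast_choose_two ℚ n
    have h : (2 : ℚ) * (n.choose 2 : ℚ) = n * (n - 1) := by rw [this]; ring
    exact_mod_cast h
  norm_num [Nat.choose] at a3 a5 ⊢
  have r1 : (2 * n ^ 2 - 12 * n + 20 : ℤ) = 2 * (n * (n - 1)) - 10 * n + 20 := by ring
  have r2 : ((n - 3) * (n - 4) : ℤ) = n * (n - 1) - 6 * n + 12 := by ring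
  rw [r1, r2, ← a6]
  omega

end Pool.Agent.Lib.MP_c8fb4d_co
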