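import Mathlib

/-!
Face numbers of convex polytopes and cyclic polytopes.
-/

namespace Pool.Agent.Lib.MP_c8fb4d_co

/-- The number of `k`-dimensional faces of a convex set `P`: nonempty exposed subsets of `P` whose
affine hull has dimension `k`. -/
noncomputable def faceNumber {d : ℕ} (P : Set (EuclideanSpace ℝ (Fin d))) (k : ℕ) : ℕ :=
  Set.ncard {F : Set (EuclideanSpace ℝ (Fin d)) |
    IsExposed ℝ P F ∧ F.Nonempty ∧ Module.finrank ℝ (vectorSpan ℝ F) = k}

/-- The point `(t, t ^ 2, ..., t ^ d)` of the moment curve. -/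
noncomputable def moment (d : ℕ) (t : ℝ) : EuclideanSpace ℝ (Fin d) :=
  WithLp.toLp 2 fun j => t ^ (j.val + 1)

/-- The cyclic polytope `C(d, n)`: the convex hull of the points of the moment curve with
parameters `0, 1, ..., n - 1`. -/
noncomputable def cyclicPolytope (d n : ℕ) : Set (EuclideanSpace ℝ (Fin d)) :=
  convexHull ℝ (Set.range fun i : Fin n => moment d (i.val : ℝ))

end Pool.Agent.Lib.MP_c8fb4d_co
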