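import Pool.Agent.Lib.MP_c8fb4d_co.Eul

/-!
Incidence signs for a lattice with Morse functions.
-/

namespace Pool.Agent.Lib.MP_c8fb4d_co.Rep

open Finset
open scoped Classical

variable {L : Type} [Lattice L] [Fintype L] [BoundedOrder L]

theorem sg_sum2 {α : Type} (u : Finset α) (g : α → ℤ)
    (h : ∀ z ∈ u, ∃ w ∈ u, w ≠ z ∧ (∀ v ∈ u, v = z ∨ v = w) ∧ g z + g w = 0) :
    ∑ z ∈ u, g z = 0 := by
  rcases u.eq_empty_or_nonempty with rfl | ⟨z, hz⟩
  · simp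
  · obtain ⟨w, hw, hne, hall, h0⟩ := h z hz
    have : u = {z, w} := by
      ext v
      simp only [mem_insert, mem_singleton]
      exact ⟨hall v, by rintro (rfl | rfl) <;> assumption⟩
    rw [this, sum_pair hne.symm, h0]

theorem sg_alg {a b f f' t t' : ℤ} (hf : f = 1 ∨ f = -1) (hf' : f' = 1 ∨ f' = -1)
    (ht : t = 1 ∨ t = -1) (ht' : t' = 1 ∨ t' = -1) (h1 : a * t + b * t' = 0)
    (h2 : f * t + f' * t' = 0) : -(a * f) = -(b * f') := by
  rcases hf with rfl | rfl <;> rcases hf' with rfl | rfl <;> rcases ht with rfl | rfl <;>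
    rcases ht' with rfl | rfl <;> linarith

omit [BoundedOrder L] in
/-- The partner in an interval of length two. -/
theorem sg_other (m : ML L) {x y z : L} (h1 : Cv m.ρ x z) (h2 : Cv m.ρ z y) :
    ∃ w, Cv m.ρ x w ∧ Cv m.ρ w y ∧ w ≠ z ∧ ∀ u, Cv m.ρ x u → Cv m.ρ u y → u = z ∨ u = w := by
  have a1 := h1.2
  have a2 := h2.2
  obtain ⟨w, b1, b2, b3, b4, b5⟩ := m.other h1.1 h2.1 (by omega) (by omega)
  exact ⟨w, ⟨b1, by omega⟩, ⟨b2, by omega⟩, b4, fun u c1 c2 => b5 u c1.1 c2.1 c1.2.symm⟩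

/-- Lower sets of a Morse function are connected through ridges. -/
theorem sg_conn (m : ML L) {F : L} {ψ : L → ℝ} (hψ : Good m.ρ m.Re F ψ) (Q : L → Prop) (v : L → ℤ)
    (hQ : ∀ R R', Cv m.ρ R F → Cv m.ρ R' F → Q R → ψ R' < ψ R → Q R')
    (hv : ∀ T R R', Cv m.ρ T R → Cv m.ρ T R' → Cv m.ρ R F → Cv m.ρ R' F → Q R → Q R' →
      R ≠ R' → v R = v R') :
    ∃ R₀, ∀ R, Cv m.ρ R F → Q R → v R = v R₀ := by
  obtain ⟨hinj, hgood⟩ := hψ
  rcases (univ.filter fun R => Cv m.ρ R F).eq_empty_or_nonempty with h | h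
  · refine ⟨F, fun R hR _ => ?_⟩
    have : R ∈ univ.filter fun R => Cv m.ρ R F := by simp [hR]
    rw [h] at this
    simp at this
  obtain ⟨R₀, h0, hmin⟩ := exists_min_image _ ψ h
  simp only [mem_filter, mem_univ, true_and] at h0 hmin
  refine ⟨R₀, ?_⟩
  by_contra hcon
  push Not at hcon
  obtain ⟨R₁, a1, a2, a3⟩ := hcon
  obtain ⟨R, hR, hleast⟩ := exists_min_image
    (univ.filter fun R => Cv m.ρ R F ∧ Q R ∧ v R ≠ v R₀) ψ ⟨R₁, by simp [a1, a2, a3]⟩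
  simp only [mem_filter, mem_univ, true_and] at hR hleast
  obtain ⟨b1, b2, b3⟩ := hR
  obtain ⟨P, -, hP⟩ := hgood R b1
  have h1 : ¬ ∀ T, Cv m.ρ T R → ⊥ ≤ T → P T := fun hh => by
    have h2 := (hP ⊥ bot_le).1.1 hh R₀ h0 bot_le
    exact b3 (congrArg v (hinj R R₀ b1 h0 (le_antisymm h2 (hmin R b1))))
  push Not at h1
  obtain ⟨T, c1, -, c2⟩ := h1
  have h2 : ¬ ∀ R', Cv m.ρ R' F → T ≤ R' → ψ R ≤ ψ R' := fun hh =>
    c2 ((hP T c1.1).1.2 hh T c1 le_rfl)
  push Not at h2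
  obtain ⟨R', d1, d2, d3⟩ := h2
  have d4 := hQ R R' b1 d1 b2 d3
  have d5 : Cv m.ρ T R' := ⟨d2, by have := c1.2; have := b1.2; have := d1.2; omega⟩
  have d6 : R ≠ R' := fun e => by rw [e] at d3; exact lt_irrefl _ d3
  have d7 : v R' ≠ v R₀ := fun e => b3 ((hv T R R' c1 d5 b1 d1 b2 d4 d6).trans e)
  exact absurd (hleast R' ⟨d1, d4, d7⟩) (not_le.2 d3)

omit [BoundedOrder L] in
/-- The boundary of the boundary around a face of corank three. -/
theorem sg_pair (m : ML L) (ε : L → L → ℤ) {π F T R R' F₁ F₂ : L} (s : Finset L) (c : L → ℤ)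
    (hdia : ∀ τ σ σ' π', m.ρ π' < m.ρ π → Cv m.ρ τ σ → Cv m.ρ τ σ' → Cv m.ρ σ π' →
      Cv m.ρ σ' π' → σ ≠ σ' → ε π' σ * ε σ τ + ε π' σ' * ε σ' τ = 0)
    (hs : ∀ x ∈ s, Cv m.ρ x π) (hF : Cv m.ρ F π) (hFs : F ∉ s)
    (hc : ∀ τ σ σ', σ ∈ s → σ' ∈ s → Cv m.ρ τ σ → Cv m.ρ τ σ' → σ ≠ σ' →
      c σ * ε σ τ + c σ' * ε σ' τ = 0)
    (hmax : ∀ w, Cv m.ρ w π → T ≤ w → w = F ∨ w ∈ s)
    (h1 : Cv m.ρ T R) (h2 : Cv m.ρ T R') (h3 : Cv m.ρ R F) (h4 : Cv m.ρ R' F) (hne : R ≠ R')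
    (h5 : F₁ ∈ s) (h6 : Cv m.ρ R F₁) (h7 : F₂ ∈ s) (h8 : Cv m.ρ R' F₂) :
    c F₁ * ε F₁ R * ε R T + c F₂ * ε F₂ R' * ε R' T = 0 := by
  set U := univ.filter fun r => Cv m.ρ T r with hU
  have e1 : ∑ σ ∈ s, ∑ r ∈ U.filter (fun r => Cv m.ρ r σ), c σ * ε σ r * ε r T = 0 := by
    refine sum_eq_zero fun σ hσ => sg_sum2 _ _ fun z hz => ?_
    simp only [hU, mem_filter, mem_univ, true_and] at hz ⊢
    obtain ⟨w, a1, a2, a3, a4⟩ := sg_other m hz.1 hz.2
    refine ⟨w, ⟨a1, a2⟩, a3, fun v hv => a4 v hv.1 hv.2, ?_⟩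
    have := hdia T z w σ (by have := (hs σ hσ).2; omega) hz.1 a1 hz.2 a2 a3.symm
    linear_combination c σ * this
  have e2 : ∑ r ∈ U, ∑ σ ∈ s.filter (fun σ => Cv m.ρ r σ), c σ * ε σ r * ε r T = 0 := by
    simp only [sum_filter] at e1 ⊢
    rw [sum_comm]
    exact e1
  have one : ∀ r G, Cv m.ρ r F → G ∈ s → Cv m.ρ r G → s.filter (fun σ => Cv m.ρ r σ) = {G} := by
    intro r G a1 a2 a3
    obtain ⟨w, -, -, -, b⟩ := sg_other m a1 hF
    have key : ∀ u ∈ s, Cv m.ρ r u → u = w := fun u hu hr =>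
      (b u hr (hs u hu)).resolve_left fun e => hFs (e ▸ hu)
    refine eq_singleton_iff_unique_mem.2 ⟨mem_filter.2 ⟨a2, a3⟩, fun u hu => ?_⟩
    rw [key u (mem_filter.1 hu).1 (mem_filter.1 hu).2, key G a2 a3]
  rw [sum_eq_add_of_mem R R' (by simp [hU, h1]) (by simp [hU, h2]) hne, one R F₁ h3 h5 h6,
    one R' F₂ h4 h7 h8, sum_singleton, sum_singleton] at e2
  · exact e2
  intro r hr hrr
  have hr' : Cv m.ρ T r := by simpa [hU] using hr
  refine sg_sum2 _ _ fun z hz => ?_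
  obtain ⟨z1, z2⟩ := mem_filter.1 hz
  obtain ⟨w, a1, a2, a3, a4⟩ := sg_other m z2 (hs z z1)
  have hw : w ∈ s := by
    refine (hmax w a2 (hr'.1.trans a1.1)).resolve_left fun e => ?_
    obtain ⟨u, -, -, -, b⟩ := sg_other m h1 h3
    have b1 := (b r hr' (e ▸ a1)).resolve_left hrr.1
    have b2 := (b R' h2 h4).resolve_left hne.symm
    exact hrr.2 (b1.trans b2.symm)
  refine ⟨w, mem_filter.2 ⟨hw, a1⟩, a3,
    fun v hv => a4 v (mem_filter.1 hv).2 (hs v (mem_filter.1 hv).1), ?_⟩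
  have := hc r z w z1 hw z2 a1 a3.symm
  linear_combination ε r T * this

/-- Signs for the facets of one face. -/
theorem sg_cell (m : ML L) (ε : L → L → ℤ) (hε : ∀ G G', ε G G' = 1 ∨ ε G G' = -1) (π : L)
    (hdia : ∀ τ σ σ' π', m.ρ π' < m.ρ π → Cv m.ρ τ σ → Cv m.ρ τ σ' → Cv m.ρ σ π' →
      Cv m.ρ σ' π' → σ ≠ σ' → ε π' σ * ε σ τ + ε π' σ' * ε σ' τ = 0) :
    ∃ c : L → ℤ, (∀ G, c G = 1 ∨ c G = -1) ∧ ∀ τ σ σ', Cv m.ρ σ π → Cv m.ρ σ' π →
      Cv m.ρ τ σ → Cv m.ρ τ σ' → σ ≠ σ' → c σ * ε σ τ + c σ' * ε σ' τ = 0 := by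
  obtain ⟨φ, ⟨hinj, hgood⟩, -⟩ := m.refine π _ (m.re_true π)
  have main : ∀ s : Finset L, (∀ x ∈ s, Cv m.ρ x π) →
      (∀ x ∈ s, ∀ y, Cv m.ρ y π → φ y ≤ φ x → y ∈ s) →
      ∃ c : L → ℤ, (∀ G, c G = 1 ∨ c G = -1) ∧ ∀ τ σ σ', σ ∈ s → σ' ∈ s →
        Cv m.ρ τ σ → Cv m.ρ τ σ' → σ ≠ σ' → c σ * ε σ τ + c σ' * ε σ' τ = 0 := by
    intro s
    induction s using Finset.induction_on_max_value φ with
    | empty => exact fun _ _ => ⟨fun _ => 1, fun _ => Or.inl rfl, fun _ _ _ h => absurd h (by simp)⟩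
    | insert F s hFs hle ih =>
      intro hcv hdown
      have hF : Cv m.ρ F π := hcv F (mem_insert_self _ _)
      have hs : ∀ x ∈ s, Cv m.ρ x π := fun x hx => hcv x (mem_insert_of_mem hx)
      have hlt : ∀ x ∈ s, φ x < φ F := fun x hx => lt_of_le_of_ne (hle x hx) fun e =>
        hFs (hinj x F (hs x hx) hF e ▸ hx)
      obtain ⟨c, hc1, hc⟩ := ih hs fun x hx y hy hxy =>
        (mem_insert.1 (hdown x (mem_insert_of_mem hx) y hy hxy)).resolve_left fun e =>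
          absurd (hlt x hx) (not_lt.2 (e ▸ hxy))
      obtain ⟨P, hP, hloc⟩ := hgood F hF
      obtain ⟨ψ, hψ, hψP⟩ := m.refine F P hP
      choose! o o1 o2 o3 o4 using fun R (hR : Cv m.ρ R F) => sg_other m hR hF
      have oeq : ∀ R, Cv m.ρ R F → ∀ u ∈ s, Cv m.ρ R u → u = o R := fun R hR u hu hr =>
        (o4 R hR u hr (hs u hu)).resolve_left fun e => hFs (e ▸ hu)
      have old : ∀ R, Cv m.ρ R F → (o R ∈ s ↔ ¬ P R) := by
        intro R hR
        constructor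
        · intro h hp
          refine absurd (hlt _ h) (not_lt.2 ((hloc R hR.1).1.1 (fun R' a b => ?_) _ (o2 R hR)
            (o1 R hR).1))
          rwa [← m.eq_of_ρ b (by have := a.2; have := hR.2; omega)]
        · intro hp
          have h1 : ¬ ∀ F', Cv m.ρ F' π → R ≤ F' → φ F ≤ φ F' := fun hh =>
            hp ((hloc R hR.1).1.2 hh R hR le_rfl)
          push Not at h1
          obtain ⟨F', a, b, d⟩ := h1
          have h2 : F' ∈ s := (mem_insert.1 (hdown F (mem_insert_self _ _) F' a d.le)).resolve_left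
            fun e => by rw [e] at d; exact lt_irrefl _ d
          rwa [← oeq R hR F' h2 ⟨b, by have := a.2; have := hR.2; have := hF.2; omega⟩]
      obtain ⟨R₀, hR₀⟩ := sg_conn m hψ (fun R => o R ∈ s)
        (fun R => -(c (o R) * ε (o R) R * ε F R))
        (fun R R' a b d e => by
          rw [old R a, hψP R a] at d
          rw [old R' b, hψP R' b]
          exact fun h => d (h.trans e))
        (fun T R R' a1 a2 a3 a4 a5 a6 a7 => by
          refine sg_alg (hε F R) (hε F R') (hε R T) (hε R' T)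
            (sg_pair m ε s c hdia hs hF hFs hc (fun w hw hT => ?_) a1 a2 a3 a4 a7 a5 (o1 R a3) a6
              (o1 R' a4))
            (hdia T R R' F (by have := hF.2; omega) a1 a2 a3 a4 a7)
          refine mem_insert.1 (hdown F (mem_insert_self _ _) w hw
            ((hloc T (a1.1.trans a3.1)).2.1 (fun r b1 b2 => ?_) w hw hT))
          obtain ⟨u, -, -, -, b⟩ := sg_other m a1 a3
          have b3 := (b R' a2 a4).resolve_left a7.symm
          rcases b r ⟨b2, by have := a1.2; have := a3.2; have := b1.2; omega⟩ b1 with e | e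
          · exact e ▸ (old R a3).1 a5
          · exact (e.trans b3.symm) ▸ (old R' a4).1 a6)
      have new : ∀ τ, ∀ σ ∈ s, Cv m.ρ τ F → Cv m.ρ τ σ →
          -(c (o R₀) * ε (o R₀) R₀ * ε F R₀) * ε F τ + c σ * ε σ τ = 0 := by
        intro τ σ a b d
        have e := oeq τ b σ a d
        have h1 := hR₀ τ b (e ▸ a)
        rw [← h1, ← e]
        rcases hε F τ with h | h <;> rw [h] <;> ring
      have upd : ∀ (x : ℤ), ∀ σ ∈ s, Function.update c F x σ = c σ := fun x σ hσ =>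
        Function.update_of_ne (fun e : σ = F => hFs (e ▸ hσ)) _ _
      refine ⟨Function.update c F (-(c (o R₀) * ε (o R₀) R₀ * ε F R₀)), fun G => ?_,
        fun τ σ σ' a b d e hne => ?_⟩
      · by_cases h : G = F
        · rw [h, Function.update_self]
          rcases hc1 (o R₀) with h1 | h1 <;> rcases hε (o R₀) R₀ with h2 | h2 <;>
            rcases hε F R₀ with h3 | h3 <;> simp [h1, h2, h3]
        · rw [Function.update_of_ne h]
          exact hc1 G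
      · rcases mem_insert.1 a with a' | a' <;> rcases mem_insert.1 b with b' | b'
        · exact absurd (a'.trans b'.symm) hne
        · subst a'
          rw [Function.update_self, upd _ _ b']
          exact new τ σ' b' d e
        · subst b'
          rw [Function.update_self, upd _ _ a', add_comm]
          exact new τ σ a' e d
        · rw [upd _ _ a', upd _ _ b']
          exact hc τ σ σ' a' b' d e hne
  obtain ⟨c, h1, h2⟩ := main (univ.filter fun x => Cv m.ρ x π) (fun x hx => (mem_filter.1 hx).2)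
    fun _ _ y hy _ => by simp [hy]
  exact ⟨c, h1, fun τ σ σ' a b => h2 τ σ σ' (by simp [a]) (by simp [b])⟩

theorem sg_level (m : ML L) (k : ℕ) : ∃ ε : L → L → ℤ, (∀ G G', ε G G' = 1 ∨ ε G G' = -1) ∧
    ∀ τ σ σ' π, m.ρ π < k → Cv m.ρ τ σ → Cv m.ρ τ σ' → Cv m.ρ σ π → Cv m.ρ σ' π → σ ≠ σ' →
      ε π σ * ε σ τ + ε π σ' * ε σ' τ = 0 := by
  induction k with
  | zero => exact ⟨fun _ _ => 1, fun _ _ => Or.inl rfl, fun _ _ _ _ h => absurd h (by omega)⟩
  | succ k ih =>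
    obtain ⟨ε, h1, h2⟩ := ih
    choose! c c1 c2 using fun π (hπ : m.ρ π = k) => sg_cell m ε h1 π (hπ ▸ h2)
    refine ⟨fun G => if m.ρ G = k then c G else ε G, fun G G' => ?_,
      fun τ σ σ' π hπ a b d e hne => ?_⟩
    · by_cases h : m.ρ G = k
      · simp only [if_pos h]
        exact c1 G h G'
      · simp only [if_neg h]
        exact h1 G G'
    · have hσ : m.ρ σ ≠ k := by have := d.2; omega
      have hσ' : m.ρ σ' ≠ k := by have := e.2; omega
      by_cases h : m.ρ π = k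
      · simp only [if_pos h, if_neg hσ, if_neg hσ']
        exact c2 π h τ σ σ' d e a b hne
      · simp only [if_neg h, if_neg hσ, if_neg hσ']
        exact h2 τ σ σ' π (by omega) a b d e hne

theorem exists_sign (m : ML L) : ∃ ε : L → L → ℤ,
    (∀ G G', Cv m.ρ G' G → ε G G' = 1 ∨ ε G G' = -1) ∧
    ∀ τ σ σ' π, Cv m.ρ τ σ → Cv m.ρ τ σ' → Cv m.ρ σ π → Cv m.ρ σ' π → σ ≠ σ' →
      ε π σ * ε σ τ + ε π σ' * ε σ' τ = 0 := by
  obtain ⟨ε, h1, h2⟩ := sg_level m (m.ρ ⊤ + 1)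
  exact ⟨ε, fun G G' _ => h1 G G', fun τ σ σ' π =>
    h2 τ σ σ' π (by have := m.ρ_le (le_top (a := π)); omega)⟩

end Pool.Agent.Lib.MP_c8fb4d_co.Rep
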