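import Pool.Agent.Lib.MP_c8fb4d_co.Eul

/-!
Lattices with Morse functions whose proper elements are represented by subspaces.
-/

namespace Pool.Agent.Lib.MP_c8fb4d_co.Rep

open Module

/-- A representation of the elements other than the top by subspaces, with incidence signs. -/
structure Rp (L K E : Type) [Lattice L] [BoundedOrder L] [Field K] [AddCommGroup E]
    [Module K E] where
  m : ML L
  ne : (⊥ : L) ≠ ⊤
  bot : m.ρ ⊥ = 0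
  sp : L → Submodule K E
  sp_top : sp ⊤ = ⊥
  mono : ∀ x y, x ≤ y → y ≠ ⊤ → sp x ≤ sp y
  rank : ∀ x, x ≠ ⊤ → finrank K (sp x) = m.ρ x
  sep : ∀ B σ σ', Cv m.ρ B σ → Cv m.ρ B σ' → m.ρ σ + 2 ≤ m.ρ ⊤ → sp σ = sp σ' → σ = σ'
  ε : L → L → K
  ε_ne : ∀ G G', Cv m.ρ G' G → ε G G' ≠ 0
  ε_dia : ∀ τ σ σ' π, Cv m.ρ τ σ → Cv m.ρ τ σ' → Cv m.ρ σ π → Cv m.ρ σ' π → σ ≠ σ' →
    ε π σ * ε σ τ + ε π σ' * ε σ' τ = 0

end Pool.Agent.Lib.MP_c8fb4d_co.Rep
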