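import Pool.Agent.Lib.MP_c8fb4d_co.SphGeo

/-!
A thin shellable graded lattice carries Morse functions.
-/

namespace Pool.Agent.Lib.MP_c8fb4d_co.Sph

open Finset
open scoped Classical

section Aux

variable {L : Type} [Lattice L] {ρ : L → ℕ}

theorem ml_un {H F : L} {φ : L → ℕ} (h : Sh ρ (ρ H) H φ) (hF : Cv ρ F H) :
    (∀ F F', Cv ρ F H → Cv ρ F' H → φ F = φ F' → F = F') ∧
      (∀ G, G < F → Old ρ H φ F G → ∃ R, Cv ρ R F ∧ G ≤ R ∧ Old ρ H φ F R) ∧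
      ∃ ψ, Sh ρ (ρ F) F ψ ∧
        ∀ R R', Cv ρ R F → Cv ρ R' F → Old ρ H φ F R → ¬ Old ρ H φ F R' → ψ R < ψ R' := by
  rw [← hF.2] at h
  exact ⟨h.1, h.2 F hF⟩

theorem ml_cv {R F F' H : L} (h1 : Cv ρ R F) (h2 : Cv ρ F H) (h3 : Cv ρ F' H) (h : R ≤ F') :
    Cv ρ R F' :=
  ⟨h, by have := h1.2; have := h2.2; have := h3.2; omega⟩

theorem ml_old (mono : ∀ x y, x < y → ρ x < ρ y) {H F F' G : L} {φ : L → ℕ}
    (h : Sh ρ (ρ H) H φ) (hF : Cv ρ F H) (hF' : Cv ρ F' H) (hG : G ≤ F) (hG' : G ≤ F')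
    (hl : φ F' < φ F) : ∃ R, Cv ρ R F ∧ G ≤ R ∧ Old ρ H φ F R := by
  refine (ml_un h hF).2.1 G (lt_of_le_of_ne hG fun e => ?_) ⟨F', hF', hl, hG'⟩
  subst e
  rcases eq_or_lt_of_le hG' with e | e
  · exact absurd hl (e ▸ lt_irrefl _)
  · have := mono _ _ e
    have := hF.2
    have := hF'.2
    omega

variable (dia : ∀ x z y, Cv ρ x z → Cv ρ z y → ∃ w, Cv ρ x w ∧ Cv ρ w y ∧ w ≠ z ∧
  ∀ u, Cv ρ x u → Cv ρ u y → u = z ∨ u = w)

include dia

theorem ml_upd {H F G : L} (hF : Cv ρ F H) (a : ZMod 2) {z c : L → ZMod 2}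
    (h : ∀ R F₁ F₂, G ≤ R → Cv ρ R F₁ → Cv ρ F₁ H → Cv ρ R F₂ → Cv ρ F₂ H → F₁ ≠ F₂ →
      z R + (if Cv ρ R F then a else 0) = c F₁ + c F₂) :
    ∀ R F₁ F₂, G ≤ R → Cv ρ R F₁ → Cv ρ F₁ H → Cv ρ R F₂ → Cv ρ F₂ H → F₁ ≠ F₂ →
      z R = (c F₁ + if F₁ = F then a else 0) + (c F₂ + if F₂ = F then a else 0) := by
  intro R F₁ F₂ hR h1 h2 h3 h4 hne
  have e := h R F₁ F₂ hR h1 h2 h3 h4 hne
  have k1 : ∀ x y u a : ZMod 2, x + a = y + u → x = y + a + (u + 0) := by decide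
  have k2 : ∀ x y u a : ZMod 2, x + a = y + u → x = y + 0 + (u + a) := by decide
  by_cases e1 : F₁ = F
  · rw [if_pos (e1 ▸ h1)] at e
    rw [if_pos e1, if_neg fun e2 => hne (e1.trans e2.symm)]
    exact k1 _ _ _ _ e
  · by_cases e2 : F₂ = F
    · rw [if_pos (e2 ▸ h3)] at e
      rw [if_neg e1, if_pos e2]
      exact k2 _ _ _ _ e
    · rw [if_neg e1, if_neg e2, add_zero, add_zero, ← e, if_neg, add_zero]
      intro h5
      obtain ⟨w, -, -, -, hw⟩ := dia R F H h5 hF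
      exact hne (((hw F₁ h1 h2).resolve_left e1).trans ((hw F₂ h3 h4).resolve_left e2).symm)

variable [Fintype L]

theorem ml_ind (F T : L) (a : ZMod 2) :
    ∑ U ∈ univ.filter (fun U => Cv ρ T U), (if Cv ρ U F then a else 0) = 0 := by
  by_cases h : ∃ U, Cv ρ T U ∧ Cv ρ U F
  · obtain ⟨U, h1, h2⟩ := h
    obtain ⟨w, w1, w2, w3, w4⟩ := dia T U F h1 h2
    rw [sum_eq_add_of_mem U w (by simpa using h1) (by simpa using w1) w3.symm, if_pos h2, if_pos w2]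
    · revert a
      decide
    · intro u hu hne
      exact if_neg fun h3 => (w4 u (by simpa using hu) h3).elim hne.1 hne.2
  · exact sum_eq_zero fun U hU => if_neg fun h3 => h ⟨U, by simpa using hU, h3⟩

theorem ml_new {H F G : L} {φ : L → ℕ} (hs : Sh ρ (ρ H) H φ) (hF : Cv ρ F H)
    (rev : ∀ ψ, Sh ρ (ρ F) F ψ → ∀ R, Cv ρ R F → G ≤ R →
      (∀ T, Cv ρ T R → G ≤ T → Old ρ F ψ R T) → ∀ R', Cv ρ R' F → G ≤ R' → ψ R' ≤ ψ R)
    {z : L → ZMod 2} (cyc : ∀ T, G ≤ T → ∑ U ∈ univ.filter (fun U => Cv ρ T U), z U = 0)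
    (sup : ∀ U, G ≤ U → z U ≠ 0 → ∃ F', Cv ρ F' H ∧ φ F' < φ F + 1 ∧ Cv ρ U F') :
    ∃ a, ∀ R, Cv ρ R F → G ≤ R → ¬ Old ρ H φ F R → z R = a := by
  obtain ⟨inj, pur, ψ, hψ, ord⟩ := ml_un hs hF
  by_cases hne : (univ.filter fun R => Cv ρ R F ∧ G ≤ R).Nonempty
  swap
  · exact ⟨0, fun R h1 h2 _ => absurd ⟨R, by simp [h1, h2]⟩ hne⟩
  obtain ⟨M, hM, hmax⟩ := exists_max_image _ ψ hne
  simp only [mem_filter, mem_univ, true_and] at hM hmax
  have inj' := (ml_un hψ hM.1).1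
  have key : ∀ n R, Cv ρ R F → G ≤ R → ¬ Old ρ H φ F R → ψ M < ψ R + n → z R = z M := by
    intro n
    induction n with
    | zero => exact fun R h1 h2 _ h4 => absurd (hmax R ⟨h1, h2⟩) (by omega)
    | succ n ih =>
      intro R h1 h2 h3 h4
      by_cases hl : ψ M ≤ ψ R
      · rw [inj' R M h1 hM.1 (le_antisymm (hmax R ⟨h1, h2⟩) hl)]
      obtain ⟨T, t1, t2, t3⟩ : ∃ T, Cv ρ T R ∧ G ≤ T ∧ ¬ Old ρ F ψ R T := by
        by_contra hc
        exact hl (rev ψ hψ R h1 h2 (fun T a b => by_contra fun c => hc ⟨T, a, b, c⟩) M hM.1 hM.2)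
      obtain ⟨w, w1, w2, w3, w4⟩ := dia T R F t1 h1
      have l1 : ψ R < ψ w := lt_of_le_of_ne (not_lt.1 fun c => t3 ⟨w, w2, c, w1.1⟩)
        fun c => w3 (inj' w R w2 h1 c.symm)
      have l2 : ¬ Old ρ H φ F w := fun c => absurd (ord w R w2 h1 c h3) l1.not_gt
      have l3 : ¬ Old ρ H φ F T := fun c => by
        obtain ⟨U, u1, u2, u3⟩ := pur T (lt_of_le_of_ne (t1.1.trans h1.1) fun e => by
          have := t1.2
          have := h1.2
          rw [e] at *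
          omega) c
        rcases w4 U (ml_cv t1 h1 u1 u2) u1 with e | e
        · exact h3 (e ▸ u3)
        · exact l2 (e ▸ u3)
      have l4 := cyc T t2
      rw [sum_eq_add_of_mem R w (by simpa using t1) (by simpa using w1) w3.symm] at l4
      · have k : ∀ x y : ZMod 2, x + y = 0 → x = y := by decide
        exact (k _ _ l4).trans (ih w w2 (t2.trans w1.1) l2 (by omega))
      · intro u hu hne
        have hu : Cv ρ T u := by simpa using hu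
        by_contra hz
        obtain ⟨F', f1, f2, f3⟩ := sup u (t2.trans hu.1) hz
        have f4 : ¬ φ F' < φ F := fun c => l3 ⟨F', f1, c, hu.1.trans f3.1⟩
        rw [inj F' F f1 hF (by omega)] at f3
        exact (w4 u hu f3).elim hne.1 hne.2
  exact ⟨z M, fun R h1 h2 h3 => key (ψ M + 1) R h1 h2 h3 (by omega)⟩

theorem ml_exact {H G : L} {φ : L → ℕ} (hs : Sh ρ (ρ H) H φ)
    (rev : ∀ F, Cv ρ F H → ∀ ψ, Sh ρ (ρ F) F ψ → ∀ R, Cv ρ R F → G ≤ R →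
      (∀ T, Cv ρ T R → G ≤ T → Old ρ F ψ R T) → ∀ R', Cv ρ R' F → G ≤ R' → ψ R' ≤ ψ R) :
    ∀ (j : ℕ) (z : L → ZMod 2), (∀ T, G ≤ T → ∑ U ∈ univ.filter (fun U => Cv ρ T U), z U = 0) →
      (∀ U, G ≤ U → z U ≠ 0 → ∃ F', Cv ρ F' H ∧ φ F' < j ∧ Cv ρ U F') →
      ∃ c : L → ZMod 2, (∀ F', j ≤ φ F' → c F' = 0) ∧
        ∀ R F₁ F₂, G ≤ R → Cv ρ R F₁ → Cv ρ F₁ H → Cv ρ R F₂ → Cv ρ F₂ H → F₁ ≠ F₂ →
          z R = c F₁ + c F₂ := by
  intro j
  induction j with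
  | zero =>
    refine fun z _ sup => ⟨0, fun _ _ => rfl, fun R _ _ hR _ _ _ _ _ => by_contra fun c => ?_⟩
    obtain ⟨F', -, f2, -⟩ := sup R hR (by simpa using c)
    omega
  | succ j ih =>
    intro z cyc sup
    by_cases hex : ∃ F, Cv ρ F H ∧ φ F = j
    · obtain ⟨F, hF, rfl⟩ := hex
      obtain ⟨a, ha⟩ := ml_new dia hs hF (rev F hF) cyc sup
      obtain ⟨c, c1, c2⟩ := ih (fun U => z U + if Cv ρ U F then a else 0)
        (fun T hT => by rw [sum_add_distrib, cyc T hT, ml_ind dia, add_zero]) fun U hU hz => by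
          by_cases h1 : Cv ρ U F
          · by_cases h2 : Old ρ H φ F U
            · obtain ⟨F', f1, f2, f3⟩ := h2
              exact ⟨F', f1, f2, ml_cv h1 hF f1 f3⟩
            · rw [if_pos h1, ha U h1 hU h2] at hz
              have k : ∀ x : ZMod 2, x + x = 0 := by decide
              exact absurd (k a) hz
          · rw [if_neg h1, add_zero] at hz
            obtain ⟨F', f1, f2, f3⟩ := sup U hU hz
            refine ⟨F', f1, lt_of_le_of_ne (by omega) fun e => h1 ?_, f3⟩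
            rwa [(ml_un hs hF).1 F' F f1 hF e] at f3
      refine ⟨fun U => c U + if U = F then a else 0, fun U hU => ?_, ml_upd dia hF a c2⟩
      beta_reduce
      rw [c1 U (by omega), if_neg, add_zero]
      rintro rfl
      omega
    · obtain ⟨c, c1, c2⟩ := ih z cyc fun U hU hz => by
        obtain ⟨F', f1, f2, f3⟩ := sup U hU hz
        exact ⟨F', f1, lt_of_le_of_ne (by omega) fun e => hex ⟨F', f1, e⟩, f3⟩
      exact ⟨c, fun U hU => c1 U (by omega), c2⟩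

theorem ml_rev (mono : ∀ x y, x < y → ρ x < ρ y) (G : L) : ∀ (n : ℕ) (H : L), ρ H = n →
    ∀ φ, Sh ρ (ρ H) H φ → ∀ F, Cv ρ F H → G ≤ F →
      (∀ R, Cv ρ R F → G ≤ R → Old ρ H φ F R) → ∀ F', Cv ρ F' H → G ≤ F' → φ F' ≤ φ F := by
  intro n
  induction n using Nat.strong_induction_on with
  | _ n ih =>
  intro H hn φ hs F hF hG old F' hF' hG'
  obtain ⟨c, c1, c2⟩ := ml_exact dia (G := G) hs
    (fun U hU => ih (ρ U) (by have := hU.2; omega) U rfl) (φ F)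
    (fun U => 0 + if Cv ρ U F then 1 else 0)
    (fun T _ => by simpa only [zero_add] using ml_ind dia F T 1) fun U hU hz => by
      have h1 : Cv ρ U F := by_contra fun h => hz (by rw [if_neg h, add_zero])
      obtain ⟨W, f1, f2, f3⟩ := old U h1 hU
      exact ⟨W, f1, f2, ml_cv h1 hF f1 f3⟩
  have c3 := ml_upd dia (z := fun _ => 0) hF 1 c2
  generalize hd : (fun U => c U + if U = F then (1 : ZMod 2) else 0) = d
  have hd' : ∀ U, (c U + if U = F then 1 else 0) = d U := fun U => congrFun hd U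
  simp only [hd'] at c3
  have step : ∀ U V, Cv ρ U H → G ≤ U → Cv ρ V H → G ≤ V → φ V < φ U →
      ∃ w, Cv ρ w H ∧ G ≤ w ∧ φ w < φ U ∧ d U = d w := fun U V u1 u2 v1 v2 hl => by
    obtain ⟨R, r1, r2, w, w1, w2, w3⟩ := ml_old mono hs u1 v1 u2 v2 hl
    have k : ∀ x y : ZMod 2, 0 = x + y → x = y := by decide
    exact ⟨w, w1, r2.trans w3, w2, k _ _ (c3 R U w r2 r1 u1 (ml_cv r1 u1 w1 w3) w1
      fun e => absurd w2 (e ▸ lt_irrefl _))⟩
  have conn : ∀ m U V, Cv ρ U H → G ≤ U → Cv ρ V H → G ≤ V → φ U < m → φ V < m → d U = d V := by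
    intro m
    induction m with
    | zero => exact fun U V _ _ _ _ h _ => absurd h (by omega)
    | succ m ihm =>
      intro U V u1 u2 v1 v2 l1 l2
      rcases lt_trichotomy (φ U) (φ V) with h | h | h
      · obtain ⟨w, w1, w2, w3, w4⟩ := step V U v1 v2 u1 u2 h
        exact (ihm U w u1 u2 w1 w2 (by omega) (by omega)).trans w4.symm
      · rw [(ml_un hs hF).1 U V u1 v1 h]
      · obtain ⟨w, w1, w2, w3, w4⟩ := step U V u1 u2 v1 v2 h
        exact w4.trans (ihm w V w1 w2 v1 v2 (by omega) (by omega))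
  by_contra hl
  have e := conn (φ F' + 1) F F' hF hG hF' hG' (by omega) (by omega)
  rw [← hd', ← hd', c1 F le_rfl, c1 F' (by omega), if_pos rfl, if_neg] at e
  · revert e
    decide
  · rintro rfl
    exact hl le_rfl

end Aux

variable {L : Type} [Lattice L] [Fintype L] [BoundedOrder L]

theorem exists_ml (ρ : L → ℕ) (mono : ∀ x y, x < y → ρ x < ρ y)
    (co : ∀ x y, x < y → ∃ z, x ≤ z ∧ Cv ρ z y)
    (dia : ∀ x z y, Cv ρ x z → Cv ρ z y → ∃ w, Cv ρ x w ∧ Cv ρ w y ∧ w ≠ z ∧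
      ∀ u, Cv ρ x u → Cv ρ u y → u = z ∨ u = w)
    (φ : L → ℕ) (hs : Sh ρ (ρ ⊤) ⊤ φ) : ∃ m : ML L, m.ρ = ρ := by
  have all : ∀ (n : ℕ) (y : L), ρ y = n → (∃ ψ, Sh ρ (ρ y) y ψ) → ∀ H, H ≤ y →
      ∃ ψ, Sh ρ (ρ H) H ψ := by
    intro n
    induction n using Nat.strong_induction_on with
    | _ n ih =>
    rintro y hn ⟨ψ, hψ⟩ H hH
    rcases eq_or_lt_of_le hH with e | e
    · exact ⟨ψ, e ▸ hψ⟩
    · obtain ⟨z, z1, z2⟩ := co H y e
      obtain ⟨-, -, χ, h, -⟩ := ml_un hψ z2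
      exact ih (ρ z) (by have := z2.2; omega) z rfl ⟨χ, h⟩ H z1
  refine ⟨⟨ρ, mono, co, fun H P => ∃ ψ, Sh ρ (ρ H) H ψ ∧
    ∀ R R', Cv ρ R H → Cv ρ R' H → ¬ P R → P R' → ψ R < ψ R', fun H => ?_, ?_⟩, rfl⟩
  · obtain ⟨ψ, h⟩ := all _ ⊤ rfl ⟨φ, hs⟩ H le_top
    exact ⟨ψ, h, fun _ _ _ _ c _ => absurd trivial c⟩
  rintro H P ⟨ψ, h, ord⟩
  obtain ⟨s, s1, s2⟩ : ∃ s : ℕ, (∀ F, Cv ρ F H → ¬ P F → ψ F + 1 ≤ s) ∧
      ∀ F, Cv ρ F H → P F → s ≤ ψ F :=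
    ⟨(univ.filter fun F => Cv ρ F H ∧ ¬ P F).sup fun F => ψ F + 1,
      fun F a b => le_sup (f := fun F => ψ F + 1) (by simp [a, b]),
      fun F a b => Finset.sup_le fun U hU => by
        simp only [mem_filter, mem_univ, true_and] at hU
        exact ord U F hU.1 a hU.2 b⟩
  refine ⟨fun F => (ψ F : ℝ) - (s - 1 / 2), ⟨fun F F' a b e => ?_, fun F hF => ?_⟩,
    fun F hF => ⟨fun c => ?_, fun c => by_contra fun d => ?_⟩⟩
  · exact (ml_un h a).1 F F' a b (Nat.cast_injective (R := ℝ) (sub_left_injective e))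
  · obtain ⟨inj, -, χ, h1, h2⟩ := ml_un h hF
    refine ⟨fun R => ¬ Old ρ H ψ F R, ⟨χ, h1, fun R R' a b c d => h2 R R' a b (not_not.1 c) d⟩,
      fun G hG => ?_⟩
    simp only [sub_le_sub_iff_right, Nat.cast_le, not_not]
    refine ⟨⟨fun c F' a b => not_lt.1 fun d => ?_, fun c R a b d => ?_⟩,
      ml_rev dia mono G _ H rfl ψ h F hF hG, fun c R a b => ?_⟩
    · obtain ⟨R, r1, r2, r3⟩ := ml_old mono h hF a hG b d
      exact c R r1 r2 r3
    · obtain ⟨W, w1, w2, w3⟩ := d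
      exact absurd (c W w1 (b.trans w3)) w2.not_ge
    · obtain ⟨w, w1, w2, w3, -⟩ := dia R F H a hF
      exact ⟨w, w2, lt_of_le_of_ne (c w w2 (b.trans w1.1)) fun e => w3 (inj w F w2 hF e), w1.1⟩
  · have : (s : ℝ) ≤ ψ F := Nat.cast_le.2 (s2 F hF c)
    linarith
  · have : ((ψ F + 1 : ℕ) : ℝ) ≤ s := Nat.cast_le.2 (s1 F hF d)
    push_cast at this
    linarith

end Pool.Agent.Lib.MP_c8fb4d_co.Sph
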