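import Pool.Agent.Lib.MP_c8fb4d_co.RepDefs
import Pool.Agent.Lib.MP_c8fb4d_co.RepStr
import Pool.Agent.Lib.MP_c8fb4d_co.RepSign
import Pool.Agent.Lib.MP_c8fb4d_co.SphML

/-!
Reduction to an infinite field and an ambient space of the right dimension.
-/

namespace Pool.Agent.Lib.MP_c8fb4d_co.Rep

open Module Finset
open scoped Classical TensorProduct

section order

variable {L : Type} [Lattice L] [Fintype L] {ρ : L → ℕ}

lemma rd_mono (hρ : ∀ x y : L, x ⋖ y → ρ y = ρ x + 1) : ∀ y x : L, x < y → ρ x < ρ y := by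
  intro y
  induction y using WellFoundedLT.induction with
  | _ y ih =>
  intro x h
  obtain ⟨z, h1, h2⟩ := exists_le_covBy_of_lt h
  have := hρ z y h2
  rcases h1.eq_or_lt with rfl | h3
  · omega
  · have := ih z h2.lt x h3
    omega

lemma rd_cv (hρ : ∀ x y : L, x ⋖ y → ρ y = ρ x + 1) (x y : L) : Cv ρ x y ↔ x ⋖ y := by
  refine ⟨fun h => ⟨lt_of_le_of_ne h.1 fun e => ?_, fun z h1 h2 => ?_⟩,
    fun h => ⟨h.le, (hρ x y h).symm⟩⟩
  · have := h.2
    rw [e] at this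
    omega
  · have := rd_mono hρ _ _ h1
    have := rd_mono hρ _ _ h2
    have := h.2
    omega

lemma rd_sh (hρ : ∀ x y : L, x ⋖ y → ρ y = ρ x + 1) :
    ∀ (r : ℕ) (H : L) (φ : L → ℕ), Shelling r H φ → Sph.Sh ρ r H φ := by
  intro r
  induction r with
  | zero => exact fun _ _ _ => trivial
  | succ r ih =>
    rintro H φ ⟨h1, h2⟩
    have o : ∀ F G, Sph.Old ρ H φ F G ↔ Before H φ F G := fun F G => by
      simp only [Sph.Old, Before, rd_cv hρ]
    refine ⟨fun F F' a b => h1 ((rd_cv hρ _ _).1 a) ((rd_cv hρ _ _).1 b), fun F hF => ?_⟩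
    obtain ⟨h3, ψ, h4, h5⟩ := h2 F ((rd_cv hρ _ _).1 hF)
    simp only [o, rd_cv hρ]
    exact ⟨h3, ψ, ih F ψ h4, h5⟩

lemma rd_ml [BoundedOrder L] (hρ : ∀ x y : L, x ⋖ y → ρ y = ρ x + 1)
    (hthin : ∀ x y : L, x ≤ y → ρ y = ρ x + 2 → (Set.Ioo x y).ncard = 2)
    {φ : L → ℕ} (hs : Shelling (ρ ⊤) (⊤ : L) φ) : ∃ m : ML L, m.ρ = ρ := by
  refine Sph.exists_ml ρ (fun x y => rd_mono hρ y x) (fun x y h => ?_) (fun x z y h1 h2 => ?_) φ
    (rd_sh hρ _ _ _ hs)
  · obtain ⟨z, h1, h2⟩ := exists_le_covBy_of_lt h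
    exact ⟨z, h1, (rd_cv hρ _ _).2 h2⟩
  · have e : ρ y = ρ x + 2 := by have := h1.2; have := h2.2; omega
    have key : ∀ u, u ∈ Set.Ioo x y ↔ Cv ρ x u ∧ Cv ρ u y := fun u =>
      ⟨fun h => by
        have := rd_mono hρ _ _ h.1
        have := rd_mono hρ _ _ h.2
        exact ⟨⟨h.1.le, by omega⟩, ⟨h.2.le, by omega⟩⟩,
      fun h => ⟨((rd_cv hρ _ _).1 h.1).lt, ((rd_cv hρ _ _).1 h.2).lt⟩⟩
    obtain ⟨a, b, hab, h⟩ := Set.ncard_eq_two.1 (hthin x y (h1.1.trans h2.1) e)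
    have k : ∀ u, Cv ρ x u ∧ Cv ρ u y ↔ u = a ∨ u = b := fun u => by
      rw [← key, h]; simp
    rcases (k z).1 ⟨h1, h2⟩ with rfl | rfl
    · exact ⟨b, ((k b).2 (Or.inr rfl)).1, ((k b).2 (Or.inr rfl)).2, hab.symm,
        fun u c d => (k u).1 ⟨c, d⟩⟩
    · exact ⟨a, ((k a).2 (Or.inl rfl)).1, ((k a).2 (Or.inl rfl)).2, hab,
        fun u c d => ((k u).1 ⟨c, d⟩).symm⟩

end order

section linear

variable {K E : Type} [Field K] [AddCommGroup E] [Module K E] [FiniteDimensional K E]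

/-- A linear map to `K ^ d` that is injective on finitely many subspaces of dimension `≤ d`. -/
lemma rd_gen [Infinite K] {ι : Type} [Finite ι] : ∀ (d : ℕ) (U : ι → Submodule K E),
    (∀ i, finrank K (U i) ≤ d) →
    ∃ f : E →ₗ[K] (Fin d → K), ∀ i, ∀ x ∈ U i, f x = 0 → x = 0 := by
  intro d
  induction d with
  | zero =>
    refine fun U h => ⟨0, fun i x hx _ => ?_⟩
    have : U i = ⊥ := Submodule.finrank_eq_zero.1 (Nat.le_zero.1 (h i))
    rwa [this, Submodule.mem_bot] at hx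
  | succ d ih =>
    intro U h
    have hv : ∀ i : {i // U i ≠ ⊥}, ∃ v ∈ U i.1, v ≠ 0 := fun i =>
      Submodule.exists_mem_ne_zero_of_ne_bot i.2
    choose v hv1 hv2 using hv
    obtain ⟨l, hl⟩ := Module.exists_dual_forall_apply_ne_zero (K := K) v hv2
    obtain ⟨f, hf⟩ := ih (fun i => U i ⊓ LinearMap.ker l) fun i => by
      by_cases e : U i = ⊥
      · rw [e, bot_inf_eq, finrank_bot]
        exact Nat.zero_le _
      · have : U i ⊓ LinearMap.ker l < U i :=
          lt_of_le_of_ne inf_le_left fun e' => hl ⟨i, e⟩ (by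
            have := hv1 ⟨i, e⟩
            rw [← e'] at this
            exact this.2)
        have := Submodule.finrank_lt_finrank_of_lt this
        have := h i
        omega
    refine ⟨LinearMap.pi fun j => Fin.cases (motive := fun _ => E →ₗ[K] K) l
      (fun j => (LinearMap.proj j).comp f) j,
      fun i x hx h0 => hf i x ⟨hx, congrFun h0 0⟩ (funext fun j => congrFun h0 j.succ)⟩

omit [FiniteDimensional K E] in
lemma rd_rank {E' : Type} [AddCommGroup E'] [Module K E'] (f : E →ₗ[K] E') (U : Submodule K E)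
    (h : ∀ x ∈ U, f x = 0 → x = 0) : finrank K (U.map f) = finrank K U := by
  rw [← LinearMap.range_domRestrict]
  refine LinearMap.finrank_range_of_inj ((injective_iff_map_eq_zero _).2 fun x hx => ?_)
  exact Subtype.ext (h x.1 x.2 hx)

omit [FiniteDimensional K E] in
lemma rd_le {E' : Type} [AddCommGroup E'] [Module K E'] (f : E →ₗ[K] E') (U V : Submodule K E)
    (h : ∀ x ∈ U ⊔ V, f x = 0 → x = 0) (e : U.map f ≤ V.map f) : U ≤ V := by
  intro x hx
  obtain ⟨y, hy, e'⟩ := e ⟨x, hx, rfl⟩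
  have := h (x - y) (sub_mem (Submodule.mem_sup_left hx) (Submodule.mem_sup_right hy))
    (by rw [map_sub, e', sub_self])
  rwa [sub_eq_zero.1 this]

end linear

lemma rd_inf {L : Type} [Lattice L] [Fintype L] [BoundedOrder L] (ρ : L → ℕ) {d : ℕ}
    (hd : 2 ≤ d) (h0 : ρ ⊥ = 0) (htop : ρ ⊤ = d + 1) (hρ : ∀ x y : L, x ⋖ y → ρ y = ρ x + 1)
    (m : ML L) (hm : m.ρ = ρ)
    {K E : Type} [Field K] [Infinite K] [AddCommGroup E] [Module K E] [FiniteDimensional K E]
    (W : L → Submodule K E) (hmono : ∀ G G', G ≤ G' → ρ G' ≤ d - 1 → W G ≤ W G')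
    (hrk : ∀ G, ρ G ≤ d - 1 → finrank K (W G) = ρ G)
    (hsep : ∀ B G G', B ⋖ G → B ⋖ G' → ρ G ≤ d - 1 → W G = W G' → G = G') :
    ∃ r : Rp L K (Fin d → K), r.m.ρ = ρ := by
  subst hm
  obtain ⟨ε, e1, e2⟩ := exists_sign m
  let P : L × L → Prop := fun p =>
    m.ρ p.1 ≤ d - 1 ∧ (p.1 = p.2 ∨ ∃ B, B ⋖ p.1 ∧ B ⋖ p.2)
  obtain ⟨f, hf⟩ := rd_gen (K := K) (E := E) d
    (fun p : L × L => if P p then W p.1 ⊔ W p.2 else ⊥) (by
      rintro ⟨G, G'⟩
      by_cases h : P (G, G')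
      · rw [if_pos h]
        obtain ⟨h1, h2 | ⟨B, h2, h3⟩⟩ := h
        · dsimp only at h1 h2 ⊢
          rw [← h2, sup_idem, hrk G h1]
          omega
        · dsimp only at h1 h2 h3 ⊢
          have a1 := hρ _ _ h2
          have a2 := hρ _ _ h3
          have a3 := Submodule.finrank_sup_add_finrank_inf_eq (W G) (W G')
          have a4 : finrank K (W B) ≤ finrank K (W G ⊓ W G' : Submodule K E) :=
            Submodule.finrank_mono (le_inf (hmono _ _ h2.le h1) (hmono _ _ h3.le (by omega)))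
          rw [hrk G h1, hrk G' (by omega)] at a3
          rw [hrk B (by omega)] at a4
          omega
      · rw [if_neg h, finrank_bot]
        exact Nat.zero_le _)
  have hf' : ∀ G G', P (G, G') → ∀ x ∈ W G ⊔ W G', f x = 0 → x = 0 := fun G G' h => by
    have := hf (G, G')
    rwa [if_pos h] at this
  have lt : ∀ x, x ≠ ⊤ → m.ρ x ≤ d := fun x hx => by
    have := m.mono x ⊤ (lt_top_iff_ne_top.2 hx)
    omega
  have mo : ∀ x y, x ≤ y → m.ρ x ≤ m.ρ y := fun x y h => by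
    rcases h.eq_or_lt with rfl | h
    · exact le_rfl
    · exact (m.mono x y h).le
  refine ⟨⟨m, fun e => ?_, h0,
    fun x => if m.ρ x ≤ d - 1 then (W x).map f else if x = ⊤ then ⊥ else ⊤, ?_, fun x y h hy => ?_,
    fun x hx => ?_, fun B σ σ' a b c e => ?_, fun G G' => (ε G G' : K), fun G G' h => ?_,
    fun τ σ σ' π a b c e g => ?_⟩, rfl⟩
  · rw [e] at h0
    omega
  · rw [if_neg (by omega), if_pos rfl]
  · by_cases h1 : m.ρ y ≤ d - 1
    · rw [if_pos h1, if_pos ((mo x y h).trans h1)]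
      exact Submodule.map_mono (hmono x y h h1)
    · rw [if_neg h1, if_neg hy]
      exact le_top
  · by_cases h1 : m.ρ x ≤ d - 1
    · rw [if_pos h1, rd_rank f _ fun v hv => hf' x x ⟨h1, Or.inl rfl⟩ v (Submodule.mem_sup_left hv),
        hrk x h1]
    · rw [if_neg h1, if_neg hx, finrank_top, Module.finrank_fin_fun]
      have := lt x hx
      omega
  · have a' := (rd_cv hρ _ _).1 a
    have b' := (rd_cv hρ _ _).1 b
    have h1 : m.ρ σ ≤ d - 1 := by omega
    have h2 : m.ρ σ' ≤ d - 1 := by have := a.2; have := b.2; omega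
    rw [if_pos h1, if_pos h2] at e
    exact hsep B σ σ' a' b' h1 (le_antisymm
      (rd_le f _ _ (hf' σ σ' ⟨h1, Or.inr ⟨B, a', b'⟩⟩) e.le)
      (rd_le f _ _ (hf' σ' σ ⟨h2, Or.inr ⟨B, b', a'⟩⟩) e.ge))
  · rcases e1 G G' h with h | h <;> simp [h]
  · exact_mod_cast congrArg (Int.cast : ℤ → K) (e2 τ σ σ' π a b c e g)

theorem reduce {L : Type} [Lattice L] [Fintype L] [BoundedOrder L] (ρ : L → ℕ) {d : ℕ}
    (hd : 2 ≤ d) (h0 : ρ ⊥ = 0) (htop : ρ ⊤ = d + 1) (hρ : ∀ x y : L, x ⋖ y → ρ y = ρ x + 1)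
    (hthin : ∀ x y : L, x ≤ y → ρ y = ρ x + 2 → (Set.Ioo x y).ncard = 2)
    {φ : L → ℕ} (hs : Shelling (d + 1) (⊤ : L) φ)
    {F E : Type} [Field F] [AddCommGroup E] [Module F E] [FiniteDimensional F E]
    (W : L → Submodule F E) (hmono : ∀ G G', G ≤ G' → ρ G' ≤ d - 1 → W G ≤ W G')
    (hrk : ∀ G, ρ G ≤ d - 1 → finrank F (W G) = ρ G)
    (hsep : ∀ B G G', B ⋖ G → B ⋖ G' → ρ G ≤ d - 1 → W G = W G' → G = G') :
    ∃ (K E' : Type) (_ : Field K) (_ : Infinite K) (_ : AddCommGroup E') (_ : Module K E')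
      (_ : FiniteDimensional K E') (r : Rp L K E'), r.m.ρ = ρ := by
  obtain ⟨m, hm⟩ := rd_ml hρ hthin (htop ▸ hs)
  obtain ⟨r, hr⟩ := rd_inf ρ hd h0 htop hρ m hm (K := AlgebraicClosure F)
    (E := AlgebraicClosure F ⊗[F] E) (fun G => (W G).baseChange (AlgebraicClosure F))
    (fun G G' a b => Submodule.baseChange_mono _ (hmono G G' a b))
    (fun G a => by
      rw [← (Submodule.toBaseChange.toLinearEquiv (AlgebraicClosure F) (W G)).finrank_eq,
        Module.finrank_baseChange, hrk G a])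
    (fun B G G' a b c e => hsep B G G' a b c (Submodule.baseChange_injective e))
  exact ⟨_, _, inferInstance, inferInstance, inferInstance, inferInstance, inferInstance, r, hr⟩

end Pool.Agent.Lib.MP_c8fb4d_co.Rep
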