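import Pool.Agent.Lib.MP_c8fb4d_co.Comb
import Pool.Agent.Lib.MP_c8fb4d_co.RepRed

/-!
Edges against facets and vertices for shellable spheres of dimension four.
-/

namespace Pool.Agent.Lib.MP_c8fb4d_co

open Finset
open scoped Classical

variable {L : Type} [Lattice L] [Fintype L] [BoundedOrder L]

namespace ML

variable (m : ML L)

/-- The graph of a face is connected. -/
theorem fs_conn (h0 : m.ρ ⊥ = 0) (B : L → Prop) : ∀ (n : ℕ) (G : L), m.ρ G = n →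
    (∃ u, u ≤ G ∧ m.ρ u = 1 ∧ B u) → (∃ w, w ≤ G ∧ m.ρ w = 1 ∧ ¬ B w) →
    ∃ e, e ≤ G ∧ m.ρ e = 2 ∧ (∃ u, u ≤ e ∧ m.ρ u = 1 ∧ B u) ∧ ∃ w, w ≤ e ∧ m.ρ w = 1 ∧ ¬ B w := by
  intro n
  induction n using Nat.strong_induction_on with
  | _ n ih =>
  rintro G hG ⟨u, u1, u2, u3⟩ ⟨w, w1, w2, w3⟩
  by_cases h2 : n = 2
  · exact ⟨G, le_rfl, by omega, ⟨u, u1, u2, u3⟩, w, w1, w2, w3⟩
  have h3 : 3 ≤ n := by
    by_contra hc
    rw [m.eq_of_ρ u1 (by omega), ← m.eq_of_ρ w1 (by omega)] at u3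
    exact w3 u3
  by_contra hc
  have key : ∀ R, Cv m.ρ R G → (∃ w, w ≤ R ∧ m.ρ w = 1 ∧ ¬ B w) →
      ¬ ∃ u, u ≤ R ∧ m.ρ u = 1 ∧ B u := fun R hR a b => by
    obtain ⟨e, e1, e2⟩ := ih (m.ρ R) (by have := hR.2; omega) R rfl b a
    exact hc ⟨e, e1.trans hR.1, e2⟩
  obtain ⟨ψ, hψ, -⟩ := m.refine G _ (m.re_true G)
  obtain ⟨R₀, hR₀⟩ := Rep.sg_conn m hψ (fun _ => True)
    (fun R => if ∃ u, u ≤ R ∧ m.ρ u = 1 ∧ B u then 1 else 0) (fun _ _ _ _ _ _ => trivial) (by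
      intro T R R' t1 t2 r1 r2 _ _ _
      obtain ⟨x, -, x1, x2⟩ := m.exists_rank' (k := 1) (bot_le (a := T)) (by omega)
        (by have := t1.2; have := r1.2; omega)
      by_cases hx : B x
      · rw [if_pos ⟨x, x1.trans t1.1, x2, hx⟩, if_pos ⟨x, x1.trans t2.1, x2, hx⟩]
      · rw [if_neg (key R r1 ⟨x, x1.trans t1.1, x2, hx⟩),
          if_neg (key R' r2 ⟨x, x1.trans t2.1, x2, hx⟩)])
  obtain ⟨R, a1, a2⟩ := m.co u G (m.lt_of_ρ u1 (by omega))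
  obtain ⟨R', b1, b2⟩ := m.co w G (m.lt_of_ρ w1 (by omega))
  have c1 := hR₀ R a2 trivial
  have c2 := hR₀ R' b2 trivial
  rw [if_pos ⟨u, a1, u2, u3⟩] at c1
  rw [if_neg (key R' b2 ⟨w, b1, w2, w3⟩)] at c2
  exact one_ne_zero (c1.trans c2.symm)

/-- The count of half edges born at a facet. -/
theorem fs_loc (h0 : m.ρ ⊥ = 0) {ψ : L → ℝ} {β : L → L} (hβ : m.Sel ψ β)
    (hinj : ∀ F F', m.ρ F = 5 → m.ρ F' = 5 → ψ F = ψ F' → F = F') {F : L} (hF : m.ρ F = 5)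
    (O : Finset L) (hO : ∀ u ∈ O, m.ρ u = 1 ∧ β u ≠ F ∧ ∃ e, u ≤ e ∧ m.ρ e = 2 ∧ β e = F) :
    4 * (univ.filter fun x => m.ρ x = 1 ∧ β x = F).card + O.card ≤
      2 * (univ.filter fun x => m.ρ x = 2 ∧ β x = F).card := by
  set B := univ.filter fun x => m.ρ x = 1 ∧ β x = F with hB
  set N := univ.filter fun x => m.ρ x = 2 ∧ β x = F with hN
  have h4 : ∀ u ∈ B, 4 ≤ (N.filter fun e => u ≤ e).card := by
    intro u hu
    obtain ⟨a, b⟩ := (mem_filter.1 hu).2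
    refine (m.atoms_ge (k := 2) (by omega) 4 F (b ▸ (hβ u (by omega)).2.1) (by omega)).trans
      (card_le_card ?_)
    intro e he
    obtain ⟨c, d, g⟩ := mem_I.1 he
    obtain ⟨p1, p2, p3⟩ := hβ e (by omega)
    refine mem_filter.2 ⟨mem_filter.2 ⟨mem_univ _, g,
      hinj _ _ p1 hF (le_antisymm (p3 F hF d) ?_)⟩, c⟩
    exact b ▸ (hβ u (by omega)).2.2 _ p1 (c.trans p2)
  have h1 : ∀ u ∈ O, 1 ≤ (N.filter fun e => u ≤ e).card := fun u hu => by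
    obtain ⟨-, -, e, a, b, c⟩ := hO u hu
    exact card_pos.2 ⟨e, mem_filter.2 ⟨mem_filter.2 ⟨mem_univ _, b, c⟩, a⟩⟩
  have h2 := m.half_edges h0 N (fun e he => (mem_filter.1 he).2.1)
  have h3 := card_nsmul_le_sum B _ 4 h4
  have h5 := card_nsmul_le_sum O _ 1 h1
  have h6 : ∑ u ∈ B ∪ O, (N.filter fun e => u ≤ e).card ≤
      ∑ u ∈ univ.filter (fun u => m.ρ u = 1), (N.filter fun e => u ≤ e).card :=
    sum_le_sum_of_subset fun u hu => mem_filter.2 ⟨mem_univ _,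
      (mem_union.1 hu).elim (fun h => (mem_filter.1 h).2.1) fun h => (hO u h).1⟩
  rw [sum_union (disjoint_left.2 fun u a b => (hO u b).2.1 (mem_filter.1 a).2.2)] at h6
  rw [smul_eq_mul] at h3 h5
  omega

/-- One direction of a shelling. -/
theorem fs_dir (h0 : m.ρ ⊥ = 0) (h6 : m.ρ ⊤ = 6) {ψ : L → ℝ} {β : L → L} (hβ : m.Sel ψ β)
    (hinj : ∀ F F', m.ρ F = 5 → m.ρ F' = 5 → ψ F = ψ F' → F = F')
    (hR : ∀ F F', m.ρ F = 5 → m.ρ F' = 5 → ψ F' < ψ F →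
      ∃ R F', m.ρ R = 4 ∧ R ≤ F ∧ m.ρ F' = 5 ∧ R ≤ F' ∧ ψ F' < ψ F) :
    2 * m.f ⊥ ⊤ 1 + ((m.I ⊥ ⊤ 5).filter fun F => ∃ e, m.ρ e = 2 ∧ β e = F).card ≤ m.f ⊥ ⊤ 2 := by
  have h2 : 1 < (m.I ⊥ ⊤ 5).card :=
    lt_of_lt_of_le (by omega) (m.coatoms_ge (k := 5) (y := ⊤) (by omega) 6 ⊥ bot_le (by omega))
  obtain ⟨F1, a1, a2⟩ := exists_min_image (m.I ⊥ ⊤ 5) ψ (card_pos.1 (by omega))
  obtain ⟨F2, b1, b2⟩ := exists_min_image ((m.I ⊥ ⊤ 5).erase F1) ψ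
    (card_pos.1 (by rw [card_erase_of_mem a1]; omega))
  have r1 := (mem_I.1 a1).2.2
  have mem : ∀ F, m.ρ F = 5 → F ∈ m.I ⊥ ⊤ 5 := fun F h => mem_I.2 ⟨bot_le, le_top, h⟩
  have key : ∀ F ∈ m.I ⊥ ⊤ 5, 2 * (univ.filter fun x => m.ρ x = 1 ∧ β x = F).card +
      (if ∃ e, m.ρ e = 2 ∧ β e = F then 1 else 0) + (if F = F2 then 1 else 0) ≤
      (univ.filter fun x => m.ρ x = 2 ∧ β x = F).card + if F = F1 then 1 else 0 := by
    intro F hF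
    have r := (mem_I.1 hF).2.2
    have l0 := m.fs_loc h0 hβ hinj r ∅ (by simp)
    by_cases e1 : F = F1
    · rw [if_pos e1, if_neg (e1 ▸ (mem_erase.1 b1).1.symm : F ≠ F2)]
      split_ifs <;> omega
    obtain ⟨R, F', c1, c2, c3, c4, c5⟩ := hR F F1 r r1
      (lt_of_le_of_ne (a2 F hF) fun e => e1 (hinj _ _ r r1 e.symm))
    have old : ∀ u, u ≤ R → m.ρ u = 1 → β u ≠ F := fun u a b e =>
      absurd (e ▸ (hβ u (by omega)).2.2 F' c3 (a.trans c4)) (not_le.2 c5)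
    rw [if_neg e1]
    by_cases e2 : F = F2
    · have low : ∀ W, m.ρ W = 5 → ψ W < ψ F → W = F1 := fun W a b => by
        by_contra hc
        exact absurd (e2 ▸ b2 W (mem_erase.2 ⟨hc, mem W a⟩)) (not_le.2 b)
      have l1 := m.fs_loc h0 hβ hinj r (m.I ⊥ R 1) fun u hu => by
        obtain ⟨-, u1, u2⟩ := mem_I.1 hu
        obtain ⟨e, d1, d2, d3, d4⟩ := m.atomic' u1 (u1.trans c2) (m.not_le_of_ρ (by omega))
        obtain ⟨p1, p2, p3⟩ := hβ e (by omega)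
        refine ⟨u2, old u u1 u2, e, d1, by omega, by_contra fun hc => d4 ?_⟩
        have p4 := low _ p1 (lt_of_le_of_ne (p3 F r d2) fun e => hc (hinj _ _ p1 r e))
        rw [← m.inf_eq_of c2 (low _ c3 c5 ▸ c4) (m.not_le_of_ne (r.trans r1.symm) e1) (by omega)]
        exact le_inf d2 (p4 ▸ p2)
      have l2 : 4 ≤ (m.I ⊥ R 1).card := m.atoms_ge (k := 1) (by omega) 4 R bot_le (by omega)
      split_ifs <;> omega
    rw [if_neg e2]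
    split_ifs with e3
    swap
    · omega
    rcases (univ.filter fun x => m.ρ x = 1 ∧ β x = F).eq_empty_or_nonempty with e4 | ⟨u, hu⟩
    · obtain ⟨e, he⟩ := e3
      have := card_pos.2 ⟨e, (mem_filter.2 ⟨mem_univ _, he⟩ :
        e ∈ univ.filter fun x => m.ρ x = 2 ∧ β x = F)⟩
      rw [e4, card_empty]
      omega
    obtain ⟨u1, u2⟩ := (mem_filter.1 hu).2
    obtain ⟨x, -, x1, x2⟩ := m.exists_rank' (k := 1) (bot_le (a := R)) (by omega) (by omega)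
    obtain ⟨e, d1, d2, ⟨v, v1, v2, v3⟩, w, w1, w2, w3⟩ := m.fs_conn h0 (fun x => β x = F) _ F rfl
      ⟨u, u2 ▸ (hβ u (by omega)).2.1, u1, u2⟩ ⟨x, x1.trans c2, x2, old x x1 x2⟩
    obtain ⟨p1, p2, p3⟩ := hβ e (by omega)
    have l1 := m.fs_loc h0 hβ hinj r {w} fun y hy => by
      rw [mem_singleton.1 hy]
      exact ⟨w2, w3, e, w1, d2, hinj _ _ p1 r (le_antisymm (p3 F r d1)
        (v3 ▸ (hβ v (by omega)).2.2 _ p1 (v1.trans p2)))⟩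
    rw [card_singleton] at l1
    omega
  have tot : ∀ k ≤ 5, m.cnt β k (m.I ⊥ ⊤ 5) = m.f ⊥ ⊤ k := fun k hk => by
    unfold cnt f
    congr 1
    ext x
    simp only [mem_filter, mem_univ, true_and, mem_I, bot_le, le_top]
    exact ⟨fun h => h.1, fun h => ⟨h, (hβ x (by omega)).1⟩⟩
  have s := sum_le_sum key
  simp only [sum_add_distrib, ← mul_sum, ← cnt_sum, sum_ite_eq', if_pos a1,
    if_pos (mem_of_mem_erase b1), ← card_filter] at s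
  rw [tot 1 (by omega), tot 2 (by omega)] at s
  omega

/-- The edge inequality. -/
theorem fs_edges (h0 : m.ρ ⊥ = 0) (h6 : m.ρ ⊤ = 6) :
    m.f ⊥ ⊤ 5 + 4 * m.f ⊥ ⊤ 1 ≤ 2 * m.f ⊥ ⊤ 2 := by
  obtain ⟨φ, hG, -⟩ := m.refine ⊤ _ (m.re_true ⊤)
  obtain ⟨β, hβ⟩ := m.exists_sel h6 φ
  obtain ⟨δ, hδ⟩ := m.exists_sel h6 fun F => -φ F
  have hinj : ∀ F F', m.ρ F = 5 → m.ρ F' = 5 → φ F = φ F' → F = F' := fun F F' a b =>
    hG.1 F F' ((m.cv_top h6).2 a) ((m.cv_top h6).2 b)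
  have l1 := m.fs_dir h0 h6 hβ hinj fun F F1 hF a1 a2 => by
    obtain ⟨P, hP, hloc⟩ := hG.2 F ((m.cv_top h6).2 hF)
    by_contra hc
    push Not at hc
    refine absurd ((hloc ⊥ bot_le).1.1 (fun R hR _ => ?_) F1 ((m.cv_top h6).2 a1) bot_le)
      (not_le.2 a2)
    exact (hloc R hR.1).1.2 (fun F' c d => hc R F' (by have := hR.2; omega) hR.1
      ((m.cv_top h6).1 c) d) R hR le_rfl
  have l2 := m.fs_dir h0 h6 hδ (fun F F' a b c => hinj F F' a b (neg_injective c))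
    fun F F2 hF b1 b2 => by
    obtain ⟨P, hP, hloc⟩ := hG.2 F ((m.cv_top h6).2 hF)
    by_contra hc
    push Not at hc
    refine absurd ((hloc ⊥ bot_le).2.1 (fun R hR _ => ?_) F2 ((m.cv_top h6).2 b1) bot_le)
      (not_le.2 (neg_lt_neg_iff.1 b2))
    exact (hloc R hR.1).2.2 (fun F' c d => neg_le_neg_iff.1 (hc R F' (by have := hR.2; omega) hR.1
      ((m.cv_top h6).1 c) d)) R hR le_rfl
  have l3 : m.f ⊥ ⊤ 5 ≤ ((m.I ⊥ ⊤ 5).filter fun F => ∃ e, m.ρ e = 2 ∧ β e = F).card +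
      ((m.I ⊥ ⊤ 5).filter fun F => ∃ e, m.ρ e = 2 ∧ δ e = F).card := by
    refine (card_le_card fun F hF => ?_).trans (card_union_le _ _)
    have r := (mem_I.1 hF).2.2
    obtain ⟨P, hP, hloc⟩ := hG.2 F ((m.cv_top h6).2 r)
    obtain ⟨e, c1, c2, c3⟩ := m.hinman h0 r hP
    rcases c3 with c3 | c3
    · obtain ⟨p1, p2, p3⟩ := hβ e (by omega)
      exact mem_union_left _ (mem_filter.2 ⟨hF, e, c2, hinj _ _ p1 r (le_antisymm
        (p3 F r c1) ((hloc e c1).1.1 c3 _ ((m.cv_top h6).2 p1) p2))⟩)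
    · obtain ⟨p1, p2, p3⟩ := hδ e (by omega)
      exact mem_union_right _ (mem_filter.2 ⟨hF, e, c2, hinj _ _ p1 r (le_antisymm
        ((hloc e c1).2.1 c3 _ ((m.cv_top h6).2 p1) p2) (neg_le_neg_iff.1 (p3 F r c1)))⟩)
  omega

end ML

end Pool.Agent.Lib.MP_c8fb4d_co
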