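import Pool.Agent.Lib.MP_c8fb4d_co.Weights

/-!
Generic directions for a cone of rank seven.
-/

namespace Pool.Agent.Lib.MP_c8fb4d_co

open Module Finset
open scoped Classical

set_option linter.unusedSectionVars false

variable {ι : Type} [Fintype ι] [DecidableEq ι] {E : Type} [AddCommGroup E] [Module ℝ E]
  [FiniteDimensional ℝ E]

/-- Weights of the facets along a pencil of directions, with the functionals that pair with them. -/
structure Setup (a : ι → E) where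
  S : Finset ℝ
  hS : S.card = 5
  w : Face a → ℝ → Face a → ℝ
  ξ : Face a → ℝ → E
  c : Face a → ℝ
  η : Face a → ℝ → E →ₗ[ℝ] ℝ
  θ : Face a → E →ₗ[ℝ] ℝ
  K : Submodule ℝ E
  supp : ∀ F, frk a F = 6 → ∀ s ∈ S, ∀ τ, w F s τ ≠ 0 ↔ τ ≤ F
  rel : ∀ F, frk a F = 6 → ∀ s ∈ S, ∀ τ, frk a τ < 6 →
    nsum a τ (w F s) - w F s τ • ξ F s ∈ sp a τ.1
  hc : ∀ F, frk a F = 6 → c F ≠ 0
  ξ_mem : ∀ F s, ξ F s ∈ K
  η_sp : ∀ τ, frk a τ ≤ 4 → ∀ s, ∀ x ∈ sp a τ.1, η τ s x = 0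
  η_ξ : ∀ τ, frk a τ ≤ 4 → ∀ s F s', η τ s (ξ F s') = c F * (s' - s)
  η_eq : ∀ τ τ', frk a τ ≤ 4 → frk a τ' ≤ 4 → ∀ s, ∀ x ∈ K, η τ s x = η τ' s x
  θ_ker : ∀ σ, frk a σ = 3 → LinearMap.ker (θ σ) = sp a σ.1 ⊔ K
  θ_ne : ∀ σ, frk a σ = 3 → ∀ i, i ∉ σ.1 → θ σ (a i) ≠ 0

theorem finrank_sup_le_succ (U : Submodule ℝ E) (x : E) :
    finrank ℝ (U ⊔ Submodule.span ℝ {x} : Submodule ℝ E) ≤ finrank ℝ U + 1 := by
  by_cases h : x ∈ U
  · rw [sup_eq_left.2 ((Submodule.span_singleton_le_iff_mem _ _).2 h)]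
    omega
  · exact (Submodule.finrank_sup_span_singleton h).le

theorem ne_top_of_finrank {U : Submodule ℝ E} (h : finrank ℝ U < finrank ℝ E) : U ≠ ⊤ := by
  rintro rfl
  simp at h

theorem exists_setup (a : ι → E) (hb : IsFace a ∅) (hE : finrank ℝ E = 7) (h7 : frk a ⊤ = 7) :
    Nonempty (Setup a) := by
  set J : Finset (Face a × ι) := univ.filter fun p => frk a p.1 = 3 ∧ p.2 ∉ p.1.1 with hJ
  set U : Face a × ι → Submodule ℝ E := fun p => sp a p.1.1 ⊔ Submodule.span ℝ {a p.2} with hU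
  have hU4 : ∀ p ∈ J, finrank ℝ (U p) = 4 := by
    intro p hp
    obtain ⟨h1, h2⟩ := (mem_filter.1 hp).2
    rw [hU, Submodule.finrank_sup_span_singleton fun e => h2 (p.1.2.mem_of_sp e)]
    exact congrArg (· + 1) h1
  set Φ : Finset (Face a) := univ.filter fun F => frk a F = 6 with hΦ
  have hout : ∀ F : Face a, frk a F < 7 → ∃ i, i ∉ F.1 := by
    intro F hF
    by_contra hc
    push Not at hc
    have : frk a ⊤ ≤ frk a F := (faceML a).ρ_le (fun i _ => hc i)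
    omega
  obtain ⟨k0, a0, b0⟩ := exists_avoid J U
    (fun p hp => ne_top_of_finrank (by rw [hU4 p hp]; omega))
    (PL.prod Φ fun F _ => PL.lin (cov a F.1)) (by
      obtain ⟨x, hx⟩ := exists_common Φ (fun F _ => PL.lin (cov a F.1)) fun F hF => by
        obtain ⟨i, hi⟩ := hout F (by rw [(mem_filter.1 hF).2]; omega)
        exact ⟨a i, (cov_pos F.2 hi).ne'⟩
      exact ⟨x, prod_ne_zero_iff.2 hx⟩)
  have hc : ∀ F, frk a F = 6 → cov a F.1 k0 ≠ 0 := fun F hF =>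
    prod_ne_zero_iff.1 a0 F (mem_filter.2 ⟨mem_univ _, hF⟩)
  choose P hP hP1 hP2 using fun H : Face a => exists_good_poly H
  set g : Face a → E →ₗ[ℝ] E := fun F =>
    cov a F.1 k0 • LinearMap.id - (cov a F.1).smulRight k0 with hg
  have hgx : ∀ F x, g F x = cov a F.1 k0 • x - cov a F.1 x • k0 := fun F x => by simp [hg]
  have hQ : PL fun x => ∏ F ∈ Φ, P F (g F x) := PL.prod Φ fun F _ => (hP F).comp (g F)
  have h5 : ∀ p ∈ J, finrank ℝ (U p ⊔ Submodule.span ℝ {k0} : Submodule ℝ E) = 5 := fun p hp => by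
    rw [Submodule.finrank_sup_span_singleton (b0 p hp), hU4 p hp]
  obtain ⟨k1, a1, b1⟩ := exists_avoid J (fun p => U p ⊔ Submodule.span ℝ {k0})
    (fun p hp => ne_top_of_finrank (by rw [h5 p hp]; omega)) hQ (by
      obtain ⟨x, hx⟩ := exists_common Φ (fun F _ => (hP F).comp (g F)) fun F hF => by
        obtain ⟨ξ, h1, h2⟩ := hP1 F
        refine ⟨(cov a F.1 k0)⁻¹ • ξ, ?_⟩
        rwa [hgx, map_smul, cov_sp h1, smul_zero, zero_smul, sub_zero, smul_smul,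
          mul_inv_cancel₀ (hc F (mem_filter.1 hF).2), one_smul]
      exact ⟨x, prod_ne_zero_iff.2 hx⟩)
  have h6 : ∀ p ∈ J, finrank ℝ (U p ⊔ Submodule.span ℝ {k0} ⊔ Submodule.span ℝ {k1} :
      Submodule ℝ E) = 6 := fun p hp => by
    rw [Submodule.finrank_sup_span_singleton (b1 p hp), h5 p hp]
  obtain ⟨k2, -, b2⟩ := exists_avoid J
    (fun p => U p ⊔ Submodule.span ℝ {k0} ⊔ Submodule.span ℝ {k1})
    (fun p hp => ne_top_of_finrank (by rw [h6 p hp]; omega)) (PL.const 1) ⟨0, one_ne_zero⟩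
  obtain ⟨S, hS1, hS2⟩ := (hQ.finite k1 k2 (s := 0) (by simpa using a1)).infinite_compl
    |>.exists_subset_card_eq 5
  have hgood : ∀ F, frk a F = 6 → ∀ s ∈ S, P F (g F (k1 + s • k2)) ≠ 0 := fun F hF s hs =>
    prod_ne_zero_iff.1 (hS1 (mem_coe.2 hs)) F (mem_filter.2 ⟨mem_univ _, hF⟩)
  set K : Submodule ℝ E :=
    Submodule.span ℝ {k0} ⊔ Submodule.span ℝ {k1} ⊔ Submodule.span ℝ {k2} with hK
  have m0 : k0 ∈ K :=
    Submodule.mem_sup_left (Submodule.mem_sup_left (Submodule.mem_span_singleton_self _))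
  have m1 : k1 ∈ K :=
    Submodule.mem_sup_left (Submodule.mem_sup_right (Submodule.mem_span_singleton_self _))
  have m2 : k2 ∈ K := Submodule.mem_sup_right (Submodule.mem_span_singleton_self _)
  have hη : ∀ (τ : Face a) (s : ℝ), ∃ y : E →ₗ[ℝ] ℝ, frk a τ ≤ 4 →
      (∀ x ∈ sp a τ.1, y x = 0) ∧ y k0 = 0 ∧ y k1 = -s ∧ y k2 = 1 := by
    intro τ s
    by_cases hτ : frk a τ ≤ 4
    swap
    · exact ⟨0, fun h => absurd h hτ⟩
    obtain ⟨π, c1, -, c3⟩ := (faceML a).exists_rank' (k := 4) (le_top (a := τ)) hτ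
      (by change 4 ≤ frk a ⊤; omega)
    change frk a π = 4 at c3
    obtain ⟨σ, d1, d2⟩ : ∃ σ, σ ≤ π ∧ frk a σ = 3 := by
      obtain ⟨σ, -, d⟩ := (faceML a).exists_rank' (k := 3) (x := ⟨∅, hb⟩) (y := π)
        (empty_subset _) (by change rk a ∅ ≤ 3; rw [rk_empty]; omega)
        (by change 3 ≤ frk a π; omega)
      exact ⟨σ, d⟩
    have hcv : Cv (frk a) σ π := ⟨d1, by omega⟩
    obtain ⟨i, hi, hi'⟩ := exists_of_ssubset hcv.lt_face
    have hp : (σ, i) ∈ J := mem_filter.2 ⟨mem_univ _, d2, hi'⟩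
    have hle : sp a τ.1 ≤ U (σ, i) := (sp_mono c1).trans (sp_eq_sup σ.2 d1 hcv.2 hi hi').le
    obtain ⟨y1, e1, e2⟩ := Submodule.exists_le_ker_of_notMem (b1 _ hp)
    obtain ⟨y2, e3, e4⟩ := Submodule.exists_le_ker_of_notMem (b2 _ hp)
    have f1 : y1 k0 = 0 := e2 (Submodule.mem_sup_right (Submodule.mem_span_singleton_self _))
    have f2 : y2 k0 = 0 := e4 (Submodule.mem_sup_left
      (Submodule.mem_sup_right (Submodule.mem_span_singleton_self _)))
    have f3 : y2 k1 = 0 := e4 (Submodule.mem_sup_right (Submodule.mem_span_singleton_self _))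
    refine ⟨((1 + s * y1 k2 / y1 k1) / y2 k2) • y2 - (s / y1 k1) • y1,
      fun _ => ⟨fun x hx => ?_, by simp [f1, f2], ?_, ?_⟩⟩
    · have g1 : y1 x = 0 := e2 (Submodule.mem_sup_left (hle hx))
      have g2 : y2 x = 0 := e4 (Submodule.mem_sup_left (Submodule.mem_sup_left (hle hx)))
      simp [g1, g2]
    · simp [f3, div_mul_cancel₀ _ e1]
    · simp only [LinearMap.sub_apply, LinearMap.smul_apply, smul_eq_mul, div_mul_cancel₀ _ e3]
      ring
  choose η hη using hη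
  have hθ : ∀ σ : Face a, ∃ y : E →ₗ[ℝ] ℝ, frk a σ = 3 →
      LinearMap.ker y = sp a σ.1 ⊔ K ∧ ∀ i, i ∉ σ.1 → y (a i) ≠ 0 := by
    intro σ
    by_cases hσ : frk a σ = 3
    swap
    · exact ⟨0, fun h => absurd h hσ⟩
    have e1 : finrank ℝ (sp a σ.1 ⊔ K : Submodule ℝ E) ≤ 6 := by
      rw [hK, ← sup_assoc, ← sup_assoc]
      have f1 := finrank_sup_le_succ (sp a σ.1) k0
      have f2 := finrank_sup_le_succ (sp a σ.1 ⊔ Submodule.span ℝ {k0}) k1
      have f3 := finrank_sup_le_succ (sp a σ.1 ⊔ Submodule.span ℝ {k0} ⊔ Submodule.span ℝ {k1}) k2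
      unfold frk rk at hσ
      omega
    have e2 : ∀ i, i ∉ σ.1 →
        finrank ℝ (sp a σ.1 ⊔ K ⊔ Submodule.span ℝ {a i} : Submodule ℝ E) = 7 := by
      intro i hi
      have hp : (σ, i) ∈ J := mem_filter.2 ⟨mem_univ _, hσ, hi⟩
      have f1 := Submodule.finrank_sup_span_singleton (b2 _ hp)
      rw [h6 _ hp] at f1
      have f2 : sp a σ.1 ⊔ K ⊔ Submodule.span ℝ {a i} = U (σ, i) ⊔ Submodule.span ℝ {k0} ⊔
          Submodule.span ℝ {k1} ⊔ Submodule.span ℝ {k2} := by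
        simp only [hK, hU]
        ac_rfl
      rw [f2, f1]
    have e3 : ∀ i, i ∉ σ.1 → a i ∉ sp a σ.1 ⊔ K := fun i hi h => by
      have := e2 i hi
      rw [sup_eq_left.2 ((Submodule.span_singleton_le_iff_mem _ _).2 h)] at this
      omega
    obtain ⟨i, hi⟩ := hout σ (by omega)
    obtain ⟨y, f1, f2⟩ := Submodule.exists_le_ker_of_notMem (e3 i hi)
    have e4 : LinearMap.ker y = sp a σ.1 ⊔ K := by
      symm
      refine Submodule.eq_of_le_of_finrank_le f2 ?_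
      have g1 := finrank_sup_le_succ (sp a σ.1 ⊔ K) (a i)
      have g2 : finrank ℝ (LinearMap.ker y) < finrank ℝ E :=
        Submodule.finrank_lt fun e => f1 (LinearMap.mem_ker.1 (e ▸ Submodule.mem_top))
      have := e2 i hi
      omega
    exact ⟨y, fun _ => ⟨e4, fun j hj h => e3 j hj (e4 ▸ LinearMap.mem_ker.2 h)⟩⟩
  choose θ hθ using hθ
  refine ⟨⟨S, hS2, fun F s => wt a F (g F (k1 + s • k2)), fun F s => g F (k1 + s • k2),
    fun F => cov a F.1 k0, η, θ, K, fun F hF s hs => (hP2 F _ (hgood F hF s hs)).2,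
    fun F hF s hs τ hτ => wt_rel ?_ (hP2 F _ (hgood F hF s hs)).1 (by omega), hc, fun F s => ?_,
    fun τ hτ s => (hη τ s hτ).1, fun τ hτ s F s' => ?_, fun τ τ' hτ hτ' s x hx => ?_,
    fun σ hσ => (hθ σ hσ).1, fun σ hσ => (hθ σ hσ).2⟩⟩
  · refine mem_sp_of_cov (H := univ) F.2 (subset_univ _) (by
      change frk a F + 1 = frk a ⊤; omega) ?_ ?_
    · have : sp a univ = ⊤ := Submodule.eq_top_of_finrank_eq (by rw [hE]; exact h7)
      rw [this]
      exact Submodule.mem_top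
    · rw [hgx, map_sub, map_smul, map_smul, smul_eq_mul, smul_eq_mul, mul_comm, sub_self]
  · rw [hgx]
    exact K.sub_mem (K.smul_mem _ (K.add_mem m1 (K.smul_mem _ m2))) (K.smul_mem _ m0)
  · obtain ⟨-, e1, e2, e3⟩ := hη τ s hτ
    rw [hgx]
    simp only [map_sub, map_smul, map_add, smul_eq_mul, e1, e2, e3]
    ring
  · obtain ⟨-, e1, e2, e3⟩ := hη τ s hτ
    obtain ⟨-, e4, e5, e6⟩ := hη τ' s hτ'
    have : K ≤ LinearMap.ker (η τ s - η τ' s) := by
      simp only [hK, sup_le_iff, Submodule.span_singleton_le_iff_mem, LinearMap.mem_ker,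
        LinearMap.sub_apply, e1, e2, e3, e4, e5, e6, sub_self, and_self]
    exact sub_eq_zero.1 (this hx)

end Pool.Agent.Lib.MP_c8fb4d_co
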