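import Pool.Agent.Lib.MP_c8fb4d_co.Six
import Pool.Agent.Lib.MP_c8fb4d_co.Cyclic

/-!
Comparison with the cyclic polytope in each dimension up to six.
-/

namespace Pool.Agent.Lib.MP_c8fb4d_co

open Module Finset
open scoped Classical

set_option linter.unusedSectionVars false

theorem cyc_ridges {d n : ℕ} (hn : d + 2 ≤ n) :
    (d + 1) * (faceML (hom (cyc (d + 1) n))).f ⊥ ⊤ (d + 1) =
      2 * (faceML (hom (cyc (d + 1) n))).f ⊥ ⊤ d := by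
  set m := faceML (hom (cyc (d + 1) n)) with hm
  have h0 : m.ρ ⊥ = 0 := frk_bot (hom_empty _)
  have ht : m.ρ ⊤ = d + 1 + 1 := frk_top_cyc hn
  have h1 := m.double_f ⊥ ⊤ d (d + 1)
  rw [m.sum_f_two (l := 2) fun z hz => m.diamond le_top (by rw [(ML.mem_I.1 hz).2.2]) ht,
    m.sum_f_two (l := d + 1) (fun F hF => by
      have h := (ML.mem_I.1 hF).2.2
      have h1 := f_cyc_le (k := d) (by omega) F
      rw [card_of_rk h le_rfl, ← hm, Nat.choose_succ_self_right] at h1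
      exact le_antisymm h1 (m.coatoms_ge (by omega) (d + 1) ⊥ bot_le (by omega)))] at h1
  exact h1.symm

theorem cyc_low {d n k : ℕ} (hk : 2 * k ≤ d) :
    (faceML (hom (cyc d n))).f ⊥ ⊤ k = n.choose k := by
  rw [f_cyc_eq hk]
  change (univ : Finset (Fin n)).card.choose k = _
  simp

theorem two_choose (n : ℕ) : 2 * (n.choose 2 : ℤ) = n * (n - 1) := by
  have := Nat.cast_choose_two ℚ n
  have h : (2 : ℚ) * (n.choose 2 : ℚ) = n * (n - 1) := by rw [this]; ring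
  exact_mod_cast h

theorem six_choose (z : ℕ) : 6 * (z + 2).choose 3 = z * (z + 1) * (z + 2) := by
  have := Nat.add_one_mul_choose_eq (z + 1) 2
  have h2 := Nat.add_one_mul_choose_eq z 1
  rw [Nat.choose_one_right] at h2
  nlinarith

theorem cyc_six {n : ℕ} (hn : 7 ≤ n) :
    4 * (faceML (hom (cyc 6 n))).f ⊥ ⊤ 4 + 20 * (faceML (hom (cyc 6 n))).f ⊥ ⊤ 6 =
      10 * (faceML (hom (cyc 6 n))).f ⊥ ⊤ 5 + 2 * (faceML (hom (cyc 6 n))).f ⊥ ⊤ 3 := by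
  set m := faceML (hom (cyc 6 n)) with hm
  have h7 : m.ρ ⊤ = 7 := frk_top_cyc hn
  have b : ∀ l, l ≤ 6 → ∑ z ∈ m.I ⊥ ⊤ 3, m.f z ⊤ l = l.choose 3 * m.f ⊥ ⊤ l := by
    intro l hl
    rw [m.double_f]
    exact m.sum_f_two fun G hG => by
      rw [f_cyc_eq (by omega), card_of_rk (ML.mem_I.1 hG).2.2 hl]
  have a5 : ∑ z ∈ m.I ⊥ ⊤ 3, (m.f z ⊤ 4 + m.f z ⊤ 6) = ∑ z ∈ m.I ⊥ ⊤ 3, (m.f z ⊤ 5 + 2) :=
    sum_congr rfl fun z hz => m.euler4 le_top (ML.mem_I.1 hz).2.2 h7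
  rw [sum_add_distrib, sum_add_distrib, b 4 (by omega), b 5 (by omega), b 6 (by omega), sum_const,
    smul_eq_mul, ← ML.f] at a5
  norm_num [Nat.choose] at a5
  omega

theorem cyc_arith (z f1 f2 f3 f4 f5 f6 : ℕ) (b1 : f1 + f3 + f5 = f2 + f4 + f6)
    (b2 : 6 * f6 = 2 * f5) (b3 : f1 = z + 5) (b4 : f2 = (z + 5).choose 2)
    (b5 : f3 = (z + 5).choose 3) (b6 : 4 * f4 + 20 * f6 = 10 * f5 + 2 * f3) :
    (z + 2).choose 3 + (z + 1).choose 2 = f6 ∧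
      6 * f4 = 12 * f6 + 6 + (z + 2) * (z + 3) * (z + 4) := by
  have c1 := two_choose (z + 5)
  have c2 := two_choose (z + 1)
  have c3 := six_choose z
  have c4 : 6 * (z + 5).choose 3 = (z + 3) * (z + 3 + 1) * (z + 3 + 2) := six_choose (z + 3)
  rw [← b4] at c1
  rw [← b5] at c4
  zify at b1 b2 b3 b6 c3 c4 ⊢
  push_cast at c1 c2
  constructor <;> nlinarith

variable {ι : Type} [Fintype ι] [DecidableEq ι]

theorem compare_two (p : ι → EuclideanSpace ℝ (Fin 2)) (ht : frk (hom p) ⊤ = 3) {n : ℕ}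
    (hn : 3 ≤ n) (h : (faceML (hom (cyc 2 n))).f ⊥ ⊤ 2 ≤ (faceML (hom p)).f ⊥ ⊤ 2) (k : ℕ)
    (hk : k < 2) : (faceML (hom (cyc 2 n))).f ⊥ ⊤ (k + 1) ≤ (faceML (hom p)).f ⊥ ⊤ (k + 1) := by
  have a1 := (faceML (hom p)).euler3 (le_top (a := ⊥)) (frk_bot (hom_empty _)) ht
  have b1 := (faceML (hom (cyc 2 n))).euler3 (le_top (a := ⊥)) (frk_bot (hom_empty _))
    (frk_top_cyc hn)
  norm_num at a1 b1
  interval_cases k <;> norm_num <;> omega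

theorem compare_three (p : ι → EuclideanSpace ℝ (Fin 3)) (ht : frk (hom p) ⊤ = 4) {n : ℕ}
    (hn : 4 ≤ n) (h : (faceML (hom (cyc 3 n))).f ⊥ ⊤ 3 ≤ (faceML (hom p)).f ⊥ ⊤ 3) (k : ℕ)
    (hk : k < 3) : (faceML (hom (cyc 3 n))).f ⊥ ⊤ (k + 1) ≤ (faceML (hom p)).f ⊥ ⊤ (k + 1) := by
  have a1 := (faceML (hom p)).euler4 (le_top (a := ⊥)) (frk_bot (hom_empty _)) ht
  have b1 := (faceML (hom (cyc 3 n))).euler4 (le_top (a := ⊥)) (frk_bot (hom_empty _))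
    (frk_top_cyc hn)
  have a2 := (faceML (hom p)).ridges_le (d := 2) (frk_bot (hom_empty _)) ht
  have b2 : 3 * (faceML (hom (cyc 3 n))).f ⊥ ⊤ 3 = 2 * (faceML (hom (cyc 3 n))).f ⊥ ⊤ 2 :=
    cyc_ridges (d := 2) hn
  norm_num at a1 b1 a2
  interval_cases k <;> norm_num <;> omega

theorem compare_four (p : ι → EuclideanSpace ℝ (Fin 4)) (ht : frk (hom p) ⊤ = 5) {n : ℕ}
    (hn : 5 ≤ n) (h : (faceML (hom (cyc 4 n))).f ⊥ ⊤ 4 ≤ (faceML (hom p)).f ⊥ ⊤ 4) (k : ℕ)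
    (hk : k < 4) : (faceML (hom (cyc 4 n))).f ⊥ ⊤ (k + 1) ≤ (faceML (hom p)).f ⊥ ⊤ (k + 1) := by
  have h0 : (faceML (hom p)).ρ ⊥ = 0 := frk_bot (hom_empty _)
  have a1 := (faceML (hom p)).euler5 (le_top (a := ⊥)) h0 ht
  have b1 := (faceML (hom (cyc 4 n))).euler5 (le_top (a := ⊥)) (frk_bot (hom_empty _))
    (frk_top_cyc hn)
  have a2 := (faceML (hom p)).ridges_le (d := 3) h0 ht
  have b2 : 4 * (faceML (hom (cyc 4 n))).f ⊥ ⊤ 4 = 2 * (faceML (hom (cyc 4 n))).f ⊥ ⊤ 3 :=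
    cyc_ridges (d := 3) hn
  have a3 := (faceML (hom p)).edges_le h0
  have a4 := (faceML (hom p)).atoms_ge (k := 1) (x := ⊥) (by omega) 5 ⊤ le_top (by
    rw [h0]; exact ht)
  have b3 := cyc_low (d := 4) (n := n) (k := 1) (by omega)
  have b4 := cyc_low (d := 4) (n := n) (k := 2) (by omega)
  have b5 := two_choose n
  norm_num at a1 b1 a2 b3
  have a5 : n ≤ (faceML (hom p)).f ⊥ ⊤ 1 := by
    by_contra hc
    have c1 : (2 * (n.choose 2 : ℤ) - 2 * n) ≤ 2 * (faceML (hom p)).f ⊥ ⊤ 2 -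
        2 * (faceML (hom p)).f ⊥ ⊤ 1 := by omega
    zify at a3 a4 hc
    nlinarith
  interval_cases k <;> norm_num <;> omega

theorem compare_five (p : ι → EuclideanSpace ℝ (Fin 5)) (ht : frk (hom p) ⊤ = 6) {n : ℕ}
    (hn : 6 ≤ n) (h : (faceML (hom (cyc 5 n))).f ⊥ ⊤ 5 ≤ (faceML (hom p)).f ⊥ ⊤ 5) (k : ℕ)
    (hk : k < 5) : (faceML (hom (cyc 5 n))).f ⊥ ⊤ (k + 1) ≤ (faceML (hom p)).f ⊥ ⊤ (k + 1) := by
  have e : ∀ k, faceNumber (cyclicPolytope 5 n) k = (faceML (hom (cyc 5 n))).f ⊥ ⊤ (k + 1) :=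
    faceNumber_eq (cyc 5 n)
  obtain ⟨c0, c1, c2, c3, c4⟩ := cyclic_five hn
  rw [e] at c0 c1 c2 c3 c4
  obtain ⟨g0, g1, g2, g3⟩ := (faceML (hom p)).gubt (frk_bot (hom_empty _)) ht
    (fun v w hv hw => exists_order (hom_empty _) hv hw) n (by exact_mod_cast hn)
    (by rw [← c4]; exact_mod_cast h)
  norm_num at c0 c1 c2 c3 c4
  interval_cases k <;> norm_num <;> omega

theorem compare_six (p : ι → EuclideanSpace ℝ (Fin 6)) (ht : frk (hom p) ⊤ = 7) {n : ℕ}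
    (hn : 7 ≤ n) (h : (faceML (hom (cyc 6 n))).f ⊥ ⊤ 6 ≤ (faceML (hom p)).f ⊥ ⊤ 6) (k : ℕ)
    (hk : k < 6) : (faceML (hom (cyc 6 n))).f ⊥ ⊤ (k + 1) ≤ (faceML (hom p)).f ⊥ ⊤ (k + 1) := by
  obtain ⟨z, rfl⟩ : ∃ z, n = z + 5 := ⟨n - 5, by omega⟩
  have h0 : (faceML (hom p)).ρ ⊥ = 0 := frk_bot (hom_empty _)
  have b1 := (faceML (hom (cyc 6 (z + 5)))).euler7 (le_top (a := ⊥)) (frk_bot (hom_empty _))
    (frk_top_cyc hn)
  have a2 := (faceML (hom p)).ridges_le (d := 5) h0 ht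
  have b2 : 6 * (faceML (hom (cyc 6 (z + 5)))).f ⊥ ⊤ 6 =
      2 * (faceML (hom (cyc 6 (z + 5)))).f ⊥ ⊤ 5 := cyc_ridges (d := 5) hn
  have b3 := cyc_low (d := 6) (n := z + 5) (k := 1) (by omega)
  have b4 := cyc_low (d := 6) (n := z + 5) (k := 2) (by omega)
  have b5 := cyc_low (d := 6) (n := z + 5) (k := 3) (by omega)
  have b6 := cyc_six hn
  have c1 := two_choose (z + 5)
  have c4 : 6 * (z + 5).choose 3 = (z + 3) * (z + 3 + 1) * (z + 3 + 2) := six_choose (z + 3)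
  norm_num at b1 a2 b3
  have d0 := cyc_arith z _ _ _ _ _ _ b1 b2 b3 b4 b5 b6
  obtain ⟨a3, a4⟩ := six_bounds (hom_empty p) (by simp) ht (z := z) (by omega) (d0.1.le.trans h)
  have a5 := (faceML (hom p)).kk h0 (n := z + 5) (by omega) (by
    zify at a3
    refine le_of_eq_of_le ?_ a3
    ring)
  have a6 := (faceML (hom p)).vertices_ge h0 (by change 1 ≤ frk _ ⊤; omega) a5
  have d2 := d0.2
  have d3 : 6 * (faceML (hom (cyc 6 (z + 5)))).f ⊥ ⊤ 3 = (z + 3) * (z + 4) * (z + 5) := by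
    rw [b5, c4]
  push_cast at c1
  rw [← c1] at a5
  interval_cases k <;> norm_num <;> omega

end Pool.Agent.Lib.MP_c8fb4d_co
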