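import Pool.Agent.Lib.MP_c8fb4d_co.Count

/-!
The two main inequalities for an edge of a five-dimensional polytope.
-/

namespace Pool.Agent.Lib.MP_c8fb4d_co

open Finset
open scoped Classical

set_option linter.unusedSectionVars false

variable {L : Type} [Lattice L] [Fintype L] [BoundedOrder L]

namespace ML

variable (m : ML L)

theorem cv_top (h6 : m.ρ ⊤ = 6) {F : L} : Cv m.ρ F ⊤ ↔ m.ρ F = 5 := by
  simp only [Cv, le_top, true_and]; omega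

theorem middle (h0 : m.ρ ⊥ = 0) (h6 : m.ρ ⊤ = 6) {φ : L → ℝ} (hG : Good m.ρ m.Re ⊤ φ)
    {β δ : L → L} (hβ : m.Sel φ β) (hδ : m.Sel (fun F => -φ F) δ) (S : Finset L)
    (hS : ∀ F ∈ S, m.ρ F = 5 ∧ (∃ F', m.ρ F' = 5 ∧ φ F' < φ F) ∧ ∃ F', m.ρ F' = 5 ∧ φ F < φ F') :
    3 * (m.cnt β 1 S + m.cnt δ 1 S) + 2 * S.card ≤ 2 * (m.cnt β 2 S + m.cnt δ 2 S) ∧
    2 * (m.cnt β 1 S + m.cnt δ 1 S) + 6 * S.card ≤
      m.cnt β 2 S + m.cnt δ 2 S + ∑ F ∈ S, m.f ⊥ F 4 := by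
  have hinj : ∀ F F', m.ρ F = 5 → m.ρ F' = 5 → φ F = φ F' → F = F' := fun F F' a b =>
    hG.1 F F' ((m.cv_top h6).2 a) ((m.cv_top h6).2 b)
  have key : ∀ F ∈ S,
      3 * ((univ.filter fun x => m.ρ x = 1 ∧ β x = F).card +
        (univ.filter fun x => m.ρ x = 1 ∧ δ x = F).card) + 2 * 1 ≤
      2 * ((univ.filter fun x => m.ρ x = 2 ∧ β x = F).card +
        (univ.filter fun x => m.ρ x = 2 ∧ δ x = F).card) ∧
      2 * ((univ.filter fun x => m.ρ x = 1 ∧ β x = F).card +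
        (univ.filter fun x => m.ρ x = 1 ∧ δ x = F).card) + 6 * 1 ≤
      (univ.filter fun x => m.ρ x = 2 ∧ β x = F).card +
        (univ.filter fun x => m.ρ x = 2 ∧ δ x = F).card + m.f ⊥ F 4 := by
    intro F hFS
    obtain ⟨hF, ⟨F1, a1, a2⟩, F2, b1, b2⟩ := hS F hFS
    obtain ⟨P, hP, hloc⟩ := hG.2 F ((m.cv_top h6).2 hF)
    have hself : ∀ R R', Cv m.ρ R F → Cv m.ρ R' F → R ≤ R' → R = R' := fun R R' a b c =>
      m.eq_of_ρ c (by have := a.2; have := b.2; omega)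
    have l1 := m.local_count h0 hβ hinj hF (by
      by_contra hc
      push Not at hc
      refine absurd ((hloc ⊥ bot_le).1.1 (fun R hR _ => ?_) F1 ((m.cv_top h6).2 a1) bot_le)
        (not_le.2 a2)
      exact (hloc R hR.1).1.2 (fun F' c d => hc R F' (by have := hR.2; omega) hR.1
        ((m.cv_top h6).1 c) d) R hR le_rfl)
    have l2 := m.local_count h0 hδ (fun F F' a b c => hinj F F' a b (neg_injective c)) hF (by
      by_contra hc
      push Not at hc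
      refine absurd ((hloc ⊥ bot_le).2.1 (fun R hR _ => ?_) F2 ((m.cv_top h6).2 b1) bot_le)
        (not_le.2 b2)
      exact (hloc R hR.1).2.2 (fun F' c d => neg_le_neg_iff.1 (hc R F' (by have := hR.2; omega) hR.1
        ((m.cv_top h6).1 c) d)) R hR le_rfl)
    have l3 := m.coatoms_ge (k := 4) (y := F) (by omega) 5 ⊥ bot_le (by omega)
    have l4 : 0 < (univ.filter fun x => m.ρ x = 2 ∧ β x = F).card ∨
        0 < (univ.filter fun x => m.ρ x = 2 ∧ δ x = F).card := by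
      obtain ⟨e, c1, c2, c3⟩ := m.hinman h0 hF hP
      rcases c3 with c3 | c3
      · obtain ⟨p1, p2, p3⟩ := hβ e (by omega)
        exact Or.inl (card_pos.2 ⟨e, mem_filter.2 ⟨mem_univ _, c2, hinj _ _ p1 hF (le_antisymm
          (p3 F hF c1) ((hloc e c1).1.1 c3 _ ((m.cv_top h6).2 p1) p2))⟩⟩)
      · obtain ⟨p1, p2, p3⟩ := hδ e (by omega)
        exact Or.inr (card_pos.2 ⟨e, mem_filter.2 ⟨mem_univ _, c2, hinj _ _ p1 hF (le_antisymm
          ((hloc e c1).2.1 c3 _ ((m.cv_top h6).2 p1) p2) (neg_le_neg_iff.1 (p3 F hF c1)))⟩⟩)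
    omega
  simp only [cnt_sum, card_eq_sum_ones S, mul_sum, ← sum_add_distrib]
  exact ⟨sum_le_sum fun F hF => (key F hF).1, sum_le_sum fun F hF => (key F hF).2⟩

theorem vertex_cases {p u : L} (hp : m.ρ p = 1) (hu : m.ρ u = 1) {S : Finset L} {F : L}
    (hF : F ∈ S) (h : u ≤ F) : u = p ∨ u ∈ m.Nb p ∨ u ∈ m.M p S := by
  by_cases e : u = p
  · exact Or.inl e
  have := m.ρ_lt_sup (m.not_le_of_ne (hp.trans hu.symm) (Ne.symm e))
  by_cases h2 : m.ρ (u ⊔ p) = 2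
  · exact Or.inr (Or.inl (mem_filter.2 ⟨mem_univ _, hu, h2⟩))
  · exact Or.inr (Or.inr (mem_filter.2 ⟨mem_univ _, hu, by omega, F, hF, h⟩))

theorem main_ineq (h0 : m.ρ ⊥ = 0) (h6 : m.ρ ⊤ = 6) {v w : L} (hv : m.ρ v = 1) (hw : m.ρ w = 1)
    (hvw : m.ρ (w ⊔ v) = 2) {φ : L → ℝ} (hG : Good m.ρ m.Re ⊤ φ)
    (o1 : ∀ F F', Cv m.ρ F ⊤ → Cv m.ρ F' ⊤ → v ≤ F → ¬ v ≤ F' → φ F < φ F')
    (o2 : ∀ F F', Cv m.ρ F ⊤ → Cv m.ρ F' ⊤ → w ≤ F → ¬ v ≤ F → ¬ w ≤ F' → φ F' < φ F) :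
    6 * m.f ⊥ ⊤ 1 + 3 * (m.f v ⊤ 2 + m.f w ⊤ 2) + 2 * m.f ⊥ ⊤ 5 ≤ 4 * m.f ⊥ ⊤ 2 + 18 ∧
    4 * m.f ⊥ ⊤ 1 + (m.f v ⊤ 2 + m.f w ⊤ 2) + 6 * m.f ⊥ ⊤ 5 ≤
      2 * m.f ⊥ ⊤ 2 + 2 * m.f ⊥ ⊤ 4 + 10 := by
  simp only [m.cv_top h6] at o1 o2
  obtain ⟨β, hβ⟩ := m.exists_sel h6 φ
  obtain ⟨δ, hδ⟩ := m.exists_sel h6 fun F => -φ F
  set A := m.I v ⊤ 5 with hA
  set Z := (m.I w ⊤ 5).filter fun F => ¬ v ≤ F with hZ
  set S := (m.I ⊥ ⊤ 5).filter fun F => ¬ v ≤ F ∧ ¬ w ≤ F with hS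
  have mA : ∀ {F}, F ∈ A ↔ m.ρ F = 5 ∧ v ≤ F := by
    intro F; simp only [hA, mem_I, le_top, true_and]; tauto
  have mZ : ∀ {F}, F ∈ Z ↔ m.ρ F = 5 ∧ w ≤ F ∧ ¬ v ≤ F := by
    intro F; simp only [hZ, mem_filter, mem_I, le_top, true_and]; tauto
  have mS : ∀ {F}, F ∈ S ↔ m.ρ F = 5 ∧ ¬ v ≤ F ∧ ¬ w ≤ F := by
    intro F; simp only [hS, mem_filter, mem_I, le_top, bot_le, true_and]
  have hne : ¬ v ≤ w := fun h => by rw [sup_eq_left.2 h] at hvw; omega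
  have avoid : ∀ {x y : L}, ¬ y ≤ x → ∃ F, m.ρ F = 5 ∧ x ≤ F ∧ ¬ y ≤ F := by
    intro x y h
    obtain ⟨F, a, -, c, d⟩ := m.coatomic' (le_top (a := y)) (le_top (a := x)) h
    exact ⟨F, by omega, a, d⟩
  obtain ⟨F0, f01, -, f02⟩ := m.exists_rank' (k := 5) (le_top (a := w ⊔ v)) (by omega) (by omega)
  obtain ⟨F1, f11, f12, f13⟩ := avoid hne
  have e1 := m.cnt_split hβ (k := 2) (by omega) v w
  have e2 := m.cnt_split hδ (k := 2) (by omega) v w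
  have e3 := m.cnt_split hβ (k := 1) (by omega) v w
  have e4 := m.cnt_split hδ (k := 1) (by omega) v w
  rw [← hA, ← hZ, ← hS] at e1 e2 e3 e4
  obtain ⟨m1, m2⟩ := m.middle h0 h6 hG hβ hδ S fun F hF => by
    obtain ⟨a, b, c⟩ := mS.1 hF
    exact ⟨a, ⟨F0, f02, o1 _ _ f02 a (le_sup_right.trans f01) b⟩, F1, f11, o2 _ _ f11 a f12 f13 c⟩
  have bornA : ∀ x F, m.ρ x ≤ 5 → F ∈ A → x ≤ F → β x ∈ A := by
    intro x F hx hF h
    obtain ⟨p1, -, p3⟩ := hβ x hx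
    obtain ⟨a, b⟩ := mA.1 hF
    refine mA.2 ⟨p1, ?_⟩
    by_contra hc
    exact absurd (p3 F a h) (not_le.2 (o1 _ _ a p1 b hc))
  have diesZ : ∀ x F, m.ρ x ≤ 5 → F ∈ Z → x ≤ F → δ x ∈ Z := by
    intro x F hx hF h
    obtain ⟨p1, -, p3⟩ := hδ x hx
    obtain ⟨a, b, c⟩ := mZ.1 hF
    have q := neg_le_neg_iff.1 (p3 F a h)
    refine mZ.2 ⟨p1, ?_, fun hc => absurd q (not_le.2 (o1 _ _ p1 a hc c))⟩
    by_contra hc
    exact absurd q (not_le.2 (o2 _ _ a p1 b c hc))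
  have n1 : m.cnt β 1 A ≤ 1 + m.f v ⊤ 2 + (m.M v A).card := by
    rw [← m.card_Nb h0 hv]
    refine le_trans (card_le_card fun u hu => ?_) ((card_union_le _ _).trans
      (Nat.add_le_add_right ((card_union_le {v} (m.Nb v)).trans_eq (by rw [card_singleton])) _))
    obtain ⟨a, b⟩ := (mem_filter.1 hu).2
    simpa only [mem_union, mem_singleton, or_assoc] using
      m.vertex_cases hv a b (hβ u (by omega)).2.1
  have n2 : m.cnt β 1 Z = 0 := by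
    rw [cnt, card_eq_zero, filter_eq_empty_iff]
    rintro u - ⟨a, b⟩
    obtain ⟨p1, p2, p3⟩ := hβ u (by omega)
    obtain ⟨-, c, d⟩ := mZ.1 b
    by_cases h : w ≤ u
    · rw [← m.eq_of_ρ h (by omega)] at d
      exact d (mA.1 (bornA w F0 (by omega) (mA.2 ⟨f02, le_sup_right.trans f01⟩)
        (le_sup_left.trans f01))).2
    · obtain ⟨F, q1, q2, q3⟩ := avoid h
      exact absurd (p3 F q1 q2) (not_le.2 (o2 _ _ p1 q1 c d q3))
  have n3 : m.cnt δ 1 A ≤ 1 := by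
    refine (card_le_card fun u hu => mem_singleton.2 ?_).trans_eq (card_singleton v)
    obtain ⟨a, b⟩ := (mem_filter.1 hu).2
    obtain ⟨p1, p2, p3⟩ := hδ u (by omega)
    by_contra hc
    obtain ⟨F, q1, q2, q3⟩ := avoid (m.not_le_of_ne (hv.trans a.symm) (Ne.symm hc))
    exact absurd (neg_le_neg_iff.1 (p3 F q1 q2)) (not_le.2 (o1 _ _ p1 q1 (mA.1 b).2 q3))
  have n4 : m.cnt δ 1 Z ≤ m.f w ⊤ 2 + (m.M w Z).card := by
    have hvN : v ∈ m.Nb w := mem_filter.2 ⟨mem_univ _, hv, by rwa [sup_comm]⟩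
    rw [← m.card_Nb h0 hw, ← card_erase_add_one hvN, add_comm _ 1]
    refine le_trans (card_le_card fun u hu => ?_) ((card_union_le _ _).trans
      (Nat.add_le_add_right ((card_union_le {w} ((m.Nb w).erase v)).trans_eq (by rw [card_singleton])) _))
    obtain ⟨a, b⟩ := (mem_filter.1 hu).2
    have c := (hδ u (by omega)).2.1
    rcases m.vertex_cases hw a b c with h | h | h
    · exact mem_union_left _ (mem_union_left _ (mem_singleton.2 h))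
    · exact mem_union_left _ (mem_union_right _ (mem_erase.2
        ⟨fun e => (mZ.1 b).2.2 (e ▸ c), h⟩))
    · exact mem_union_right _ h
  have b1 : m.f v ⊤ 2 + (m.Y v A).card ≤ m.cnt β 2 A := by
    rw [f, ← card_union_of_disjoint]
    · refine card_le_card fun e he => ?_
      rcases mem_union.1 he with he | he
      · obtain ⟨a, -, c⟩ := mem_I.1 he
        obtain ⟨p1, p2, -⟩ := hβ e (by omega)
        exact mem_filter.2 ⟨mem_univ _, c, mA.2 ⟨p1, a.trans p2⟩⟩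
      · obtain ⟨a, -, F, c, d⟩ := (mem_filter.1 he).2
        exact mem_filter.2 ⟨mem_univ _, a, bornA e F (by omega) c d⟩
    · rw [disjoint_left]
      intro e a b
      exact (mem_filter.1 b).2.2.1 (mem_I.1 a).1
  have b2 : m.f v ⊤ 2 ≤ m.cnt δ 2 A := by
    refine card_le_card fun e he => ?_
    obtain ⟨a, -, c⟩ := mem_I.1 he
    obtain ⟨p1, p2, -⟩ := hδ e (by omega)
    exact mem_filter.2 ⟨mem_univ _, c, mA.2 ⟨p1, a.trans p2⟩⟩
  have b3 : (univ.filter fun e => m.ρ e = 2 ∧ w ≤ e ∧ e ⊔ v = ⊤).card ≤ m.cnt β 2 Z := by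
    refine card_le_card fun e he => ?_
    obtain ⟨a, b, c⟩ := (mem_filter.1 he).2
    obtain ⟨p1, p2, -⟩ := hβ e (by omega)
    refine mem_filter.2 ⟨mem_univ _, a, mZ.2 ⟨p1, b.trans p2, fun h => ?_⟩⟩
    have := m.ρ_le (c ▸ sup_le p2 h)
    omega
  have b4 : m.f w ⊤ 2 + (m.Y w Z).card ≤ m.cnt δ 2 Z + 1 := by
    have hm : w ⊔ v ∈ m.I w ⊤ 2 := mem_I.2 ⟨le_sup_left, le_top, hvw⟩
    rw [f, ← card_erase_add_one hm, add_right_comm, ← card_union_of_disjoint]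
    · refine Nat.add_le_add_right (card_le_card fun e he => ?_) _
      rcases mem_union.1 he with he | he
      · obtain ⟨g, he⟩ := mem_erase.1 he
        obtain ⟨a, -, c⟩ := mem_I.1 he
        obtain ⟨F, q1, q2, q3⟩ := avoid (x := e) (y := v)
          fun h => g (m.eq_of_ρ (sup_le a h) (by omega)).symm
        exact mem_filter.2 ⟨mem_univ _, c, diesZ e F (by omega) (mZ.2 ⟨q1, a.trans q2, q3⟩) q2⟩
      · obtain ⟨a, -, F, c, d⟩ := (mem_filter.1 he).2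
        exact mem_filter.2 ⟨mem_univ _, a, diesZ e F (by omega) c d⟩
    · rw [disjoint_left]
      intro e a b
      exact (mem_filter.1 b).2.2.1 (mem_I.1 (mem_erase.1 a).2).1
  have z1 : m.f w ⊤ 3 ≤ (m.B w Z).card + m.f (w ⊔ v) ⊤ 3 := by
    refine le_trans (card_le_card fun G hG => ?_) (card_union_le _ _)
    obtain ⟨a, -, c⟩ := mem_I.1 hG
    by_cases h : v ≤ G
    · exact mem_union_right _ (mem_I.2 ⟨sup_le a h, le_top, c⟩)
    · obtain ⟨F, q1, q2, q3⟩ := avoid h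
      exact mem_union_left _ (mem_filter.2 ⟨mem_univ _, c, a, F, mZ.2 ⟨q1, a.trans q2, q3⟩, q2⟩)
  have z2 : Z.card + m.f (w ⊔ v) ⊤ 5 = m.f w ⊤ 5 := by
    rw [f, f, ← card_filter_add_card_filter_not (s := m.I w ⊤ 5) (p := fun F => ¬ v ≤ F)]
    congr 2
    ext F
    simp only [mem_filter, mem_I, sup_le_iff, le_top, true_and, not_not]
    tauto
  have z3 : m.f ⊥ ⊤ 5 = m.f v ⊤ 5 + Z.card + S.card := by
    rw [f, f, ← hA, ← card_union_of_disjoint, ← card_union_of_disjoint]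
    · congr 1
      ext F
      simp only [mem_union, mA, mZ, mS, mem_I, bot_le, le_top, true_and]
      tauto
    · rw [disjoint_left]
      intro F
      simp only [mem_union, mA, mZ, mS]
      tauto
    · rw [disjoint_left]
      intro F
      simp only [mA, mZ]
      tauto
  have z4 : ∑ F ∈ m.I (w ⊔ v) ⊤ 5, m.f ⊥ F 4 + ∑ F ∈ S, m.f ⊥ F 4 + 5 * m.f ⊥ ⊤ 5 ≤
      2 * m.f ⊥ ⊤ 4 + 5 * m.f (w ⊔ v) ⊤ 5 + 5 * S.card := by
    have hd : Disjoint (m.I (w ⊔ v) ⊤ 5) S := by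
      rw [disjoint_left]
      intro F a b
      exact (mS.1 b).2.1 (le_sup_right.trans (mem_I.1 a).1)
    have hsub : m.I (w ⊔ v) ⊤ 5 ∪ S ⊆ m.I ⊥ ⊤ 5 := by
      intro F hF
      rcases mem_union.1 hF with h | h
      · exact mem_I.2 ⟨bot_le, (mem_I.1 h).2⟩
      · exact (mem_filter.1 h).1
    have h1 := card_sdiff_add_card_eq_card hsub
    have h2 := card_nsmul_le_sum (m.I ⊥ ⊤ 5 \ (m.I (w ⊔ v) ⊤ 5 ∪ S)) (fun F => m.f ⊥ F 4) 5
      (fun F hF => m.coatoms_ge (by have := (mem_I.1 (mem_sdiff.1 hF).1).2.2; omega) 5 ⊥ bot_le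
        (by have := (mem_I.1 (mem_sdiff.1 hF).1).2.2; omega))
    rw [← m.ridges_facets h6 ⊥, ← sum_sdiff hsub, sum_union hd]
    rw [card_union_of_disjoint hd] at h1
    rw [smul_eq_mul] at h2
    unfold f at *
    omega
  obtain ⟨i, i1, i2, i3⟩ := m.star_strong h0 h6 hv hw hvw
  have s1 := m.star_weak h0 hw Z (fun F hF => (mZ.1 hF).2.1) (fun F hF => (mZ.1 hF).1)
  have s2 := m.facet_bound h6 hv hw hvw
  have s3 := m.far_edges_sum h0 hw hvw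
  have s4 := m.edges_split h6 hw hvw
  rw [← hA] at i1 i3
  omega

end ML

end Pool.Agent.Lib.MP_c8fb4d_co
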