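import Pool.Agent.Lib.MP_c8fb4d_co.Faces
import Pool.Agent.Lib.MP_c8fb4d_co.Eul

/-!
Unit inner normals of covering pairs of faces and the diamond relation.
-/

namespace Pool.Agent.Lib.MP_c8fb4d_co

open Module Finset
open scoped Classical

set_option linter.unusedSectionVars false

variable {ι : Type} [Fintype ι] [DecidableEq ι] {E : Type} [AddCommGroup E] [Module ℝ E]
  [FiniteDimensional ℝ E]

/-- A positive definite symmetric form. -/
noncomputable def bf (E : Type) [AddCommGroup E] [Module ℝ E] [FiniteDimensional ℝ E] :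
    E →ₗ[ℝ] E →ₗ[ℝ] ℝ :=
  ∑ j, (LinearMap.mul ℝ ℝ).compl₁₂ ((finBasis ℝ E).coord j) ((finBasis ℝ E).coord j)

theorem bf_apply (x y : E) :
    bf E x y = ∑ j, (finBasis ℝ E).repr x j * (finBasis ℝ E).repr y j := by
  simp [bf, LinearMap.sum_apply]

theorem bf_comm (x y : E) : bf E x y = bf E y x := by
  simp only [bf_apply, mul_comm]

theorem bf_pos {x : E} (h : x ≠ 0) : 0 < bf E x x := by
  rw [bf_apply]
  obtain ⟨j, hj⟩ : ∃ j, (finBasis ℝ E).repr x j ≠ 0 := by
    by_contra hc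
    push Not at hc
    exact h ((finBasis ℝ E).repr.map_eq_zero_iff.1 (Finsupp.ext hc))
  exact sum_pos' (fun j _ => mul_self_nonneg _) ⟨j, mem_univ _, mul_self_pos.2 hj⟩

variable {a : ι → E}

/-- `v` is the unit inner normal of the facet `τ` of `σ`. -/
def IsNu (a : ι → E) (σ τ : Face a) (v : E) : Prop :=
  v ∈ sp a σ.1 ∧ (∀ x ∈ sp a τ.1, bf E v x = 0) ∧ bf E v v = 1 ∧ 0 < cov a τ.1 v

theorem cov_sp {τ : Face a} {x : E} (hx : x ∈ sp a τ.1) : cov a τ.1 x = 0 :=
  eq_zero_of_sp (fun j hj => (cov_eq_zero τ.2 j).1 hj) hx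

theorem exists_nu {σ τ : Face a} (h : Cv (frk a) τ σ) : ∃ v, IsNu a σ τ v := by
  let f : sp a σ.1 →ₗ[ℝ] Module.Dual ℝ (sp a τ.1) :=
    (bf E).compl₁₂ (sp a σ.1).subtype (sp a τ.1).subtype
  have hk : LinearMap.ker f ≠ ⊥ := by
    intro hk
    have h1 := LinearMap.finrank_le_finrank_of_injective (LinearMap.ker_eq_bot.1 hk)
    rw [Subspace.dual_finrank_eq] at h1
    have h2 := h.2
    unfold frk rk at h2
    omega
  obtain ⟨⟨n, hn⟩, hn1, hn2⟩ := Submodule.exists_mem_ne_zero_of_ne_bot hk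
  have hn0 : n ≠ 0 := fun e => hn2 (Subtype.ext e)
  have horth : ∀ x ∈ sp a τ.1, bf E n x = 0 := fun x hx =>
    LinearMap.congr_fun (LinearMap.mem_ker.1 hn1) ⟨x, hx⟩
  have hc : cov a τ.1 n ≠ 0 := fun e =>
    (bf_pos hn0).ne' (horth n (mem_sp_of_cov τ.2 h.1 h.2 hn e))
  have hp := bf_pos hn0
  have hs : 0 < √(bf E n n) := Real.sqrt_pos.2 hp
  have hs2 : √(bf E n n) * √(bf E n n) = bf E n n := Real.mul_self_sqrt hp.le
  rcases lt_or_gt_of_ne hc with hc | hc
  · refine ⟨(-(√(bf E n n))⁻¹) • n, Submodule.smul_mem _ _ hn, fun x hx => by simp [horth x hx],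
      ?_, ?_⟩
    · simp only [map_smul, LinearMap.smul_apply, smul_eq_mul]
      field_simp
      rw [sq, hs2]
    · rw [map_smul, smul_eq_mul]
      exact mul_pos_of_neg_of_neg (neg_neg_of_pos (inv_pos.2 hs)) hc
  · refine ⟨((√(bf E n n))⁻¹) • n, Submodule.smul_mem _ _ hn, fun x hx => by simp [horth x hx],
      ?_, ?_⟩
    · simp only [map_smul, LinearMap.smul_apply, smul_eq_mul]
      field_simp
      rw [sq, hs2]
    · rw [map_smul, smul_eq_mul]
      exact mul_pos (inv_pos.2 hs) hc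

/-- On the span of `σ` every vector is a multiple of the normal modulo the span of `τ`. -/
theorem IsNu.sub_mem {σ τ : Face a} (h : Cv (frk a) τ σ) {v : E} (hv : IsNu a σ τ v) {x : E}
    (hx : x ∈ sp a σ.1) : x - (cov a τ.1 x / cov a τ.1 v) • v ∈ sp a τ.1 := by
  refine mem_sp_of_cov τ.2 h.1 h.2 (Submodule.sub_mem _ hx (Submodule.smul_mem _ _ hv.1)) ?_
  rw [map_sub, map_smul, smul_eq_mul, div_mul_cancel₀ _ hv.2.2.2.ne', sub_self]

theorem IsNu.unique {σ τ : Face a} (h : Cv (frk a) τ σ) {u v : E} (hu : IsNu a σ τ u)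
    (hv : IsNu a σ τ v) : u = v := by
  set t := cov a τ.1 u / cov a τ.1 v with ht
  have ht0 : 0 < t := div_pos hu.2.2.2 hv.2.2.2
  have h1 := hv.sub_mem h hu.1
  have h2 : u - t • v = 0 := by
    by_contra hc
    have h3 := bf_pos hc
    rw [map_sub (bf E), map_smul (bf E), LinearMap.sub_apply, LinearMap.smul_apply, hu.2.1 _ h1,
      hv.2.1 _ h1] at h3
    simp at h3
  have h3 : u = t • v := sub_eq_zero.1 h2
  have h4 := hu.2.2.1
  rw [h3] at h4
  simp only [map_smul, LinearMap.smul_apply, smul_eq_mul, hv.2.2.1] at h4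
  have : t = 1 := by nlinarith
  rw [h3, this, one_smul]

/-- The unit inner normal. -/
noncomputable def nu (a : ι → E) (σ τ : Face a) : E :=
  if h : Cv (frk a) τ σ then (exists_nu h).choose else 0

theorem nu_spec {σ τ : Face a} (h : Cv (frk a) τ σ) : IsNu a σ τ (nu a σ τ) := by
  unfold nu
  rw [dif_pos h]
  exact (exists_nu h).choose_spec

/-- A face functional vanishing on `τ` but not on `σ` is positive on the normal. -/
theorem cov_nu_pos {σ τ G : Face a} (h : Cv (frk a) τ σ) (hG : τ ≤ G) (hG' : ¬ σ ≤ G) :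
    0 < cov a G.1 (nu a σ τ) := by
  obtain ⟨i, hi, hi'⟩ : ∃ i ∈ σ.1, i ∉ G.1 := by
    by_contra hc
    push Not at hc
    exact hG' hc
  have hiτ : i ∉ τ.1 := fun e => hi' (hG e)
  have h1 := prop_cov τ.2 h.1 h.2 hi hiτ (y := cov a G.1)
    (fun j hj => (cov_eq_zero G.2 j).1 (hG hj)) (nu_spec h).1
  have h2 := mul_pos (cov_pos G.2 hi') (nu_spec h).2.2.2
  rw [← h1] at h2
  exact (mul_pos_iff_of_pos_right (cov_pos τ.2 hiτ)).1 h2

theorem nu_two {τ σ σ' π : Face a} (h : Cv (frk a) τ σ) (h' : Cv (frk a) τ σ')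
    (k : Cv (frk a) σ π) (k' : Cv (frk a) σ' π) (hne : σ ≠ σ') :
    nu a π σ = (√(1 - bf E (nu a σ τ) (nu a σ' τ) ^ 2))⁻¹ •
      (nu a σ' τ - bf E (nu a σ τ) (nu a σ' τ) • nu a σ τ) := by
  have hu := nu_spec h
  have hv := nu_spec h'
  set u := nu a σ τ
  set v := nu a σ' τ
  set c := bf E u v with hc
  have hle : ¬ σ' ≤ σ := (faceML a).not_le_of_ne (by
    have := h.2; have := h'.2; change frk a σ' = frk a σ; omega) hne.symm
  have p1 : 0 < cov a σ.1 v := cov_nu_pos h' h.1 hle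
  have p2 : cov a σ.1 u = 0 := cov_sp hu.1
  have p3 : cov a σ.1 (v - c • u) = cov a σ.1 v := by simp [p2]
  have hm0 : v - c • u ≠ 0 := fun e => by
    rw [e, map_zero] at p3
    exact p1.ne p3
  have q1 : bf E (v - c • u) u = 0 := by
    simp [hu.2.2.1, bf_comm v u, hc]
  have q2 : bf E (v - c • u) (v - c • u) = 1 - c ^ 2 := by
    rw [map_sub, map_smul, q1]
    simp only [map_sub, map_smul, LinearMap.sub_apply, LinearMap.smul_apply, smul_eq_mul,
      hv.2.2.1, ← hc]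
    ring
  have q3 : 0 < 1 - c ^ 2 := q2 ▸ bf_pos hm0
  have hs : 0 < √(1 - c ^ 2) := Real.sqrt_pos.2 q3
  have hs2 : √(1 - c ^ 2) * √(1 - c ^ 2) = 1 - c ^ 2 := Real.mul_self_sqrt q3.le
  refine IsNu.unique k (nu_spec k) ⟨?_, fun x hx => ?_, ?_, ?_⟩
  · exact Submodule.smul_mem _ _ (Submodule.sub_mem _ (sp_mono k'.1 hv.1)
      (Submodule.smul_mem _ _ (sp_mono k.1 hu.1)))
  · have h1 := hu.sub_mem h hx
    have h2 : bf E (v - c • u) (x - (cov a τ.1 x / cov a τ.1 u) • u) = 0 := by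
      rw [map_sub (bf E), map_smul (bf E), LinearMap.sub_apply, LinearMap.smul_apply,
        hu.2.1 _ h1, hv.2.1 _ h1]
      simp
    rw [map_sub, map_smul, q1, smul_zero, sub_zero] at h2
    rw [map_smul, LinearMap.smul_apply, h2, smul_zero]
  · rw [map_smul, map_smul, LinearMap.smul_apply, q2, smul_eq_mul, smul_eq_mul]
    field_simp
    exact (Real.sq_sqrt q3.le).symm
  · rw [map_smul, p3, smul_eq_mul]
    exact mul_pos (inv_pos.2 hs) p1

/-- The alternating form attached to two functionals. -/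
def wedge (y z : E →ₗ[ℝ] ℝ) (u v : E) : ℝ := y u * z v - y v * z u

theorem diamond_nu {τ σ σ' π : Face a} (h : Cv (frk a) τ σ) (h' : Cv (frk a) τ σ')
    (k : Cv (frk a) σ π) (k' : Cv (frk a) σ' π) (hne : σ ≠ σ') (y z : E →ₗ[ℝ] ℝ) :
    wedge y z (nu a π σ) (nu a σ τ) + wedge y z (nu a π σ') (nu a σ' τ) = 0 := by
  rw [nu_two h h' k k' hne, nu_two h' h k' k hne.symm, bf_comm (nu a σ' τ)]
  simp only [wedge, map_smul, map_sub, smul_eq_mul]
  ring

/-- The weighted sum of the normals at a face. -/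
noncomputable def nsum (a : ι → E) (τ : Face a) : (Face a → ℝ) →ₗ[ℝ] E :=
  ∑ σ : Face a, (LinearMap.proj σ).smulRight (nu a σ τ)

theorem nu_of_not {σ τ : Face a} (h : ¬ Cv (frk a) τ σ) : nu a σ τ = 0 := dif_neg h

theorem nsum_apply (τ : Face a) (w : Face a → ℝ) : nsum a τ w = ∑ σ, w σ • nu a σ τ := by
  simp [nsum, LinearMap.sum_apply]

theorem map_nsum (y : E →ₗ[ℝ] ℝ) (τ : Face a) (w : Face a → ℝ) :
    y (nsum a τ w) = ∑ σ, w σ * y (nu a σ τ) := by
  simp [nsum_apply]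

theorem diamond_sum (τ : Face a) (w : Face a → ℝ) (y z : E →ₗ[ℝ] ℝ) :
    ∑ σ, wedge y z (nsum a σ w) (nu a σ τ) = 0 := by
  have h1 : ∀ σ, wedge y z (nsum a σ w) (nu a σ τ) =
      ∑ π, w π * wedge y z (nu a π σ) (nu a σ τ) := by
    intro σ
    simp only [wedge, map_nsum, sum_mul, mul_sum, ← sum_sub_distrib]
    exact sum_congr rfl fun π _ => by ring
  simp only [h1]
  rw [sum_comm]
  refine sum_eq_zero fun π _ => ?_
  rw [← mul_sum]
  refine mul_eq_zero_of_right _ ?_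
  by_cases hex : ∃ σ, Cv (frk a) τ σ ∧ Cv (frk a) σ π
  · obtain ⟨σ, h, k⟩ := hex
    obtain ⟨σ', b1, b2, b3, b4, b5⟩ := (faceML a).other h.1 k.1 h.2.symm (by
      have := h.2; have := k.2; change frk a π = frk a τ + 2; omega)
    have h' : Cv (frk a) τ σ' := ⟨b1, b3.symm⟩
    have k' : Cv (frk a) σ' π := ⟨b2, by
      have := h.2; have := k.2; have := h'.2; omega⟩
    rw [← diamond_nu h h' k k' b4.symm y z, ← sum_pair (f := fun σ =>
      wedge y z (nu a π σ) (nu a σ τ)) b4.symm]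
    symm
    refine sum_subset (subset_univ _) fun u _ hu => ?_
    by_cases c1 : Cv (frk a) τ u
    · by_cases c2 : Cv (frk a) u π
      · exact absurd (by simpa using b5 u c1.1 c2.1 c1.2.symm) hu
      · simp [wedge, nu_of_not c2]
    · simp [wedge, nu_of_not c1]
  · refine sum_eq_zero fun u _ => ?_
    by_cases c1 : Cv (frk a) τ u
    · simp [wedge, nu_of_not fun c2 => hex ⟨u, c1, c2⟩]
    · simp [wedge, nu_of_not c1]

end Pool.Agent.Lib.MP_c8fb4d_co
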