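import Mathlib

/-!
Linear algebra and genericity over an arbitrary field.
-/

namespace Pool.Agent.Lib.MP_c8fb4d_co.Rep

open Module Finset Polynomial
open scoped Classical

variable {K : Type} [Field K]

theorem finrank_split {V W : Type} [AddCommGroup V] [Module K V] [AddCommGroup W] [Module K W]
    [FiniteDimensional K V] (f : V →ₗ[K] W) (R : Submodule K V) :
    finrank K (R.map f) + finrank K (R ⊓ LinearMap.ker f : Submodule K V) = finrank K R := by
  have h := LinearMap.finrank_range_add_finrank_ker (f.domRestrict R)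
  rw [LinearMap.range_domRestrict, LinearMap.ker_domRestrict,
    ← Submodule.finrank_map_subtype_eq, Submodule.map_comap_subtype] at h
  exact h

section fin

variable {L : Type} [Fintype L]

theorem finrank_le_card (R : Submodule K (L → K)) (I : Finset L)
    (h : ∀ w ∈ R, ∀ σ, w σ ≠ 0 → σ ∈ I) : finrank K R ≤ I.card := by
  have hinj : Function.Injective
      ((LinearMap.funLeft K K (Subtype.val : I → L)).domRestrict R) := by
    rw [← LinearMap.ker_eq_bot, LinearMap.ker_eq_bot']
    intro w hw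
    refine Subtype.ext (funext fun σ => ?_)
    by_contra h0
    exact h0 (congrFun hw ⟨σ, h w.1 w.2 σ h0⟩)
  simpa using LinearMap.finrank_le_finrank_of_injective hinj

theorem tri_indep {κ : Type} (T : Finset κ) (v : κ → L → K) (pt : κ → L) (ψ : κ → ℝ)
    (h1 : ∀ k ∈ T, v k (pt k) ≠ 0)
    (h2 : ∀ k ∈ T, ∀ l ∈ T, k ≠ l → v l (pt k) ≠ 0 → ψ k < ψ l)
    (U : Submodule K (L → K)) (hU : ∀ k ∈ T, v k ∈ U) : T.card ≤ finrank K U := by
  have hli : LinearIndependent K fun k : T => (⟨v k, hU k k.2⟩ : U) := by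
    rw [Fintype.linearIndependent_iff]
    intro g hg
    by_contra hc
    push Not at hc
    obtain ⟨k, hk, hmax⟩ := exists_max_image (univ.filter fun k : T => g k ≠ 0) (fun k => ψ k)
      (by obtain ⟨k, hk⟩ := hc; exact ⟨k, mem_filter.2 ⟨mem_univ _, hk⟩⟩)
    have h3 := congrFun (congrArg Subtype.val hg) (pt k)
    simp only [AddSubmonoidClass.coe_finsetSum, SetLike.mk_smul_mk, Finset.sum_apply,
      Pi.smul_apply, smul_eq_mul, ZeroMemClass.coe_zero, Pi.zero_apply] at h3
    rw [sum_eq_single k] at h3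
    · exact mul_ne_zero (mem_filter.1 hk).2 (h1 k k.2) h3
    · intro l _ hl
      by_contra h0
      have h4 := hmax l (mem_filter.2 ⟨mem_univ _, left_ne_zero_of_mul h0⟩)
      exact absurd (h2 k k.2 l l.2 (fun e => hl (Subtype.ext e.symm)) (right_ne_zero_of_mul h0))
        (not_lt.2 h4)
    · simp
  simpa using hli.fintype_card_le_finrank

end fin

section poly

variable {E : Type} [AddCommGroup E] [Module K E]

/-- Functions that are polynomial along every line. -/
def PL (f : E → K) : Prop := ∀ x v : E, ∃ q : K[X], ∀ t : K, f (x + t • v) = q.eval t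

theorem PL.const (c : K) : PL fun _ : E => c := fun _ _ => ⟨C c, fun _ => by simp⟩

theorem PL.lin (y : E →ₗ[K] K) : PL y := fun x v =>
  ⟨C (y x) + C (y v) * X, fun t => by simp [mul_comm t]⟩

theorem PL.mul {f g : E → K} (hf : PL f) (hg : PL g) : PL fun x => f x * g x := fun x v => by
  obtain ⟨p, hp⟩ := hf x v
  obtain ⟨q, hq⟩ := hg x v
  exact ⟨p * q, fun t => by simp [hp, hq]⟩

theorem PL.sum {κ : Type} (s : Finset κ) {f : κ → E → K} (hf : ∀ k ∈ s, PL (f k)) :
    PL fun x => ∑ k ∈ s, f k x := fun x v => by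
  choose! p hp using fun k hk => hf k hk x v
  exact ⟨∑ k ∈ s, p k, fun t => by
    rw [eval_finsetSum]
    exact sum_congr rfl fun k hk => hp k hk t⟩

theorem PL.prod {κ : Type} (s : Finset κ) {f : κ → E → K} (hf : ∀ k ∈ s, PL (f k)) :
    PL fun x => ∏ k ∈ s, f k x := fun x v => by
  choose! p hp using fun k hk => hf k hk x v
  exact ⟨∏ k ∈ s, p k, fun t => by
    rw [eval_prod]
    exact prod_congr rfl fun k hk => hp k hk t⟩

theorem PL.comp {E' : Type} [AddCommGroup E'] [Module K E'] {f : E → K} (hf : PL f)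
    (g : E' →ₗ[K] E) : PL fun x => f (g x) := fun x v => by
  obtain ⟨p, hp⟩ := hf (g x) (g v)
  exact ⟨p, fun t => by simp [hp]⟩

theorem pl_ev (x : E) : PL fun lam : E →ₗ[K] K => lam x :=
  PL.lin (E := E →ₗ[K] K) (LinearMap.applyₗ x)

theorem finite_roots {p : K[X]} (h : p ≠ 0) : {t : K | p.eval t = 0}.Finite := by
  refine (p.roots.toFinset.finite_toSet).subset fun t ht => ?_
  simp only [mem_coe, Multiset.mem_toFinset, mem_roots h, IsRoot.def]
  exact ht

theorem PL.finite {f : E → K} (hf : PL f) (x v : E) {s : K} (hs : f (x + s • v) ≠ 0) :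
    {t : K | f (x + t • v) = 0}.Finite := by
  obtain ⟨p, hp⟩ := hf x v
  simp only [hp]
  exact finite_roots fun e => hs (by rw [hp, e, eval_zero])

variable [Infinite K]

theorem exists_common {κ : Type} (s : Finset κ) {f : κ → E → K} (hf : ∀ k ∈ s, PL (f k))
    (hne : ∀ k ∈ s, ∃ x, f k x ≠ 0) : ∃ x, ∀ k ∈ s, f k x ≠ 0 := by
  induction s using Finset.induction_on with
  | empty => exact ⟨0, by simp⟩
  | insert k s hk ih =>
    obtain ⟨x, hx⟩ := ih (fun j hj => hf j (mem_insert_of_mem hj))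
      fun j hj => hne j (mem_insert_of_mem hj)
    obtain ⟨y, hy⟩ := hne k (mem_insert_self _ _)
    have h1 := (PL.prod s fun j hj => hf j (mem_insert_of_mem hj)).finite x (y - x) (s := 0)
      (by simpa using prod_ne_zero_iff.2 hx)
    have h2 := (hf k (mem_insert_self _ _)).finite x (y - x) (s := 1) (by simpa using hy)
    obtain ⟨t, ht⟩ := (h1.union h2).exists_notMem
    simp only [Set.mem_union, Set.mem_ofPred_eq, not_or] at ht
    refine ⟨x + t • (y - x), fun j hj => ?_⟩
    rcases mem_insert.1 hj with rfl | hj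
    · exact ht.2
    · exact prod_ne_zero_iff.1 ht.1 j hj

theorem exists_common_sub {κ : Type} (W : Submodule K E) (s : Finset κ) {f : κ → E → K}
    (hf : ∀ k ∈ s, PL (f k)) (hne : ∀ k ∈ s, ∃ x ∈ W, f k x ≠ 0) :
    ∃ x ∈ W, ∀ k ∈ s, f k x ≠ 0 := by
  obtain ⟨x, hx⟩ := exists_common (E := W) s (f := fun k x => f k x.1)
    (fun k hk => (hf k hk).comp W.subtype) fun k hk => by
      obtain ⟨x, h1, h2⟩ := hne k hk
      exact ⟨⟨x, h1⟩, h2⟩
  exact ⟨x.1, x.2, hx⟩

end poly

/-- `f` agrees away from finitely many points with a rational function whose value at `0` is `a`. -/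
def Reg (f : K → K) (a : K) : Prop := ∃ p q : K[X], q.eval 0 ≠ 0 ∧ p.eval 0 = a * q.eval 0 ∧
  ∀ s, s ≠ 0 → q.eval s ≠ 0 → f s * q.eval s = p.eval s

theorem Reg.const (c : K) : Reg (fun _ => c) c := ⟨C c, 1, by simp, by simp, by simp⟩

theorem Reg.self : Reg (fun s : K => s) 0 := ⟨X, 1, by simp, by simp, by simp⟩

theorem Reg.congr {f g : K → K} {a b : K} (h : Reg f a) (h1 : ∀ s, s ≠ 0 → g s = f s)
    (h2 : b = a) : Reg g b := by
  obtain ⟨p, q, a1, a2, a3⟩ := h
  exact ⟨p, q, a1, h2 ▸ a2, fun s c c' => by rw [h1 s c, a3 s c c']⟩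

theorem Reg.add {f g : K → K} {a b : K} (h : Reg f a) (h' : Reg g b) :
    Reg (fun s => f s + g s) (a + b) := by
  obtain ⟨p, q, a1, a2, a3⟩ := h
  obtain ⟨p', q', b1, b2, b3⟩ := h'
  refine ⟨p * q' + p' * q, q * q', by simp [a1, b1], by simp [a2, b2]; ring, fun s c c' => ?_⟩
  rw [eval_mul] at c'
  simp only [eval_mul, eval_add, ← a3 s c (left_ne_zero_of_mul c'),
    ← b3 s c (right_ne_zero_of_mul c')]
  ring

theorem Reg.mul {f : K → K} {a : K} (h : Reg f a) (c : K) : Reg (fun s => f s * c) (a * c) := by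
  obtain ⟨p, q, a1, a2, a3⟩ := h
  refine ⟨p * C c, q, a1, by simp [a2]; ring, fun s e e' => ?_⟩
  simp only [eval_mul, eval_C, ← a3 s e e']
  ring

theorem Reg.sum {κ : Type} (t : Finset κ) {f : κ → K → K} {a : κ → K}
    (h : ∀ k ∈ t, Reg (f k) (a k)) : Reg (fun s => ∑ k ∈ t, f k s) (∑ k ∈ t, a k) := by
  induction t using Finset.induction_on with
  | empty => simpa using Reg.const (0 : K)
  | insert k t hk ih =>
    simp only [sum_insert hk]
    exact (h k (mem_insert_self _ _)).add (ih fun j hj => h j (mem_insert_of_mem hj))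

theorem Reg.div {f : K → K} {a : K} (h : Reg f a) {b : K} (hb : b ≠ 0) (c : K) :
    Reg (fun s => f s / (b + s * c)) (a / b) := by
  obtain ⟨p, q, a1, a2, a3⟩ := h
  refine ⟨p, q * (C b + X * C c), by simp [a1, hb], by simp [a2]; field_simp, fun s e e' => ?_⟩
  simp only [eval_mul, eval_add, eval_C, eval_X] at e' ⊢
  rw [← a3 s e (left_ne_zero_of_mul e')]
  have := right_ne_zero_of_mul e'
  field_simp

theorem Reg.exists [Infinite K] {f : K → K} {a : K} (h : Reg f a) (ha : a ≠ 0) {S : Set K}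
    (hS : S.Finite) : ∃ s, s ∉ S ∧ s ≠ 0 ∧ f s ≠ 0 := by
  obtain ⟨p, q, a1, a2, a3⟩ := h
  have h1 := finite_roots (p := p) fun e => mul_ne_zero ha a1 (by rw [← a2, e, eval_zero])
  have h2 := finite_roots (p := q) fun e => a1 (by rw [e, eval_zero])
  obtain ⟨s, hs⟩ := (((h1.union h2).union hS).union (Set.finite_singleton 0)).exists_notMem
  simp only [Set.mem_union, Set.mem_ofPred_eq, not_or, Set.mem_singleton_iff] at hs
  refine ⟨s, hs.1.2, hs.2, fun e => hs.1.1.1 ?_⟩
  rw [← a3 s hs.2 hs.1.1.2, e, zero_mul]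

end Pool.Agent.Lib.MP_c8fb4d_co.Rep
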