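import Pool.Agent.Lib.MP_c8fb4d_co.RepStr
import Pool.Agent.Lib.MP_c8fb4d_co.RepLin

/-!
Generic flags of functionals and normal functionals for a represented lattice.
-/

namespace Pool.Agent.Lib.MP_c8fb4d_co.Rep

open Module Finset
open scoped Classical

set_option linter.unusedSectionVars false

variable {L K E : Type} [Lattice L] [Fintype L] [BoundedOrder L] [Field K] [Infinite K]
  [AddCommGroup E] [Module K E] [FiniteDimensional K E]

namespace Rp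

variable (r : Rp L K E)

/-- `τ` is a facet of the proper element `σ`. -/
def Cw (τ σ : L) : Prop := Cv r.m.ρ τ σ ∧ σ ≠ ⊤

variable {r}

theorem ρ_lt_top {x : L} (h : x ≠ ⊤) : r.m.ρ x < r.m.ρ ⊤ :=
  r.m.mono _ _ (lt_top_iff_ne_top.2 h)

theorem ne_top_of_ρ {x : L} (h : r.m.ρ x < r.m.ρ ⊤) : x ≠ ⊤ := fun e => by rw [e] at h; omega

theorem cv_lt {x y : L} (h : Cv r.m.ρ x y) : x < y :=
  r.m.lt_of_ρ h.1 (by have := h.2; omega)

theorem Cw.le {τ σ : L} (h : r.Cw τ σ) : τ ≤ σ := h.1.1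

theorem Cw.rk {τ σ : L} (h : r.Cw τ σ) : r.m.ρ τ + 1 = r.m.ρ σ := h.1.2

theorem Cw.ne {τ σ : L} (h : r.Cw τ σ) : τ ≠ ⊤ := (cv_lt h.1).ne_top

theorem not_sp_le {x y : L} (h : r.m.ρ x < r.m.ρ y) (hx : x ≠ ⊤) (hy : y ≠ ⊤) :
    ¬ r.sp y ≤ r.sp x := fun e => by
  have := Submodule.finrank_mono e
  rw [r.rank x hx, r.rank y hy] at this
  omega

theorem exists_tv {τ σ : L} (h : r.Cw τ σ) : ∃ u ∈ r.sp σ, u ∉ r.sp τ := by
  by_contra hc
  push Not at hc
  exact not_sp_le (by have := h.rk; omega) h.ne h.2 hc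

variable (r) in
/-- A chosen vector of the span of `σ` outside the span of its facet `τ`. -/
noncomputable def tv (τ σ : L) : E := if h : r.Cw τ σ then (exists_tv h).choose else 0

theorem tv_spec {τ σ : L} (h : r.Cw τ σ) : r.tv τ σ ∈ r.sp σ ∧ r.tv τ σ ∉ r.sp τ := by
  unfold tv
  rw [dif_pos h]
  exact (exists_tv h).choose_spec

theorem sp_eq_sup {x y : L} (h : r.Cw x y) {v : E} (hv : v ∈ r.sp y) (hv' : v ∉ r.sp x) :
    r.sp y = r.sp x ⊔ Submodule.span K {v} := by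
  symm
  apply Submodule.eq_of_le_of_finrank_eq
  · exact sup_le (r.mono _ _ h.le h.2) (Submodule.span_le.2 (by simpa using hv))
  · rw [Submodule.finrank_sup_span_singleton hv', r.rank y h.2, r.rank x h.ne]
    exact h.rk

theorem eq_of_mem {B σ σ' : L} (h : Cv r.m.ρ B σ) (h' : Cv r.m.ρ B σ')
    (ht : r.m.ρ σ + 2 ≤ r.m.ρ ⊤) {u : E} (h1 : u ∈ r.sp σ) (h2 : u ∈ r.sp σ') (h3 : u ∉ r.sp B) :
    σ = σ' := by
  have := h.2
  have := h'.2
  refine r.sep B σ σ' h h' ht ?_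
  rw [sp_eq_sup ⟨h, ne_top_of_ρ (r := r) (by omega)⟩ h1 h3,
    sp_eq_sup ⟨h', ne_top_of_ρ (r := r) (by omega)⟩ h2 h3]

theorem exists_coatom {σ : L} (ht : r.m.ρ σ + 2 ≤ r.m.ρ ⊤) {u : E} : ∀ (n : ℕ) (B : L), B ≤ σ →
    r.m.ρ B + (n + 1) = r.m.ρ σ → u ∉ r.sp B → ∃ τ, B ≤ τ ∧ Cv r.m.ρ τ σ ∧ u ∉ r.sp τ := by
  intro n
  induction n with
  | zero => exact fun B h1 h2 h3 => ⟨B, le_rfl, ⟨h1, h2⟩, h3⟩
  | succ n ih =>
    intro B h1 h2 h3
    obtain ⟨t, a1, a2, a3⟩ := r.m.exists_rank' (k := r.m.ρ B + 2) h1 (by omega) (by omega)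
    obtain ⟨z, b1, b2, b3⟩ := r.m.exists_rank' (k := r.m.ρ B + 1) a1 (by omega) (by omega)
    obtain ⟨w, c1, c2, c3, c4, -⟩ := r.m.other b1 b2 b3 a3
    by_cases hz : u ∈ r.sp z
    · obtain ⟨τ, d1, d2⟩ := ih w (c2.trans a2) (by omega) fun e =>
        c4 (eq_of_mem ⟨c1, c3.symm⟩ ⟨b1, b3.symm⟩ (by omega) e hz h3)
      exact ⟨τ, c1.trans d1, d2⟩
    · obtain ⟨τ, d1, d2⟩ := ih z (b2.trans a2) (by omega) hz
      exact ⟨τ, b1.trans d1, d2⟩

theorem exists_ip (G : L) : ∃ x ∈ r.sp G, ∀ σ, ¬ r.sp G ≤ r.sp σ → x ∉ r.sp σ := by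
  have h1 : ∀ σ, ¬ r.sp G ≤ r.sp σ → ∃ c : E →ₗ[K] K, (∃ x ∈ r.sp G, c x ≠ 0) ∧
      r.sp σ ≤ LinearMap.ker c := by
    intro σ h
    obtain ⟨x, hx, hx'⟩ := SetLike.not_le_iff_exists.1 h
    obtain ⟨c, a1, a2⟩ := Submodule.exists_le_ker_of_notMem hx'
    exact ⟨c, ⟨x, hx, a1⟩, a2⟩
  choose! c hc hc' using h1
  obtain ⟨x, hx, hx'⟩ := exists_common_sub (r.sp G) (univ.filter fun σ => ¬ r.sp G ≤ r.sp σ)
    (f := fun σ => c σ) (fun σ _ => PL.lin _) fun σ h => hc σ (mem_filter.1 h).2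
  exact ⟨x, hx, fun σ h e => hx' σ (mem_filter.2 ⟨mem_univ _, h⟩) (hc' σ h e)⟩

variable (r) in
/-- A generic point of the span of `G`. -/
noncomputable def ip (G : L) : E := (exists_ip (r := r) G).choose

theorem ip_mem (G : L) : r.ip G ∈ r.sp G := (exists_ip (r := r) G).choose_spec.1

theorem ip_not_mem {G σ : L} (h : ¬ r.sp G ≤ r.sp σ) : r.ip G ∉ r.sp σ :=
  (exists_ip (r := r) G).choose_spec.2 σ h

variable (r)

/-- the first `ρ H` functionals are coordinates on the span of `H` -/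
def Sur (y : ℕ → E →ₗ[K] K) (H : L) : Prop :=
  ∀ b : ℕ → K, ∃ x ∈ r.sp H, ∀ s < r.m.ρ H, y s x = b s

/-- the functional attached to an element -/
structure Att (y : ℕ → E →ₗ[K] K) (σ : L) (lam : E →ₗ[K] K) : Prop where
  eq : ∃ co : ℕ → K, ∀ x, lam x = y (r.m.ρ σ) x + ∑ s ∈ range (r.m.ρ σ), co s * y s x
  zero : ∀ x ∈ r.sp σ, lam x = 0

variable {r}

theorem Sur.inj {y : ℕ → E →ₗ[K] K} {H : L} (h : r.Sur y H) (hH : H ≠ ⊤) {x : E}
    (hx : x ∈ r.sp H) (h0 : ∀ s < r.m.ρ H, y s x = 0) : x = 0 := by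
  let f : r.sp H →ₗ[K] (Fin (r.m.ρ H) → K) :=
    LinearMap.pi fun s => (y s.1).domRestrict (r.sp H)
  have hs : Function.Surjective f := fun b => by
    obtain ⟨x, hx, hb⟩ := h fun s => if hs : s < r.m.ρ H then b ⟨s, hs⟩ else 0
    refine ⟨⟨x, hx⟩, funext fun s => ?_⟩
    have := hb s.1 s.2
    rw [dif_pos s.2] at this
    exact this
  have hi := (LinearMap.injective_iff_surjective_of_finrank_eq_finrank (f := f) (by
    rw [finrank_fin_fun]
    exact r.rank H hH)).2 hs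
  have : (⟨x, hx⟩ : r.sp H) = 0 := hi (by
    rw [map_zero]
    exact funext fun s => h0 s.1 s.2)
  exact congrArg Subtype.val this

theorem exists_flag {P : L → (E →ₗ[K] K) → K} (hP : ∀ σ, PL (P σ))
    (hP0 : ∀ σ, ∃ c : E →ₗ[K] K, (∀ x ∈ r.sp σ, c x = 0) ∧ P σ c ≠ 0)
    (hP1 : ∀ σ G lam, r.Cw σ G → P σ lam ≠ 0 → lam (r.tv σ G) ≠ 0) :
    ∀ T : ℕ, T ≤ r.m.ρ ⊤ → ∃ (y : ℕ → E →ₗ[K] K) (lam : L → E →ₗ[K] K),
      (∀ σ, r.m.ρ σ < T → r.Att y σ (lam σ) ∧ P σ (lam σ) ≠ 0) ∧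
      ∀ H, H ≠ ⊤ → r.m.ρ H ≤ T → r.Sur y H := by
  intro T
  induction T with
  | zero =>
    exact fun _ => ⟨0, 0, fun σ h => absurd h (Nat.not_lt_zero _), fun H _ h b =>
      ⟨0, Submodule.zero_mem _, fun s hs => by omega⟩⟩
  | succ T ih =>
    intro hT
    obtain ⟨y, lam, h1, h2⟩ := ih (by omega)
    have hnt : ∀ σ, r.m.ρ σ = T → σ ≠ ⊤ := fun σ h => ne_top_of_ρ (r := r) (by omega)
    have h3 : ∀ σ : L, ∃ x : ℕ → E, r.m.ρ σ = T → ∀ s, x s ∈ r.sp σ ∧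
        ∀ s' < T, y s' (x s) = if s' = s then 1 else 0 := by
      intro σ
      by_cases h : r.m.ρ σ = T
      · choose x hx hx' using fun s => h2 σ (hnt σ h) h.le fun s' => if s' = s then 1 else 0
        exact ⟨x, fun _ s => ⟨hx s, fun s' hs' => hx' s s' (by omega)⟩⟩
      · exact ⟨0, fun e => absurd e h⟩
    choose xx hxx using h3
    let π : L → (E →ₗ[K] K) →ₗ[K] (E →ₗ[K] K) := fun σ =>
      LinearMap.id - ∑ s ∈ range T, (LinearMap.applyₗ (xx σ s)).smulRight (y s)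
    have hπ : ∀ σ z x, π σ z x = z x - ∑ s ∈ range T, z (xx σ s) * y s x := by
      intro σ z x
      simp [π, LinearMap.sum_apply]
    have hπ' : ∀ σ z x, π σ z x = z (x - ∑ s ∈ range T, y s x • xx σ s) := by
      intro σ z x
      rw [hπ]
      simp [mul_comm]
    have hy0 : ∀ σ, r.m.ρ σ = T → ∀ x, ∀ s' < T,
        y s' (x - ∑ s ∈ range T, y s x • xx σ s) = 0 := by
      intro σ hσ x s' hs'
      rw [map_sub, map_sum, sum_eq_single s']
      · simp [(hxx σ hσ s').2 s' hs']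
      · intro s _ hs
        simp [(hxx σ hσ s).2 s' hs', hs.symm]
      · intro h
        exact absurd (mem_range.2 hs') h
    have hm : ∀ σ, r.m.ρ σ = T → ∀ c : ℕ → K, ∑ s ∈ range T, c s • xx σ s ∈ r.sp σ :=
      fun σ hσ c => Submodule.sum_mem _ fun s _ => Submodule.smul_mem _ _ (hxx σ hσ s).1
    obtain ⟨z, hz⟩ := exists_common (univ.filter fun σ : L => r.m.ρ σ = T)
      (f := fun σ z => P σ (π σ z)) (fun σ _ => (hP σ).comp (π σ)) (fun σ hσ => by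
        obtain ⟨c, hc, hc'⟩ := hP0 σ
        refine ⟨c, ?_⟩
        have : π σ c = c := LinearMap.ext fun x => by
          rw [hπ', map_sub, hc _ (hm σ (mem_filter.1 hσ).2 _), sub_zero]
        simpa only [this] using hc')
    have hu : ∀ s < T, Function.update y T z s = y s := fun s hs =>
      Function.update_of_ne hs.ne _ _
    have hA : ∀ σ, r.m.ρ σ = T →
        r.Att (Function.update y T z) σ (π σ z) ∧ P σ (π σ z) ≠ 0 := by
      intro σ hσ
      refine ⟨⟨⟨fun s => -z (xx σ s), fun x => ?_⟩, fun x hx => ?_⟩,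
        hz σ (mem_filter.2 ⟨mem_univ _, hσ⟩)⟩
      · rw [hπ, hσ, Function.update_self, sub_eq_add_neg, ← sum_neg_distrib]
        refine congrArg _ (sum_congr rfl fun s hs => ?_)
        rw [hu s (mem_range.1 hs)]
        ring
      · rw [hπ', (h2 σ (hnt σ hσ) hσ.le).inj (hnt σ hσ) (Submodule.sub_mem _ hx (hm σ hσ _))
          (fun s hs => hy0 σ hσ x s (by omega)), map_zero]
    refine ⟨Function.update y T z, fun σ => if r.m.ρ σ = T then π σ z else lam σ,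
      fun σ hσ => ?_, fun H hHt hH b => ?_⟩
    · by_cases h : r.m.ρ σ = T
      · simp only [if_pos h]
        exact hA σ h
      · simp only [if_neg h]
        have k := h1 σ (by omega)
        obtain ⟨co, hco⟩ := k.1.eq
        refine ⟨⟨⟨co, fun x => ?_⟩, k.1.zero⟩, k.2⟩
        rw [hco, hu _ (by omega)]
        exact congrArg _ (sum_congr rfl fun s hs => by
          rw [hu s (by have := mem_range.1 hs; omega)])
    · by_cases h : r.m.ρ H ≤ T
      · obtain ⟨x, hx, hx'⟩ := h2 H hHt h b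
        exact ⟨x, hx, fun s hs => by rw [hu s (by omega), hx' s hs]⟩
      · obtain ⟨σ, -, b2, b3⟩ := r.m.exists_rank' (k := T) (bot_le (a := H))
          (by rw [r.bot]; omega) (by omega)
        have cw : r.Cw σ H := ⟨⟨b2, by omega⟩, hHt⟩
        have k := hP1 σ H _ cw (hA σ b3).2
        rw [hπ'] at k
        set v := r.tv σ H - ∑ s ∈ range T, y s (r.tv σ H) • xx σ s with hv
        set p := ∑ s ∈ range T, b s • xx σ s with hp
        refine ⟨p + ((b T - z p) / z v) • v, Submodule.add_mem _ (r.mono _ _ b2 hHt (hm σ b3 _))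
          (Submodule.smul_mem _ _ (Submodule.sub_mem _ (tv_spec cw).1
            (r.mono _ _ b2 hHt (hm σ b3 _)))), fun s hs => ?_⟩
        by_cases c : s = T
        · rw [c, Function.update_self, map_add, map_smul, smul_eq_mul, div_mul_cancel₀ _ k]
          ring
        · have hs' : s < T := by omega
          rw [hu s hs', map_add, map_smul, hv, hy0 σ b3 _ s hs', smul_zero, add_zero, hp,
            map_sum, sum_eq_single s]
          · simp [(hxx σ b3 s).2 s hs']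
          · intro s' _ h'
            simp [(hxx σ b3 s').2 s hs', h'.symm]
          · intro h'
            exact absurd (mem_range.2 hs') h'

theorem pencil {y : ℕ → E →ₗ[K] K} {τ σ σ' : L} {l l1 l2 : E →ₗ[K] K} (hs : r.Sur y τ)
    (h : r.Cw τ σ) (h' : r.Cw τ σ') (a : r.Att y τ l) (a1 : r.Att y σ l1) (a2 : r.Att y σ' l2) :
    ∃ c : K, ∀ x, l1 x = l2 x + c * l x := by
  obtain ⟨co, hco⟩ := a.eq
  obtain ⟨c1, hc1⟩ := a1.eq
  obtain ⟨c2, hc2⟩ := a2.eq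
  rw [← h.rk] at hc1
  rw [← h'.rk] at hc2
  refine ⟨c1 (r.m.ρ τ) - c2 (r.m.ρ τ), fun x => ?_⟩
  obtain ⟨x', hx, hx'⟩ := hs fun s => y s x
  have e : ∀ c : ℕ → K, ∑ s ∈ range (r.m.ρ τ), c s * y s x' =
      ∑ s ∈ range (r.m.ρ τ), c s * y s x :=
    fun c => sum_congr rfl fun s hs => by rw [hx' s (mem_range.1 hs)]
  have z0 := a.zero x' hx
  have z1 := a1.zero x' (r.mono _ _ h.le h.2 hx)
  have z2 := a2.zero x' (r.mono _ _ h'.le h'.2 hx)
  rw [hco, e] at z0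
  rw [hc1, sum_range_succ, e] at z1
  rw [hc2, sum_range_succ, e] at z2
  rw [hco, hc1, hc2, sum_range_succ, sum_range_succ]
  linear_combination z1 - z2 - (c1 (r.m.ρ τ) - c2 (r.m.ρ τ)) * z0

variable (r)

/-- Normal functionals of covering pairs that satisfy the diamond relation. -/
structure Nm where
  n : L → L → E →ₗ[K] K
  not : ∀ G G', ¬ r.Cw G' G → n G G' = 0
  ker : ∀ G G', r.Cw G' G → ∀ z ∈ r.sp G, (n G G' z = 0 ↔ z ∈ r.sp G')
  dia : ∀ τ π x y, ∑ σ, (n π σ x * n σ τ y - n π σ y * n σ τ x) = 0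

theorem exists_nm : Nonempty r.Nm := by
  obtain ⟨y, lam, h1, h2⟩ := exists_flag (r := r)
    (P := fun σ l => ∏ G ∈ univ.filter (fun G => r.Cw σ G), l (r.tv σ G))
    (fun σ => PL.prod _ fun G _ => pl_ev _) (fun σ => by
      obtain ⟨c, hc, hc'⟩ := exists_common_sub (r.sp σ).dualAnnihilator
        (univ.filter fun G => r.Cw σ G) (f := fun G (l : E →ₗ[K] K) => l (r.tv σ G))
        (fun G _ => pl_ev _) fun G hG => by
          obtain ⟨c, a1, a2⟩ := Submodule.exists_le_ker_of_notMem (tv_spec (mem_filter.1 hG).2).2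
          exact ⟨c, (Submodule.mem_dualAnnihilator _).2 fun w hw => a2 hw, a1⟩
      exact ⟨c, (Submodule.mem_dualAnnihilator _).1 hc, prod_ne_zero_iff.2 hc'⟩)
    (fun σ G l h e => prod_ne_zero_iff.1 e G (mem_filter.2 ⟨mem_univ _, h⟩)) _ le_rfl
  have hA : ∀ σ, σ ≠ ⊤ → r.Att y σ (lam σ) := fun σ h => (h1 σ (ρ_lt_top h)).1
  let n : L → L → E →ₗ[K] K := fun G G' => if r.Cw G' G then r.ε G G' • lam G' else 0
  have n1 : ∀ G G', r.Cw G' G → ∀ z, n G G' z = r.ε G G' * lam G' z := fun G G' h z => by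
    simp [n, h]
  have n0 : ∀ G G', ¬ r.Cw G' G → n G G' = 0 := fun G G' h => if_neg h
  refine ⟨⟨n, n0, fun G G' h z hz => ?_, fun τ π x x' => ?_⟩⟩
  · rw [n1 G G' h, mul_eq_zero_iff_left (r.ε_ne G G' h.1)]
    refine ⟨fun e => ?_, (hA G' h.ne).zero z⟩
    rw [sp_eq_sup h (tv_spec h).1 (tv_spec h).2] at hz
    obtain ⟨u, hu, w, hw, rfl⟩ := Submodule.mem_sup.1 hz
    obtain ⟨t, rfl⟩ := Submodule.mem_span_singleton.1 hw
    have k := prod_ne_zero_iff.1 (h1 G' (ρ_lt_top h.ne)).2 G (mem_filter.2 ⟨mem_univ _, h⟩)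
    rw [map_add, (hA G' h.ne).zero u hu, zero_add, map_smul, smul_eq_mul] at e
    simpa [(mul_eq_zero.1 e).resolve_right k] using hu
  by_cases hex : ∃ σ, r.Cw τ σ ∧ r.Cw σ π
  · obtain ⟨σ, h, k⟩ := hex
    have r1 := h.rk
    have r2 := k.rk
    obtain ⟨σ', b1, b2, b3, b4, b5⟩ := r.m.other h.le k.le h.rk.symm (by omega)
    have k' : r.Cw σ' π := ⟨⟨b2, by omega⟩, k.2⟩
    have h' : r.Cw τ σ' := ⟨⟨b1, b3.symm⟩, k'.ne⟩
    obtain ⟨c, hc⟩ := pencil (h2 τ h.ne (ρ_lt_top h.ne).le) h h' (hA τ h.ne) (hA σ h.2)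
      (hA σ' h'.2)
    rw [← sum_subset (subset_univ {σ, σ'}), sum_pair b4.symm]
    · rw [n1 _ _ h, n1 _ _ h, n1 _ _ h', n1 _ _ h', n1 _ _ k, n1 _ _ k, n1 _ _ k', n1 _ _ k',
        hc x, hc x']
      linear_combination (lam σ' x * lam τ x' - lam σ' x' * lam τ x) *
        r.ε_dia τ σ σ' π h.1 h'.1 k.1 k'.1 b4.symm
    · intro u _ hu
      by_cases c1 : r.Cw τ u
      · by_cases c2 : r.Cw u π
        · exact absurd (by simpa using b5 u c1.le c2.le c1.rk.symm) hu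
        · simp [n0 _ _ c2]
      · simp [n0 _ _ c1]
  · refine sum_eq_zero fun u _ => ?_
    by_cases c1 : r.Cw τ u
    · simp [n0 π u fun c2 => hex ⟨u, c1, c2⟩]
    · simp [n0 _ _ c1]

end Rp

end Pool.Agent.Lib.MP_c8fb4d_co.Rep
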