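import Pool.Agent.Lib.MP_c8fb4d_co.Defs

/-!
Shellings of face lattices.
-/

namespace Pool.Agent.Lib.MP_c8fb4d_co.Rep

variable {L : Type} [Lattice L]

/-- The face `G` lies in a facet of `H` that comes before `F` in the order `φ`. -/
def Before (H : L) (φ : L → ℕ) (F G : L) : Prop :=
  ∃ F', F' ⋖ H ∧ φ F' < φ F ∧ G ≤ F'

/-- `φ` numbers the facets of `H` in a shelling order of the boundary of `H`; the first argument is
the rank of `H`. -/
def Shelling : ℕ → L → (L → ℕ) → Prop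
  | 0, _, _ => True
  | r + 1, H, φ => Set.InjOn φ {F | F ⋖ H} ∧ ∀ F, F ⋖ H →
      (∀ G, G < F → Before H φ F G → ∃ R, R ⋖ F ∧ G ≤ R ∧ Before H φ F R) ∧
      ∃ ψ, Shelling r F ψ ∧
        ∀ R R', R ⋖ F → R' ⋖ F → Before H φ F R → ¬ Before H φ F R' → ψ R < ψ R'

end Pool.Agent.Lib.MP_c8fb4d_co.Rep
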