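import Pool.Agent.Lib.MP_c8fb4d_co.RepLin
import Pool.Agent.Lib.MP_c8fb4d_co.AllNum

/-!
The restriction theorem over an arbitrary field, for an abstract family of multipliers.
-/

namespace Pool.Agent.Lib.MP_c8fb4d_co.Rep

open Module Finset
open scoped Classical

set_option linter.unusedSectionVars false

variable {L K Z : Type} [Lattice L] [Fintype L] [BoundedOrder L] [Field K]

/-- Restriction to the elements above `x`. -/
noncomputable def upk (K : Type) [Field K] (x : L) : (L → K) →ₗ[K] (L → K) :=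
  LinearMap.mulLeft K fun σ => if x ≤ σ then 1 else 0

theorem upk_apply (x : L) (w : L → K) (σ : L) : upk K x w σ = if x ≤ σ then w σ else 0 := by
  simp [upk]

/-- No free faces above `B`. -/
def Bal (m : ML L) (B : L) (w : L → K) : Prop :=
  ∀ τ σ, B ≤ τ → Cv m.ρ τ σ → (∀ σ', Cv m.ρ τ σ' → σ' ≠ σ → w σ' = 0) → w σ = 0

/-- The hypotheses of the restriction theorem above the base `B`. -/
structure GK (m : ML L) (φ : Z → L → K) (t : ℕ) (B : L) (R W : Submodule K (L → K)) : Prop where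
  suppR : ∀ w ∈ R, ∀ σ, w σ ≠ 0 → B ≤ σ ∧ m.ρ σ = t
  bal : ∀ w ∈ R, Bal m B w
  mul : ∀ z, ∀ w ∈ R, φ z * w ∈ W

/-- The properties of the multipliers. -/
structure Mu (m : ML L) (φ : Z → L → K) (t : ℕ) : Prop where
  ne : ∀ σ, m.ρ σ = t → ∃ z, φ z σ ≠ 0
  inj : ∀ B x σ0, Cv m.ρ B x → x ≤ σ0 → m.ρ σ0 = t → ∃ z,
    (∀ σ, m.ρ σ = t → x ≤ σ → φ z σ = 0) ∧ ∀ w : L → K, (∀ σ, w σ ≠ 0 → B ≤ σ ∧ m.ρ σ = t) →
      Bal m B w → (∀ σ, φ z σ * w σ = 0) → ∀ σ, w σ = 0

variable {m : ML L} {φ : Z → L → K} {t : ℕ} {B : L} {R W : Submodule K (L → K)}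

theorem GK.step (h : GK m φ t B R W) (hB : m.ρ B < t) (hφ : Mu m φ t) :
    finrank K R = 0 ∨ ∃ (x : L) (R' W' R'' W'' : Submodule K (L → K)), m.ρ x = m.ρ B + 1 ∧
      GK m φ t B R' W' ∧ GK m φ t x R'' W'' ∧ finrank K R' + finrank K R'' = finrank K R ∧
      finrank K W' + finrank K W'' = finrank K W ∧ 1 ≤ finrank K W'' ∧
      finrank K R ≤ finrank K W' := by
  by_cases hR : R = ⊥
  · left
    rw [hR, finrank_bot]
  right
  obtain ⟨w0, hw0, hw0'⟩ := Submodule.exists_mem_ne_zero_of_ne_bot hR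
  obtain ⟨σ0, hσ0⟩ := Function.ne_iff.1 hw0'
  obtain ⟨a1, a2⟩ := h.suppR w0 hw0 σ0 hσ0
  obtain ⟨x, b1, b2, b3⟩ := m.exists_rank' (k := m.ρ B + 1) a1 (by omega) (by omega)
  have hker : ∀ w : L → K, w ∈ LinearMap.ker (upk K x) ↔ ∀ σ, x ≤ σ → w σ = 0 := by
    intro w
    rw [LinearMap.mem_ker, funext_iff]
    refine forall_congr' fun σ => ?_
    rw [upk_apply]
    by_cases c : x ≤ σ <;> simp [c]
  refine ⟨x, R ⊓ LinearMap.ker (upk K x), W ⊓ LinearMap.ker (upk K x), R.map (upk K x),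
    W.map (upk K x), b3,
    ⟨fun w hw => h.suppR w hw.1, fun w hw => h.bal w hw.1,
      fun u w hw => ⟨h.mul u w hw.1, (hker _).2 fun σ c => ?_⟩⟩,
    ⟨?_, ?_, ?_⟩, ?_, ?_, ?_, ?_⟩
  · rw [Pi.mul_apply, (hker w).1 hw.2 σ c, mul_zero]
  · rintro _ ⟨w, hw, rfl⟩ σ c
    rw [upk_apply] at c
    by_cases c' : x ≤ σ
    · rw [if_pos c'] at c
      exact ⟨c', (h.suppR w hw σ c).2⟩
    · exact absurd (if_neg c') c
  · rintro _ ⟨w, hw, rfl⟩ τ σ c1 c2 c3
    rw [upk_apply, if_pos (c1.trans c2.1)]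
    refine h.bal w hw τ σ (b1.trans c1) c2 fun σ' d1 d2 => ?_
    have := c3 σ' d1 d2
    rwa [upk_apply, if_pos (c1.trans d1.1)] at this
  · rintro u _ ⟨w, hw, rfl⟩
    refine ⟨_, h.mul u w hw, funext fun σ => ?_⟩
    simp only [upk_apply, Pi.mul_apply]
    split_ifs <;> simp
  · rw [add_comm]
    exact finrank_split _ _
  · rw [add_comm]
    exact finrank_split _ _
  · obtain ⟨u, hu⟩ := hφ.ne σ0 a2
    refine Nat.one_le_iff_ne_zero.2 fun e => ?_
    have e1 := Submodule.finrank_eq_zero.1 e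
    have e2 : upk K x (φ u * w0) ∈ W.map (upk K x) := ⟨_, h.mul u w0 hw0, rfl⟩
    rw [e1, Submodule.mem_bot] at e2
    have e3 := congrFun e2 σ0
    rw [upk_apply, if_pos b2, Pi.mul_apply] at e3
    exact mul_ne_zero hu hσ0 e3
  · obtain ⟨u, c1, c2⟩ := hφ.inj B x σ0 ⟨b1, b3.symm⟩ b2 a2
    let f : R →ₗ[K] (W ⊓ LinearMap.ker (upk K x) : Submodule K (L → K)) :=
      ((LinearMap.mulLeft K (φ u)).domRestrict R).codRestrict _ fun w =>
        ⟨h.mul u w.1 w.2, (hker _).2 fun σ c => by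
          change φ u σ * w.1 σ = 0
          by_cases c' : w.1 σ = 0
          · rw [c', mul_zero]
          · rw [c1 σ (h.suppR w.1 w.2 σ c').2 c, zero_mul]⟩
    refine LinearMap.finrank_le_finrank_of_injective (f := f) ?_
    rw [← LinearMap.ker_eq_bot, LinearMap.ker_eq_bot']
    rintro ⟨w, hw⟩ e
    exact Subtype.ext (funext (c2 w (h.suppR w hw) (h.bal w hw)
      fun σ => congrFun (congrArg Subtype.val e) σ))

theorem GK.all (hφ : Mu m φ t) :
    ∀ (s : ℕ) (B : L), m.ρ B + (s + 1) = t → ∀ (n : ℕ) (R W : Submodule K (L → K)),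
      finrank K W = n → GK m φ t B R W →
      finrank K R = 0 ∨ Ub s (finrank K R) ((finrank K W : ℝ) - finrank K R) := by
  intro s
  induction s with
  | zero =>
    intro B hB n R W _ h
    rcases h.step (by omega) hφ with e | ⟨x, R', W', R'', W'', -, -, -, -, a, b, c⟩
    · exact Or.inl e
    refine Or.inr ⟨0, ?_⟩
    have : (finrank K R : ℝ) + 1 ≤ finrank K W := by
      exact_mod_cast (by omega : finrank K R + 1 ≤ finrank K W)
    simp only [lp, vl]
    simp
    linarith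
  | succ s ihs =>
    intro B hB n
    induction n using Nat.strong_induction_on with
    | _ n ih =>
    intro R W hn h
    rcases h.step (by omega) hφ with e | ⟨x, R', W', R'', W'', a1, a2, a3, a4, a5, a6, a7⟩
    · exact Or.inl e
    · have b1 := ih _ (by omega) R' W' rfl a2
      have b2 := ihs x (by omega) _ R'' W'' rfl a3
      rw [← a4]
      have a4' : (finrank K R' : ℝ) + finrank K R'' = finrank K R := by exact_mod_cast a4
      have a5' : (finrank K W' : ℝ) + finrank K W'' = finrank K W := by exact_mod_cast a5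
      have a7' : (finrank K R : ℝ) ≤ finrank K W' := by exact_mod_cast a7
      refine ub_step b1 b2 (fun e => ?_) ?_ ?_
      · rw [e]
        simp
      · push_cast
        linarith
      · push_cast
        linarith

/-- The restriction theorem at a binomial threshold. -/
theorem GK.inc {φ : Z → L → K} {s z : ℕ} (h : GK m φ (s + 1) ⊥ R W) (h0 : m.ρ ⊥ = 0)
    (hφ : Mu m φ (s + 1)) (hz : s + 1 ≤ z) (hR : z.choose (s + 1) ≤ finrank K R) :
    finrank K R + z.choose s ≤ finrank K W := by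
  rcases GK.all hφ s ⊥ (by omega) _ R W rfl h with e | e
  · have := Nat.choose_pos hz
    omega
  · have := e.use (z := z) (by omega) (by exact_mod_cast hR)
    have h2 : ((finrank K R + z.choose s : ℕ) : ℝ) ≤ finrank K W := by
      push_cast
      linarith
    exact_mod_cast h2

theorem mu_ind (K : Type) [Field K] (ht : t < m.ρ ⊤) :
    Mu m (fun u σ => if u ≤ σ then (0 : K) else 1) t where
  ne := fun σ h => ⟨⊤, by simp [m.not_le_of_ρ (x := σ) (y := ⊤) (by omega)]⟩
  inj := fun B x _ c _ _ => ⟨x, fun σ _ h => if_pos h, fun w hs hb e σ => by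
    have e2 : ∀ σ, w σ ≠ 0 → x ≤ σ := fun σ h => by
      by_contra h'
      exact h (by simpa [h'] using e σ)
    by_contra h
    obtain ⟨τ, d1, d2, d3, d4⟩ := m.coatomic' (e2 σ h) (hs σ h).1
      (m.not_le_of_ρ (by have := c.2; omega))
    refine h (hb τ σ d1 ⟨d2, d3⟩ fun σ' g1 g2 => ?_)
    by_contra c'
    exact g2 ((m.sup_eq_of g1.1 (e2 σ' c') d4 g1.2.symm).symm.trans
      (m.sup_eq_of d2 (e2 σ h) d4 d3.symm))⟩

end Pool.Agent.Lib.MP_c8fb4d_co.Rep
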