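import Pool.Agent.Lib.MP_c8fb4d_co.RepW
import Pool.Agent.Lib.MP_c8fb4d_co.RepGH

/-!
The dual weights attached to a generic flag.
-/

namespace Pool.Agent.Lib.MP_c8fb4d_co.Rep

open Module Finset
open scoped Classical

set_option linter.unusedSectionVars false

variable {L K E : Type} [Lattice L] [Fintype L] [BoundedOrder L] [Field K] [Infinite K]
  [AddCommGroup E] [Module K E] [FiniteDimensional K E] {r : Rp L K E}

namespace Rp.Nm

variable (N : r.Nm)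

/-- The data used in the dimension count. -/
structure DS where
  lam : L → E →ₗ[K] K
  w : L → L → K
  sl : L → K
  zero : ∀ σ, σ ≠ ⊤ → ∀ x ∈ r.sp σ, lam σ x = 0
  ne : ∀ σ, σ ≠ ⊤ → ∀ B x, r.tv B x ∉ r.sp σ → lam σ (r.tv B x) ≠ 0
  supp : ∀ G σ, w G σ ≠ 0 → σ ≤ G
  supp' : ∀ G σ, G ≠ ⊤ → σ ≤ G → w G σ ≠ 0
  self : ∀ σ, w σ σ = 1
  rel : ∀ σ, σ ≠ ⊤ → ∀ G, ∀ x ∈ r.sp G, N.dn G (fun G' => w G' σ) x = lam σ x * w G σ
  tr : ∀ (t : ℕ) (H : L), H ≠ ⊤ → t < r.m.ρ H → ∀ x, ∃ x' ∈ r.sp H,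
    ∀ σ, r.m.ρ σ = t → lam σ x' = lam σ x
  one : ∀ (t : ℕ) (H : L), H ≠ ⊤ → t < r.m.ρ H → ∃ x ∈ r.sp H,
    (∀ σ, r.m.ρ σ = t → lam σ x = 1) ∧ ∀ τ, r.m.ρ τ < t → lam τ x = 0
  two : ∀ (t : ℕ) (H : L), H ≠ ⊤ → t + 1 < r.m.ρ H → ∃ x ∈ r.sp H,
    (∀ σ, r.m.ρ σ = t + 1 → lam σ x = sl σ) ∧ ∀ τ, r.m.ρ τ = t → lam τ x = 1

theorem exists_ds : Nonempty N.DS := by
  choose P hP hP0 hP1 using N.exists_dual_poly
  obtain ⟨y, lam, h1, h2⟩ := exists_flag (r := r) hP hP0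
    (fun σ G l h e => (hP1 σ l e).2.2 σ G (tv_spec h).2) _ le_rfl
  have hA := fun σ (h : σ ≠ ⊤) => hP1 σ _ (h1 σ (ρ_lt_top h)).2
  have hZ := fun σ (h : σ ≠ ⊤) => (h1 σ (ρ_lt_top h)).1.zero
  have hS : ∀ H, H ≠ ⊤ → r.Sur y H := fun H h => h2 H h (ρ_lt_top h).le
  choose! co hco using fun σ h => (h1 σ h).1.eq
  refine ⟨⟨lam, fun G σ => N.dw σ (lam σ) G, fun σ => co σ (r.m.ρ σ - 1),
    hZ, fun σ h => (hA σ h).2.2, fun G σ h => (Dk_supp _ G h).1,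
    fun G σ h h' => (hA σ (ne_top_of_le_ne_top h h')).2.1 G h h', fun σ => dw_self,
    fun σ h G x hx => dw_rel (hZ σ h) (hA σ h).1 G hx,
    fun t H hH ht x => ?_, fun t H hH ht => ?_, fun t H hH ht => ?_⟩⟩
  all_goals have hr := ρ_lt_top (r := r) hH
  · obtain ⟨x', hx, hx'⟩ := hS H hH fun s => y s x
    refine ⟨x', hx, fun σ hσ => ?_⟩
    rw [hco σ (by omega), hco σ (by omega), hx' _ (by omega)]
    exact congrArg _ (sum_congr rfl fun s hs => by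
      rw [hx' s (by have := mem_range.1 hs; omega)])
  · obtain ⟨x, hx, hx'⟩ := hS H hH fun s => if s = t then 1 else 0
    refine ⟨x, hx, fun σ hσ => ?_, fun τ hτ => ?_⟩
    · rw [hco σ (by omega), hσ, hx' _ ht, if_pos rfl, sum_eq_zero, add_zero]
      intro s hs
      have := mem_range.1 hs
      rw [hx' s (by omega), if_neg this.ne, mul_zero]
    · rw [hco τ (by omega), hx' _ (by omega), if_neg hτ.ne, sum_eq_zero, add_zero]
      intro s hs
      have := mem_range.1 hs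
      rw [hx' s (by omega), if_neg (by omega), mul_zero]
  · obtain ⟨x, hx, hx'⟩ := hS H hH fun s => if s = t then 1 else 0
    refine ⟨x, hx, fun σ hσ => ?_, fun τ hτ => ?_⟩
    · rw [hco σ (by omega), hσ, hx' _ ht, if_neg (by omega), zero_add, sum_range_succ,
        hx' t (by omega), if_pos rfl, sum_eq_zero]
      · simp
      intro s hs
      have := mem_range.1 hs
      rw [hx' s (by omega), if_neg this.ne, mul_zero]
    · rw [hco τ (by omega), hτ, hx' _ (by omega), if_pos rfl, sum_eq_zero, add_zero]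
      intro s hs
      have := mem_range.1 hs
      rw [hx' s (by omega), if_neg this.ne, mul_zero]

variable {N}

theorem DS.mu (D : N.DS) {t : ℕ} (ht : t + 2 ≤ r.m.ρ ⊤) :
    Mu r.m (fun z σ => D.lam σ z) t where
  ne := fun σ h => by
    obtain ⟨G, a1, -, a3⟩ := r.m.exists_rank' (k := t + 1) (le_top (a := σ)) (by omega) (by omega)
    have c : r.Cw σ G := ⟨⟨a1, by omega⟩, ne_top_of_ρ (r := r) (by omega)⟩
    exact ⟨_, D.ne σ c.ne σ G (tv_spec c).2⟩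
  inj := fun B x σ0 c c1 c2 => by
    have hnt : ∀ σ, r.m.ρ σ = t → σ ≠ ⊤ := fun σ h => ne_top_of_ρ (r := r) (by omega)
    have cw : r.Cw B x := ⟨c, ne_top_of_le_ne_top (hnt σ0 c2) c1⟩
    refine ⟨r.tv B x, fun σ h h' => D.zero σ (hnt σ h) _ (r.mono _ _ h' (hnt σ h) (tv_spec cw).1),
      fun w hs hb e σ => ?_⟩
    have e2 : ∀ σ, w σ ≠ 0 → r.tv B x ∈ r.sp σ := fun σ h => by
      by_contra h'
      exact mul_ne_zero (D.ne σ (hnt σ (hs σ h).2) B x h') h (e σ)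
    by_contra h
    have r1 := (hs σ h).2
    have r2 := c.2
    have r3 := r.m.ρ_le c1
    obtain ⟨τ, d1, d2, d3⟩ := exists_coatom (r := r) (σ := σ) (by omega) (t - r.m.ρ B - 1) B
      (hs σ h).1 (by omega) (tv_spec cw).2
    refine h (hb τ σ d1 d2 fun σ' g1 g2 => ?_)
    by_contra c'
    exact g2 (eq_of_mem d2 g1 (by omega) (e2 σ h) (e2 σ' c') d3).symm

end Rp.Nm

end Pool.Agent.Lib.MP_c8fb4d_co.Rep
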