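import Pool.Agent.Lib.MP_c8fb4d_co.RepSet
import Pool.Agent.Lib.MP_c8fb4d_co.Comb

/-!
The spaces spanned by the dual weights and their dimensions.
-/

namespace Pool.Agent.Lib.MP_c8fb4d_co.Rep

open Module Finset
open scoped Classical

set_option linter.unusedSectionVars false

variable {L K E : Type} [Lattice L] [Fintype L] [BoundedOrder L] [Field K] [Infinite K]
  [AddCommGroup E] [Module K E] [FiniteDimensional K E]

namespace Rp

variable (g : Rp L K E)

/-- Restriction of weights to the elements of rank `r`. -/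
noncomputable def rs (r : ℕ) : (L → K) →ₗ[K] (L → K) :=
  LinearMap.mulLeft K fun σ => if g.m.ρ σ = r then 1 else 0

variable {g}

theorem rs_apply (r : ℕ) (w : L → K) (σ : L) : g.rs r w σ = if g.m.ρ σ = r then w σ else 0 := by
  simp [rs]

theorem supp_rs {r : ℕ} {w : L → K} (h : w ∈ LinearMap.range (g.rs r)) {σ : L}
    (hσ : w σ ≠ 0) : g.m.ρ σ = r := by
  obtain ⟨v, rfl⟩ := h
  by_contra hc
  exact hσ (by rw [rs_apply, if_neg hc])

theorem mem_range_rs {r : ℕ} {w : L → K} (h : ∀ σ, w σ ≠ 0 → g.m.ρ σ = r) :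
    w ∈ LinearMap.range (g.rs r) :=
  ⟨w, funext fun σ => by
    rw [rs_apply]
    split_ifs with c
    · rfl
    · by_contra c'
      exact c (h σ (Ne.symm c'))⟩

namespace Nm.DS

variable {N : g.Nm} (D : N.DS)

/-- The span of the weights of the cells of rank `r` on the cells of rank `t`. -/
noncomputable def U (t r : ℕ) : Submodule K (L → K) :=
  Submodule.span K {v | ∃ G, G ≠ ⊤ ∧ g.m.ρ G = r ∧ v = g.rs t (D.w G)}

theorem mem_U {t r : ℕ} {G : L} (h : G ≠ ⊤) (hG : g.m.ρ G = r) : g.rs t (D.w G) ∈ D.U t r :=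
  Submodule.subset_span ⟨G, h, hG, rfl⟩

theorem U_le {t r : ℕ} {V : Submodule K (L → K)}
    (h : ∀ G, G ≠ ⊤ → g.m.ρ G = r → g.rs t (D.w G) ∈ V) : D.U t r ≤ V :=
  Submodule.span_le.2 (by rintro _ ⟨G, h0, h1, rfl⟩; exact h G h0 h1)

theorem U_le_rs (t r : ℕ) : D.U t r ≤ LinearMap.range (g.rs t) :=
  D.U_le fun _ _ _ => ⟨_, rfl⟩

theorem w_eq_zero {G σ : L} (h : g.m.ρ G ≤ g.m.ρ σ) (hne : σ ≠ G) : D.w G σ = 0 := by
  by_contra c
  exact hne (g.m.eq_of_ρ (D.supp G σ c) h)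

theorem U_self {t : ℕ} (ht : t < g.m.ρ ⊤) : D.U t t = LinearMap.range (g.rs t) := by
  refine le_antisymm (D.U_le_rs t t) fun x hx => ?_
  have : x = ∑ G, x G • g.rs t (D.w G) := by
    funext σ
    rw [Finset.sum_apply, sum_eq_single σ]
    · by_cases c : x σ = 0
      · simp [c]
      · simp [rs_apply, supp_rs hx c, D.self]
    · intro G _ hG
      by_cases c : x G = 0
      · simp [c]
      · rw [Pi.smul_apply, rs_apply]
        split_ifs with c'
        · rw [D.w_eq_zero (by rw [c', supp_rs hx c]) hG.symm, smul_zero]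
        · simp
    · simp
  rw [this]
  refine Submodule.sum_mem _ fun G _ => ?_
  by_cases c : x G = 0
  · simp [c]
  · exact Submodule.smul_mem _ _
      (D.mem_U (ne_top_of_ρ (r := g) (by rw [supp_rs hx c]; exact ht)) (supp_rs hx c))

theorem mul_mem {t r : ℕ} (h : t ≤ r) {G : L} (h0 : G ≠ ⊤) (hG : g.m.ρ G = r + 1) (x : E) :
    (fun σ => D.lam σ x) * g.rs t (D.w G) ∈ D.U t r := by
  obtain ⟨x', hx, hx'⟩ := D.tr t G h0 (by omega) x
  have hr := ρ_lt_top (r := g) h0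
  have : (fun σ => D.lam σ x) * g.rs t (D.w G) =
      ∑ G', N.n G G' x' • g.rs t (D.w G') := by
    funext σ
    simp only [Finset.sum_apply, Pi.mul_apply, Pi.smul_apply, rs_apply, smul_eq_mul]
    split_ifs with c
    · rw [← hx' σ c, ← D.rel σ (ne_top_of_ρ (r := g) (by omega)) G x' hx, dn]
      exact sum_congr rfl fun _ _ => mul_comm _ _
    · simp
  rw [this]
  refine Submodule.sum_mem _ fun G' _ => ?_
  by_cases c : g.Cw G' G
  · exact Submodule.smul_mem _ _ (D.mem_U c.ne (by have := c.rk; omega))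
  · simp [N.not _ _ c]

theorem mul_U {t r : ℕ} (h : t ≤ r) (x : E) {v : L → K} (hv : v ∈ D.U t (r + 1)) :
    (fun σ => D.lam σ x) * v ∈ D.U t r :=
  D.U_le (V := (D.U t r).comap (LinearMap.mulLeft K fun σ => D.lam σ x))
    (fun _ h0 hG => D.mul_mem h h0 hG x) hv

theorem U_succ_le {t r : ℕ} (h : t ≤ r) : D.U t (r + 1) ≤ D.U t r := by
  refine D.U_le fun G h0 hG => ?_
  obtain ⟨x, -, hx, -⟩ := D.one t G h0 (by omega)
  have := D.mul_mem h h0 hG x
  convert this using 1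
  funext σ
  simp only [Pi.mul_apply, rs_apply]
  split_ifs with c
  · rw [hx σ c, one_mul]
  · simp

theorem U_anti {t r r' : ℕ} (h : t ≤ r) (h' : r ≤ r') : D.U t r' ≤ D.U t r := by
  induction r', h' using Nat.le_induction with
  | base => exact le_rfl
  | succ k hk ih => exact (D.U_succ_le (h.trans hk)).trans ih

/-- The map to the weights one rank lower. -/
noncomputable def be (t k : ℕ) : (L → K) →ₗ[K] (L → K) :=
  LinearMap.pi fun τ => if g.m.ρ τ = t then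
    ∑ σ, (D.sl σ ^ k * D.w σ τ) • LinearMap.proj σ else 0

theorem be_apply (t k : ℕ) (x : L → K) (τ : L) :
    D.be t k x τ = if g.m.ρ τ = t then ∑ σ, D.sl σ ^ k * D.w σ τ * x σ else 0 := by
  simp only [be, LinearMap.pi_apply]
  split_ifs <;> simp [LinearMap.sum_apply]

theorem be_step {t k : ℕ} {τ : L} (hτ : g.m.ρ τ = t)
    (ih : ∀ G, G ≠ ⊤ → g.m.ρ G = t + 1 + k →
      ∑ σ, D.sl σ ^ k * D.w σ τ * g.rs (t + 1) (D.w G) σ = D.w G τ)
    {H : L} (h0 : H ≠ ⊤) (hH : g.m.ρ H = t + 1 + k + 1) {x : E} (hx : x ∈ g.sp H) :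
    D.lam τ x * D.w H τ =
      ∑ σ, D.lam σ x * (D.sl σ ^ k * D.w σ τ * g.rs (t + 1) (D.w H) σ) := by
  have hr := ρ_lt_top (r := g) h0
  rw [← D.rel τ (ne_top_of_ρ (r := g) (by omega)) H x hx, dn_congr (w' := fun G =>
    ∑ σ, D.sl σ ^ k * D.w σ τ * g.rs (t + 1) (D.w G) σ) fun G c =>
      (ih G c.ne (by have := c.rk; omega)).symm]
  simp only [dn, sum_mul]
  rw [sum_comm]
  refine sum_congr rfl fun σ _ => ?_
  simp only [rs_apply]
  split_ifs with c
  · have := D.rel σ (ne_top_of_ρ (r := g) (by omega)) H x hx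
    rw [dn] at this
    rw [show D.lam σ x * (D.sl σ ^ k * D.w σ τ * D.w H σ) =
      D.sl σ ^ k * D.w σ τ * (D.lam σ x * D.w H σ) by ring, ← this, mul_sum]
    exact sum_congr rfl fun _ _ => by ring
  · simp

theorem be_sum {t : ℕ} {τ : L} (hτ : g.m.ρ τ = t) : ∀ (k : ℕ) (G : L), G ≠ ⊤ →
    g.m.ρ G = t + 1 + k → ∑ σ, D.sl σ ^ k * D.w σ τ * g.rs (t + 1) (D.w G) σ = D.w G τ := by
  intro k
  induction k with
  | zero =>
    intro G _ hG
    rw [sum_eq_single G]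
    · simp [rs_apply, hG, D.self]
    · intro σ _ hσ
      rw [rs_apply]
      split_ifs with c
      · rw [D.w_eq_zero (G := G) (by omega) hσ, mul_zero]
      · simp
    · simp
  | succ k ih =>
    intro H h0 hH
    obtain ⟨x, hx, h1, h2⟩ := D.two t H h0 (by omega)
    have := D.be_step hτ ih h0 hH hx
    rw [h2 τ hτ, one_mul] at this
    rw [this]
    refine sum_congr rfl fun σ _ => ?_
    rw [rs_apply]
    split_ifs with c
    · rw [h1 σ c]
      ring
    · simp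

theorem be_w {t k : ℕ} {G : L} (h0 : G ≠ ⊤) (hG : g.m.ρ G = t + 1 + k) :
    D.be t k (g.rs (t + 1) (D.w G)) = g.rs t (D.w G) := by
  funext τ
  rw [be_apply, rs_apply]
  split_ifs with c
  · exact D.be_sum c k G h0 hG
  · rfl

theorem be_zero {t k : ℕ} {H : L} (h0 : H ≠ ⊤) (hH : g.m.ρ H = t + 1 + k + 1) :
    D.be t k (g.rs (t + 1) (D.w H)) = 0 := by
  funext τ
  rw [be_apply, Pi.zero_apply]
  split_ifs with c
  · obtain ⟨x, hx, h1, h2⟩ := D.one (t + 1) H h0 (by omega)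
    have := D.be_step c (D.be_sum c k) h0 hH hx
    rw [h2 τ (by omega), zero_mul] at this
    rw [this]
    refine sum_congr rfl fun σ _ => ?_
    rw [rs_apply]
    split_ifs with c'
    · rw [h1 σ c', one_mul]
    · simp
  · rfl

theorem map_be (t k : ℕ) : (D.U (t + 1) (t + 1 + k)).map (D.be t k) = D.U t (t + 1 + k) := by
  refine le_antisymm (Submodule.map_le_iff_le_comap.2 (D.U_le fun G h0 hG => ?_))
    (D.U_le fun G h0 hG => ⟨_, D.mem_U h0 hG, D.be_w h0 hG⟩)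
  rw [Submodule.mem_comap, D.be_w h0 hG]
  exact D.mem_U h0 hG

theorem U_le_ker (t k : ℕ) : D.U (t + 1) (t + 1 + k + 1) ≤ LinearMap.ker (D.be t k) :=
  D.U_le fun _ h0 hG => D.be_zero h0 hG

theorem pascal {t r : ℕ} (h : t + 1 ≤ r) : finrank K (D.U (t + 1) (r + 1)) +
    finrank K (D.U t r) ≤ finrank K (D.U (t + 1) r) := by
  obtain ⟨k, rfl⟩ := Nat.exists_eq_add_of_le h
  have h1 := finrank_split (D.be t k) (D.U (t + 1) (t + 1 + k))
  rw [D.map_be] at h1
  have h2 := Submodule.finrank_mono (le_inf (D.U_succ_le h) (D.U_le_ker t k))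
  omega

theorem bal {t : ℕ} (ht : t + 1 < g.m.ρ ⊤) {v : L → K} (h1 : v ∈ LinearMap.range (g.rs (t + 1)))
    (h2 : v ∈ LinearMap.ker (D.be t 0)) {τ σ : L} (c : Cv g.m.ρ τ σ)
    (c' : ∀ σ', Cv g.m.ρ τ σ' → σ' ≠ σ → v σ' = 0) : v σ = 0 := by
  by_contra h0
  have r1 : g.m.ρ σ = t + 1 := supp_rs h1 h0
  have r2 := c.2
  have e := congrFun (LinearMap.mem_ker.1 h2) τ
  rw [be_apply, if_pos (by omega), sum_eq_single σ] at e
  · exact mul_ne_zero (mul_ne_zero (by simp)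
      (D.supp' σ τ (ne_top_of_ρ (r := g) (by omega)) c.1)) h0 e
  · intro σ' _ hσ'
    by_contra e'
    have g1 := right_ne_zero_of_mul e'
    have g2 := D.supp σ' τ (right_ne_zero_of_mul (left_ne_zero_of_mul e'))
    have r3 : g.m.ρ σ' = t + 1 := supp_rs h1 g1
    exact g1 (c' σ' ⟨g2, by omega⟩ hσ')
  · simp

theorem inc {t r z : ℕ} (h : t + 1 ≤ r) (hz : t + 1 ≤ z)
    (H : z.choose (t + 1) ≤ finrank K (D.U (t + 1) (r + 1))) :
    finrank K (D.U (t + 1) (r + 1)) + z.choose t ≤ finrank K (D.U (t + 1) r) := by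
  have ht : t + 1 + 2 ≤ g.m.ρ ⊤ := by
    by_contra c
    have h1 : D.U (t + 1) (r + 1) = ⊥ := le_bot_iff.1 (D.U_le fun G h0 hG => by
      have := ρ_lt_top (r := g) h0
      omega)
    rw [h1, finrank_bot] at H
    have := Nat.choose_pos hz
    omega
  exact GK.inc (m := g.m) ⟨fun _ hv _ hσ => ⟨bot_le, supp_rs (D.U_le_rs _ _ hv) hσ⟩,
    fun v hv τ σ _ c c' => D.bal (by omega) (D.U_le_rs _ _ hv)
      (((D.U_anti (by omega) (by omega)).trans (D.U_le_ker t 0)) hv) c c',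
    fun x _ hv => D.mul_U h x hv⟩ g.bot (D.mu ht) hz H

theorem kk {s n : ℕ} (hn : s + 3 ≤ n) (ht : s + 1 + 1 < g.m.ρ ⊤)
    (H : n.choose (s + 1 + 1) ≤ finrank K (D.U (s + 1 + 1) (s + 1 + 1))) :
    n.choose (s + 1) ≤ finrank K (D.U (s + 1) (s + 1)) := by
  obtain ⟨z, rfl⟩ : ∃ z, n = z + 1 := ⟨n - 1, by omega⟩
  have h1 := finrank_split (D.be (s + 1) 0) (D.U (s + 1 + 1) (s + 1 + 1))
  have h2 : (D.U (s + 1 + 1) (s + 1 + 1)).map (D.be (s + 1) 0) = D.U (s + 1) (s + 1 + 1) :=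
    D.map_be (s + 1) 0
  rw [h2] at h1
  have h3 : z.choose (s + 1) ≤ finrank K (D.U (s + 1) (s + 1 + 1)) := by
    by_cases c : z.choose (s + 1 + 1) ≤ finrank K
      (D.U (s + 1 + 1) (s + 1 + 1) ⊓ LinearMap.ker (D.be (s + 1) 0) : Submodule K (L → K))
    · have k : GK g.m (fun u σ => if u ≤ σ then (0 : K) else 1) (s + 1 + 1) ⊥
          (D.U (s + 1 + 1) (s + 1 + 1) ⊓ LinearMap.ker (D.be (s + 1) 0))
          (D.U (s + 1 + 1) (s + 1 + 1)) :=
        ⟨fun _ hv _ hσ => ⟨bot_le, supp_rs (D.U_le_rs _ _ hv.1) hσ⟩,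
          fun v hv τ σ _ c c' => D.bal ht (D.U_le_rs _ _ hv.1) hv.2 c c',
          fun u v hv => by
            rw [D.U_self ht]
            exact mem_range_rs fun σ hσ =>
              supp_rs (D.U_le_rs _ _ hv.1) (right_ne_zero_of_mul hσ)⟩
      have := k.inc g.bot (mu_ind K ht) (by omega) c
      omega
    · rw [Nat.choose_succ_succ'] at H
      omega
  have h4 := D.inc le_rfl (by omega) h3
  rw [Nat.choose_succ_succ']
  omega

theorem first_le {d : ℕ} (hd : g.m.ρ ⊤ = d + 1) (φ : L → ℝ) (r : ℕ) :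
    (g.m.first φ r).card ≤ finrank K (D.U r d) := by
  have h6 : ∀ F, Cv g.m.ρ F ⊤ → g.m.ρ F = d := fun F h => by
    have := h.2
    omega
  have h7 : ∀ F, Cv g.m.ρ F ⊤ → F ≠ ⊤ := fun F h => (cv_lt h).ne
  have key := fun F (hF : F ∈ g.m.first φ r) => (mem_filter.1 hF).2.2
  choose! e h1 h2 h3 using key
  have hc := fun F (hF : F ∈ g.m.first φ r) => (mem_filter.1 hF).2.1
  refine tri_indep _ (fun F => g.rs r (D.w F)) e φ (fun F hF => ?_) (fun F hF F' hF' hne h => ?_)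
    _ fun F hF => D.mem_U (h7 F (hc F hF)) (h6 F (hc F hF))
  · rw [rs_apply, if_pos (h2 F hF)]
    exact D.supp' F _ (h7 F (hc F hF)) (h1 F hF)
  · rw [rs_apply, if_pos (h2 F hF)] at h
    exact h3 F hF F' (hc F' hF') (D.supp F' _ h) hne.symm

theorem dual {d i j : ℕ} (hd : g.m.ρ ⊤ = d + 1) (h : i + j + 1 = d) :
    g.m.f ⊥ ⊤ d ≤ finrank K (D.U i d) + finrank K (D.U j d) := by
  obtain ⟨φ, hφ⟩ := g.m.exists_first g.bot
  have h1 := hφ i j (by omega)
  rw [h] at h1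
  exact h1.trans (add_le_add (D.first_le hd _ _) (D.first_le hd _ _))

theorem finrank_self (t : ℕ) : finrank K (D.U t t) ≤ g.m.f ⊥ ⊤ t :=
  finrank_le_card _ _ fun _ hw _ hσ =>
    ML.mem_I.2 ⟨bot_le, le_top, supp_rs (D.U_le_rs _ _ hw) hσ⟩

end Nm.DS

end Rp

end Pool.Agent.Lib.MP_c8fb4d_co.Rep
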