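import Pool.Agent.Lib.MP_c8fb4d_co.RepBase

/-!
Weights on the elements above an element, attached to a generic functional vanishing on it.
-/

namespace Pool.Agent.Lib.MP_c8fb4d_co.Rep

open Module Finset
open scoped Classical

set_option linter.unusedSectionVars false

variable {L K E : Type} [Lattice L] [Fintype L] [BoundedOrder L] [Field K] [Infinite K]
  [AddCommGroup E] [Module K E] [FiniteDimensional K E] {r : Rp L K E}

namespace Rp.Nm

variable (N : r.Nm)

/-- the weighted sum of the facet normals, tested against a vector -/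
noncomputable def dn (G : L) (w : L → K) (x : E) : K := ∑ G', w G' * N.n G G' x

/-- The dual weights in corank `k`. -/
noncomputable def Dk (σ : L) (lam : E →ₗ[K] K) : ℕ → L → K
  | 0 => fun G => if G = σ then 1 else 0
  | k + 1 => fun G => N.dn G (Dk σ lam k) (r.ip G) / lam (r.ip G)

variable {N} {σ : L} {lam : E →ₗ[K] K}

theorem dn_eq_zero {G : L} {w : L → K} (h : ∀ G', r.Cw G' G → w G' = 0) (x : E) :
    N.dn G w x = 0 := by
  refine sum_eq_zero fun G' _ => ?_
  by_cases c : r.Cw G' G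
  · rw [h G' c, zero_mul]
  · simp [N.not _ _ c]

theorem dn_congr {G : L} {w w' : L → K} (h : ∀ G', r.Cw G' G → w G' = w' G') (x : E) :
    N.dn G w x = N.dn G w' x := by
  refine sum_congr rfl fun G' _ => ?_
  by_cases c : r.Cw G' G
  · rw [h G' c]
  · simp [N.not _ _ c]

theorem Dk_supp : ∀ (k : ℕ) (G : L), N.Dk σ lam k G ≠ 0 → σ ≤ G ∧ r.m.ρ G = r.m.ρ σ + k := by
  intro k
  induction k with
  | zero =>
    intro G h
    have : G = σ := by
      by_contra hc
      exact h (if_neg hc)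
    exact ⟨this.ge, by rw [this, add_zero]⟩
  | succ k ih =>
    intro G h
    by_contra hc
    refine h ?_
    have : N.dn G (N.Dk σ lam k) (r.ip G) = 0 := dn_eq_zero (fun G' c => by
      by_contra h0
      obtain ⟨h1, h2⟩ := ih G' h0
      exact hc ⟨h1.trans c.le, by have := c.rk; omega⟩) _
    simp [Dk, this]

theorem dn_wedge {w w' : L → K}
    (H : ∀ G', ∀ z ∈ r.sp G', N.dn G' w' z = lam z * w G') (G : L) {x y : E}
    (hx : x ∈ r.sp G) (hy : y ∈ r.sp G) : N.dn G w x * lam y = N.dn G w y * lam x := by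
  rw [← sub_eq_zero]
  have h1 : ∀ G', w G' * N.n G G' x * lam y - w G' * N.n G G' y * lam x =
      ∑ G'', w' G'' * (N.n G G' x * N.n G' G'' y - N.n G G' y * N.n G' G'' x) := by
    intro G'
    by_cases c : r.Cw G' G
    · have hz : N.n G G' x • y - N.n G G' y • x ∈ r.sp G' :=
        (N.ker G G' c _ (Submodule.sub_mem _ (Submodule.smul_mem _ _ hy)
          (Submodule.smul_mem _ _ hx))).1 (by simp [mul_comm])
      have h2 := H G' _ hz
      simp only [dn, map_sub, map_smul, smul_eq_mul] at h2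
      rw [h2]
      ring
    · simp [N.not _ _ c]
  simp only [dn, sum_mul, ← sum_sub_distrib, h1]
  rw [sum_comm]
  refine sum_eq_zero fun G'' _ => ?_
  rw [← mul_sum, N.dia, mul_zero]

theorem Dk_rel (hl : ∀ x ∈ r.sp σ, lam x = 0) (hg : ∀ G, σ < G → G ≠ ⊤ → lam (r.ip G) ≠ 0) :
    ∀ (k : ℕ) (G : L), ∀ x ∈ r.sp G,
      N.dn G (N.Dk σ lam k) x = lam x * N.Dk σ lam (k + 1) G := by
  have key : ∀ (k : ℕ) (w' : L → K),
      (∀ G', ∀ z ∈ r.sp G', N.dn G' w' z = lam z * N.Dk σ lam k G') →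
      ∀ G, ∀ x ∈ r.sp G, N.dn G (N.Dk σ lam k) x = lam x * N.Dk σ lam (k + 1) G := by
    intro k w' H G x hx
    by_cases hG : σ < G ∧ G ≠ ⊤
    · have h1 := dn_wedge H G hx (ip_mem G)
      have h2 := hg G hG.1 hG.2
      change _ = lam x * (N.dn G (N.Dk σ lam k) (r.ip G) / lam (r.ip G))
      field_simp
      linear_combination h1
    · have h1 : ∀ y, N.dn G (N.Dk σ lam k) y = 0 := dn_eq_zero fun G' c => by
        by_contra h0
        exact hG ⟨lt_of_le_of_lt (Dk_supp k G' h0).1 (cv_lt c.1), c.2⟩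
      simp [Dk, h1]
  intro k
  induction k with
  | zero =>
    refine key 0 0 fun G' z hz => ?_
    by_cases c : G' = σ
    · rw [hl z (c ▸ hz)]
      simp [dn]
    · simp [dn, Dk, c]
  | succ k ih => exact key _ _ ih

variable (r) in
/-- The common denominator. -/
noncomputable def _root_.Pool.Agent.Lib.MP_c8fb4d_co.Rep.Rp.dd (σ π : L) (lam : E →ₗ[K] K) : K :=
  ∏ G ∈ univ.filter (fun G => σ < G ∧ G ≤ π), lam (r.ip G)

variable (N) in
theorem Dk_rat (σ π : L) : ∀ (k : ℕ) (G : L), ∃ P : (E →ₗ[K] K) → K, PL P ∧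
    ∀ lam, G ≤ π → r.dd σ π lam ≠ 0 → N.Dk σ lam k G * r.dd σ π lam ^ k = P lam := by
  intro k
  induction k with
  | zero => exact fun G => ⟨_, PL.const (if G = σ then 1 else 0), fun lam _ _ => by simp [Dk]⟩
  | succ k ih =>
    intro G
    by_cases hG : σ < G
    swap
    · refine ⟨_, PL.const 0, fun lam _ _ => mul_eq_zero_of_left ?_ _⟩
      by_contra h0
      obtain ⟨h1, h2⟩ := Dk_supp _ G h0
      exact hG (r.m.lt_of_ρ h1 (by omega))
    choose P hP hP' using ih
    refine ⟨_, (PL.sum univ fun u _ => (hP u).mul (PL.const (N.n G u (r.ip G)))).mul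
      (PL.prod ((univ.filter fun G => σ < G ∧ G ≤ π).erase G) fun u _ => pl_ev (r.ip u)),
      fun lam hGπ hl => ?_⟩
    have hm : G ∈ univ.filter fun G => σ < G ∧ G ≤ π := mem_filter.2 ⟨mem_univ _, hG, hGπ⟩
    have h1 := mul_prod_erase _ (fun u : L => lam (r.ip u)) hm
    have h2 : lam (r.ip G) ≠ 0 := prod_ne_zero_iff.1 hl G hm
    have h3 : r.dd σ π lam = lam (r.ip G) *
      ∏ u ∈ (univ.filter fun G => σ < G ∧ G ≤ π).erase G, lam (r.ip u) := h1.symm
    generalize ∏ u ∈ (univ.filter fun G => σ < G ∧ G ≤ π).erase G, lam (r.ip u) = R at h3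
    have h4 : ∑ u, P u lam * N.n G u (r.ip G) =
        N.dn G (N.Dk σ lam k) (r.ip G) * r.dd σ π lam ^ k := by
      rw [dn, sum_mul]
      refine sum_congr rfl fun u _ => ?_
      by_cases c : r.Cw u G
      · rw [← hP' u lam (c.le.trans hGπ) hl]
        ring
      · simp [N.not _ _ c]
    rw [h4, pow_succ]
    change N.dn G (N.Dk σ lam k) (r.ip G) / lam (r.ip G) * _ = _
    generalize r.dd σ π lam ^ k = D
    rw [h3]
    field_simp

theorem Dk_one (H : L) : N.Dk σ lam 1 H = N.n H σ (r.ip H) / lam (r.ip H) := by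
  simp [Dk, dn]

theorem residue {σ' π : L} {μ : E →ₗ[K] K} (c : r.Cw σ σ') (h0 : lam (r.ip σ') = 0)
    (hμ : μ (r.ip σ') ≠ 0) (h1 : ∀ H, σ < H → H ≤ π → H ≠ σ' → lam (r.ip H) ≠ 0) :
    ∀ (j : ℕ) (H : L), H ≤ π → Reg (fun s => s * N.Dk σ (lam + s • μ) (j + 1) H)
      (N.n σ' σ (r.ip σ') / μ (r.ip σ') * N.Dk σ' lam j H) := by
  intro j
  induction j with
  | zero =>
    intro H hH
    simp only [zero_add, Dk_one, LinearMap.add_apply, LinearMap.smul_apply, smul_eq_mul]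
    by_cases e : H = σ'
    · subst e
      refine (Reg.const (N.n H σ (r.ip H) / μ (r.ip H))).congr (fun s hs => ?_) (by simp [Dk])
      rw [h0]
      field_simp
      ring
    · by_cases c' : r.Cw σ H
      · exact ((Reg.self.mul (N.n H σ (r.ip H))).div (h1 H (cv_lt c'.1) hH e)
          (μ (r.ip H))).congr (fun s _ => by ring) (by simp [Dk, e])
      · exact (Reg.const 0).congr (fun s _ => by simp [N.not _ _ c']) (by simp [Dk, e])
  | succ j ih =>
    intro H hH
    have rk := c.rk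
    by_cases e : σ < H ∧ H ≠ σ'
    · refine ((Reg.sum univ (f := fun G s => s * N.Dk σ (lam + s • μ) (j + 1) G * N.n H G (r.ip H))
        (a := fun G => N.n σ' σ (r.ip σ') / μ (r.ip σ') * N.Dk σ' lam j G * N.n H G (r.ip H))
        fun G _ => ?_).div (h1 H e.1 hH e.2) (μ (r.ip H))).congr (fun s _ => ?_) ?_
      · by_cases c' : r.Cw G H
        · exact (ih G (c'.le.trans hH)).mul _
        · exact (Reg.const 0).congr (fun s _ => by simp [N.not _ _ c']) (by simp [N.not _ _ c'])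
      · change s * (N.dn H _ _ / (lam + s • μ) (r.ip H)) = _
        simp only [dn, mul_assoc, ← mul_sum, LinearMap.add_apply, LinearMap.smul_apply,
          smul_eq_mul]
        ring
      · change _ * (N.dn H _ _ / lam (r.ip H)) = _
        simp only [dn, mul_assoc, ← mul_sum]
        ring
    · refine (Reg.const 0).congr (fun s _ => mul_eq_zero_of_right _ ?_)
        (mul_eq_zero_of_right _ ?_)
      · by_contra h
        obtain ⟨a1, a2⟩ := Dk_supp _ _ h
        exact e ⟨r.m.lt_of_ρ a1 (by omega), fun e' => by rw [e'] at a2; omega⟩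
      · by_contra h
        obtain ⟨a1, a2⟩ := Dk_supp _ _ h
        exact e ⟨(cv_lt c.1).trans_le a1, fun e' => by rw [e'] at a2; omega⟩

variable (N) in
theorem exists_good {π : L} (hπ : π ≠ ⊤) : ∀ (k : ℕ) (σ : L), σ ≤ π → r.m.ρ π = r.m.ρ σ + k →
    ∃ lam : E →ₗ[K] K, (∀ x ∈ r.sp σ, lam x = 0) ∧ r.dd σ π lam ≠ 0 ∧ N.Dk σ lam k π ≠ 0 := by
  intro k
  induction k with
  | zero =>
    intro σ h1 h2
    obtain rfl : σ = π := r.m.eq_of_ρ h1 (le_of_eq h2)
    exact ⟨0, fun _ _ => rfl, prod_ne_zero_iff.2 fun G hG =>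
      absurd (mem_filter.1 hG).2.2 (mem_filter.1 hG).2.1.not_ge, by simp [Dk]⟩
  | succ k ih =>
    intro σ h1 h2
    obtain ⟨σ', b1, b2, b3⟩ := r.m.exists_rank' (k := r.m.ρ σ + 1) h1 (by omega) (by omega)
    have c : r.Cw σ σ' := ⟨⟨b1, b3.symm⟩, ne_top_of_le_ne_top hπ b2⟩
    have rt := ρ_lt_top (r := r) hπ
    obtain ⟨l0, a1, a2, a3⟩ := ih σ' b2 (by omega)
    obtain ⟨P, hP, hP'⟩ := N.Dk_rat σ' π k π
    set T := univ.filter fun H => σ < H ∧ H ≤ π ∧ H ≠ σ' with hT
    obtain ⟨lam, d1, d2⟩ := exists_common_sub (r.sp σ').dualAnnihilator (insertNone T)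
      (f := fun o => o.elim (fun l => r.dd σ' π l * P l) fun H (l : E →ₗ[K] K) => l (r.ip H))
      (by
        rintro (_ | H) _
        · exact (PL.prod _ fun u _ => pl_ev (r.ip u)).mul hP
        · exact pl_ev _)
      (by
        rintro (_ | H) hH
        · refine ⟨l0, (Submodule.mem_dualAnnihilator _).2 a1, mul_ne_zero a2 ?_⟩
          rw [← hP' l0 le_rfl a2]
          exact mul_ne_zero a3 (pow_ne_zero _ a2)
        · obtain ⟨e1, e2, e3⟩ := (mem_filter.1 (some_mem_insertNone.1 hH)).2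
          have hH' := ne_top_of_le_ne_top hπ e2
          have g1 := r.m.mono _ _ e1
          obtain ⟨y, f1, f2⟩ := Submodule.exists_le_ker_of_notMem (ip_not_mem (r := r) (G := H)
            (σ := σ') fun e => by
              by_cases g : r.m.ρ H = r.m.ρ σ + 1
              · have c' : r.Cw σ H := ⟨⟨e1.le, g.symm⟩, hH'⟩
                have g2 : r.m.ρ H < r.m.ρ π := r.m.mono _ _ (lt_of_le_of_ne e2 fun e' =>
                  e3 (r.m.eq_of_ρ (e' ▸ b2) (by omega)).symm)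
                exact e3 (eq_of_mem c'.1 c.1 (by omega) (tv_spec c').1 (e (tv_spec c').1)
                  (tv_spec c').2)
              · exact not_sp_le (by omega) c.2 hH' e)
          exact ⟨y, (Submodule.mem_dualAnnihilator _).2 fun w hw => f2 hw, f1⟩)
    have d1' := (Submodule.mem_dualAnnihilator _).1 d1
    have d3 : r.dd σ' π lam * P lam ≠ 0 := d2 none none_mem_insertNone
    have d4 : ∀ H ∈ T, lam (r.ip H) ≠ 0 := fun H hH => d2 (some H) (some_mem_insertNone.2 hH)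
    have d5 : N.Dk σ' lam k π ≠ 0 := by
      have := right_ne_zero_of_mul d3
      rw [← hP' lam le_rfl (left_ne_zero_of_mul d3)] at this
      exact left_ne_zero_of_mul this
    have i1 : r.ip σ' ∉ r.sp σ := ip_not_mem (not_sp_le (by omega) c.ne c.2)
    obtain ⟨μ, m1, m2⟩ := Submodule.exists_le_ker_of_notMem i1
    have i2 := d1' _ (ip_mem σ')
    obtain ⟨s, s1, s2, s3⟩ := (residue (N := N) c i2 m1
      (fun H e1 e2 e3 => d4 H (mem_filter.2 ⟨mem_univ _, e1, e2, e3⟩)) k π le_rfl).exists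
      (mul_ne_zero (div_ne_zero (fun e => i1 ((N.ker _ _ c _ (ip_mem σ')).1 e)) m1) d5)
      ((PL.prod T fun H _ => pl_ev (K := K) (r.ip H)).finite lam μ (s := 0)
        (by simpa using prod_ne_zero_iff.2 d4))
    refine ⟨lam + s • μ, fun x hx => ?_, prod_ne_zero_iff.2 fun H hH => ?_,
      right_ne_zero_of_mul s3⟩
    · simp [d1' x (r.mono _ _ c.le c.2 hx), LinearMap.mem_ker.1 (m2 hx)]
    · by_cases e : H = σ'
      · simpa [e, i2, s2] using m1
      · exact prod_ne_zero_iff.1 s1 H (mem_filter.2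
          ⟨mem_univ _, (mem_filter.1 hH).2.1, (mem_filter.1 hH).2.2, e⟩)

variable (N) in
/-- The dual weights on all elements. -/
noncomputable def dw (σ : L) (lam : E →ₗ[K] K) (G : L) : K :=
  N.Dk σ lam (r.m.ρ G - r.m.ρ σ) G

theorem dw_rel (hl : ∀ x ∈ r.sp σ, lam x = 0) (hg : ∀ G, σ < G → G ≠ ⊤ → lam (r.ip G) ≠ 0)
    (G : L) {x : E} (hx : x ∈ r.sp G) : N.dn G (N.dw σ lam) x = lam x * N.dw σ lam G := by
  by_cases h : r.m.ρ σ < r.m.ρ G
  · obtain ⟨k, hk⟩ : ∃ k, r.m.ρ G - r.m.ρ σ = k + 1 := ⟨r.m.ρ G - r.m.ρ σ - 1, by omega⟩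
    rw [dn_congr (w' := N.Dk σ lam k) fun G' c => by
      rw [dw, show r.m.ρ G' - r.m.ρ σ = k by have := c.rk; omega], dw, hk]
    exact Dk_rel hl hg k G x hx
  · rw [dn_eq_zero fun G' c => by
      by_contra h0
      have := (Dk_supp _ G' h0).2
      have := c.rk
      omega]
    by_cases c : G = σ
    · rw [hl x (c ▸ hx), zero_mul]
    · rw [dw, show r.m.ρ G - r.m.ρ σ = 0 by omega]
      simp [Dk, c]

theorem dw_self : N.dw σ lam σ = 1 := by simp [dw, Dk]

variable (N) in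
theorem exists_dual_poly (σ : L) : ∃ P : (E →ₗ[K] K) → K, PL P ∧
    (∃ c : E →ₗ[K] K, (∀ x ∈ r.sp σ, c x = 0) ∧ P c ≠ 0) ∧
    ∀ lam, P lam ≠ 0 → (∀ G, σ < G → G ≠ ⊤ → lam (r.ip G) ≠ 0) ∧
      (∀ G, G ≠ ⊤ → σ ≤ G → N.dw σ lam G ≠ 0) ∧
      ∀ B x, r.tv B x ∉ r.sp σ → lam (r.tv B x) ≠ 0 := by
  choose P hP hP' using fun π => N.Dk_rat σ π (r.m.ρ π - r.m.ρ σ) π
  let f : L ⊕ L × L → (E →ₗ[K] K) → K :=
    Sum.elim (fun π lam => r.dd σ π lam * P π lam) fun v lam => lam (r.tv v.1 v.2)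
  let s : Finset (L ⊕ L × L) := (univ.filter fun π => σ ≤ π ∧ π ≠ ⊤).disjSum
    (univ.filter fun v : L × L => r.tv v.1 v.2 ∉ r.sp σ)
  have hf : ∀ k ∈ s, PL (f k) := by
    rintro (π | v) _
    · exact (PL.prod _ fun u _ => pl_ev (r.ip u)).mul (hP π)
    · exact pl_ev _
  obtain ⟨c, hc, hc'⟩ := exists_common_sub (r.sp σ).dualAnnihilator s hf (by
    rintro (π | v) hk
    · obtain ⟨h1, h2⟩ := (mem_filter.1 (inl_mem_disjSum.1 hk)).2
      have h3 := r.m.ρ_le h1
      obtain ⟨l, a1, a2, a3⟩ := N.exists_good h2 (r.m.ρ π - r.m.ρ σ) σ h1 (by omega)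
      refine ⟨l, (Submodule.mem_dualAnnihilator _).2 a1, mul_ne_zero a2 ?_⟩
      rw [← hP' π _ le_rfl a2]
      exact mul_ne_zero a3 (pow_ne_zero _ a2)
    · obtain ⟨y, a1, a2⟩ :=
        Submodule.exists_le_ker_of_notMem (mem_filter.1 (inr_mem_disjSum.1 hk)).2
      exact ⟨y, (Submodule.mem_dualAnnihilator _).2 fun w hw => a2 hw, a1⟩)
  refine ⟨_, PL.prod s hf, ⟨c, (Submodule.mem_dualAnnihilator _).1 hc, prod_ne_zero_iff.2 hc'⟩,
    fun lam h => ?_⟩
  have h1 := fun π (a : σ ≤ π) (b : π ≠ ⊤) => prod_ne_zero_iff.1 h (Sum.inl π)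
    (inl_mem_disjSum.2 (mem_filter.2 ⟨mem_univ _, a, b⟩))
  refine ⟨fun G a b => prod_ne_zero_iff.1 (left_ne_zero_of_mul (h1 G a.le b)) G
    (mem_filter.2 ⟨mem_univ _, a, le_rfl⟩), fun G b a => ?_, fun B x a =>
    prod_ne_zero_iff.1 h (Sum.inr (B, x)) (inr_mem_disjSum.2 (mem_filter.2 ⟨mem_univ _, a⟩))⟩
  have h2 := right_ne_zero_of_mul (h1 G a b)
  rw [← hP' G _ le_rfl (left_ne_zero_of_mul (h1 G a b))] at h2
  exact left_ne_zero_of_mul h2

end Rp.Nm

end Pool.Agent.Lib.MP_c8fb4d_co.Rep
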