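import Pool.Agent.Lib.MP_c8fb4d_co.Star

/-!
Counting facets and ridges around an edge.
-/

namespace Pool.Agent.Lib.MP_c8fb4d_co

open Finset
open scoped Classical

set_option linter.unusedSectionVars false

variable {L : Type} [Lattice L] [Fintype L] [BoundedOrder L]

namespace ML

variable (m : ML L)

theorem sum_f_two {x y : L} {k l : ℕ} {g : L → ℕ} (h : ∀ z ∈ m.I x y k, g z = l) :
    ∑ z ∈ m.I x y k, g z = l * m.f x y k := by
  rw [sum_congr rfl h, sum_const, smul_eq_mul, mul_comm, f]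

theorem ridges_facets (h6 : m.ρ ⊤ = 6) (x : L) :
    ∑ F ∈ m.I x ⊤ 5, m.f x F 4 = 2 * m.f x ⊤ 4 := by
  rw [← m.double_f]
  exact m.sum_f_two fun z hz => m.diamond le_top (by have := (mem_I.1 hz).2.2; omega) (by omega)

theorem ridge_bound (h6 : m.ρ ⊤ = 6) {p e : L} (hp : m.ρ p = 1) (he : m.ρ e = 2) (hpe : p ≤ e) :
    4 * m.f p ⊤ 5 + 2 * m.f e ⊤ 4 ≤ 2 * m.f p ⊤ 4 + 3 * m.f e ⊤ 5 := by
  rw [← m.ridges_facets h6 p, ← m.ridges_facets h6 e]
  have hsub : m.I e ⊤ 5 ⊆ m.I p ⊤ 5 := fun F hF =>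
    mem_I.2 ⟨hpe.trans (mem_I.1 hF).1, (mem_I.1 hF).2⟩
  have h1 := card_sdiff_add_card_eq_card hsub
  rw [← sum_sdiff hsub]
  have h2 := card_nsmul_le_sum (m.I p ⊤ 5 \ m.I e ⊤ 5) (fun F => m.f p F 4) 4 (fun F hF => by
    obtain ⟨a, -, c⟩ := mem_I.1 (mem_sdiff.1 hF).1
    exact m.coatoms_ge (by omega) 4 p a (by omega))
  have h3 : ∑ F ∈ m.I e ⊤ 5, (m.f e F 4 + 1) ≤ ∑ F ∈ m.I e ⊤ 5, m.f p F 4 := by
    refine sum_le_sum fun F hF => ?_
    obtain ⟨a, -, c⟩ := mem_I.1 hF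
    have := m.coatoms_lt (k := 4) (by omega) a (hpe.trans a) (m.not_le_of_ρ (by omega))
    rwa [sup_eq_right.2 hpe] at this
  rw [sum_add_distrib, sum_const, smul_eq_mul] at h3
  rw [smul_eq_mul] at h2
  unfold f at *
  omega

theorem facet_bound (h6 : m.ρ ⊤ = 6) {v w : L} (hv : m.ρ v = 1) (hw : m.ρ w = 1)
    (hvw : m.ρ (w ⊔ v) = 2) :
    m.f v ⊤ 5 + m.f w ⊤ 5 + m.f v ⊤ 2 + m.f w ⊤ 2 + 2 * m.f (w ⊔ v) ⊤ 3 ≤
      m.f v ⊤ 3 + m.f w ⊤ 3 + m.f (w ⊔ v) ⊤ 5 + 4 := by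
  have h1 := m.ridge_bound h6 hv hvw le_sup_right
  have h2 := m.ridge_bound h6 hw hvw le_sup_left
  have h3 := m.euler5 (le_top (a := v)) hv h6
  have h4 := m.euler5 (le_top (a := w)) hw h6
  have h5 := m.euler4 (le_top (a := w ⊔ v)) hvw h6
  norm_num at h3 h4 h5
  omega

theorem far_edges (h0 : m.ρ ⊥ = 0) {v w F : L} (hw : m.ρ w = 1)
    (hvw : m.ρ (w ⊔ v) = 2) (hF : m.ρ F = 5) (h : w ⊔ v ≤ F) :
    (univ.filter fun e => m.ρ e = 2 ∧ w ≤ e ∧ e ⊔ v = F).card + 10 ≤ 2 * m.f ⊥ F 4 := by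
  have hwF : w ≤ F := le_sup_left.trans h
  have h1 := m.euler4 hwF hw hF
  have h2 := m.double_f w F 2 3
  rw [m.sum_f_two (l := 2) (fun z hz => m.diamond (mem_I.1 hz).1 (by omega)
    (by have := (mem_I.1 hz).2.2; omega))] at h2
  have h3 := card_nsmul_le_sum (m.I w F 2) (fun e => m.f e F 3) 3 (fun e he => by
    obtain ⟨-, b, c⟩ := mem_I.1 he
    exact m.atoms_ge (by omega) 3 F b (by omega))
  have h4 := m.coatoms_lt (k := 4) (x := ⊥) (by omega) hwF bot_le (m.not_le_of_ρ (by omega))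
  rw [bot_sup_eq] at h4
  have h5 := m.atoms_ge (k := 3) (x := w ⊔ v) (by omega) 3 F h (by omega)
  rw [f_eq, ← m.poly_card hw hvw fun G => G ≤ F] at h5
  set A := univ.filter fun e => m.ρ e = 2 ∧ w ≤ e ∧ e ⊔ v = F with hA
  set C := univ.filter fun e => m.ρ e = 2 ∧ w ≤ e ∧ m.ρ (e ⊔ v) = 3 ∧ e ⊔ v ≤ F with hC
  have h6 : insert (w ⊔ v) (A ∪ C) ⊆ m.I w F 2 := by
    intro e he
    rcases mem_insert.1 he with rfl | he
    · exact mem_I.2 ⟨le_sup_left, h, hvw⟩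
    rcases mem_union.1 he with he | he
    · obtain ⟨a, b, c⟩ := (mem_filter.1 he).2
      exact mem_I.2 ⟨b, c ▸ le_sup_left, a⟩
    · obtain ⟨a, b, -, c⟩ := (mem_filter.1 he).2
      exact mem_I.2 ⟨b, le_sup_left.trans c, a⟩
  have h7 := card_le_card h6
  rw [card_insert_of_notMem, card_union_of_disjoint] at h7
  · rw [smul_eq_mul] at h3
    norm_num at h1
    unfold f at *
    omega
  · rw [disjoint_left]
    intro e a b
    have a := (mem_filter.1 a).2.2.2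
    have b := (mem_filter.1 b).2.2.2.1
    rw [a] at b; omega
  · intro he
    rcases mem_union.1 he with he | he
    · have a := (mem_filter.1 he).2.2.2
      rw [sup_assoc, sup_idem] at a
      rw [a] at hvw; omega
    · have a := (mem_filter.1 he).2.2.2.1
      rw [sup_assoc, sup_idem] at a
      omega

theorem far_edges_sum (h0 : m.ρ ⊥ = 0) {v w : L} (hw : m.ρ w = 1) (hvw : m.ρ (w ⊔ v) = 2) :
    (univ.filter fun e => m.ρ e = 2 ∧ w ≤ e ∧ m.ρ (e ⊔ v) = 5).card + 10 * m.f (w ⊔ v) ⊤ 5 ≤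
      2 * ∑ F ∈ m.I (w ⊔ v) ⊤ 5, m.f ⊥ F 4 := by
  rw [card_eq_sum_card_fiberwise (f := fun e => e ⊔ v) (t := m.I (w ⊔ v) ⊤ 5), f,
    card_eq_sum_ones (m.I (w ⊔ v) ⊤ 5), mul_sum, mul_sum, ← sum_add_distrib]
  · refine sum_le_sum fun F hF => ?_
    obtain ⟨a, -, c⟩ := mem_I.1 hF
    refine le_trans (Nat.add_le_add_right (card_le_card fun e he => ?_) _) (m.far_edges h0 hw hvw c a)
    obtain ⟨h1, h2⟩ := mem_filter.1 he
    obtain ⟨b1, b2, -⟩ := (mem_filter.1 h1).2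
    exact mem_filter.2 ⟨mem_univ _, b1, b2, h2⟩
  · intro e he
    obtain ⟨-, b2, b3⟩ := (mem_filter.1 he).2
    exact mem_I.2 ⟨sup_le_sup_right b2 _, le_top, b3⟩

/-- The edges at `w`, sorted by the rank of their join with the neighbour `v`. -/
theorem edges_split (h6 : m.ρ ⊤ = 6) {v w : L} (hw : m.ρ w = 1) (hvw : m.ρ (w ⊔ v) = 2) :
    m.f w ⊤ 2 ≤ 1 + m.f (w ⊔ v) ⊤ 3 + (univ.filter fun e => m.ρ e = 2 ∧ w ≤ e ∧
        (m.ρ (e ⊔ v) = 4 ∨ m.ρ (e ⊔ v) = 5)).card +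
        (univ.filter fun e => m.ρ e = 2 ∧ w ≤ e ∧ e ⊔ v = ⊤).card := by
  rw [f_eq m (w ⊔ v), ← m.poly_card hw hvw fun G => G ≤ ⊤, ← card_singleton (w ⊔ v)]
  refine le_trans (card_le_card ?_) ((card_union_le _ _).trans (Nat.add_le_add_right
    ((card_union_le _ _).trans (Nat.add_le_add_right (card_union_le _ _) _)) _))
  intro e he
  obtain ⟨a, -, c⟩ := mem_I.1 he
  simp only [mem_union, mem_singleton, mem_filter, mem_univ, true_and, a, c, le_top, and_true]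
  have h1 := m.ρ_le (le_sup_left (a := e) (b := v))
  have h2 := m.ρ_le (le_top (a := e ⊔ v))
  by_cases h3 : m.ρ (e ⊔ v) = 2
  · refine Or.inl (Or.inl (Or.inl ?_))
    have := m.eq_of_ρ (le_sup_left (a := e) (b := v)) (by omega)
    exact (m.eq_of_ρ (sup_le a (this ▸ le_sup_right)) (by omega)).symm
  by_cases h4 : m.ρ (e ⊔ v) = 6
  · exact Or.inr (m.eq_of_ρ le_top (by omega))
  · left; omega

end ML

end Pool.Agent.Lib.MP_c8fb4d_co
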