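import Pool.Agent.Lib.MP_c8fb4d_co.Spaces

/-!
Lower bounds for the face numbers of a cone of rank seven in terms of the number of facets.
-/

namespace Pool.Agent.Lib.MP_c8fb4d_co

open Module Finset
open scoped Classical

set_option linter.unusedSectionVars false

variable {ι : Type} [Fintype ι] [DecidableEq ι] {E : Type} [AddCommGroup E] [Module ℝ E]
  [FiniteDimensional ℝ E] {a : ι → E}

theorem exists_out {F G : Face a} (h : ¬ F ≤ G) : ∃ i ∈ F.1, i ∉ G.1 := by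
  by_contra hc
  push Not at hc
  exact h hc

theorem nsum_single {τ σ : Face a} {w : Face a → ℝ}
    (h : ∀ σ', Cv (frk a) τ σ' → σ' ≠ σ → w σ' = 0) : nsum a τ w = w σ • nu a σ τ := by
  rw [nsum_apply, sum_eq_single σ]
  · intro σ' _ hne
    by_cases c : Cv (frk a) τ σ'
    · rw [h σ' c hne, zero_smul]
    · rw [nu_of_not c, smul_zero]
  · simp

theorem exists_other (h7 : frk a ⊤ = 7) {τ : Face a} (hτ : frk a τ = 2) (σ : Face a) :
    ∃ σ', Cv (frk a) τ σ' ∧ σ' ≠ σ := by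
  have h := (faceML a).atoms_ge (k := 3) (x := τ) (by change frk a τ + 1 = 3; omega) 5 ⊤ le_top
    (by change frk a ⊤ = frk a τ + 5; omega)
  obtain ⟨σ', h1, h2⟩ := exists_mem_ne (s := (faceML a).I τ ⊤ 3) (lt_of_lt_of_le (by omega) h) σ
  obtain ⟨b1, -, b2⟩ := ML.mem_I.1 h1
  change frk a σ' = 3 at b2
  exact ⟨σ', ⟨b1, by omega⟩, h2⟩

namespace Setup

variable (G : Setup a)

theorem θ_sp {σ : Face a} (h : frk a σ = 3) {x : E} (hx : x ∈ sp a σ.1) : G.θ σ x = 0 := by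
  rw [← LinearMap.mem_ker, G.θ_ker σ h]
  exact Submodule.mem_sup_left hx

theorem θ_K {σ : Face a} (h : frk a σ = 3) {x : E} (hx : x ∈ G.K) : G.θ σ x = 0 := by
  rw [← LinearMap.mem_ker, G.θ_ker σ h]
  exact Submodule.mem_sup_right hx

theorem θ_below {τ σ : Face a} (h : frk a σ = 3) (hle : τ ≤ σ) {x : E}
    (hx : x ∈ sp a τ.1 ⊔ G.K) : G.θ σ x = 0 := by
  rw [← LinearMap.mem_ker, G.θ_ker σ h]
  exact (sup_le_sup_right (sp_mono hle) _ : sp a τ.1 ⊔ G.K ≤ sp a σ.1 ⊔ G.K) hx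

theorem θ_nu {τ σ σ' : Face a} (h : Cv (frk a) τ σ) (h' : Cv (frk a) τ σ') (h3 : frk a σ = 3)
    (hne : σ' ≠ σ) : G.θ σ' (nu a σ τ) ≠ 0 := by
  have h4 : frk a σ' = 3 := by have := h.2; have := h'.2; omega
  obtain ⟨i, hi, hi'⟩ := exists_out ((faceML a).not_le_of_ne (h3.trans h4.symm) hne.symm)
  intro e
  have h1 := G.θ_sp h4 (sp_mono h'.1 ((nu_spec h).sub_mem h (mem_sp hi)))
  rw [map_sub, map_smul, e, smul_zero, sub_zero] at h1
  exact G.θ_ne σ' h4 i hi' h1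

theorem θ_pt (h7 : frk a ⊤ = 7) {σ : Face a} (h : frk a σ = 3) : ∃ x, G.θ σ x ≠ 0 := by
  obtain ⟨i, -, hi⟩ := exists_out ((faceML a).not_le_of_ρ (x := σ) (y := ⊤)
    (by change frk a σ < frk a ⊤; omega))
  exact ⟨_, G.θ_ne σ h i hi⟩

theorem θ_mul (h7 : frk a ⊤ = 7) {σ : Face a} (h : frk a σ = 3) (y : E →ₗ[ℝ] ℝ)
    (h1 : ∀ x ∈ sp a σ.1, y x = 0) (h2 : ∀ x ∈ G.K, y x = 0) :
    ∃ e : ℝ, ∀ x, y x = e * G.θ σ x := by
  obtain ⟨x0, hx0⟩ := G.θ_pt h7 h
  refine ⟨y x0 / G.θ σ x0, fun x => ?_⟩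
  have h3 : x - (G.θ σ x / G.θ σ x0) • x0 ∈ LinearMap.ker (G.θ σ) := by
    rw [LinearMap.mem_ker, map_sub, map_smul, smul_eq_mul, div_mul_cancel₀ _ hx0, sub_self]
  rw [G.θ_ker σ h] at h3
  have h4 := (sup_le (fun x hx => h1 x hx) (fun x hx => h2 x hx) :
    sp a σ.1 ⊔ G.K ≤ LinearMap.ker y) h3
  rw [LinearMap.mem_ker, map_sub, map_smul, smul_eq_mul, sub_eq_zero] at h4
  rw [h4]
  ring

theorem V_le_res (r : ℕ) (T : Finset ℝ) : G.V r T ≤ LinearMap.range (res a r) :=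
  G.V_le fun _ _ _ _ => ⟨_, rfl⟩

theorem V_nsum {r : ℕ} (hr : r < 6) {T : Finset ℝ} (hT : T ⊆ G.S) {τ : Face a}
    (hτ : frk a τ = r) {w : Face a → ℝ} (hw : w ∈ G.V (r + 1) T) :
    nsum a τ w ∈ sp a τ.1 ⊔ G.K := by
  refine G.V_le (U := (sp a τ.1 ⊔ G.K).comap (nsum a τ)) (fun F s hF hs => ?_) hw
  rw [Submodule.mem_comap, nsum_res hτ, ← sub_add_cancel (nsum a τ _) (G.w F s τ • G.ξ F s)]
  exact Submodule.add_mem_sup (G.rel F hF s (hT hs) τ (by omega))
    (Submodule.smul_mem _ _ (G.ξ_mem F s))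

/-- Products of the weights in rank three with linear forms. -/
noncomputable def W (T : Finset ℝ) : Submodule ℝ (Face a → ℝ) :=
  Submodule.span ℝ {v | ∃ x, ∃ w ∈ G.V 3 T, v = (fun σ => G.θ σ x) * w}

theorem W_le {T : Finset ℝ} {U : Submodule ℝ (Face a → ℝ)}
    (h : ∀ x, ∀ w ∈ G.V 3 T, (fun σ => G.θ σ x) * w ∈ U) : G.W T ≤ U :=
  Submodule.span_le.2 (by rintro _ ⟨x, w, h1, rfl⟩; exact h x w h1)

theorem W_le_res (T : Finset ℝ) : G.W T ≤ LinearMap.range (res a 3) :=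
  G.W_le fun _ _ hw => mem_range_res fun _ h =>
    supp_res (G.V_le_res 3 T hw) (right_ne_zero_of_mul h)

theorem gh_one (h7 : frk a ⊤ = 7) {T : Finset ℝ} (hT : T ⊆ G.S) (x : Face a → E) :
    (faceML a).GH (fun u σ => G.θ σ (x u)) 3 ⊥ (G.V 3 T) (G.W T) where
  suppR := fun _ hw _ h => ⟨bot_le, supp_res (G.V_le_res 3 T hw) h⟩
  suppW := fun _ _ _ _ => bot_le
  mul := fun u _ w hw => Submodule.subset_span ⟨x u, w, hw, rfl⟩
  bal := by
    intro w hw τ σ _ h h0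
    change Cv (frk a) τ σ at h
    by_contra hc
    have h3 := supp_res (G.V_le_res 3 T hw) hc
    have h2 : frk a τ = 2 := by have := h.2; omega
    obtain ⟨σ', h', hne⟩ := exists_other h7 h2 σ
    have h4 := G.θ_below (by have := h'.2; omega) h'.1 (G.V_nsum (by omega) hT h2 hw)
    rw [nsum_single h0, map_smul, smul_eq_mul] at h4
    exact mul_ne_zero hc (G.θ_nu h h' h3 hne) h4

theorem gh_two (h7 : frk a ⊤ = 7) {T : Finset ℝ} (hT : T ⊆ G.S) (x : Face a → E) :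
    (faceML a).GH (fun u σ => G.θ σ (x u)) 3 ⊥ (G.W T) (LinearMap.range (res a 3)) where
  suppR := fun _ hw _ h => ⟨bot_le, supp_res (G.W_le_res T hw) h⟩
  suppW := fun _ _ _ _ => bot_le
  mul := fun _ _ _ hw => mem_range_res fun _ h =>
    supp_res (G.W_le_res T hw) (right_ne_zero_of_mul h)
  bal := by
    intro v hv τ σ _ h h0
    change Cv (frk a) τ σ at h
    by_contra hc
    have h3 := supp_res (G.W_le_res T hv) hc
    have h2 : frk a τ = 2 := by have := h.2; omega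
    obtain ⟨σ', h', hne⟩ := exists_other h7 h2 σ
    have h4 : frk a σ' = 3 := by have := h'.2; omega
    have key : ∀ π, ∃ e : ℝ, (¬ Cv (frk a) τ π → e = 0) ∧
        ∀ z, wedge (G.θ σ) (G.θ σ') (nu a π τ) z = e * G.θ π z := by
      intro π
      by_cases c : Cv (frk a) τ π
      · obtain ⟨e, he⟩ := G.θ_mul h7 (σ := π) (by have := c.2; omega)
          (G.θ σ (nu a π τ) • G.θ σ' - G.θ σ' (nu a π τ) • G.θ σ) (fun z hz => by
            have p := (nu_spec c).sub_mem c hz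
            have p1 := G.θ_sp h3 (sp_mono h.1 p)
            have p2 := G.θ_sp h4 (sp_mono h'.1 p)
            rw [map_sub, map_smul, sub_eq_zero] at p1 p2
            simp only [LinearMap.sub_apply, LinearMap.smul_apply, p1, p2, smul_eq_mul]
            ring) (fun z hz => by simp [G.θ_K h3 hz, G.θ_K h4 hz])
        refine ⟨e, fun c' => absurd c c', fun z => ?_⟩
        rw [← he]
        simp [wedge, mul_comm]
      · exact ⟨0, fun _ => rfl, fun z => by simp [wedge, nu_of_not c]⟩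
    choose e e1 e2 using key
    let Λ : (Face a → ℝ) →ₗ[ℝ] ℝ := ∑ π, e π • LinearMap.proj π
    have hΛ : ∀ u, Λ u = ∑ π, e π * u π := fun u => by simp [Λ, LinearMap.sum_apply]
    have h5 : Λ v = 0 := G.W_le (U := LinearMap.ker Λ) (fun z w hw => by
      have p := G.V_nsum (by omega) hT h2 hw
      have p1 := G.θ_below h3 h.1 p
      have p2 := G.θ_below h4 h'.1 p
      rw [map_nsum] at p1 p2
      rw [LinearMap.mem_ker, hΛ]
      simp only [Pi.mul_apply, ← mul_assoc, ← e2, wedge]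
      have : ∑ π, (G.θ σ (nu a π τ) * G.θ σ' z - G.θ σ z * G.θ σ' (nu a π τ)) * w π =
          (∑ π, w π * G.θ σ (nu a π τ)) * G.θ σ' z -
            G.θ σ z * ∑ π, w π * G.θ σ' (nu a π τ) := by
        rw [sum_mul, mul_sum, ← sum_sub_distrib]
        exact sum_congr rfl fun π _ => by ring
      rw [this, p1, p2]
      ring) hv
    rw [hΛ, sum_eq_single σ (fun π _ hπ => by
      by_cases c : Cv (frk a) τ π
      · rw [h0 π c hπ, mul_zero]
      · rw [e1 π c, zero_mul]) (by simp)] at h5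
    obtain ⟨z, hz⟩ := G.θ_pt h7 h3
    have h6 := e2 σ z
    rw [(mul_eq_zero.1 h5).resolve_right hc, zero_mul, wedge, G.θ_sp h3 (nu_spec h).1, zero_mul,
      zero_sub, neg_eq_zero] at h6
    exact mul_ne_zero hz (G.θ_nu h h' h3 hne) h6

theorem W_le_map (h7 : frk a ⊤ = 7) {T : Finset ℝ} (hT : T ⊆ G.S) :
    G.W T ≤ (LinearMap.range (res a 4)).map (der 3 G.θ) := by
  refine G.W_le fun x w hw => ?_
  refine G.V_le (U := ((LinearMap.range (res a 4)).map (der 3 G.θ)).comap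
    (LinearMap.mulLeft ℝ fun σ => G.θ σ x)) (fun F s hF hs => ?_) hw
  have hc : G.c F * (s - (s + 1)) ≠ 0 := mul_ne_zero (G.hc F hF) (by simp)
  refine ⟨res a 4 fun π => -(G.c F * (s - (s + 1)))⁻¹ * (G.w F s π * G.η π (s + 1) x),
    ⟨_, rfl⟩, funext fun σ => ?_⟩
  rw [der_apply, LinearMap.mulLeft_apply, Pi.mul_apply, res_apply]
  split_ifs with h
  swap
  · simp
  have hrel := G.rel F hF s (hT hs) σ (by omega)
  have p1 := G.θ_sp h hrel
  have p2 := G.η_sp σ (by omega) (s + 1) _ hrel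
  rw [map_sub, map_smul, G.θ_K h (G.ξ_mem F s), smul_zero, sub_zero, map_nsum] at p1
  rw [map_sub, map_smul, G.η_ξ σ (by omega), sub_eq_zero, map_nsum, smul_eq_mul] at p2
  have key : ∀ π, G.η π (s + 1) x * G.θ σ (nu a π σ) =
      G.η σ (s + 1) x * G.θ σ (nu a π σ) - G.θ σ x * G.η σ (s + 1) (nu a π σ) := by
    intro π
    by_cases c : Cv (frk a) σ π
    · have c4 : frk a π ≤ 4 := by have := c.2; omega
      obtain ⟨e, he⟩ := G.θ_mul h7 h (G.η σ (s + 1) - G.η π (s + 1)) (fun z hz => by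
        rw [LinearMap.sub_apply, G.η_sp σ (by omega) _ z hz,
          G.η_sp π c4 _ z (sp_mono c.1 hz), sub_self]) (fun z hz => by
        rw [LinearMap.sub_apply, G.η_eq σ π (by omega) c4 _ z hz, sub_self])
      have q1 := he x
      have q2 := he (nu a π σ)
      rw [LinearMap.sub_apply] at q1 q2
      rw [G.η_sp π c4 _ _ (nu_spec c).1, sub_zero] at q2
      rw [q2, sub_eq_iff_eq_add.1 q1]
      ring
    · simp [nu_of_not c]
  rw [nsum_res h, map_nsum]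
  have : ∑ π, -(G.c F * (s - (s + 1)))⁻¹ * (G.w F s π * G.η π (s + 1) x) * G.θ σ (nu a π σ) =
      -(G.c F * (s - (s + 1)))⁻¹ * (G.η σ (s + 1) x * ∑ π, G.w F s π * G.θ σ (nu a π σ) -
        G.θ σ x * ∑ π, G.w F s π * G.η σ (s + 1) (nu a π σ)) := by
    rw [mul_sum, mul_sum, ← sum_sub_distrib, mul_sum]
    refine sum_congr rfl fun π _ => ?_
    rw [mul_assoc, mul_assoc, key]
    ring
  rw [this, p1, p2]
  generalize G.c F * (s - (s + 1)) = t at hc
  field_simp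
  ring

theorem four_ge (h7 : frk a ⊤ = 7) {T : Finset ℝ} (hT : T ⊆ G.S) :
    finrank ℝ (G.W T) + finrank ℝ (G.V 4 G.S) ≤ (faceML a).f ⊥ ⊤ 4 := by
  refine le_trans ?_ (finrank_res 4)
  rw [← finrank_split (der 3 G.θ) (LinearMap.range (res a 4))]
  refine add_le_add (Submodule.finrank_mono (G.W_le_map h7 hT))
    (Submodule.finrank_mono fun w hw => ⟨G.V_le_res _ _ hw, ?_⟩)
  rw [SetLike.mem_coe, LinearMap.mem_ker]
  funext σ
  rw [der_apply]
  split_ifs with h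
  · exact G.θ_below h le_rfl (G.V_nsum (by omega) subset_rfl h hw)
  · rfl

end Setup

theorem choose_mono_bound {y z M : ℕ} (h1 : (z + 2).choose 3 + (z + 1).choose 2 ≤ M)
    (h2 : M ≤ (y + 2).choose 3 + (y + 1).choose 2) (hz : 1 ≤ z) : z ≤ y := by
  by_contra hc
  obtain ⟨k, rfl⟩ : ∃ k, z = k + 1 := ⟨z - 1, by omega⟩
  have a1 : (y + 2).choose 3 ≤ (k + 2).choose 3 := Nat.choose_le_choose _ (by omega)
  have a2 : (y + 1).choose 2 ≤ (k + 1).choose 2 := Nat.choose_le_choose _ (by omega)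
  have a3 : (k + 2).choose 3 ≤ (k + 1 + 2).choose 3 := Nat.choose_le_choose _ (by omega)
  have a4 : (k + 1 + 1).choose 2 = (k + 1).choose 1 + (k + 1).choose 2 := Nat.choose_succ_succ _ _
  rw [Nat.choose_one_right] at a4
  omega

theorem six_bounds (hb : IsFace a ∅) (hE : finrank ℝ E = 7) (h7 : frk a ⊤ = 7) {z : ℕ}
    (hz : 1 ≤ z) (hM : (z + 2).choose 3 + (z + 1).choose 2 ≤ (faceML a).f ⊥ ⊤ 6) :
    (z + 3) * (z + 4) * (z + 5) ≤ 6 * (faceML a).f ⊥ ⊤ 3 ∧
    12 * (faceML a).f ⊥ ⊤ 6 + 6 + (z + 2) * (z + 3) * (z + 4) ≤ 6 * (faceML a).f ⊥ ⊤ 4 := by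
  obtain ⟨G⟩ := exists_setup a hb hE h7
  obtain ⟨T, y, hT, d1, d2, d3⟩ := G.dims hb h7
  have hy := choose_mono_bound hM d1 hz
  have hx : ∀ u : Face a, ∃ x : E, frk a u = 1 → ∀ σ, frk a σ = 3 → (G.θ σ x = 0 ↔ u ≤ σ) := by
    intro u
    by_cases hu : frk a u = 1
    · obtain ⟨i, hi⟩ := exists_mem_iff hu hb
      refine ⟨a i, fun _ σ hσ => ?_⟩
      rw [hi]
      exact ⟨fun e => by_contra fun c => G.θ_ne σ hσ i c e, fun e => G.θ_sp hσ (mem_sp e)⟩
    · exact ⟨0, fun c => absurd c hu⟩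
  choose x hx using hx
  have ht : 3 < (faceML a).ρ ⊤ := by change 3 < frk a ⊤; omega
  have hB : (faceML a).ρ ⊥ + 3 = 3 := by change frk a ⊥ + 3 = 3; rw [frk_bot hb]
  have g1 := ML.GH.three (frk_bot hb) ht hB (fun u σ hu hσ => hx u hu σ hσ) _ _ _ rfl
    (G.gh_one h7 hT x)
  have g2 := ML.GH.three (frk_bot hb) ht hB (fun u σ hu hσ => hx u hu σ hσ) _ _ _ rfl
    (G.gh_two h7 hT x)
  have c1 : 6 * (z + 2).choose 3 = z * (z + 1) * (z + 2) := by
    have := Nat.add_one_mul_choose_eq (z + 1) 2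
    have h2 := Nat.add_one_mul_choose_eq z 1
    rw [Nat.choose_one_right] at h2
    nlinarith
  have c2 : 2 * (z + 1).choose 2 = z * (z + 1) := by
    have h2 := Nat.add_one_mul_choose_eq z 1
    rw [Nat.choose_one_right] at h2
    nlinarith
  have b0 : (z + 1) * (z + 2) * (z + 3) ≤ 6 * finrank ℝ (G.V 3 T) := by nlinarith
  have b1 := bd3_use (y := z) g1 (by exact_mod_cast b0)
  have b2 := bd3_use (y := z + 1) g2 (by push_cast; linarith)
  have b3 := finrank_res (a := a) 3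
  have b4 := G.four_ge h7 hT
  have b1' : (z + 2) * (z + 3) * (z + 4) ≤ 6 * finrank ℝ (G.W T) := by exact_mod_cast b1
  have b2' : (z + 1 + 2) * (z + 1 + 3) * (z + 1 + 4) ≤
      6 * finrank ℝ (LinearMap.range (res a 3)) := by exact_mod_cast b2
  exact ⟨by nlinarith, by omega⟩

end Pool.Agent.Lib.MP_c8fb4d_co
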