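import Pool.Agent.Lib.MP_c8fb4d_co.SphDefs
import Pool.Agent.Lib.MP_c8fb4d_co.Bridge

/-!
The boundary complex of a convex polytope is a thin shellable complex.
-/

namespace Pool.Agent.Lib.MP_c8fb4d_co.Sph

open Finset
open scoped Classical

/-- The boundary complex of a convex set: its nonempty proper faces. -/
def properFaces {d : ℕ} (P : Set (EuclideanSpace ℝ (Fin d))) :
    Set (Set (EuclideanSpace ℝ (Fin d))) :=
  {F | IsExposed ℝ P F ∧ F.Nonempty ∧ F ≠ P}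

section

variable {ι : Type} [Fintype ι] [DecidableEq ι] {d : ℕ} {p : ι → EuclideanSpace ℝ (Fin d)}

/-- The polytope of a face. -/
def bm_hl (G : Face (hom p)) : Set (EuclideanSpace ℝ (Fin d)) :=
  convexHull ℝ (p '' (G.1 : Set ι))

theorem bm_inj {G G' : Face (hom p)} (h : bm_hl G = bm_hl G') : G = G' := hull_inj p h

theorem bm_top : bm_hl (⊤ : Face (hom p)) = convexHull ℝ (Set.range p) := by
  change convexHull ℝ (p '' ((univ : Finset ι) : Set ι)) = _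
  rw [coe_univ, Set.image_univ]

theorem bm_mono {G G' : Face (hom p)} (h : G ≤ G') : bm_hl G ⊆ bm_hl G' :=
  convexHull_mono (Set.image_mono (Face.le_iff.1 h))

theorem bm_le {G G' : Face (hom p)} (h : bm_hl G ⊆ bm_hl G') : G ≤ G' := by
  obtain ⟨G', y, h1, h2⟩ := G'
  intro i hi
  have h3 : p i ∈ bm_hl G := subset_convexHull _ _ ⟨i, hi, rfl⟩
  exact (h2 i).2 ((hull_face p h1 h2 (subset_convexHull _ _ ⟨i, rfl⟩)).2.2 (h h3))

theorem bm_ne {G : Face (hom p)} : (bm_hl G).Nonempty ↔ frk (hom p) G ≠ 0 := by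
  have h : (bm_hl G).Nonempty ↔ G.1.Nonempty := by simp [bm_hl]
  rw [h]
  constructor
  · intro h1
    rw [frk, rk_hom p h1]
    omega
  · intro h1
    rw [nonempty_iff_ne_empty]
    intro e
    rw [frk, e, rk_empty] at h1
    exact h1 rfl

theorem bm_dim {G : Face (hom p)} (h : frk (hom p) G ≠ 0) :
    cdim (bm_hl G) + 1 = frk (hom p) G := by
  have h1 : G.1.Nonempty := by simpa [bm_hl] using bm_ne.2 h
  rw [frk, rk_hom p h1, cdim, bm_hl, vectorSpan_hull]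

theorem bm_exp {G G' : Face (hom p)} (h : G ≤ G') : IsExposed ℝ (bm_hl G') (bm_hl G) := by
  intro hne
  have h1 : IsExposed ℝ (convexHull ℝ (Set.range p)) (bm_hl G) := (exposed_iff p hne).2 ⟨G, rfl⟩
  exact h1.mono (bm_top (p := p) ▸ bm_mono le_top) (bm_mono h) hne

theorem bm_exp_iff {G G' : Face (hom p)} : IsExposed ℝ (bm_hl G') (bm_hl G) ↔ G ≤ G' :=
  ⟨fun h => bm_le h.subset, bm_exp⟩

theorem bm_face {H : Face (hom p)} {T : Set (EuclideanSpace ℝ (Fin d))}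
    (h : IsExposed ℝ (bm_hl H) T) (hT : T.Nonempty) : ∃ G, G ≤ H ∧ bm_hl G = T := by
  have e : bm_hl H = convexHull ℝ (Set.range fun i : H.1 => p i) := by
    rw [bm_hl]
    congr 1
    ext x
    simp
  rw [e] at h
  obtain ⟨⟨G, y, h1, h2⟩, rfl⟩ := (exposed_iff _ hT).1 h
  refine ⟨⟨_, H.2.trans (y := y) fun i hi => h1 ⟨i, hi⟩⟩, filter_subset _ _, ?_⟩
  rw [bm_hl]
  congr 1
  ext x
  simp only [coe_filter, Set.mem_image, Set.mem_ofPred_eq, mem_coe]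
  constructor
  · rintro ⟨i, ⟨hi, hy⟩, rfl⟩
    exact ⟨⟨i, hi⟩, (h2 _).2 hy, rfl⟩
  · rintro ⟨i, hi, rfl⟩
    exact ⟨i, ⟨i.2, (h2 _).1 hi⟩, rfl⟩

theorem bm_inter {F G : Face (hom p)} : bm_hl F ∩ bm_hl G ⊆ bm_hl (F ⊓ G) := by
  intro x hx
  obtain ⟨T, -, hT⟩ := bm_face ((bm_exp (le_top (a := F))).inter (bm_exp (le_top (a := G)))) ⟨x, hx⟩
  rw [← hT] at hx
  exact bm_mono (le_inf (bm_le (hT ▸ Set.inter_subset_left))
    (bm_le (hT ▸ Set.inter_subset_right))) hx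

/-- The boundary complex of a face. -/
def bm_cx (H : Face (hom p)) : Set (Set (EuclideanSpace ℝ (Fin d))) :=
  {T | ∃ G, G < H ∧ frk (hom p) G ≠ 0 ∧ bm_hl G = T}

theorem bm_cells {H : Face (hom p)} {k : ℕ} {T : Set (EuclideanSpace ℝ (Fin d))} :
    T ∈ cells (bm_cx H) k ↔ ∃ G, G < H ∧ frk (hom p) G = k + 1 ∧ bm_hl G = T := by
  constructor
  · rintro ⟨⟨G, h1, h2, rfl⟩, h3⟩
    exact ⟨G, h1, by rw [← bm_dim h2, h3], rfl⟩
  · rintro ⟨G, h1, h2, rfl⟩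
    have h3 : frk (hom p) G ≠ 0 := by omega
    have h4 := bm_dim h3
    exact ⟨⟨G, h1, h3, rfl⟩, by omega⟩

theorem bm_fac {H : Face (hom p)} {k : ℕ} (hH : frk (hom p) H = k + 2)
    {T : Set (EuclideanSpace ℝ (Fin d))} :
    T ∈ cells (bm_cx H) k ↔ ∃ G, Cv (frk (hom p)) G H ∧ bm_hl G = T := by
  rw [bm_cells]
  constructor
  · rintro ⟨G, h1, h2, rfl⟩
    exact ⟨G, ⟨h1.le, by omega⟩, rfl⟩
  · rintro ⟨G, h1, rfl⟩
    have := h1.2
    exact ⟨G, h1.lt_face, by omega, rfl⟩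

theorem bm_bdry {F H : Face (hom p)} (h : F ≤ H) : bdry (bm_cx H) (bm_hl F) = bm_cx F := by
  ext T
  constructor
  · rintro ⟨⟨G, -, h2, rfl⟩, h3, h4⟩
    exact ⟨G, lt_of_le_of_ne (bm_exp_iff.1 h3) fun e => h4 (by rw [e]), h2, rfl⟩
  · rintro ⟨G, h1, h2, rfl⟩
    exact ⟨⟨G, h1.trans_le h, h2, rfl⟩, bm_exp h1.le, fun e => h1.ne (bm_inj e)⟩

theorem bm_pure {H : Face (hom p)} {k : ℕ} (hH : frk (hom p) H = k + 2) : IsPure (bm_cx H) k := by
  constructor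
  · obtain ⟨z, -, h2, h3⟩ := (faceML (hom p)).exists_rank' (k := 1) (bot_le (a := H))
      (by change frk _ _ ≤ 1; rw [frk_bot (hom_empty p)]; omega) (by change 1 ≤ frk _ _; omega)
    change frk (hom p) z = 1 at h3
    exact ⟨_, z, lt_of_le_of_ne h2 fun e => by rw [e] at h3; omega, by omega, rfl⟩
  · rintro _ ⟨G, h1, -, rfl⟩
    obtain ⟨z, h2, h3⟩ := (faceML (hom p)).co G H h1
    exact ⟨_, (bm_fac hH).2 ⟨z, h3, rfl⟩, bm_exp h2⟩

/-- The number of facets with a smaller value. -/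
noncomputable def bm_ord (H : Face (hom p)) (φ : Face (hom p) → ℝ)
    (T : Set (EuclideanSpace ℝ (Fin d))) : ℕ :=
  (univ.filter fun F' => Cv (frk (hom p)) F' H ∧ ∃ F, bm_hl F = T ∧ φ F' < φ F).card

theorem bm_ord_eq (H : Face (hom p)) (φ : Face (hom p) → ℝ) (F : Face (hom p)) :
    bm_ord H φ (bm_hl F) = (univ.filter fun F' => Cv (frk (hom p)) F' H ∧ φ F' < φ F).card := by
  rw [bm_ord]
  congr 1
  refine filter_congr fun F' _ => and_congr_right fun _ => ⟨?_, fun h => ⟨F, rfl, h⟩⟩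
  rintro ⟨G, h1, h2⟩
  exact bm_inj h1 ▸ h2

theorem bm_ord_lt {H : Face (hom p)} {φ : Face (hom p) → ℝ} {F F' : Face (hom p)}
    (h : Cv (frk (hom p)) F H) : bm_ord H φ (bm_hl F) < bm_ord H φ (bm_hl F') ↔ φ F < φ F' := by
  rw [bm_ord_eq, bm_ord_eq]
  constructor
  · intro h1
    by_contra h2
    refine h1.not_ge (card_le_card fun G hG => ?_)
    simp only [mem_filter, mem_univ, true_and] at hG ⊢
    exact ⟨hG.1, hG.2.trans_le (not_lt.1 h2)⟩
  · intro h1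
    refine card_lt_card ⟨fun G hG => ?_, fun h2 => ?_⟩
    · simp only [mem_filter, mem_univ, true_and] at hG ⊢
      exact ⟨hG.1, hG.2.trans h1⟩
    · have h3 := h2 (mem_filter.2 ⟨mem_univ F, h, h1⟩)
      exact lt_irrefl _ (mem_filter.1 h3).2.2

theorem bm_ord_inj {H : Face (hom p)} {k : ℕ} (hH : frk (hom p) H = k + 2)
    {φ : Face (hom p) → ℝ} (hg : Good (frk (hom p)) (FRe (hom p)) H φ) :
    Set.InjOn (bm_ord H φ) (cells (bm_cx H) k) := by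
  intro T hT T' hT' e
  obtain ⟨F, h1, rfl⟩ := (bm_fac hH).1 hT
  obtain ⟨F', h2, rfl⟩ := (bm_fac hH).1 hT'
  rw [hg.1 F F' h1 h2 (le_antisymm (not_lt.1 fun h => ((bm_ord_lt h2).2 h).ne' e)
    (not_lt.1 fun h => ((bm_ord_lt h1).2 h).ne e))]

theorem bm_earlier {H F : Face (hom p)} {k : ℕ} (hH : frk (hom p) H = k + 2) (hF : F ≤ H)
    {φ : Face (hom p) → ℝ} {T : Set (EuclideanSpace ℝ (Fin d))} :
    T ∈ earlier (bm_cx H) k (bm_ord H φ) (bm_hl F) ↔ ∃ G, G < F ∧ frk (hom p) G ≠ 0 ∧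
      bm_hl G = T ∧ ∃ F', Cv (frk (hom p)) F' H ∧ G ≤ F' ∧ φ F' < φ F := by
  rw [earlier, bm_bdry hF]
  constructor
  · rintro ⟨⟨G, h1, h2, rfl⟩, T', h3, h4, h5⟩
    obtain ⟨F', h6, rfl⟩ := (bm_fac hH).1 h3
    exact ⟨G, h1, h2, rfl, F', h6, bm_exp_iff.1 h5, (bm_ord_lt h6).1 h4⟩
  · rintro ⟨G, h1, h2, rfl, F', h3, h4, h5⟩
    exact ⟨⟨G, h1, h2, rfl⟩, _, (bm_fac hH).2 ⟨F', h3, rfl⟩, (bm_ord_lt h3).2 h5, bm_exp h4⟩

theorem bm_shell : ∀ (m : ℕ) (H : Face (hom p)) (φ : Face (hom p) → ℝ), frk (hom p) H = m + 2 →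
    Good (frk (hom p)) (FRe (hom p)) H φ → IsShelling m (bm_cx H) (bm_ord H φ) := by
  intro m
  induction m with
  | zero => exact fun H φ hH hg => ⟨bm_pure hH, bm_ord_inj hH hg⟩
  | succ m ih =>
    intro H φ hH hg
    refine ⟨bm_pure hH, bm_ord_inj hH hg, fun T hT => ?_⟩
    obtain ⟨F, hF, rfl⟩ := (bm_fac hH).1 hT
    have hr : frk (hom p) F = m + 2 := by
      have := hF.2
      omega
    obtain ⟨P, hP, hloc⟩ := hg.2 F hF
    have h1 : ∀ G, G ≤ F → ((∃ F', Cv (frk (hom p)) F' H ∧ G ≤ F' ∧ φ F' < φ F) ↔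
        ∃ R, Cv (frk (hom p)) R F ∧ G ≤ R ∧ ¬ P R) := fun G hG => by
      have h := (hloc G hG).1.not
      push Not at h
      exact h.symm
    have h2 : ∀ R, Cv (frk (hom p)) R F →
        (bm_hl R ∈ earlier (bm_cx H) (m + 1) (bm_ord H φ) (bm_hl F) ↔ ¬ P R) := fun R hR => by
      rw [bm_earlier hH hF.1]
      constructor
      · rintro ⟨G, -, -, e, h⟩
        rw [bm_inj e] at h
        obtain ⟨R', a, b, c⟩ := (h1 R hR.1).1 h
        have e' : R = R' := (faceML (hom p)).eq_of_ρ b (by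
          change frk _ _ ≤ frk _ _
          have := a.2
          have := hR.2
          omega)
        exact e' ▸ c
      · intro h
        have := hR.2
        exact ⟨R, hR.lt_face, by omega, rfl, (h1 R hR.1).2 ⟨R, hR, le_rfl, h⟩⟩
    have h3 : ∀ R, Cv (frk (hom p)) R F → cdim (bm_hl R) = m := fun R hR =>
      ((bm_fac hr).2 ⟨R, hR, rfl⟩).2
    obtain ⟨ψ, hψ, hPψ⟩ := (faceML (hom p)).refine F P hP
    refine ⟨?_, bm_ord F ψ, by rw [bm_bdry hF.1]; exact ih F ψ hr hψ, ?_⟩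
    · rintro ⟨T', hT', hlt⟩
      obtain ⟨F', hF', rfl⟩ := (bm_fac hH).1 hT'
      constructor
      · obtain ⟨R, a, -, c⟩ := (h1 ⊥ bot_le).1 ⟨F', hF', bot_le, (bm_ord_lt hF').1 hlt⟩
        exact ⟨_, (h2 R a).2 c⟩
      · intro T hT
        obtain ⟨G, a, -, rfl, c⟩ := (bm_earlier hH hF.1).1 hT
        obtain ⟨R, a', b', c'⟩ := (h1 G a.le).1 c
        exact ⟨_, ⟨(h2 R a').2 c', h3 R a'⟩, bm_exp b'⟩
    · rw [bm_bdry hF.1]
      intro T hT T' hT' hn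
      obtain ⟨R, hR, rfl⟩ := (bm_fac hr).1
        (show T ∈ cells (bm_cx F) m from ⟨bm_bdry hF.1 ▸ hT.1.1, hT.2⟩)
      obtain ⟨R', hR', rfl⟩ := (bm_fac hr).1 hT'
      have a : ¬ 0 < ψ R := fun h => (h2 R hR).1 hT.1 ((hPψ R hR).2 h)
      have b : 0 < ψ R' := (hPψ R' hR').1 (not_not.1 fun h => hn ((h2 R' hR').2 h))
      exact (bm_ord_lt hR).2 ((not_lt.1 a).trans_lt b)

theorem bm_complex (H : Face (hom p)) : IsComplex (bm_cx H) where
  finite := (Set.finite_range bm_hl).subset fun _ ⟨G, _, _, h⟩ => ⟨G, h⟩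
  polytope := by
    rintro _ ⟨G, -, h, rfl⟩
    have h1 : G.1.Nonempty := by simpa [bm_hl] using bm_ne.2 h
    exact ⟨G.1.image p, h1.image p, by rw [coe_image, bm_hl]⟩
  face := by
    rintro _ ⟨F, h1, -, rfl⟩ T hT h
    obtain ⟨G, h2, rfl⟩ := bm_face h hT
    exact ⟨G, h2.trans_lt h1, bm_ne.1 hT, rfl⟩
  meet := by
    rintro _ ⟨F, -, -, rfl⟩ _ ⟨G, -, -, rfl⟩
    exact ⟨_, bm_exp inf_le_left, bm_exp inf_le_right, fun T a b =>
      (Set.subset_inter a.subset b.subset).trans bm_inter⟩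

theorem bm_proper : properFaces (convexHull ℝ (Set.range p)) = bm_cx (⊤ : Face (hom p)) := by
  rw [← bm_top]
  ext T
  constructor
  · rintro ⟨h1, h2, h3⟩
    obtain ⟨G, -, rfl⟩ := bm_face h1 h2
    exact ⟨G, lt_top_iff_ne_top.2 fun e => h3 (by rw [e]), bm_ne.1 h2, rfl⟩
  · rintro ⟨G, h1, h2, rfl⟩
    exact ⟨bm_exp le_top, bm_ne.2 h2, fun e => h1.ne (bm_inj e)⟩

end

theorem polytope_boundary {d : ℕ} (hd : 2 ≤ d) (S : Finset (EuclideanSpace ℝ (Fin d)))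
    (hS : affineSpan ℝ (S : Set (EuclideanSpace ℝ (Fin d))) = ⊤)
    (K : Set (Set (EuclideanSpace ℝ (Fin d))))
    (hK : K = properFaces (convexHull ℝ (S : Set (EuclideanSpace ℝ (Fin d))))) :
    IsComplex K ∧ (∃ φ, IsShelling (d - 1) K φ) ∧
    (∀ R ∈ cells K (d - 2), {F | F ∈ cells K (d - 1) ∧ IsExposed ℝ F R}.ncard = 2) ∧
    (∀ k, k + 3 ≤ d → ∀ R ∈ cells K k, ∀ F ∈ cells K (k + 1), ∀ G ∈ cells K (k + 1),
      F ≠ G → IsExposed ℝ F R → IsExposed ℝ G R → F ∩ G ⊆ R) ∧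
    ∀ k, k ≤ d - 1 → (cells K k).ncard =
      faceNumber (convexHull ℝ (S : Set (EuclideanSpace ℝ (Fin d)))) k := by
  have hr : (S : Set (EuclideanSpace ℝ (Fin d))) = Set.range (Subtype.val : S → _) := by simp
  have hne : (Finset.univ : Finset S).Nonempty := by
    obtain ⟨x, hx⟩ := AffineSubspace.nonempty_of_affineSpan_eq_top ℝ _ _ hS
    exact ⟨⟨x, hx⟩, Finset.mem_univ _⟩
  have ht : frk (hom (Subtype.val : S → _)) ⊤ = d + 1 := by
    change rk _ Finset.univ = d + 1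
    rw [rk_hom _ hne, Finset.coe_univ, Set.image_univ, ← hr,
      AffineSubspace.vectorSpan_eq_top_of_affineSpan_eq_top ℝ _ _ hS, finrank_top,
      finrank_euclideanSpace_fin]
  rw [hr] at hK ⊢
  generalize (Subtype.val : S → _) = p at hK ht ⊢
  have hK' : K = bm_cx (⊤ : Face (hom p)) := hK.trans bm_proper
  have ht' : frk (hom p) ⊤ = d - 1 + 2 := by omega
  refine ⟨hK' ▸ bm_complex _, ?_, ?_, ?_, fun k hk => ?_⟩
  · obtain ⟨φ, hφ, -⟩ := (faceML (hom p)).refine ⊤ _ ((faceML (hom p)).re_true ⊤)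
    exact ⟨_, hK' ▸ bm_shell _ _ φ ht' hφ⟩
  · rw [hK']
    intro T hT
    obtain ⟨R, -, hR, rfl⟩ := bm_cells.1 hT
    have h := (faceML (hom p)).diamond (k := d) (le_top (a := R))
      (by change frk _ _ + 1 = d; omega) ht
    rw [← h, ML.f, ← Set.ncard_coe_finset,
      ← Set.ncard_image_of_injective _ fun _ _ e => bm_inj (p := p) e]
    congr 1
    ext T
    simp only [Set.mem_ofPred_eq, Set.mem_image, mem_coe, ML.mem_I, le_top, true_and, bm_fac ht']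
    constructor
    · rintro ⟨⟨F, h1, rfl⟩, h2⟩
      have := h1.2
      exact ⟨F, ⟨bm_exp_iff.1 h2, by change frk _ _ = d; omega⟩, rfl⟩
    · rintro ⟨F, ⟨h1, h2⟩, rfl⟩
      change frk _ _ = d at h2
      exact ⟨⟨F, ⟨le_top, by omega⟩, rfl⟩, bm_exp h1⟩
  · rw [hK']
    intro k _ T hT T1 h1 T2 h2 hn e1 e2
    obtain ⟨R, -, hR, rfl⟩ := bm_cells.1 hT
    obtain ⟨F, -, hF, rfl⟩ := bm_cells.1 h1
    obtain ⟨G, -, hG, rfl⟩ := bm_cells.1 h2
    have h := (faceML (hom p)).inf_eq_of (bm_exp_iff.1 e1) (bm_exp_iff.1 e2)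
      ((faceML (hom p)).not_le_of_ne (hF.trans hG.symm) fun e => hn (by rw [e]))
      (by change frk _ _ = frk _ _ + 1; omega)
    rw [← h]
    exact bm_inter
  · rw [faceNumber, hK]
    congr 1
    ext T
    refine ⟨fun h => ⟨h.1.1, h.1.2.1, h.2⟩, fun h => ⟨⟨h.1, h.2.1, fun e => ?_⟩, h.2.2⟩⟩
    have h1 := bm_dim (G := (⊤ : Face (hom p))) (by omega)
    have h2 : cdim T = k := h.2.2
    rw [bm_top, ← e] at h1
    omega

end Pool.Agent.Lib.MP_c8fb4d_co.Sph
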