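import Pool.Agent.Lib.MP_c8fb4d_co.Normal

/-!
Balanced weights on the faces of a face, attached to a generic point of its span.
-/

namespace Pool.Agent.Lib.MP_c8fb4d_co

open Module Finset Polynomial
open scoped Classical

set_option linter.unusedSectionVars false

section poly

variable {E : Type} [AddCommGroup E] [Module ℝ E]

/-- Functions that are polynomial along every line. -/
def PL (f : E → ℝ) : Prop := ∀ x v : E, ∃ q : ℝ[X], ∀ t : ℝ, f (x + t • v) = q.eval t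

theorem PL.const (c : ℝ) : PL fun _ : E => c := fun _ _ => ⟨C c, fun _ => by simp⟩

theorem PL.lin (y : E →ₗ[ℝ] ℝ) : PL y := fun x v =>
  ⟨C (y x) + C (y v) * X, fun t => by simp [mul_comm t]⟩

theorem PL.mul {f g : E → ℝ} (hf : PL f) (hg : PL g) : PL fun x => f x * g x := fun x v => by
  obtain ⟨p, hp⟩ := hf x v
  obtain ⟨q, hq⟩ := hg x v
  exact ⟨p * q, fun t => by simp [hp, hq]⟩

theorem PL.sum {κ : Type} (s : Finset κ) {f : κ → E → ℝ} (hf : ∀ k ∈ s, PL (f k)) :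
    PL fun x => ∑ k ∈ s, f k x := fun x v => by
  choose! p hp using fun k hk => hf k hk x v
  exact ⟨∑ k ∈ s, p k, fun t => by
    rw [eval_finsetSum]
    exact sum_congr rfl fun k hk => hp k hk t⟩

theorem PL.prod {κ : Type} (s : Finset κ) {f : κ → E → ℝ} (hf : ∀ k ∈ s, PL (f k)) :
    PL fun x => ∏ k ∈ s, f k x := fun x v => by
  choose! p hp using fun k hk => hf k hk x v
  exact ⟨∏ k ∈ s, p k, fun t => by
    rw [eval_prod]
    exact prod_congr rfl fun k hk => hp k hk t⟩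

theorem PL.comp {f : E → ℝ} (hf : PL f) (g : E →ₗ[ℝ] E) : PL fun x => f (g x) := fun x v => by
  obtain ⟨p, hp⟩ := hf (g x) (g v)
  exact ⟨p, fun t => by simp [hp]⟩

theorem PL.finite {f : E → ℝ} (hf : PL f) (x v : E) {s : ℝ} (hs : f (x + s • v) ≠ 0) :
    {t : ℝ | f (x + t • v) = 0}.Finite := by
  obtain ⟨p, hp⟩ := hf x v
  have h0 : p ≠ 0 := fun e => hs (by rw [hp, e, eval_zero])
  refine (p.roots.toFinset.finite_toSet).subset fun t ht => ?_
  simp only [mem_coe, Multiset.mem_toFinset, mem_roots h0, IsRoot.def, ← hp]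
  exact ht

theorem exists_common {κ : Type} (s : Finset κ) {f : κ → E → ℝ} (hf : ∀ k ∈ s, PL (f k))
    (hne : ∀ k ∈ s, ∃ x, f k x ≠ 0) : ∃ x, ∀ k ∈ s, f k x ≠ 0 := by
  induction s using Finset.induction_on with
  | empty => exact ⟨0, by simp⟩
  | insert k s hk ih =>
    obtain ⟨x, hx⟩ := ih (fun j hj => hf j (mem_insert_of_mem hj))
      fun j hj => hne j (mem_insert_of_mem hj)
    obtain ⟨y, hy⟩ := hne k (mem_insert_self _ _)
    have h1 := (PL.prod s fun j hj => hf j (mem_insert_of_mem hj)).finite x (y - x) (s := 0)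
      (by simpa using prod_ne_zero_iff.2 hx)
    have h2 := (hf k (mem_insert_self _ _)).finite x (y - x) (s := 1) (by simpa using hy)
    obtain ⟨t, ht⟩ := (h1.union h2).exists_notMem
    simp only [Set.mem_union, Set.mem_ofPred_eq, not_or] at ht
    refine ⟨x + t • (y - x), fun j hj => ?_⟩
    rcases mem_insert.1 hj with rfl | hj
    · exact ht.2
    · exact prod_ne_zero_iff.1 ht.1 j hj

/-- A point outside finitely many proper subspaces at which a polynomial does not vanish. -/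
theorem exists_avoid {κ : Type} (s : Finset κ) (U : κ → Submodule ℝ E) (hU : ∀ k ∈ s, U k ≠ ⊤)
    {f : E → ℝ} (hf : PL f) (hne : ∃ x, f x ≠ 0) : ∃ x, f x ≠ 0 ∧ ∀ k ∈ s, x ∉ U k := by
  have h1 : ∀ k ∈ s, ∃ y : E →ₗ[ℝ] ℝ, (∃ x, y x ≠ 0) ∧ U k ≤ LinearMap.ker y := by
    intro k hk
    obtain ⟨x, hx⟩ : ∃ x, x ∉ U k := by
      by_contra hc
      push Not at hc
      exact hU k hk (Submodule.eq_top_iff'.2 hc)
    obtain ⟨y, h1, h2⟩ := Submodule.exists_le_ker_of_notMem hx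
    exact ⟨y, ⟨x, h1⟩, h2⟩
  choose! y hy hy' using h1
  obtain ⟨x, hx⟩ := exists_common (insertNone s) (f := fun o => o.elim f fun k => y k)
    (by
      rintro (_ | k) _
      · exact hf
      · exact PL.lin _)
    (by
      rintro (_ | k) hk
      · exact hne
      · exact hy k (some_mem_insertNone.1 hk))
  exact ⟨x, hx none none_mem_insertNone, fun k hk h =>
    hx (some k) (some_mem_insertNone.2 hk) (hy' k hk h)⟩

end poly

variable {ι : Type} [Fintype ι] [DecidableEq ι] {E : Type} [AddCommGroup E] [Module ℝ E]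
  [FiniteDimensional ℝ E]

/-- The weights in codimension `k`. -/
noncomputable def Wk (a : ι → E) (H : Face a) (ξ : E) : ℕ → Face a → ℝ
  | 0 => fun τ => if τ = H then 1 else 0
  | k + 1 => fun τ => cov a τ.1 (nsum a τ (Wk a H ξ k)) / cov a τ.1 ξ

variable {a : ι → E} {H : Face a} {ξ : E}

theorem Wk_succ (k : ℕ) (τ : Face a) :
    Wk a H ξ (k + 1) τ = cov a τ.1 (nsum a τ (Wk a H ξ k)) / cov a τ.1 ξ := rfl

theorem nsum_eq_zero {τ : Face a} {w : Face a → ℝ} (h : ∀ σ, Cv (frk a) τ σ → w σ = 0) :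
    nsum a τ w = 0 := by
  rw [nsum_apply]
  refine sum_eq_zero fun σ _ => ?_
  by_cases c : Cv (frk a) τ σ
  · rw [h σ c, zero_smul]
  · rw [nu_of_not c, smul_zero]

theorem nsum_congr {τ : Face a} {w w' : Face a → ℝ} (h : ∀ σ, Cv (frk a) τ σ → w σ = w' σ) :
    nsum a τ w = nsum a τ w' := by
  rw [← sub_eq_zero, ← map_sub]
  exact nsum_eq_zero fun σ c => sub_eq_zero.2 (h σ c)

theorem Wk_supp : ∀ (k : ℕ) (τ : Face a), Wk a H ξ k τ ≠ 0 → τ ≤ H ∧ frk a τ + k = frk a H := by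
  intro k
  induction k with
  | zero =>
    intro τ h
    have : τ = H := by
      by_contra hc
      exact h (if_neg hc)
    exact ⟨this.le, by rw [this, add_zero]⟩
  | succ k ih =>
    intro τ h
    by_contra hc
    refine h ?_
    have : nsum a τ (Wk a H ξ k) = 0 := nsum_eq_zero fun σ c => by
      by_contra h0
      obtain ⟨h1, h2⟩ := ih σ h0
      exact hc ⟨c.1.trans h1, by have := c.2; omega⟩
    simp [Wk, this]

theorem mem_sp_of_forall {τ : Face a} {x : E}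
    (h : ∀ y : E →ₗ[ℝ] ℝ, sp a τ.1 ≤ LinearMap.ker y → y x = 0) : x ∈ sp a τ.1 := by
  by_contra hc
  obtain ⟨y, h1, h2⟩ := Submodule.exists_le_ker_of_notMem hc
  exact h1 (h y h2)

theorem Wk_rel (hξ : ξ ∈ sp a H.1) (hg : ∀ τ < H, cov a τ.1 ξ ≠ 0) :
    ∀ (k : ℕ) (τ : Face a), nsum a τ (Wk a H ξ k) - Wk a H ξ (k + 1) τ • ξ ∈ sp a τ.1 := by
  have triv : ∀ (k : ℕ) (τ : Face a), ¬(τ ≤ H ∧ frk a τ + (k + 1) = frk a H) →
      nsum a τ (Wk a H ξ k) - Wk a H ξ (k + 1) τ • ξ ∈ sp a τ.1 := by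
    intro k τ hc
    have h1 : nsum a τ (Wk a H ξ k) = 0 := nsum_eq_zero fun σ c => by
      by_contra h0
      obtain ⟨h1, h2⟩ := Wk_supp k σ h0
      exact hc ⟨c.1.trans h1, by have := c.2; omega⟩
    simp [Wk, h1]
  intro k
  induction k with
  | zero =>
    intro τ
    by_cases hc : τ ≤ H ∧ frk a τ + (0 + 1) = frk a H
    swap
    · exact triv 0 τ hc
    have h1 : nsum a τ (Wk a H ξ 0) = nu a H τ := by simp [nsum_apply, Wk]
    have h2 : Cv (frk a) τ H := hc
    refine mem_sp_of_cov τ.2 h2.1 h2.2 (Submodule.sub_mem _ (h1 ▸ (nu_spec h2).1)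
      (Submodule.smul_mem _ _ hξ)) ?_
    rw [map_sub, map_smul, Wk_succ, smul_eq_mul, div_mul_cancel₀ _ (hg τ h2.lt_face), sub_self]
  | succ k ih =>
    intro τ
    by_cases hc : τ ≤ H ∧ frk a τ + (k + 1 + 1) = frk a H
    swap
    · exact triv _ τ hc
    have hz : cov a τ.1 ξ ≠ 0 := hg τ ((faceML a).lt_of_ρ hc.1 (by
      change frk a τ < frk a H; omega))
    refine mem_sp_of_forall fun y hy => ?_
    set z := cov a τ.1 with hzd
    set y' := y - (y ξ / z ξ) • z with hy'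
    have e1 : y' ξ = 0 := by simp [hy', div_mul_cancel₀ _ hz]
    have e2 : ∀ x ∈ sp a τ.1, y' x = 0 := fun x hx => by
      have h1 : y x = 0 := hy hx
      have h2 : z x = 0 := cov_sp hx
      simp [hy', h1, h2]
    have e3 := diamond_sum τ (Wk a H ξ k) z y'
    have e4 : ∀ σ, wedge z y' (nsum a σ (Wk a H ξ k)) (nu a σ τ) =
        z ξ * (Wk a H ξ (k + 1) σ * y' (nu a σ τ)) := by
      intro σ
      by_cases c : Cv (frk a) τ σ
      · have h1 := (nu_spec c).sub_mem c (ih σ)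
        generalize cov a τ.1 (nsum a σ (Wk a H ξ k) - Wk a H ξ (k + 1) σ • ξ) /
          cov a τ.1 (nu a σ τ) = t at h1
        have h2 : z _ = 0 := cov_sp h1
        have h3 := e2 _ h1
        simp only [map_sub, map_smul, smul_eq_mul, e1] at h2 h3
        unfold wedge
        linear_combination y' (nu a σ τ) * h2 - z (nu a σ τ) * h3
      · simp [wedge, nu_of_not c]
    simp only [e4] at e3
    rw [← mul_sum, ← map_nsum] at e3
    have e5 := (mul_eq_zero.1 e3).resolve_left hz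
    simp only [hy', LinearMap.sub_apply, LinearMap.smul_apply, smul_eq_mul] at e5
    rw [map_sub, map_smul, smul_eq_mul, Wk_succ (k + 1), ← hzd]
    linear_combination e5

theorem Wk_pos (hg : ∀ τ < H, 0 < cov a τ.1 ξ) : ∀ (k : ℕ) (τ : Face a),
    τ ≤ H → frk a τ + k = frk a H → 0 < Wk a H ξ k τ := by
  intro k
  induction k with
  | zero =>
    intro τ h1 h2
    have : τ = H := (faceML a).eq_of_ρ h1 (le_of_eq h2.symm)
    simp [Wk, this]
  | succ k ih =>
    intro τ h1 h2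
    refine div_pos ?_ (hg τ ((faceML a).lt_of_ρ h1 (by change frk a τ < frk a H; omega)))
    rw [map_nsum]
    obtain ⟨σ, b1, b2, b3⟩ := (faceML a).exists_rank' (k := frk a τ + 1) h1
      (Nat.le_succ _) (by change _ ≤ frk a H; omega)
    have c : Cv (frk a) τ σ := ⟨b1, b3.symm⟩
    refine sum_pos' (fun u _ => ?_) ⟨σ, mem_univ _, mul_pos (ih σ b2 (by
      have := c.2; omega)) (nu_spec c).2.2.2⟩
    by_cases c' : Cv (frk a) τ u
    · by_cases h0 : Wk a H ξ k u = 0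
      · simp [h0]
      · obtain ⟨d1, d2⟩ := Wk_supp k u h0
        exact (mul_pos (ih u d1 d2) (nu_spec c').2.2.2).le
    · simp [nu_of_not c']

/-- The common denominator. -/
noncomputable def den (a : ι → E) (H : Face a) (ξ : E) : ℝ :=
  ∏ τ ∈ univ.filter (fun τ => τ < H), cov a τ.1 ξ

theorem Wk_rat (H : Face a) : ∀ (k : ℕ) (τ : Face a), ∃ P : E → ℝ, PL P ∧
    ∀ ξ, den a H ξ ≠ 0 → Wk a H ξ k τ * den a H ξ ^ k = P ξ := by
  intro k
  induction k with
  | zero => exact fun τ => ⟨_, PL.const (if τ = H then 1 else 0), fun ξ _ => by simp [Wk]⟩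
  | succ k ih =>
    intro τ
    by_cases hτ : τ < H
    swap
    · refine ⟨_, PL.const 0, fun ξ _ => mul_eq_zero_of_left ?_ _⟩
      by_contra h0
      obtain ⟨h1, h2⟩ := Wk_supp _ τ h0
      exact hτ ((faceML a).lt_of_ρ h1 (by change frk a τ < frk a H; omega))
    choose P hP hP' using ih
    refine ⟨_, (PL.sum univ fun σ _ => (hP σ).mul (PL.const (cov a τ.1 (nu a σ τ)))).mul
      (PL.prod ((univ.filter fun τ => τ < H).erase τ) fun u _ => PL.lin (cov a u.1)),
      fun ξ hξ => ?_⟩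
    have hm : τ ∈ univ.filter fun τ => τ < H := mem_filter.2 ⟨mem_univ _, hτ⟩
    have h1 := mul_prod_erase _ (fun u : Face a => cov a u.1 ξ) hm
    have h2 : cov a τ.1 ξ ≠ 0 := prod_ne_zero_iff.1 hξ τ hm
    simp only [← hP' _ ξ hξ]
    rw [pow_succ, Wk_succ, map_nsum]
    have h3 : den a H ξ = cov a τ.1 ξ *
      ∏ u ∈ (univ.filter fun τ => τ < H).erase τ, cov a u.1 ξ := h1.symm
    generalize ∏ u ∈ (univ.filter fun τ => τ < H).erase τ, cov a u.1 ξ = R at h3
    have h4 : ∑ σ, Wk a H ξ k σ * den a H ξ ^ k * cov a τ.1 (nu a σ τ) =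
        (∑ σ, Wk a H ξ k σ * cov a τ.1 (nu a σ τ)) * den a H ξ ^ k := by
      rw [sum_mul]
      exact sum_congr rfl fun σ _ => by ring
    rw [h4]
    generalize den a H ξ ^ k = D
    rw [h3]
    field_simp

/-- The weights on all faces. -/
noncomputable def wt (a : ι → E) (H : Face a) (ξ : E) (τ : Face a) : ℝ :=
  Wk a H ξ (frk a H - frk a τ) τ

theorem wt_rel (hξ : ξ ∈ sp a H.1) (hg : ∀ τ < H, cov a τ.1 ξ ≠ 0) {τ : Face a}
    (h : frk a τ < frk a H) : nsum a τ (wt a H ξ) - wt a H ξ τ • ξ ∈ sp a τ.1 := by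
  obtain ⟨k, hk⟩ : ∃ k, frk a H - frk a τ = k + 1 := ⟨frk a H - frk a τ - 1, by omega⟩
  have h1 : nsum a τ (wt a H ξ) = nsum a τ (Wk a H ξ k) := nsum_congr fun σ c => by
    rw [wt, show frk a H - frk a σ = k by have := c.2; omega]
  rw [h1, wt, hk]
  exact Wk_rel hξ hg k τ

theorem exists_good_poly (H : Face a) : ∃ P : E → ℝ, PL P ∧ (∃ ξ ∈ sp a H.1, P ξ ≠ 0) ∧
    ∀ ξ, P ξ ≠ 0 → (∀ τ < H, cov a τ.1 ξ ≠ 0) ∧ ∀ τ, wt a H ξ τ ≠ 0 ↔ τ ≤ H := by
  choose P hP hP' using Wk_rat H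
  refine ⟨_, (PL.prod (univ.filter fun τ => τ < H) fun u _ => PL.lin (cov a u.1)).mul
    (PL.prod (univ.filter fun τ => τ ≤ H) fun τ _ => hP (frk a H - frk a τ) τ),
    ⟨_, sum_mem_sp H.1, ?_⟩, fun ξ h => ?_⟩
  · have hg : ∀ τ < H, 0 < cov a τ.1 (∑ i ∈ H.1, a i) := by
      intro τ hτ
      obtain ⟨i, hi, hi'⟩ := exists_of_ssubset hτ
      rw [map_sum]
      exact sum_pos' (fun j _ => cov_nonneg _ j) ⟨i, hi, cov_pos τ.2 hi'⟩
    have hd : den a H (∑ i ∈ H.1, a i) ≠ 0 :=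
      prod_ne_zero_iff.2 fun τ hτ => (hg τ (mem_filter.1 hτ).2).ne'
    refine mul_ne_zero hd (prod_ne_zero_iff.2 fun τ hτ => ?_)
    rw [← hP' _ _ _ hd]
    have h1 := (mem_filter.1 hτ).2
    have h2 : frk a τ ≤ frk a H := (faceML a).ρ_le h1
    exact mul_ne_zero (Wk_pos hg _ τ h1 (by omega)).ne' (pow_ne_zero _ hd)
  · have hd : den a H ξ ≠ 0 := left_ne_zero_of_mul h
    refine ⟨fun τ hτ => prod_ne_zero_iff.1 hd τ (mem_filter.2 ⟨mem_univ _, hτ⟩),
      fun τ => ⟨fun h0 => (Wk_supp _ τ h0).1, fun hτ => ?_⟩⟩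
    have h1 := prod_ne_zero_iff.1 (right_ne_zero_of_mul h) τ (mem_filter.2 ⟨mem_univ _, hτ⟩)
    rw [← hP' _ _ _ hd] at h1
    exact left_ne_zero_of_mul h1

end Pool.Agent.Lib.MP_c8fb4d_co
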