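import Pool.Agent.Lib.MP_c8fb4d_co.SphGeo
import Pool.Agent.Lib.MP_c8fb4d_co.Weights

/-!
Basic facts on realised lattices: ranks, extreme covers, gradedness and the diamond property.
-/

namespace Pool.Agent.Lib.MP_c8fb4d_co.Sph

open Module Finset
open scoped Classical

set_option linter.unusedSectionVars false

section ext

variable {E : Type} [AddCommGroup E] [Module ℝ E]

theorem exists_sep (U : Submodule ℝ E) (N : Finset E) (η : E →ₗ[ℝ] ℝ) :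
    ∃ θ : E →ₗ[ℝ] ℝ, (∀ u ∈ U, θ u = 0) ∧ ∀ v ∈ N, ∀ v' ∈ N,
      θ (η v' • v - η v • v') = 0 → η v' • v - η v • v' ∈ U := by
  obtain ⟨θ, h1, h2, -⟩ := exists_generic (E := E →ₗ[ℝ] ℝ) (κ := E × E) U.dualAnnihilator
    (fun p => LinearMap.applyₗ (η p.2 • p.1 - η p.1 • p.2)) ∅
    ((N ×ˢ N).filter fun p => η p.2 • p.1 - η p.1 • p.2 ∉ U) (by
      intro k hk
      obtain ⟨y, a1, a2⟩ := Submodule.exists_le_ker_of_notMem (mem_filter.1 hk).2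
      exact ⟨y, (Submodule.mem_dualAnnihilator _).2 fun w hw => a2 hw, a1⟩)
    (Submodule.zero_mem _)
  refine ⟨θ, (Submodule.mem_dualAnnihilator _).1 h1, fun v hv v' hv' h => ?_⟩
  by_contra hc
  exact h2 (v, v') (mem_filter.2 ⟨mem_product.2 ⟨hv, hv'⟩, hc⟩) h

theorem exists_min {U : Submodule ℝ E} {N : Finset E} {η θ : E →ₗ[ℝ] ℝ}
    (hp : ∀ v ∈ N, 0 < η v) (hθ : ∀ v ∈ N, ∀ v' ∈ N,
      θ (η v' • v - η v • v') = 0 → η v' • v - η v • v' ∈ U) (hN : N.Nonempty) :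
    ∃ v1 ∈ N, ∃ c : ℝ, θ v1 = c * η v1 ∧ (∀ v ∈ N, c * η v ≤ θ v) ∧
      ∀ v ∈ N, θ v = c * η v → v ∈ U ⊔ Submodule.span ℝ {v1} := by
  obtain ⟨v1, h1, h2⟩ := exists_min_image N (fun v => θ v / η v) hN
  have p1 := hp v1 h1
  refine ⟨v1, h1, θ v1 / η v1, by field_simp, fun v hv => ?_, fun v hv h => ?_⟩
  · exact (le_div_iff₀ (hp v hv)).1 (h2 v hv)
  · have h3 := hθ v hv v1 h1 (by
      simp only [map_sub, map_smul, smul_eq_mul, h]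
      field_simp
      ring)
    have h4 : v = (η v1)⁻¹ • (η v1 • v - η v • v1) + (η v / η v1) • v1 := by
      rw [smul_sub, smul_smul, smul_smul, inv_mul_cancel₀ p1.ne', one_smul, div_eq_inv_mul]
      abel
    rw [h4]
    exact Submodule.add_mem_sup (U.smul_mem _ h3)
      (Submodule.smul_mem _ _ (Submodule.mem_span_singleton_self _))

theorem exists_ext {U : Submodule ℝ E} {N : Finset E} {η : E →ₗ[ℝ] ℝ}
    (hU : ∀ u ∈ U, η u = 0) (hp : ∀ v ∈ N, 0 < η v) (hN : N.Nonempty) {z : E} (hz : z ∉ U) :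
    ∃ v1 ∈ N, ∃ θ : E →ₗ[ℝ] ℝ, (∀ u ∈ U, θ u = 0) ∧ θ v1 = 0 ∧ (∀ v ∈ N, 0 ≤ θ v) ∧
      (∀ v ∈ N, θ v = 0 → v ∈ U ⊔ Submodule.span ℝ {v1}) ∧
      (z ∉ U ⊔ Submodule.span ℝ {v1} ∨ ∀ v ∈ N, v ∈ U ⊔ Submodule.span ℝ {v1}) := by
  obtain ⟨θ, h1, h2⟩ := exists_sep U N η
  obtain ⟨v1, a1, c1, a2, a3, a4⟩ := exists_min hp h2 hN
  obtain ⟨v2, b1, c2, b2, b3, b4⟩ := exists_min (θ := -θ) (U := U) hp
    (fun v hv v' hv' h => h2 v hv v' hv' (neg_eq_zero.1 h)) hN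
  by_cases hz1 : z ∈ U ⊔ Submodule.span ℝ {v1}
  swap
  · exact ⟨v1, a1, θ - c1 • η, fun u hu => by simp [h1 u hu, hU u hu], by simp [a2],
      fun v hv => by simpa using a3 v hv,
      fun v hv h => a4 v hv (by simpa [sub_eq_zero] using h), Or.inl hz1⟩
  by_cases hz2 : z ∈ U ⊔ Submodule.span ℝ {v2}
  swap
  · exact ⟨v2, b1, -θ - c2 • η, fun u hu => by simp [h1 u hu, hU u hu],
      by simpa [sub_eq_zero] using b2, fun v hv => by simpa using b3 v hv,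
      fun v hv h => b4 v hv (by simpa [sub_eq_zero] using h), Or.inl hz2⟩
  refine ⟨v1, a1, θ - c1 • η, fun u hu => by simp [h1 u hu, hU u hu], by simp [a2],
      fun v hv => by simpa using a3 v hv,
      fun v hv h => a4 v hv (by simpa [sub_eq_zero] using h), Or.inr fun v hv => a4 v hv ?_⟩
  obtain ⟨u, hu, w, hw, e⟩ := Submodule.mem_sup.1 hz1
  obtain ⟨s, rfl⟩ := Submodule.mem_span_singleton.1 hw
  obtain ⟨u', hu', w', hw', e'⟩ := Submodule.mem_sup.1 hz2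
  obtain ⟨s', rfl⟩ := Submodule.mem_span_singleton.1 hw'
  have hs : s ≠ 0 := fun h => hz (by rw [← e, h, zero_smul, add_zero]; exact hu)
  have e1 := congrArg η (e.trans e'.symm)
  have e2 := congrArg θ (e.trans e'.symm)
  simp only [map_add, map_smul, smul_eq_mul, hU u hu, hU u' hu', h1 u hu, h1 u' hu',
    zero_add] at e1 e2
  simp only [LinearMap.neg_apply] at b2 b3
  have p1 := hp v1 a1
  have e3 : s * η v1 * (c1 + c2) = 0 := by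
    have : θ v2 = -(c2 * η v2) := by linarith
    rw [a2, this] at e2
    linear_combination e2 + c2 * e1
  have e4 : c2 = -c1 := by
    have := (mul_eq_zero.1 e3).resolve_left (mul_ne_zero hs p1.ne')
    linarith
  have := a3 v hv
  have := b3 v hv
  rw [e4] at this
  linarith

end ext

variable {L E : Type} [Lattice L] [Fintype L] [BoundedOrder L] [AddCommGroup E] [Module ℝ E]
  [FiniteDimensional ℝ E]

namespace Geo

variable (g : Geo L E)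

/-- The span of a cell. -/
def sp (x : L) : Submodule ℝ E := Submodule.span ℝ (g.V x : Set E)

/-- A chosen functional that exposes `x` in `y`. -/
noncomputable def cov (x y : L) : E →ₗ[ℝ] ℝ :=
  if h : x ≤ y ∧ y ≠ ⊤ then (g.exp x y h.1 h.2).choose else 0

variable {g}

theorem mem_sp {x : L} {v : E} (h : v ∈ g.V x) : v ∈ g.sp x := Submodule.subset_span h

theorem sp_mono {x y : L} (h : x ≤ y) (hy : y ≠ ⊤) : g.sp x ≤ g.sp y :=
  Submodule.span_mono (by exact_mod_cast g.mono x y h hy)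

theorem sp_zero {x : L} {c : E →ₗ[ℝ] ℝ} (h : ∀ v ∈ g.V x, c v = 0) {z : E} (hz : z ∈ g.sp x) :
    c z = 0 :=
  (Submodule.span_le.2 fun v hv => h v hv : g.sp x ≤ LinearMap.ker c) hz

theorem sp_le {x : L} {U : Submodule ℝ E} (h : ∀ v ∈ g.V x, v ∈ U) : g.sp x ≤ U :=
  Submodule.span_le.2 fun v hv => h v hv

theorem sp_top : g.sp ⊤ = ⊥ := by simp [sp, g.V_top]

theorem sp_bot : g.sp ⊥ = ⊥ := by simp [sp, g.V_bot]

theorem rank_sp {x : L} (h : x ≠ ⊤) : finrank ℝ (g.sp x) = g.ρ x := g.rank x h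

theorem ρ_bot : g.ρ ⊥ = 0 := by rw [← rank_sp g.ne, sp_bot, finrank_bot]

theorem cov_spec {x y : L} (h : x ≤ y) (hy : y ≠ ⊤) {v : E} (hv : v ∈ g.V y) :
    0 ≤ g.cov x y v ∧ (g.cov x y v = 0 ↔ v ∈ g.V x) := by
  unfold cov
  rw [dif_pos ⟨h, hy⟩]
  exact (g.exp x y h hy).choose_spec v hv

theorem cov_pos {x y : L} (h : x ≤ y) (hy : y ≠ ⊤) {v : E} (hv : v ∈ g.V y) (hv' : v ∉ g.V x) :
    0 < g.cov x y v :=
  lt_of_le_of_ne (cov_spec h hy hv).1 fun e => hv' ((cov_spec h hy hv).2.1 e.symm)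

theorem cov_sp {x y : L} (h : x ≤ y) (hy : y ≠ ⊤) {z : E} (hz : z ∈ g.sp x) : g.cov x y z = 0 :=
  sp_zero (fun _ hv => (cov_spec h hy (g.mono x y h hy hv)).2.2 hv) hz

theorem mem_of_sp {x y : L} (h : x ≤ y) (hy : y ≠ ⊤) {v : E} (hv : v ∈ g.V y)
    (hv' : v ∈ g.sp x) : v ∈ g.V x := (cov_spec h hy hv).2.1 (cov_sp h hy hv')

theorem exists_not_mem {x x' y : L} (h : x ≤ y) (h' : x' ≤ y) (hy : y ≠ ⊤) (hn : ¬ x ≤ x') :
    ∃ v ∈ g.V x, v ∉ g.V x' := by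
  by_contra hc
  push Not at hc
  exact hn (g.le_of x x' y h h' hy hc)

theorem ρ_lt' {x y : L} (h : x < y) (hy : y ≠ ⊤) : g.ρ x < g.ρ y := by
  obtain ⟨v, hv, hv'⟩ := exists_not_mem (g := g) le_rfl h.le hy h.not_ge
  rw [← rank_sp hy, ← rank_sp h.ne_top]
  refine Submodule.finrank_lt_finrank_of_lt (lt_of_le_of_ne (sp_mono h.le hy) fun e => hv' ?_)
  exact mem_of_sp h.le hy hv (e ▸ mem_sp hv)

theorem ρ_lt_top {x : L} (h : x ≠ ⊤) : g.ρ x < g.ρ ⊤ := by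
  obtain ⟨F, h1, h2, h3⟩ := g.pure x h
  rcases h1.lt_or_eq with h1 | rfl
  · have := ρ_lt' (g := g) h1 h2
    omega
  · omega

theorem ρ_lt {x y : L} (h : x < y) : g.ρ x < g.ρ y := by
  by_cases hy : y = ⊤
  · rw [hy]
    exact ρ_lt_top h.ne_top
  · exact ρ_lt' h hy

theorem ρ_le {x y : L} (h : x ≤ y) : g.ρ x ≤ g.ρ y := by
  rcases h.lt_or_eq with h | rfl
  · exact (ρ_lt h).le
  · exact le_rfl

theorem eq_of_ρ {x y : L} (h : x ≤ y) (h' : g.ρ y ≤ g.ρ x) : x = y := by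
  rcases h.lt_or_eq with h | h
  · have := ρ_lt (g := g) h
    omega
  · exact h

theorem lt_of_ρ {x y : L} (h : x ≤ y) (h' : g.ρ x < g.ρ y) : x < y :=
  lt_of_le_of_ne h fun e => by rw [e] at h'; omega

theorem ne_top_of_ρ {x : L} (h : g.ρ x < g.ρ ⊤) : x ≠ ⊤ := fun e => by rw [e] at h; omega

theorem cv_lt {x y : L} (h : Cv g.ρ x y) : x < y := lt_of_ρ (g := g) h.1 (by have := h.2; omega)

theorem sp_eq_sup {x y : L} (h : Cv g.ρ x y) (hy : y ≠ ⊤) {v : E} (hv : v ∈ g.sp y)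
    (hv' : v ∉ g.sp x) : g.sp y = g.sp x ⊔ Submodule.span ℝ {v} := by
  symm
  apply Submodule.eq_of_le_of_finrank_eq
  · exact sup_le (sp_mono h.1 hy) (Submodule.span_le.2 (by simpa using hv))
  · rw [Submodule.finrank_sup_span_singleton hv', rank_sp hy, rank_sp (cv_lt h).ne_top]
    exact h.2

theorem exists_cover {B σ : L} (hB : B ≤ σ) (hσ : σ ≠ ⊤) {θ : E →ₗ[ℝ] ℝ} {v1 : E}
    (h1 : v1 ∈ g.V σ) (h1' : v1 ∉ g.V B) (h2 : ∀ u ∈ g.sp B, θ u = 0) (h3 : θ v1 = 0)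
    (h4 : ∀ v ∈ g.V σ, v ∉ g.V B → 0 ≤ θ v)
    (h5 : ∀ v ∈ g.V σ, v ∉ g.V B → θ v = 0 → v ∈ g.sp B ⊔ Submodule.span ℝ {v1}) :
    ∃ x, Cv g.ρ B x ∧ x ≤ σ ∧ v1 ∈ g.V x ∧ g.sp x = g.sp B ⊔ Submodule.span ℝ {v1} := by
  obtain ⟨x, a1, a2⟩ := g.face σ hσ θ fun v hv => by
    by_cases c : v ∈ g.V B
    · exact (h2 v (mem_sp c)).ge
    · exact h4 v hv c
  have hx : x ≠ ⊤ := ne_top_of_le_ne_top hσ a1
  have b1 : B ≤ x := g.le_of B x σ hB a1 hσ fun v hv =>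
    (a2 v).2 ⟨g.mono B σ hB hσ hv, h2 v (mem_sp hv)⟩
  have b2 : v1 ∈ g.V x := (a2 v1).2 ⟨h1, h3⟩
  have b3 : g.sp x = g.sp B ⊔ Submodule.span ℝ {v1} := by
    refine le_antisymm (sp_le fun v hv => ?_)
      (sup_le (sp_mono b1 hx) (Submodule.span_le.2 (by simpa using mem_sp b2)))
    by_cases c : v ∈ g.V B
    · exact Submodule.mem_sup_left (mem_sp c)
    · exact h5 v ((a2 v).1 hv).1 c ((a2 v).1 hv).2
  refine ⟨x, ⟨b1, ?_⟩, a1, b2, b3⟩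
  rw [← rank_sp hx, b3, Submodule.finrank_sup_span_singleton
    (fun e => h1' (mem_of_sp hB hσ h1 e)), rank_sp (ne_top_of_le_ne_top hσ hB)]

theorem exists_up {x y : L} (h : x < y) (hy : y ≠ ⊤) {z : E} (hz : z ∉ g.sp x) :
    ∃ w, Cv g.ρ x w ∧ w ≤ y ∧ (z ∉ g.sp w ∨ w = y) := by
  obtain ⟨v, hv, hv'⟩ := exists_not_mem (g := g) le_rfl h.le hy h.not_ge
  obtain ⟨v1, a1, θ, a2, a3, a4, a5, a6⟩ := exists_ext (U := g.sp x) (N := g.V y \ g.V x)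
    (η := g.cov x y) (fun u hu => cov_sp h.le hy hu)
    (fun v hv => cov_pos h.le hy (mem_sdiff.1 hv).1 (mem_sdiff.1 hv).2)
    ⟨v, mem_sdiff.2 ⟨hv, hv'⟩⟩ hz
  obtain ⟨w, b1, b2, -, b4⟩ := exists_cover h.le hy (mem_sdiff.1 a1).1 (mem_sdiff.1 a1).2 a2 a3
    (fun v c c' => a4 v (mem_sdiff.2 ⟨c, c'⟩)) fun v c c' => a5 v (mem_sdiff.2 ⟨c, c'⟩)
  refine ⟨w, b1, b2, a6.imp (fun c => b4 ▸ c) fun c => le_antisymm b2 ?_⟩
  refine g.le_of y w y le_rfl b2 hy fun u hu => mem_of_sp b2 hy hu ?_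
  rw [b4]
  by_cases c' : u ∈ g.V x
  · exact Submodule.mem_sup_left (mem_sp c')
  · exact c u (mem_sdiff.2 ⟨hu, c'⟩)

theorem exists_up' {x y : L} (h : x < y) : ∃ w, Cv g.ρ x w ∧ w ≤ y := by
  have key : ∀ y, x < y → y ≠ ⊤ → ∃ w, Cv g.ρ x w ∧ w ≤ y := by
    intro y h hy
    obtain ⟨v, hv, hv'⟩ := exists_not_mem (g := g) le_rfl h.le hy h.not_ge
    obtain ⟨w, a, b, -⟩ := exists_up h hy fun e => hv' (mem_of_sp h.le hy hv e)
    exact ⟨w, a, b⟩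
  by_cases hy : y = ⊤
  · obtain ⟨F, h1, h2, h3⟩ := g.pure x h.ne_top
    rcases h1.lt_or_eq with h1 | rfl
    · obtain ⟨w, a, -⟩ := key F h1 h2
      exact ⟨w, a, hy ▸ le_top⟩
    · exact ⟨⊤, ⟨le_top, h3⟩, hy.ge⟩
  · exact key y h hy

theorem exists_rank {y : L} {k : ℕ} (hk : k ≤ g.ρ y) : ∀ (n : ℕ) (x : L), x ≤ y →
    g.ρ x + n = k → ∃ z, x ≤ z ∧ z ≤ y ∧ g.ρ z = k := by
  intro n
  induction n with
  | zero => exact fun x h1 h2 => ⟨x, le_rfl, h1, h2⟩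
  | succ n ih =>
    intro x h1 h2
    obtain ⟨w, a, b⟩ := exists_up' (g := g) (lt_of_ρ (g := g) h1 (by omega))
    obtain ⟨z, c, d, e⟩ := ih w b (by have := a.2; omega)
    exact ⟨z, a.1.trans c, d, e⟩

theorem exists_rank' {x y : L} {k : ℕ} (h : x ≤ y) (h1 : g.ρ x ≤ k) (h2 : k ≤ g.ρ y) :
    ∃ z, x ≤ z ∧ z ≤ y ∧ g.ρ z = k := exists_rank h2 (k - g.ρ x) x h (by omega)

theorem co (x y : L) (h : x < y) : ∃ z, x ≤ z ∧ Cv g.ρ z y := by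
  have := ρ_lt (g := g) h
  obtain ⟨z, a, b, c⟩ := exists_rank' (g := g) (k := g.ρ y - 1) h.le (by omega) (by omega)
  exact ⟨z, a, b, by omega⟩

theorem not_mem_of_ne {x z w y : L} (hz : Cv g.ρ x z) (hw : Cv g.ρ x w) (h1 : z ≤ y) (h2 : w ≤ y)
    (hy : y ≠ ⊤) (hne : w ≠ z) {v : E} (hv : v ∈ g.V w) (hv' : v ∉ g.V x) : v ∉ g.V z := by
  intro c
  have hw' := ne_top_of_le_ne_top hy h2
  have e := sp_eq_sup hw hw' (mem_sp hv) fun e => hv' (mem_of_sp hw.1 hw' hv e)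
  refine hne (eq_of_ρ (g := g) (g.le_of w z y h2 h1 hy fun u hu => ?_)
    (by have := hz.2; have := hw.2; omega))
  refine mem_of_sp h1 hy (g.mono w y h2 hy hu) ?_
  have : g.sp w ≤ g.sp z := e ▸ sup_le (sp_mono hz.1 (ne_top_of_le_ne_top hy h1))
    (Submodule.span_le.2 (by simpa using mem_sp c))
  exact this (mem_sp hu)

theorem dia (x z y : L) (h1 : Cv g.ρ x z) (h2 : Cv g.ρ z y) : ∃ w, Cv g.ρ x w ∧ Cv g.ρ w y ∧
    w ≠ z ∧ ∀ u, Cv g.ρ x u → Cv g.ρ u y → u = z ∨ u = w := by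
  by_cases hy : y = ⊤
  · subst hy
    exact g.thin x z h1 h2
  have key : ∀ u, Cv g.ρ x u → u ≤ y → ∃ v ∈ g.V u, v ∉ g.V x ∧ v ∉ g.sp x := by
    intro u c c'
    have hu := ne_top_of_le_ne_top hy c'
    obtain ⟨v, hv, hv'⟩ := exists_not_mem (g := g) le_rfl c.1 hu (cv_lt c).not_ge
    exact ⟨v, hv, hv', fun e => hv' (mem_of_sp c.1 hu hv e)⟩
  obtain ⟨vz, a1, a2, a3⟩ := key z h1 h2.1
  obtain ⟨w, b1, b2, b3⟩ := exists_up ((cv_lt h1).trans (cv_lt h2)) hy a3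
  have r1 := h1.2
  have r2 := h2.2
  have r3 := b1.2
  have hw : w ≠ z := by
    rintro rfl
    rcases b3 with c | c
    · exact c (mem_sp a1)
    · exact (cv_lt h2).ne c
  refine ⟨w, b1, ⟨b2, by omega⟩, hw, fun u c1 c2 => ?_⟩
  by_contra hc
  push Not at hc
  obtain ⟨vw, d1, d2, -⟩ := key w b1 b2
  obtain ⟨vu, e1, e2, -⟩ := key u c1 c2.1
  have hz := ne_top_of_le_ne_top hy h2.1
  have m1 := g.mono z y h2.1 hy a1
  have m2 := g.mono w y b2 hy d1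
  have m3 := g.mono u y c2.1 hy e1
  have n1 := not_mem_of_ne h1 b1 h2.1 b2 hy hw d1 d2
  have s1 := sp_eq_sup h2 hy (mem_sp m2) fun e => n1 (mem_of_sp h2.1 hy m2 e)
  have s2 := sp_eq_sup h1 hz (mem_sp a1) a3
  have s3 := mem_sp m3
  rw [s1, s2] at s3
  obtain ⟨p, hp, q, hq, e⟩ := Submodule.mem_sup.1 s3
  obtain ⟨β, rfl⟩ := Submodule.mem_span_singleton.1 hq
  obtain ⟨b, hb, q, hq, rfl⟩ := Submodule.mem_sup.1 hp
  obtain ⟨α, rfl⟩ := Submodule.mem_span_singleton.1 hq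
  have f1 := congrArg (g.cov z y) e
  have f2 := congrArg (g.cov w y) e
  have f3 := congrArg (g.cov u y) e
  simp only [map_add, map_smul, smul_eq_mul] at f1 f2 f3
  rw [cov_sp h2.1 hy (sp_mono h1.1 hz hb), cov_sp h2.1 hy (mem_sp a1)] at f1
  rw [cov_sp b2 hy (sp_mono b1.1 (ne_top_of_le_ne_top hy b2) hb), cov_sp b2 hy (mem_sp d1)] at f2
  rw [cov_sp c2.1 hy (sp_mono c1.1 (ne_top_of_le_ne_top hy c2.1) hb),
    cov_sp c2.1 hy (mem_sp e1)] at f3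
  have p1 := cov_pos h2.1 hy m2 n1
  have p2 := cov_pos h2.1 hy m3 (not_mem_of_ne h1 c1 h2.1 c2.1 hy hc.1 e1 e2)
  have p3 := cov_pos b2 hy m1 (not_mem_of_ne b1 h1 b2 h2.1 hy hw.symm a1 a2)
  have p4 := cov_pos b2 hy m3 (not_mem_of_ne b1 c1 b2 c2.1 hy hc.2 e1 e2)
  have p5 := cov_pos c2.1 hy m1 (not_mem_of_ne c1 h1 c2.1 h2.1 hy hc.1.symm a1 a2)
  have p6 := cov_pos c2.1 hy m2 (not_mem_of_ne c1 b1 c2.1 b2 hy hc.2.symm d1 d2)
  have q1 : 0 < β := by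
    by_contra c
    nlinarith [mul_nonneg (neg_nonneg.2 (not_lt.1 c)) p1.le]
  have q2 : 0 < α := by
    by_contra c
    nlinarith [mul_nonneg (neg_nonneg.2 (not_lt.1 c)) p3.le]
  nlinarith [mul_pos q1 p6, mul_pos q2 p5]

end Geo

end Pool.Agent.Lib.MP_c8fb4d_co.Sph
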