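import Pool.Agent.Lib.MP_c8fb4d_co.Morse

/-!
Lattices whose proper elements are realised by pointed cones, and shellings of lattices.
-/

namespace Pool.Agent.Lib.MP_c8fb4d_co.Sph

open Module Finset

/-- `G` lies in a facet of `H` that comes before `F`. -/
def Old {L : Type} [Lattice L] (ρ : L → ℕ) (H : L) (φ : L → ℕ) (F G : L) : Prop :=
  ∃ F', Cv ρ F' H ∧ φ F' < φ F ∧ G ≤ F'

/-- `φ` is a shelling order of the facets of `H` (the first argument is the rank of `H`). -/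
def Sh {L : Type} [Lattice L] (ρ : L → ℕ) : ℕ → L → (L → ℕ) → Prop
  | 0, _, _ => True
  | n + 1, H, φ => (∀ F F', Cv ρ F H → Cv ρ F' H → φ F = φ F' → F = F') ∧ ∀ F, Cv ρ F H →
      (∀ G, G < F → Old ρ H φ F G → ∃ R, Cv ρ R F ∧ G ≤ R ∧ Old ρ H φ F R) ∧
      ∃ ψ, Sh ρ n F ψ ∧
        ∀ R R', Cv ρ R F → Cv ρ R' F → Old ρ H φ F R → ¬ Old ρ H φ F R' → ψ R < ψ R'

/-- A bounded lattice whose elements other than the top are realised by pointed cones with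
generating sets `V x`. -/
structure Geo (L E : Type) [Lattice L] [BoundedOrder L] [AddCommGroup E] [Module ℝ E] where
  ρ : L → ℕ
  V : L → Finset E
  e0 : E →ₗ[ℝ] ℝ
  ne : (⊥ : L) ≠ ⊤
  V_top : V ⊤ = ∅
  V_bot : V ⊥ = ∅
  pos : ∀ x, ∀ v ∈ V x, 0 < e0 v
  rank : ∀ x, x ≠ ⊤ → finrank ℝ (Submodule.span ℝ (V x : Set E)) = ρ x
  mono : ∀ x y, x ≤ y → y ≠ ⊤ → V x ⊆ V y
  le_of : ∀ x x' y, x ≤ y → x' ≤ y → y ≠ ⊤ → V x ⊆ V x' → x ≤ x'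
  exp : ∀ x y, x ≤ y → y ≠ ⊤ → ∃ c : E →ₗ[ℝ] ℝ, ∀ v ∈ V y, 0 ≤ c v ∧ (c v = 0 ↔ v ∈ V x)
  face : ∀ y, y ≠ ⊤ → ∀ c : E →ₗ[ℝ] ℝ, (∀ v ∈ V y, 0 ≤ c v) →
    ∃ x, x ≤ y ∧ ∀ v, v ∈ V x ↔ v ∈ V y ∧ c v = 0
  pure : ∀ x, x ≠ ⊤ → ∃ F, x ≤ F ∧ F ≠ ⊤ ∧ ρ F + 1 = ρ ⊤
  thin : ∀ R F, Cv ρ R F → Cv ρ F ⊤ → ∃ w, Cv ρ R w ∧ Cv ρ w ⊤ ∧ w ≠ F ∧
    ∀ u, Cv ρ R u → Cv ρ u ⊤ → u = F ∨ u = w
  emb : ∀ B σ σ', Cv ρ B σ → Cv ρ B σ' → σ ≠ σ' → ρ σ + 2 ≤ ρ ⊤ → ∀ s s' : E → ℝ,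
    (∀ v, 0 ≤ s v) → (∀ v, 0 ≤ s' v) → ∑ v ∈ V σ, s v • v = ∑ v ∈ V σ', s' v • v →
    ∑ v ∈ V σ, s v • v ∈ Submodule.span ℝ (V B : Set E)

end Pool.Agent.Lib.MP_c8fb4d_co.Sph
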