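import Pool.Agent.Lib.MP_c8fb4d_co.SphDefs
import Pool.Agent.Lib.MP_c8fb4d_co.SphGeo
import Pool.Agent.Lib.MP_c8fb4d_co.Bridge

/-!
Cells of a complex of polytopes form a finite meet semilattice.
-/

namespace Pool.Agent.Lib.MP_c8fb4d_co.Sph

open Finset Module
open scoped Classical

variable {N : ℕ}

theorem br_exp1 {F G : Set (EuclideanSpace ℝ (Fin N))} (h : IsExposed ℝ F G) :
    ∃ y : ℝ × EuclideanSpace ℝ (Fin N) →ₗ[ℝ] ℝ, (∀ x ∈ F, 0 ≤ y (1, x)) ∧
      ∀ x, x ∈ G ↔ x ∈ F ∧ y (1, x) = 0 := by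
  rcases G.eq_empty_or_nonempty with rfl | hG
  · exact ⟨LinearMap.fst ℝ _ _, by simp, by simp⟩
  obtain ⟨l, hl⟩ := h hG
  obtain ⟨x0, hx0⟩ := hG
  rw [hl] at hx0
  set y : ℝ × EuclideanSpace ℝ (Fin N) →ₗ[ℝ] ℝ :=
    l x0 • LinearMap.fst ℝ _ _ - l.toLinearMap ∘ₗ LinearMap.snd ℝ _ _ with hy
  have hval : ∀ x, y (1, x) = l x0 - l x := by intro x; simp [hy]
  refine ⟨y, fun x hx => ?_, fun x => ?_⟩
  · rw [hval]; exact sub_nonneg.2 (hx0.2 x hx)
  · rw [hl, hval]
    constructor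
    · rintro ⟨h1, h2⟩
      exact ⟨h1, by linarith [h2 x0 hx0.1, hx0.2 x h1]⟩
    · rintro ⟨h1, h2⟩
      exact ⟨h1, fun z hz => by linarith [hx0.2 z hz]⟩

theorem br_exp2 {F : Set (EuclideanSpace ℝ (Fin N))} {y : ℝ × EuclideanSpace ℝ (Fin N) →ₗ[ℝ] ℝ}
    (h : ∀ x ∈ F, 0 ≤ y (1, x)) : IsExposed ℝ F {x | x ∈ F ∧ y (1, x) = 0} := by
  rintro ⟨x0, hx0, hx0'⟩
  refine ⟨LinearMap.toContinuousLinearMap (-(y ∘ₗ LinearMap.inr ℝ ℝ _)), ?_⟩
  have hval : ∀ x, LinearMap.toContinuousLinearMap (-(y ∘ₗ LinearMap.inr ℝ ℝ _)) x =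
      y (1, 0) - y (1, x) := by
    intro x
    rw [← map_sub]
    simp [← map_neg]
  ext x
  simp only [Set.mem_ofPred_eq, hval]
  constructor
  · rintro ⟨h1, h2⟩
    exact ⟨h1, fun z hz => by linarith [h z hz]⟩
  · rintro ⟨h1, h2⟩
    exact ⟨h1, by linarith [h x h1, h2 x0 hx0]⟩

theorem br_hull (S : Finset (EuclideanSpace ℝ (Fin N)))
    {y : ℝ × EuclideanSpace ℝ (Fin N) →ₗ[ℝ] ℝ} (h : ∀ p ∈ S, 0 ≤ y (1, p)) {x}
    (hx : x ∈ convexHull ℝ (S : Set (EuclideanSpace ℝ (Fin N)))) :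
    0 ≤ y (1, x) ∧ (y (1, x) = 0 ↔ x ∈ convexHull ℝ
      ((S.filter fun p => y (1, p) = 0 : Finset _) : Set (EuclideanSpace ℝ (Fin N)))) := by
  have h1 := hull_face (Subtype.val : S → _) (y := y)
    (G := univ.filter fun i : S => y (1, i.1) = 0) (fun i => h i.1 i.2)
    (fun i => by simp [hom]) (x := x) (by simpa using hx)
  have e : (Subtype.val : S → _) '' ((univ.filter fun i : S => y (1, i.1) = 0 : Finset S) : Set S)
      = ((S.filter fun p => y (1, p) = 0 : Finset _) : Set (EuclideanSpace ℝ (Fin N))) := by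
    ext p
    simp only [Set.mem_image, coe_filter, mem_univ, true_and, Set.mem_ofPred_eq, Subtype.exists,
      exists_and_left, exists_prop]
    constructor
    · rintro ⟨q, h1, h2, rfl⟩; exact ⟨h2, h1⟩
    · rintro ⟨h1, h2⟩; exact ⟨p, h2, h1, rfl⟩
  rwa [e] at h1

/-- Homogenization of a finite set of points. -/
noncomputable def brV (S : Finset (EuclideanSpace ℝ (Fin N))) :
    Finset (ℝ × EuclideanSpace ℝ (Fin N)) := S.image fun p => (1, p)

theorem br_mem_V {S : Finset (EuclideanSpace ℝ (Fin N))} {v : ℝ × EuclideanSpace ℝ (Fin N)} :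
    v ∈ brV S ↔ ∃ p ∈ S, (1, p) = v := mem_image

theorem br_rank {S : Finset (EuclideanSpace ℝ (Fin N))} (hS : S.Nonempty) :
    finrank ℝ (Submodule.span ℝ (brV S : Set (ℝ × EuclideanSpace ℝ (Fin N)))) =
      finrank ℝ (vectorSpan ℝ (S : Set (EuclideanSpace ℝ (Fin N)))) + 1 := by
  obtain ⟨p, hp⟩ := hS
  have h := rk_hom (Subtype.val : S → _) (G := univ) ⟨⟨p, hp⟩, mem_univ _⟩
  have e1 : (Subtype.val : S → _) '' ((univ : Finset S) : Set S)
      = (S : Set (EuclideanSpace ℝ (Fin N))) := by simp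
  have e2 : hom (Subtype.val : S → _) '' ((univ : Finset S) : Set S)
      = (brV S : Set (ℝ × EuclideanSpace ℝ (Fin N))) := by
    ext v
    simp only [coe_univ, Set.image_univ, Set.mem_range, Subtype.exists, hom, mem_coe, br_mem_V,
      exists_prop]
  rw [rk, sp, e1, e2] at h
  exact h

theorem br_mem_span {S : Finset (EuclideanSpace ℝ (Fin N))} {x}
    (hx : x ∈ convexHull ℝ (S : Set (EuclideanSpace ℝ (Fin N)))) :
    ((1 : ℝ), x) ∈ Submodule.span ℝ (brV S : Set (ℝ × EuclideanSpace ℝ (Fin N))) := by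
  refine convexHull_min (t := {x | ((1 : ℝ), x) ∈
    Submodule.span ℝ (brV S : Set (ℝ × EuclideanSpace ℝ (Fin N)))}) ?_ ?_ hx
  · intro p hp
    exact Submodule.subset_span (br_mem_V.2 ⟨p, hp, rfl⟩)
  · intro x1 h1 x2 h2 α β _ _ hs
    have : ((1 : ℝ), α • x1 + β • x2) = α • ((1 : ℝ), x1) + β • ((1 : ℝ), x2) := by simp [hs]
    simp only [Set.mem_ofPred_eq] at h1 h2 ⊢
    rw [this]
    exact Submodule.add_mem _ (Submodule.smul_mem _ _ h1) (Submodule.smul_mem _ _ h2)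

theorem br_center (S : Finset (EuclideanSpace ℝ (Fin N))) (s : ℝ × EuclideanSpace ℝ (Fin N) → ℝ)
    (hs : ∀ v, 0 ≤ s v) {u : ℝ × EuclideanSpace ℝ (Fin N)} (hu : ∑ v ∈ brV S, s v • v = u) :
    (u.1 = 0 → u = 0) ∧
      (u.1 ≠ 0 → u.1⁻¹ • u.2 ∈ convexHull ℝ (S : Set (EuclideanSpace ℝ (Fin N)))) := by
  rw [brV, sum_image (fun a _ b _ e => (Prod.ext_iff.1 e).2)] at hu
  have h1 : u.1 = ∑ p ∈ S, s (1, p) := by rw [← hu, Prod.fst_sum]; simp
  have h2 : u.2 = ∑ p ∈ S, s (1, p) • p := by rw [← hu, Prod.snd_sum]; simp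
  constructor
  · intro h
    rw [h1, sum_eq_zero_iff_of_nonneg (fun p _ => hs _)] at h
    rw [← hu]
    exact sum_eq_zero fun p hp => by rw [h p hp, zero_smul]
  · intro h
    have h3 : 0 ≤ u.1 := by rw [h1]; exact sum_nonneg fun p _ => hs _
    rw [h2, smul_sum]
    simp only [smul_smul]
    refine (convex_convexHull ℝ _).sum_mem (fun p _ => mul_nonneg (inv_nonneg.2 h3) (hs _)) ?_
      (fun p hp => subset_convexHull _ _ hp)
    rw [← mul_sum, ← h1, inv_mul_cancel₀ h]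

theorem br_cdim_zero {F : Set (EuclideanSpace ℝ (Fin N))} (h : cdim F = 0) : F.Subsingleton := by
  intro x hx y hy
  have h1 := vsub_mem_vectorSpan ℝ hx hy
  rw [cdim, Submodule.finrank_eq_zero] at h
  rw [h, Submodule.mem_bot] at h1
  exact vsub_eq_zero_iff_eq.1 h1

variable {K : Set (Set (EuclideanSpace ℝ (Fin N)))}

/-- The cells of the complex together with the empty cell. -/
structure BrCell (_hK : IsComplex K) : Type where
  val : Set (EuclideanSpace ℝ (Fin N))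
  prop : val ∈ K ∨ val = ∅

theorem br_ext {hK : IsComplex K} {F G : BrCell hK} (h : F.1 = G.1) : F = G := by
  cases F; cases G; cases h; rfl

variable (hK : IsComplex K)

noncomputable instance : Fintype (BrCell hK) :=
  have := (hK.finite.union (Set.finite_singleton ∅)).to_subtype
  have : Finite (BrCell hK) := Finite.of_injective
    (fun F => (⟨F.1, F.2⟩ : ↥(K ∪ {∅}))) fun _ _ e => br_ext (congrArg Subtype.val e)
  Fintype.ofFinite _

/-- A finite set of points that contains generators of all cells. -/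
noncomputable def brGens : Finset (EuclideanSpace ℝ (Fin N)) :=
  hK.finite.toFinset.biUnion fun F => if h : F ∈ K then (hK.polytope F h).choose else ∅

/-- The generators lying in a cell. -/
noncomputable def brGen (F : Set (EuclideanSpace ℝ (Fin N))) : Finset (EuclideanSpace ℝ (Fin N)) :=
  (brGens hK).filter (· ∈ F)

variable {hK}

theorem br_mem_gen {F : Set (EuclideanSpace ℝ (Fin N))} {p} :
    p ∈ brGen hK F ↔ p ∈ brGens hK ∧ p ∈ F := mem_filter

theorem br_hull_gen {F : Set (EuclideanSpace ℝ (Fin N))} (hF : F ∈ K ∨ F = ∅) :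
    convexHull ℝ (brGen hK F : Set (EuclideanSpace ℝ (Fin N))) = F := by
  rcases hF with h | rfl
  · have h1 := (hK.polytope F h).choose_spec.2
    apply Set.Subset.antisymm
    · refine convexHull_min (fun p hp => (br_mem_gen.1 hp).2) ?_
      rw [h1]; exact convex_convexHull ℝ _
    · conv_lhs => rw [h1]
      refine convexHull_mono fun p hp => br_mem_gen.2 ⟨?_, ?_⟩
      · exact mem_biUnion.2 ⟨F, hK.finite.mem_toFinset.2 h, by rw [dif_pos h]; exact hp⟩
      · rw [h1]; exact subset_convexHull _ _ hp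
  · simp [brGen]

theorem br_face (hK : IsComplex K) {F G : Set (EuclideanSpace ℝ (Fin N))} (hF : F ∈ K ∨ F = ∅)
    (h : IsExposed ℝ F G) : G ∈ K ∨ G = ∅ := by
  rcases G.eq_empty_or_nonempty with rfl | hG
  · exact Or.inr rfl
  rcases hF with hF | rfl
  · exact Or.inl (hK.face F hF G hG h)
  · exact Or.inr (Set.subset_empty_iff.1 h.subset)

theorem br_trans (hK : IsComplex K) {F G T : Set (EuclideanSpace ℝ (Fin N))} (hF : F ∈ K ∨ F = ∅)
    (h1 : IsExposed ℝ F G) (h2 : IsExposed ℝ G T) : IsExposed ℝ F T := by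
  have hT := br_face hK (br_face hK hF h1) h2
  obtain ⟨y, hy, hy'⟩ := br_exp1 h1
  obtain ⟨z, hz, hz'⟩ := br_exp1 h2
  have a1 : IsFace (hom (Subtype.val : brGen hK F → _))
      (univ.filter fun i : brGen hK F => i.1 ∈ G) :=
    ⟨y, fun i => hy _ (br_mem_gen.1 i.2).2, fun i => by
      simp only [mem_filter, mem_univ, true_and, hy', hom, (br_mem_gen.1 i.2).2]⟩
  obtain ⟨w, hw, hw'⟩ := a1.trans (y := z) (fun i hi => hz _ (mem_filter.1 hi).2)
  have a2 : ∀ p ∈ brGen hK F, 0 ≤ w (1, p) := fun p hp => hw ⟨p, hp⟩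
  have a3 : (brGen hK F).filter (fun p => w (1, p) = 0) = brGen hK T := by
    ext p
    rw [mem_filter]
    constructor
    · rintro ⟨b1, b2⟩
      have := (hw' ⟨p, b1⟩).2 b2
      simp only [mem_filter, mem_univ, true_and, hom] at this
      exact br_mem_gen.2 ⟨(br_mem_gen.1 b1).1, (hz' p).2 this⟩
    · intro b
      obtain ⟨b1, b2⟩ := br_mem_gen.1 b
      have b3 : p ∈ brGen hK F := br_mem_gen.2 ⟨b1, h1.subset (h2.subset b2)⟩
      refine ⟨b3, (hw' ⟨p, b3⟩).1 ?_⟩
      simp only [mem_filter, mem_univ, true_and, hom]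
      exact (hz' p).1 b2
  have a4 : ∀ x ∈ F, 0 ≤ w (1, x) ∧ (w (1, x) = 0 ↔ x ∈ T) := by
    intro x hx
    have := br_hull (brGen hK F) a2 (x := x) (by rw [br_hull_gen hF]; exact hx)
    rwa [a3, br_hull_gen hT] at this
  have a5 : T = {x | x ∈ F ∧ w (1, x) = 0} := by
    ext x
    exact ⟨fun hx => ⟨h1.subset (h2.subset hx), (a4 x (h1.subset (h2.subset hx))).2.2 hx⟩,
      fun hx => (a4 x hx.1).2.1 hx.2⟩
  rw [a5]
  exact br_exp2 fun x hx => (a4 x hx).1

instance : PartialOrder (BrCell hK) where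
  le := fun G F => IsExposed ℝ F.1 G.1
  le_refl := fun F => IsExposed.refl F.1
  le_trans := fun _ _ F h1 h2 => br_trans hK F.2 h2 h1
  le_antisymm := fun _ _ h1 h2 => br_ext (h2.antisymm h1)

theorem br_le {G F : BrCell hK} : G ≤ F ↔ IsExposed ℝ F.1 G.1 := Iff.rfl

instance : OrderBot (BrCell hK) where
  bot := ⟨∅, Or.inr rfl⟩
  bot_le := fun _ => isExposed_empty

theorem br_meet (F G : BrCell hK) :
    ∃ H : BrCell hK, H ≤ F ∧ H ≤ G ∧ ∀ T, T ≤ F → T ≤ G → T ≤ H := by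
  rcases F.2 with hF | hF
  · rcases G.2 with hG | hG
    · obtain ⟨H, h1, h2, h3⟩ := hK.meet _ hF _ hG
      exact ⟨⟨H, br_face hK F.2 h1⟩, h1, h2, fun T a b =>
        IsExposed.mono a h1.subset (h3 _ a b)⟩
    · have : G = ⊥ := br_ext hG
      exact ⟨G, this ▸ bot_le, le_rfl, fun T _ b => b⟩
  · have : F = ⊥ := br_ext hF
    exact ⟨F, le_rfl, this ▸ bot_le, fun T a _ => a⟩

noncomputable instance : SemilatticeInf (BrCell hK) where
  inf := fun F G => (br_meet F G).choose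
  inf_le_left := fun F G => (br_meet F G).choose_spec.1
  inf_le_right := fun F G => (br_meet F G).choose_spec.2.1
  le_inf := fun T F G => (br_meet F G).choose_spec.2.2 T

noncomputable instance brFintype : Fintype (WithTop (BrCell hK)) :=
  inferInstanceAs (Fintype (Option (BrCell hK)))

noncomputable instance brLattice : Lattice (WithTop (BrCell hK)) :=
  { (inferInstance : SemilatticeInf (WithTop (BrCell hK))) with
    sup := fun x y => (univ.filter fun z => x ≤ z ∧ y ≤ z).inf id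
    le_sup_left := fun _ _ => Finset.le_inf fun _ hz => (mem_filter.1 hz).2.1
    le_sup_right := fun _ _ => Finset.le_inf fun _ hz => (mem_filter.1 hz).2.2
    sup_le := fun _ _ z h1 h2 => Finset.inf_le (f := id) (mem_filter.2 ⟨mem_univ z, h1, h2⟩) }

end Pool.Agent.Lib.MP_c8fb4d_co.Sph
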