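import Pool.Agent.Lib.MP_c8fb4d_co.SphDefs
import Pool.Agent.Lib.MP_c8fb4d_co.SphGeo
import Pool.Agent.Lib.MP_c8fb4d_co.Bridge
import Pool.Agent.Lib.MP_c8fb4d_co.SphBridge0

/-!
The face lattice of a complex of polytopes.
-/

namespace Pool.Agent.Lib.MP_c8fb4d_co.Sph

open Finset Module
open scoped Classical

section aux

variable {N : ℕ} {K : Set (Set (EuclideanSpace ℝ (Fin N)))} {hK : IsComplex K}

/-- Rank function of the face lattice. -/
noncomputable def brRho (hK : IsComplex K) (d : ℕ) (x : WithTop (BrCell hK)) : ℕ :=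
  WithTop.recTopCoe (d + 1) (fun F => if F.1 = ∅ then 0 else cdim F.1 + 1) x

/-- Underlying set of an element of the face lattice. -/
def brUnd (hK : IsComplex K) (x : WithTop (BrCell hK)) : Set (EuclideanSpace ℝ (Fin N)) :=
  WithTop.recTopCoe ∅ (fun F => F.1) x

/-- A cell as an element of the face lattice. -/
def brMk (hK : IsComplex K) (G : Set (EuclideanSpace ℝ (Fin N))) (h : G ∈ K) :
    WithTop (BrCell hK) := WithTop.some (⟨G, Or.inl h⟩ : BrCell hK)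

theorem br_rho_top (d : ℕ) : brRho hK d ⊤ = d + 1 := rfl

theorem br_rho_coe (d : ℕ) (F : BrCell hK) :
    brRho hK d F = if F.1 = ∅ then 0 else cdim F.1 + 1 := rfl

theorem br_rho_bot (d : ℕ) : brRho hK d ⊥ = 0 := by
  change brRho hK d ((⊥ : BrCell hK) : WithTop (BrCell hK)) = 0
  rw [br_rho_coe]
  exact if_pos rfl

theorem br_ne_empty (hK : IsComplex K) {G : Set (EuclideanSpace ℝ (Fin N))} (h : G ∈ K) :
    G ≠ ∅ := by
  obtain ⟨S, ⟨p, hp⟩, rfl⟩ := hK.polytope G h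
  exact Set.Nonempty.ne_empty ⟨p, subset_convexHull _ _ hp⟩

theorem br_rho_mk (d : ℕ) {G : Set (EuclideanSpace ℝ (Fin N))} (h : G ∈ K) :
    brRho hK d (brMk hK G h) = cdim G + 1 := by
  rw [brMk, br_rho_coe, if_neg (br_ne_empty hK h)]

theorem br_und_mk {G : Set (EuclideanSpace ℝ (Fin N))} (h : G ∈ K) :
    brUnd hK (brMk hK G h) = G := rfl

theorem br_mk_le {G F : Set (EuclideanSpace ℝ (Fin N))} (h : G ∈ K) (h' : F ∈ K) :
    brMk hK G h ≤ brMk hK F h' ↔ IsExposed ℝ F G := WithTop.coe_le_coe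

theorem br_mk_inj {G F : Set (EuclideanSpace ℝ (Fin N))} (h : G ∈ K) (h' : F ∈ K) :
    brMk hK G h = brMk hK F h' ↔ G = F :=
  ⟨fun e => congrArg (brUnd hK) e, fun e => by subst e; rfl⟩

theorem br_mk_ne_top {G : Set (EuclideanSpace ℝ (Fin N))} (h : G ∈ K) : brMk hK G h ≠ ⊤ :=
  WithTop.coe_ne_top

theorem br_cases (x : WithTop (BrCell hK)) : x = ⊤ ∨ x = ⊥ ∨ ∃ G h, x = brMk hK G h := by
  induction x using WithTop.recTopCoe with
  | top => exact Or.inl rfl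
  | coe F =>
    obtain ⟨F, h | rfl⟩ := F
    · exact Or.inr (Or.inr ⟨F, h, rfl⟩)
    · exact Or.inr (Or.inl rfl)

theorem br_rho_zero {d : ℕ} {x : WithTop (BrCell hK)} (h : brRho hK d x = 0) : x = ⊥ := by
  rcases br_cases x with rfl | rfl | ⟨G, hG, rfl⟩
  · rw [br_rho_top] at h; omega
  · rfl
  · rw [br_rho_mk] at h; omega

theorem br_cv_lt {d : ℕ} {F H : WithTop (BrCell hK)} (h : Cv (brRho hK d) F H) : F < H := by
  refine lt_of_le_of_ne h.1 fun e => ?_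
  have := h.2
  rw [e] at this
  omega

theorem br_cv_iff {d m : ℕ} {H : WithTop (BrCell hK)} {K' : Set (Set (EuclideanSpace ℝ (Fin N)))}
    (hK' : ∀ G, G ∈ K' ↔ ∃ h : G ∈ K, brMk hK G h < H) (hH : brRho hK d H = m + 2)
    (F : WithTop (BrCell hK)) :
    Cv (brRho hK d) F H ↔ ∃ G h, F = brMk hK G h ∧ G ∈ cells K' m := by
  constructor
  · intro h
    have h1 := br_cv_lt h
    have h2 := h.2
    rcases br_cases F with rfl | rfl | ⟨G, hG, rfl⟩
    · exact absurd h1 not_top_lt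
    · rw [br_rho_bot] at h2; omega
    · rw [br_rho_mk] at h2
      exact ⟨G, hG, rfl, (hK' G).2 ⟨hG, h1⟩, by omega⟩
  · rintro ⟨G, hG, rfl, h1, h2⟩
    obtain ⟨_, h3⟩ := (hK' G).1 h1
    exact ⟨h3.le, by rw [br_rho_mk, h2, hH]⟩

theorem br_pure : ∀ {m : ℕ} {K' : Set (Set (EuclideanSpace ℝ (Fin N)))}
    {φ : Set (EuclideanSpace ℝ (Fin N)) → ℕ}, IsShelling m K' φ → IsPure K' m
  | 0, _, _, h => h.1
  | _ + 1, _, _, h => h.1

theorem br_sh (d : ℕ) : ∀ (m : ℕ) (H : WithTop (BrCell hK))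
    (K' : Set (Set (EuclideanSpace ℝ (Fin N)))) (φ : Set (EuclideanSpace ℝ (Fin N)) → ℕ),
    (∀ G, G ∈ K' ↔ ∃ h : G ∈ K, brMk hK G h < H) → brRho hK d H = m + 2 → IsShelling m K' φ →
    Sh (brRho hK d) (m + 2) H (fun x => φ (brUnd hK x)) := by
  intro m
  induction m with
  | zero =>
    intro H K' φ hK' hH hs
    refine ⟨fun F F' h1 h2 e => ?_, fun F hF => ⟨fun G hG ho => ?_, fun _ => 0, ⟨?_, ?_⟩, ?_⟩⟩
    · obtain ⟨G, hG, rfl, a⟩ := (br_cv_iff hK' hH F).1 h1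
      obtain ⟨G', hG', rfl, a'⟩ := (br_cv_iff hK' hH F').1 h2
      exact (br_mk_inj _ _).2 (hs.2 a a' e)
    · refine ⟨G, ⟨hG.le, ?_⟩, le_rfl, ho⟩
      obtain ⟨F, hF', rfl, a⟩ := (br_cv_iff hK' hH F).1 hF
      rcases br_cases G with rfl | rfl | ⟨G, hG', rfl⟩
      · exact absurd hG not_top_lt
      · rw [br_rho_bot, br_rho_mk, a.2]
      · exfalso
        apply hG.ne
        rw [br_mk_inj]
        have b1 := ((br_mk_le _ _).1 hG.le).subset
        obtain ⟨x, hx⟩ := Set.nonempty_iff_ne_empty.2 (br_ne_empty hK hG')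
        refine Set.Subset.antisymm b1 fun y hy => ?_
        rw [br_cdim_zero a.2 hy (b1 hx)]
        exact hx
    · intro R R' h1 h2 _
      have := hF.2
      have := h1.2
      have := h2.2
      rw [br_rho_zero (d := d) (x := R) (by omega), br_rho_zero (d := d) (x := R') (by omega)]
    · intro R hR
      have := hF.2
      have := hR.2
      have e : R = ⊥ := br_rho_zero (d := d) (by omega)
      refine ⟨fun G hG => absurd (e ▸ hG) not_lt_bot, fun _ => 0, trivial, fun T _ hT => ?_⟩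
      have := hT.2
      omega
    · intro R R' h1 h2 a b
      have := hF.2
      have := h1.2
      have := h2.2
      rw [br_rho_zero (d := d) (x := R) (by omega)] at a
      rw [br_rho_zero (d := d) (x := R') (by omega)] at b
      exact absurd a b
  | succ m ih =>
    intro H K' φ hK' hH hs
    obtain ⟨-, hinj, hloc⟩ := hs
    refine ⟨fun F F' h1 h2 e => ?_, fun F hF => ?_⟩
    · obtain ⟨G, hG, rfl, a⟩ := (br_cv_iff hK' hH F).1 h1
      obtain ⟨G', hG', rfl, a'⟩ := (br_cv_iff hK' hH F').1 h2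
      exact (br_mk_inj _ _).2 (hinj a a' e)
    have hFH := br_cv_lt hF
    obtain ⟨F, hF', rfl, a⟩ := (br_cv_iff hK' hH F).1 hF
    obtain ⟨hp, ψ, hψ, hord⟩ := hloc F a
    have hb : ∀ G, G ∈ bdry K' F ↔ ∃ h : G ∈ K, brMk hK G h < brMk hK F hF' := by
      intro G
      constructor
      · rintro ⟨b1, b2, b3⟩
        obtain ⟨h, -⟩ := (hK' G).1 b1
        exact ⟨h, lt_of_le_of_ne ((br_mk_le _ _).2 b2) fun e => b3 ((br_mk_inj _ _).1 e)⟩
      · rintro ⟨h, b⟩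
        exact ⟨(hK' G).2 ⟨h, b.trans hFH⟩, (br_mk_le _ _).1 b.le,
          fun e => b.ne ((br_mk_inj _ _).2 e)⟩
    have hr : brRho hK d (brMk hK F hF') = m + 2 := by rw [br_rho_mk, a.2]
    have hold : ∀ G (h : G ∈ K), G ∈ bdry K' F →
        (Old (brRho hK d) H (fun x => φ (brUnd hK x)) (brMk hK F hF') (brMk hK G h) ↔
          G ∈ earlier K' (m + 1) φ F) := by
      intro G h b
      constructor
      · rintro ⟨F', c1, c2, c3⟩
        obtain ⟨F', c4, rfl, c5⟩ := (br_cv_iff hK' hH F').1 c1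
        exact ⟨b, F', c5, c2, (br_mk_le _ _).1 c3⟩
      · rintro ⟨-, F', c1, c2, c3⟩
        obtain ⟨c4, -⟩ := (hK' F').1 c1.1
        exact ⟨brMk hK F' c4, (br_cv_iff hK' hH _).2 ⟨F', c4, rfl, c1⟩, c2, (br_mk_le _ _).2 c3⟩
    refine ⟨fun G hG ho => ?_, _, ih _ _ ψ hb hr hψ, fun R R' h1 h2 o1 o2 => ?_⟩
    · have hpure : IsPure (earlier K' (m + 1) φ F) m := by
        obtain ⟨F', c1, c2, -⟩ := ho
        obtain ⟨F', c4, rfl, c5⟩ := (br_cv_iff hK' hH F').1 c1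
        exact hp ⟨F', c5, c2⟩
      have key : ∀ T ∈ earlier K' (m + 1) φ F, ∃ R, ∃ h : R ∈ K, IsExposed ℝ R T ∧
          Cv (brRho hK d) (brMk hK R h) (brMk hK F hF') ∧
          Old (brRho hK d) H (fun x => φ (brUnd hK x)) (brMk hK F hF') (brMk hK R h) := by
        intro T hT
        obtain ⟨R, c1, c2⟩ := hpure.2 T hT
        obtain ⟨h, -⟩ := (hb R).1 c1.1.1
        exact ⟨R, h, c2, (br_cv_iff hb hr _).2 ⟨R, h, rfl, c1.1.1, c1.2⟩,
          (hold R h c1.1.1).2 c1.1⟩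
      rcases br_cases G with rfl | rfl | ⟨G, hG', rfl⟩
      · exact absurd hG not_top_lt
      · obtain ⟨T, hT⟩ := hpure.1
        obtain ⟨R, h, -, c1, c2⟩ := key T hT
        exact ⟨_, c1, bot_le, c2⟩
      · obtain ⟨R, h, c0, c1, c2⟩ := key G ((hold G hG' ((hb G).2 ⟨hG', hG⟩)).1 ho)
        exact ⟨_, c1, (br_mk_le _ _).2 c0, c2⟩
    · obtain ⟨R, hR, rfl, c1⟩ := (br_cv_iff hb hr R).1 h1
      obtain ⟨R', hR', rfl, c2⟩ := (br_cv_iff hb hr R').1 h2
      exact hord R ⟨(hold R hR c1.1).1 o1, c1.2⟩ R' c2 fun h => o2 ((hold R' hR' c2.1).2 h)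

/-- Generators of the cone over a cell. -/
noncomputable def brGV (hK : IsComplex K) (x : WithTop (BrCell hK)) :
    Finset (ℝ × EuclideanSpace ℝ (Fin N)) := brV (brGen hK (brUnd hK x))

theorem br_GV_coe (F : BrCell hK) : brGV hK F = brV (brGen hK F.1) := rfl

theorem br_top_iff (G : Set (EuclideanSpace ℝ (Fin N))) :
    G ∈ K ↔ ∃ h : G ∈ K, brMk hK G h < ⊤ :=
  ⟨fun h => ⟨h, lt_top_iff_ne_top.2 (br_mk_ne_top h)⟩, fun ⟨h, _⟩ => h⟩

/-- The geometric realisation of the face lattice. -/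
noncomputable def brGeo {d : ℕ} (hd : 2 ≤ d) (hK : IsComplex K) (hp : IsPure K (d - 1))
    (hthin : ∀ R ∈ cells K (d - 2), {F | F ∈ cells K (d - 1) ∧ IsExposed ℝ F R}.ncard = 2)
    (hfold : ∀ k, k + 3 ≤ d → ∀ R ∈ cells K k, ∀ F ∈ cells K (k + 1), ∀ G ∈ cells K (k + 1),
      F ≠ G → IsExposed ℝ F R → IsExposed ℝ G R → F ∩ G ⊆ R) :
    Geo (WithTop (BrCell hK)) (ℝ × EuclideanSpace ℝ (Fin N)) where
  ρ := brRho hK d
  V := brGV hK
  e0 := LinearMap.fst ℝ _ _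
  ne := WithTop.coe_ne_top
  V_top := by
    change brV (brGen hK ∅) = ∅
    simp [brV, brGen]
  V_bot := by
    change brV (brGen hK ∅) = ∅
    simp [brV, brGen]
  pos := fun x v hv => by
    obtain ⟨p, -, rfl⟩ := br_mem_V.1 hv
    simp
  rank := fun x hx => by
    lift x to BrCell hK using hx
    rw [br_GV_coe, br_rho_coe]
    split_ifs with h
    · have : brV (brGen hK x.1) = ∅ := by rw [h]; simp [brV, brGen]
      rw [this]; simp
    · rw [br_rank, cdim, ← vectorSpan_hull, br_hull_gen x.2]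
      rw [nonempty_iff_ne_empty]
      intro e
      apply h
      rw [← br_hull_gen (hK := hK) x.2, e]
      simp
  mono := fun x y h hy => by
    lift y to BrCell hK using hy
    lift x to BrCell hK using ne_top_of_le_ne_top WithTop.coe_ne_top h
    have h1 : IsExposed ℝ y.1 x.1 := WithTop.coe_le_coe.1 h
    exact image_subset_image fun p hp =>
      br_mem_gen.2 ⟨(br_mem_gen.1 hp).1, h1.subset (br_mem_gen.1 hp).2⟩
  le_of := fun x x' y h h' hy hV => by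
    lift y to BrCell hK using hy
    lift x to BrCell hK using ne_top_of_le_ne_top WithTop.coe_ne_top h
    lift x' to BrCell hK using ne_top_of_le_ne_top WithTop.coe_ne_top h'
    have h1 : IsExposed ℝ y.1 x.1 := WithTop.coe_le_coe.1 h
    have h2 : IsExposed ℝ y.1 x'.1 := WithTop.coe_le_coe.1 h'
    refine WithTop.coe_le_coe.2 (IsExposed.mono h1 h2.subset ?_)
    rw [← br_hull_gen (hK := hK) x.2, ← br_hull_gen (hK := hK) x'.2]
    refine convexHull_mono fun p hp => ?_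
    obtain ⟨q, hq, e⟩ := br_mem_V.1 (hV (br_mem_V.2 ⟨p, hp, rfl⟩))
    exact (show q = p from (Prod.ext_iff.1 e).2) ▸ hq
  exp := fun x y h hy => by
    lift y to BrCell hK using hy
    lift x to BrCell hK using ne_top_of_le_ne_top WithTop.coe_ne_top h
    obtain ⟨c, h1, h2⟩ := br_exp1 (show IsExposed ℝ y.1 x.1 from WithTop.coe_le_coe.1 h)
    refine ⟨c, fun v hv => ?_⟩
    obtain ⟨p, hp, rfl⟩ := br_mem_V.1 hv
    obtain ⟨a1, a2⟩ := br_mem_gen.1 hp
    refine ⟨h1 p a2, fun e => br_mem_V.2 ⟨p, br_mem_gen.2 ⟨a1, (h2 p).2 ⟨a2, e⟩⟩, rfl⟩, fun e => ?_⟩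
    obtain ⟨q, hq, e⟩ := br_mem_V.1 e
    rw [← e]
    exact ((h2 q).1 (br_mem_gen.1 hq).2).2
  face := fun y hy c hc => by
    lift y to BrCell hK using hy
    have h1 : ∀ x ∈ y.1, 0 ≤ c (1, x) := fun x hx =>
      (br_hull (brGen hK y.1) (fun p hp => hc _ (br_mem_V.2 ⟨p, hp, rfl⟩))
        (by rw [br_hull_gen y.2]; exact hx)).1
    have h2 := br_exp2 h1
    refine ⟨((⟨_, br_face hK y.2 h2⟩ : BrCell hK) : WithTop (BrCell hK)),
      WithTop.coe_le_coe.2 h2, fun v => ?_⟩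
    constructor
    · intro hv
      obtain ⟨p, hp, rfl⟩ := br_mem_V.1 hv
      obtain ⟨a1, a2, a3⟩ := br_mem_gen.1 hp
      exact ⟨br_mem_V.2 ⟨p, br_mem_gen.2 ⟨a1, a2⟩, rfl⟩, a3⟩
    · rintro ⟨hv, a3⟩
      obtain ⟨p, hp, rfl⟩ := br_mem_V.1 hv
      obtain ⟨a1, a2⟩ := br_mem_gen.1 hp
      exact br_mem_V.2 ⟨p, br_mem_gen.2 ⟨a1, a2, a3⟩, rfl⟩
  pure := fun x hx => by
    have key : ∀ G ∈ K, ∃ F, ∃ h : F ∈ K, IsExposed ℝ F G ∧
        brRho hK d (brMk hK F h) + 1 = brRho hK d ⊤ := by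
      intro G hG
      obtain ⟨F, a1, a2⟩ := hp.2 G hG
      exact ⟨F, a1.1, a2, by rw [br_rho_mk, br_rho_top, a1.2]; omega⟩
    rcases br_cases x with rfl | rfl | ⟨G, hG, rfl⟩
    · exact absurd rfl hx
    · obtain ⟨G, hG⟩ := hp.1
      obtain ⟨F, h, -, a⟩ := key G hG
      exact ⟨_, bot_le, br_mk_ne_top h, a⟩
    · obtain ⟨F, h, b, a⟩ := key G hG
      exact ⟨_, (br_mk_le _ _).2 b, br_mk_ne_top h, a⟩
  thin := fun R F hR hF => by
    have ht : brRho hK d ⊤ = (d - 1) + 2 := by rw [br_rho_top]; omega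
    obtain ⟨F, hF', rfl, a⟩ := (br_cv_iff br_top_iff ht F).1 hF
    have h1 := br_cv_lt hR
    have h2 := hR.2
    rw [br_rho_mk, a.2] at h2
    rcases br_cases R with rfl | rfl | ⟨R, hR', rfl⟩
    · exact absurd h1 not_top_lt
    · rw [br_rho_bot] at h2; omega
    rw [br_rho_mk] at h2
    have h3 : ∃ W, W ≠ F ∧ ∀ U, (U ∈ cells K (d - 1) ∧ IsExposed ℝ U R) ↔ U = F ∨ U = W := by
      obtain ⟨u, w, h4, h5⟩ := Set.ncard_eq_two.1 (hthin R ⟨hR', by omega⟩)
      have h6 : ∀ U, (U ∈ cells K (d - 1) ∧ IsExposed ℝ U R) ↔ U = u ∨ U = w := fun U =>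
        Set.ext_iff.1 h5 U
      rcases (h6 F).1 ⟨a, (br_mk_le _ _).1 hR.1⟩ with rfl | rfl
      · exact ⟨w, h4.symm, h6⟩
      · exact ⟨u, h4, fun U => (h6 U).trans or_comm⟩
    obtain ⟨W, h4, h5⟩ := h3
    obtain ⟨b1, b2⟩ := (h5 W).2 (Or.inr rfl)
    refine ⟨brMk hK W b1.1, ⟨(br_mk_le _ _).2 b2, by rw [br_rho_mk, br_rho_mk, b1.2]; omega⟩,
      (br_cv_iff br_top_iff ht _).2 ⟨W, b1.1, rfl, b1⟩, fun e => h4 ((br_mk_inj _ _).1 e),
      fun U c1 c2 => ?_⟩
    obtain ⟨U, hU, rfl, c3⟩ := (br_cv_iff br_top_iff ht U).1 c2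
    rcases (h5 U).1 ⟨c3, (br_mk_le _ _).1 c1.1⟩ with rfl | rfl
    · exact Or.inl rfl
    · exact Or.inr rfl
  emb := fun B σ σ' h1 h2 hne hr s s' hs hs' e => by
    have a1 := h1.2
    have a2 := h2.2
    rw [br_rho_top] at hr
    have key : ∀ τ : WithTop (BrCell hK), brRho hK d B + 1 = brRho hK d τ →
        ∃ G h, τ = brMk hK G h ∧ cdim G = brRho hK d B := by
      intro τ h
      rcases br_cases τ with rfl | rfl | ⟨G, hG, rfl⟩
      · rw [br_rho_top] at h; omega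
      · rw [br_rho_bot] at h; omega
      · rw [br_rho_mk] at h; exact ⟨G, hG, rfl, by omega⟩
    obtain ⟨F, hF, rfl, b1⟩ := key σ a1
    obtain ⟨G, hG, rfl, b2⟩ := key σ' a2
    have hFG : F ≠ G := fun e => hne ((br_mk_inj _ _).2 e)
    set u := ∑ v ∈ brGV hK (brMk hK F hF), s v • v with hu
    have c1 := br_center (brGen hK F) s hs hu.symm
    have c2 := br_center (brGen hK G) s' hs' e.symm
    by_cases h0 : u.1 = 0
    · rw [c1.1 h0]; exact Submodule.zero_mem _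
    have c3 := c1.2 h0
    have c4 := c2.2 h0
    rw [br_hull_gen (Or.inl hF)] at c3
    rw [br_hull_gen (Or.inl hG)] at c4
    rcases br_cases B with rfl | rfl | ⟨R, hR, rfl⟩
    · exact absurd (br_cv_lt h1) not_top_lt
    · rw [br_rho_bot] at b1 b2
      exfalso
      apply hFG
      ext x
      exact ⟨fun hx => by rw [br_cdim_zero b1 hx c3]; exact c4,
        fun hx => by rw [br_cdim_zero b2 hx c4]; exact c3⟩
    · rw [br_rho_mk] at b1 b2
      rw [br_rho_mk] at hr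
      have c5 := hfold (cdim R) (by omega) R ⟨hR, rfl⟩ F ⟨hF, b1⟩ G ⟨hG, b2⟩ hFG
        ((br_mk_le _ _).1 h1.1) ((br_mk_le _ _).1 h2.1) ⟨c3, c4⟩
      rw [← br_hull_gen (hK := hK) (Or.inl hR)] at c5
      have c6 : u = u.1 • ((1 : ℝ), u.1⁻¹ • u.2) := by
        ext1
        · simp
        · simp [smul_smul, h0]
      rw [c6]
      exact Submodule.smul_mem _ _ (br_mem_span c5)

end aux

theorem bridge {N d : ℕ} (hd : 2 ≤ d) {K : Set (Set (EuclideanSpace ℝ (Fin N)))}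
    (hK : IsComplex K) {φ : Set (EuclideanSpace ℝ (Fin N)) → ℕ} (hs : IsShelling (d - 1) K φ)
    (hthin : ∀ R ∈ cells K (d - 2), {F | F ∈ cells K (d - 1) ∧ IsExposed ℝ F R}.ncard = 2)
    (hfold : ∀ k, k + 3 ≤ d → ∀ R ∈ cells K k, ∀ F ∈ cells K (k + 1), ∀ G ∈ cells K (k + 1),
      F ≠ G → IsExposed ℝ F R → IsExposed ℝ G R → F ∩ G ⊆ R) :
    ∃ (L : Type) (_ : Lattice L) (_ : Fintype L) (_ : BoundedOrder L)
      (g : Geo L (ℝ × EuclideanSpace ℝ (Fin N))) (ψ : L → ℕ),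
      g.ρ ⊤ = d + 1 ∧ Sh g.ρ (d + 1) ⊤ ψ ∧
        ∀ k, k ≤ d - 1 → (cells K k).ncard = (univ.filter fun z : L => g.ρ z = k + 1).card := by
  refine ⟨WithTop (BrCell hK), brLattice, brFintype, inferInstance,
    brGeo hd hK (br_pure hs) hthin hfold, fun x => φ (brUnd hK x), rfl, ?_, fun k hk => ?_⟩
  · have := br_sh (hK := hK) d (d - 1) ⊤ K φ br_top_iff (by rw [br_rho_top]; omega) hs
    rwa [show d - 1 + 2 = d + 1 by omega] at this
  · have key : ∀ z : WithTop (BrCell hK), brRho hK d z = k + 1 →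
        ∃ G h, z = brMk hK G h ∧ cdim G = k := by
      intro z h
      rcases br_cases z with rfl | rfl | ⟨G, hG, rfl⟩
      · rw [br_rho_top] at h; omega
      · rw [br_rho_bot] at h; omega
      · rw [br_rho_mk] at h; exact ⟨G, hG, rfl, by omega⟩
    rw [← Set.ncard_coe_finset]
    symm
    refine Set.ncard_congr (fun z _ => brUnd hK z) (fun z hz => ?_) (fun z z' hz hz' e => ?_)
      (fun G hG => ?_)
    · obtain ⟨G, h, rfl, a⟩ := key z (mem_filter.1 hz).2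
      exact ⟨h, a⟩
    · obtain ⟨G, h, rfl, -⟩ := key z (mem_filter.1 hz).2
      obtain ⟨G', h', rfl, -⟩ := key z' (mem_filter.1 hz').2
      exact (br_mk_inj _ _).2 e
    · refine ⟨brMk hK G hG.1, mem_filter.2 ⟨mem_univ _, ?_⟩, rfl⟩
      exact (br_rho_mk d hG.1).trans (by rw [hG.2])

end Pool.Agent.Lib.MP_c8fb4d_co.Sph
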