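import Pool.Agent.Lib.MP_c8fb4d_co.Defs

/-!
Complexes of convex polytopes and their shellings.
-/

namespace Pool.Agent.Lib.MP_c8fb4d_co.Sph

variable {N : ℕ}

/-- The dimension of (the affine hull of) a cell. -/
noncomputable def cdim (F : Set (EuclideanSpace ℝ (Fin N))) : ℕ :=
  Module.finrank ℝ (vectorSpan ℝ F)

/-- The `k`-dimensional cells of `K`. -/
def cells (K : Set (Set (EuclideanSpace ℝ (Fin N)))) (k : ℕ) :
    Set (Set (EuclideanSpace ℝ (Fin N))) :=
  {F | F ∈ K ∧ cdim F = k}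

/-- A finite family of nonempty convex polytopes that contains the nonempty faces of its members
and in which any two members have a largest common face (possibly empty). -/
structure IsComplex (K : Set (Set (EuclideanSpace ℝ (Fin N)))) : Prop where
  finite : K.Finite
  polytope : ∀ F ∈ K, ∃ S : Finset (EuclideanSpace ℝ (Fin N)), S.Nonempty ∧
    F = convexHull ℝ (S : Set (EuclideanSpace ℝ (Fin N)))
  face : ∀ F ∈ K, ∀ G, G.Nonempty → IsExposed ℝ F G → G ∈ K
  meet : ∀ F ∈ K, ∀ G ∈ K, ∃ H, IsExposed ℝ F H ∧ IsExposed ℝ G H ∧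
    ∀ T, IsExposed ℝ F T → IsExposed ℝ G T → T ⊆ H

/-- `K` is nonempty and every cell is a face of an `m`-dimensional cell. -/
def IsPure (K : Set (Set (EuclideanSpace ℝ (Fin N)))) (m : ℕ) : Prop :=
  K.Nonempty ∧ ∀ G ∈ K, ∃ F ∈ cells K m, IsExposed ℝ F G

/-- The boundary complex of the cell `F`: its faces in `K` other than `F`. -/
def bdry (K : Set (Set (EuclideanSpace ℝ (Fin N)))) (F : Set (EuclideanSpace ℝ (Fin N))) :
    Set (Set (EuclideanSpace ℝ (Fin N))) :=
  {G | G ∈ K ∧ IsExposed ℝ F G ∧ G ≠ F}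

/-- The part of the boundary complex of `F` that lies in the `m`-cells coming before `F` in the
order `φ`. -/
def earlier (K : Set (Set (EuclideanSpace ℝ (Fin N)))) (m : ℕ)
    (φ : Set (EuclideanSpace ℝ (Fin N)) → ℕ) (F : Set (EuclideanSpace ℝ (Fin N))) :
    Set (Set (EuclideanSpace ℝ (Fin N))) :=
  {G | G ∈ bdry K F ∧ ∃ F' ∈ cells K m, φ F' < φ F ∧ IsExposed ℝ F' G}

/-- `φ` numbers the `m`-cells of the pure `m`-dimensional complex `K` in a shelling order. -/
def IsShelling : ℕ → Set (Set (EuclideanSpace ℝ (Fin N))) →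
    (Set (EuclideanSpace ℝ (Fin N)) → ℕ) → Prop
  | 0, K, φ => IsPure K 0 ∧ Set.InjOn φ (cells K 0)
  | m + 1, K, φ => IsPure K (m + 1) ∧ Set.InjOn φ (cells K (m + 1)) ∧
      ∀ F ∈ cells K (m + 1),
        ((∃ F' ∈ cells K (m + 1), φ F' < φ F) → IsPure (earlier K (m + 1) φ F) m) ∧
        ∃ ψ, IsShelling m (bdry K F) ψ ∧
          ∀ R ∈ cells (earlier K (m + 1) φ F) m, ∀ R' ∈ cells (bdry K F) m,
            R' ∉ earlier K (m + 1) φ F → ψ R < ψ R'

end Pool.Agent.Lib.MP_c8fb4d_co.Sph
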