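import Pool.Agent.Lib.MP_c8fb4d_co.SphU
import Pool.Agent.Lib.MP_c8fb4d_co.SphML
import Pool.Agent.Lib.MP_c8fb4d_co.AllCyc

/-!
The comparison with the cyclic polytope for realised shellable lattices.
-/

namespace Pool.Agent.Lib.MP_c8fb4d_co.Sph

open Module Finset
open scoped Classical

variable {L E : Type} [Lattice L] [Fintype L] [BoundedOrder L] [AddCommGroup E] [Module ℝ E]
  [FiniteDimensional ℝ E] {g : Geo L E}

theorem Geo.DS.tab (D : g.DS) {m : ML L} (hm : m.ρ = g.ρ) {d : ℕ} (hd : g.ρ ⊤ = d + 1) :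
    Tab d (m.f ⊥ ⊤ d) fun t r => finrank ℝ (D.U t r) where
  pas := fun _ _ h => D.pascal h
  zero := fun _ => Submodule.finrank_mono (D.U_succ_le (Nat.zero_le _))
  inc := fun _ _ _ h1 h2 _ h4 => D.inc h1 h2 h4
  kk := fun _ _ h1 h2 h3 => D.kk hm h1 (by omega) h3
  dual := fun _ _ h => D.dual hm hd h

theorem compare_geo {d : ℕ} (hd : 2 ≤ d) (ht : g.ρ ⊤ = d + 1) {ψ : L → ℕ}
    (hs : Sh g.ρ (d + 1) ⊤ ψ) {n : ℕ} (hn : d + 1 ≤ n)
    (h : (faceML (hom (cyc d n))).f ⊥ ⊤ d ≤ (univ.filter fun z : L => g.ρ z = d).card) (r : ℕ)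
    (hr : 1 ≤ r) (hr' : r ≤ d) :
    (faceML (hom (cyc d n))).f ⊥ ⊤ r ≤ (univ.filter fun z : L => g.ρ z = r).card := by
  rcases hr'.eq_or_lt with rfl | hr'
  · exact h
  obtain ⟨m, hm⟩ := exists_ml g.ρ (fun _ _ h => Geo.ρ_lt h) Geo.co Geo.dia ψ (ht ▸ hs)
  have hf : ∀ k, (univ.filter fun z : L => g.ρ z = k).card = m.f ⊥ ⊤ k := fun k => by
    simp [ML.f, ML.I, hm]
  rw [hf] at h ⊢
  obtain ⟨y, rfl⟩ : ∃ y, n = y + d := ⟨n - d, by omega⟩
  obtain ⟨D⟩ := g.exists_ds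
  obtain ⟨B, b1, b2, b3⟩ := cyc_table (d := d) (y := y) (by omega) (by omega)
  refine ((D.tab hm ht).main hd (by omega) b1 (fun i j e => ?_) hr hr' ?_
    (b3 r hr'.le)).trans (D.finrank_self hm r)
  · rw [b2 i j e]
    exact_mod_cast h
  · refine (f_cyc_le hr'.le ⊤).trans (le_of_eq ?_)
    congr 1
    exact card_fin _

end Pool.Agent.Lib.MP_c8fb4d_co.Sph
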