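import Pool.Agent.Lib.MP_c8fb4d_co.SphBase
import Pool.Agent.Lib.MP_c8fb4d_co.AllNum

/-!
The restriction theorem without general position.
-/

namespace Pool.Agent.Lib.MP_c8fb4d_co.Sph

open Module Finset
open scoped Classical

set_option linter.unusedSectionVars false

variable {L E : Type} [Lattice L] [Fintype L] [BoundedOrder L] [AddCommGroup E] [Module ℝ E]
  [FiniteDimensional ℝ E]

theorem sum_ite_add {A C : Finset E} (h : A ⊆ C) {v : E} (hv : v ∈ C) (f : E → ℝ) (r : ℝ) :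
    ∑ u ∈ C, ((if u ∈ A then f u else 0) + if u = v then r else 0) • u =
      ∑ u ∈ A, f u • u + r • v := by
  simp [add_smul, sum_add_distrib, ite_smul, sum_ite_mem, inter_eq_right.2 h, hv]

namespace Geo

variable {g : Geo L E}

theorem no_fold {B σ σ' : L} (h : Cv g.ρ B σ) (h' : Cv g.ρ B σ') (hr : g.ρ σ + 2 ≤ g.ρ ⊤)
    {η : E →ₗ[ℝ] ℝ} (h0 : ∀ u ∈ g.sp B, η u = 0) (h1 : ∀ v ∈ g.V σ, v ∉ g.V B → 0 < η v)
    (h2 : ∀ v ∈ g.V σ', v ∉ g.V B → 0 < η v) (e : g.sp σ' ≤ g.sp σ) : σ = σ' := by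
  by_contra hne
  have r1 := h.2
  have r2 := h'.2
  have t1 : σ ≠ ⊤ := ne_top_of_ρ (g := g) (by omega)
  have t2 : σ' ≠ ⊤ := ne_top_of_ρ (g := g) (by omega)
  obtain ⟨v, hv, hv'⟩ := exists_not_mem (g := g) le_rfl h.1 t1 (cv_lt h).not_ge
  obtain ⟨v', hw, hw'⟩ := exists_not_mem (g := g) le_rfl h'.1 t2 (cv_lt h').not_ge
  have m := e (mem_sp hw)
  rw [sp_eq_sup h t1 (mem_sp hv) fun c => hv' (mem_of_sp h.1 t1 hv c)] at m
  obtain ⟨b, hb, q, hq, e1⟩ := Submodule.mem_sup.1 m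
  obtain ⟨r, rfl⟩ := Submodule.mem_span_singleton.1 hq
  have p1 := h1 v hv hv'
  have p2 := h2 v' hw hw'
  have p3 : 0 < r * η v := by
    rw [← e1, map_add, h0 b hb, map_smul, zero_add] at p2
    exact p2
  have p4 : 0 < r := (mul_pos_iff_of_pos_right p1).1 p3
  obtain ⟨β, -, hβ⟩ := Submodule.mem_span_finset.1 hb
  set M : ℝ := ∑ u ∈ g.V B, |β u| with hM
  have hM0 : 0 ≤ M := sum_nonneg fun _ _ => abs_nonneg _
  have k1 := sum_ite_add (g.mono B σ h.1 t1) hv (fun u => M + β u) r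
  have k2 := sum_ite_add (g.mono B σ' h'.1 t2) hw (fun _ => M) 1
  have k3 := g.emb B σ σ' h h' hne hr
    (fun u => (if u ∈ g.V B then M + β u else 0) + if u = v then r else 0)
    (fun u => (if u ∈ g.V B then M else 0) + if u = v' then 1 else 0)
    (fun u => add_nonneg (by
      split_ifs with c
      · have := single_le_sum (f := fun u => |β u|) (fun _ _ => abs_nonneg _) c
        have := neg_abs_le (β u)
        linarith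
      · exact le_rfl) (by split_ifs <;> positivity))
    (fun u => add_nonneg (by split_ifs <;> positivity) (by split_ifs <;> positivity))
    (by
      rw [k1, k2, one_smul, ← e1, ← hβ]
      simp only [add_smul, sum_add_distrib, add_assoc])
  rw [k1] at k3
  have k4 := h0 _ k3
  rw [map_add, h0 _ (Submodule.sum_mem _ fun u hu => Submodule.smul_mem _ _ (mem_sp hu)),
    map_smul, zero_add] at k4
  exact p3.ne' k4

theorem pick {B : L} {t : ℕ} {P : L → Prop} (ht : t < g.ρ ⊤) (hB : g.ρ B < t)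
    (hP : ∀ σ, P σ → B ≤ σ ∧ g.ρ σ = t) {σ0 : L} (h0 : P σ0) {η : E →ₗ[ℝ] ℝ}
    (h1 : ∀ u ∈ g.sp B, η u = 0) (h2 : ∀ σ, P σ → ∀ v ∈ g.V σ, v ∉ g.V B → 0 < η v)
    {z : E} (hz : z ∉ g.sp B) : ∃ x σ1, P σ1 ∧ Cv g.ρ B x ∧ x ≤ σ1 ∧
      (∃ θ : E →ₗ[ℝ] ℝ, (∀ u ∈ g.sp x, θ u = 0) ∧
        ∀ σ, P σ → x ≤ σ → ∀ v ∈ g.V σ, v ∉ g.V x → 0 < θ v) ∧
      (z ∉ g.sp x ∨ g.ρ B + 1 = t) := by
  have hnt : ∀ σ, P σ → σ ≠ ⊤ := fun σ h =>
    ne_top_of_ρ (g := g) (by have := (hP σ h).2; omega)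
  have hN : ∀ v, v ∈ (univ.filter P).biUnion (fun σ => g.V σ \ g.V B) ↔
      ∃ σ, P σ ∧ v ∈ g.V σ ∧ v ∉ g.V B := by simp
  obtain ⟨v0, a1, a2⟩ := exists_not_mem (g := g) le_rfl (hP σ0 h0).1 (hnt σ0 h0)
    (lt_of_ρ (g := g) (hP σ0 h0).1 (by have := (hP σ0 h0).2; omega)).not_ge
  obtain ⟨v1, b1, θ, b2, b3, b4, b5, b6⟩ := exists_ext (U := g.sp B)
    (N := (univ.filter P).biUnion fun σ => g.V σ \ g.V B) h1
    (fun v hv => by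
      obtain ⟨σ, c1, c2, c3⟩ := (hN v).1 hv
      exact h2 σ c1 v c2 c3) ⟨v0, (hN v0).2 ⟨σ0, h0, a1, a2⟩⟩ hz
  obtain ⟨σ1, c1, c2, c3⟩ := (hN v1).1 b1
  obtain ⟨x, d1, d2, d3, d4⟩ := exists_cover (hP σ1 c1).1 (hnt σ1 c1) c2 c3 b2 b3
    (fun v e e' => b4 v ((hN v).2 ⟨σ1, c1, e, e'⟩)) fun v e e' => b5 v ((hN v).2 ⟨σ1, c1, e, e'⟩)
  have hx := ne_top_of_le_ne_top (hnt σ1 c1) d2
  refine ⟨x, σ1, c1, d1, d2, ⟨θ, fun u hu => ?_, fun σ e1 e2 v e3 e4 => ?_⟩,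
    b6.imp (fun c => d4 ▸ c) fun c => ?_⟩
  · rw [d4] at hu
    exact (sup_le (fun u hu => b2 u hu) (Submodule.span_le.2 (by simpa using b3)) :
      _ ≤ LinearMap.ker θ) hu
  · have m := (hN v).2 ⟨σ, e1, e3, fun c => e4 (g.mono B x d1.1 hx c)⟩
    refine lt_of_le_of_ne (b4 v m) fun c => e4 (mem_of_sp e2 (hnt σ e1) e3 ?_)
    rw [d4]
    exact b5 v m c.symm
  · have : g.sp σ1 ≤ g.sp x := sp_le fun v hv => by
      by_cases e : v ∈ g.V B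
      · exact sp_mono d1.1 hx (mem_sp e)
      · rw [d4]
        exact c v ((hN v).2 ⟨σ1, c1, hv, e⟩)
    have e1 := Submodule.finrank_mono this
    rw [rank_sp hx, rank_sp (hnt σ1 c1), (hP σ1 c1).2] at e1
    have := d1.2
    omega

theorem vanish {t : ℕ} (ht : t + 2 ≤ g.ρ ⊤) {z : E} {w : L → ℝ} (hz : ∀ σ, w σ ≠ 0 → z ∈ g.sp σ)
    (hs : ∀ σ, w σ ≠ 0 → g.ρ σ = t) : ∀ (n : ℕ) (B : L), g.ρ B + (n + 1) = t →
    (∀ τ σ, B ≤ τ → Cv g.ρ τ σ → (∀ σ', Cv g.ρ τ σ' → σ' ≠ σ → w σ' = 0) → w σ = 0) →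
    ∀ η : E →ₗ[ℝ] ℝ, (∀ u ∈ g.sp B, η u = 0) →
    (∀ σ, B ≤ σ ∧ w σ ≠ 0 → ∀ v ∈ g.V σ, v ∉ g.V B → 0 < η v) → z ∉ g.sp B →
    ∀ σ, B ≤ σ → w σ = 0 := by
  intro n
  induction n with
  | zero =>
    intro B hB hbal η h1 h2 h3 σ hσ
    by_contra c
    have r := hs σ c
    have cv : Cv g.ρ B σ := ⟨hσ, by omega⟩
    refine c (hbal B σ le_rfl cv fun σ' c1 c2 => ?_)
    by_contra c3
    refine c2 (no_fold cv c1 (by omega) h1 (h2 σ ⟨hσ, c⟩) (h2 σ' ⟨c1.1, c3⟩) (le_of_eq ?_)).symm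
    rw [sp_eq_sup cv (ne_top_of_ρ (g := g) (by omega)) (hz σ c) h3,
      sp_eq_sup c1 (ne_top_of_ρ (g := g) (by have := hs σ' c3; omega)) (hz σ' c3) h3]
  | succ n ih =>
    intro B hB hbal η h1 h2 h3 σ hσ
    by_contra c
    obtain ⟨x, σ1, a1, a2, a3, ⟨θ, a4, a5⟩, a6⟩ := pick (g := g) (t := t)
      (P := fun σ => B ≤ σ ∧ w σ ≠ 0) (by omega) (by omega)
      (fun σ h => ⟨h.1, hs σ h.2⟩) ⟨hσ, c⟩ h1 h2 h3
    have r := a2.2
    exact a1.2 (ih x (by omega) (fun τ σ e => hbal τ σ (a2.1.trans e)) θ a4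
      (fun σ e => a5 σ ⟨a2.1.trans e.1, e.2⟩ e.1) (a6.resolve_right (by omega)) σ1 a3)

variable (g) in
/-- The hypotheses of the restriction theorem above the base `B`. -/
structure GH (lam : L → E →ₗ[ℝ] ℝ) (t : ℕ) (B : L) (R W : Submodule ℝ (L → ℝ)) : Prop where
  suppR : ∀ w ∈ R, ∀ σ, w σ ≠ 0 → B ≤ σ ∧ g.ρ σ = t
  bal : ∀ w ∈ R, ∀ τ σ, B ≤ τ → Cv g.ρ τ σ → (∀ σ', Cv g.ρ τ σ' → σ' ≠ σ → w σ' = 0) → w σ = 0
  mul : ∀ z : E, ∀ w ∈ R, (fun σ => lam σ z) * w ∈ W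
  pt : ∃ η : E →ₗ[ℝ] ℝ, (∀ u ∈ g.sp B, η u = 0) ∧
    ∀ σ, (∃ w ∈ R, w σ ≠ 0) → ∀ v ∈ g.V σ, v ∉ g.V B → 0 < η v

variable {lam : L → E →ₗ[ℝ] ℝ} {t : ℕ} {B : L} {R W : Submodule ℝ (L → ℝ)}

theorem GH.step (h : g.GH lam t B R W) (ht : t + 2 ≤ g.ρ ⊤) (hB : g.ρ B < t)
    (l0 : ∀ σ, σ ≠ ⊤ → ∀ x ∈ g.sp σ, lam σ x = 0)
    (l1 : ∀ σ, σ ≠ ⊤ → ∀ G, ∀ v ∈ g.V G, v ∉ g.sp σ → lam σ v ≠ 0) :
    finrank ℝ R = 0 ∨ ∃ (x : L) (R' W' R'' W'' : Submodule ℝ (L → ℝ)), g.ρ x = g.ρ B + 1 ∧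
      g.GH lam t B R' W' ∧ g.GH lam t x R'' W'' ∧ finrank ℝ R' + finrank ℝ R'' = finrank ℝ R ∧
      finrank ℝ W' + finrank ℝ W'' = finrank ℝ W ∧ 1 ≤ finrank ℝ W'' ∧
      finrank ℝ R ≤ finrank ℝ W' := by
  by_cases hR : R = ⊥
  · left
    rw [hR, finrank_bot]
  right
  obtain ⟨w1, hw1, hw1'⟩ := Submodule.exists_mem_ne_zero_of_ne_bot hR
  obtain ⟨σ1, hσ1⟩ := Function.ne_iff.1 hw1'
  obtain ⟨η, e1, e2⟩ := h.pt
  have hnt : ∀ σ, g.ρ σ = t → σ ≠ ⊤ := fun σ c => ne_top_of_ρ (g := g) (by omega)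
  obtain ⟨s1, s2⟩ := h.suppR w1 hw1 σ1 hσ1
  obtain ⟨z, z1, z2⟩ := exists_not_mem (g := g) le_rfl s1 (hnt σ1 s2)
    (lt_of_ρ (g := g) s1 (by omega)).not_ge
  obtain ⟨x, σ0, ⟨w0, hw0, hσ0⟩, b1, b2, ⟨θ, b4, b5⟩, -⟩ := pick (g := g) (t := t)
    (P := fun σ => ∃ w ∈ R, w σ ≠ 0) (by omega) hB
    (fun σ ⟨w, c1, c2⟩ => h.suppR w c1 σ c2) ⟨w1, hw1, hσ1⟩ e1 e2
    fun c => z2 (mem_of_sp s1 (hnt σ1 s2) z1 c)
  obtain ⟨a1, a2⟩ := h.suppR w0 hw0 σ0 hσ0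
  have hker : ∀ w : L → ℝ, w ∈ LinearMap.ker (ML.up x) ↔ ∀ σ, x ≤ σ → w σ = 0 := by
    intro w
    rw [LinearMap.mem_ker, funext_iff]
    refine forall_congr' fun σ => ?_
    rw [ML.up_apply]
    by_cases c : x ≤ σ <;> simp [c]
  have hup : ∀ (w : L → ℝ) σ, ML.up x w σ ≠ 0 → x ≤ σ ∧ w σ ≠ 0 := by
    intro w σ c
    rw [ML.up_apply] at c
    by_cases c' : x ≤ σ
    · exact ⟨c', by rwa [if_pos c'] at c⟩
    · exact absurd (if_neg c') c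
  refine ⟨x, R ⊓ LinearMap.ker (ML.up x), W ⊓ LinearMap.ker (ML.up x), R.map (ML.up x),
    W.map (ML.up x), b1.2.symm,
    ⟨fun w hw => h.suppR w hw.1, fun w hw => h.bal w hw.1,
      fun u w hw => ⟨h.mul u w hw.1, (hker _).2 fun σ c => ?_⟩,
      ⟨η, e1, fun σ ⟨w, c1, c2⟩ => e2 σ ⟨w, c1.1, c2⟩⟩⟩,
    ⟨?_, ?_, ?_, ⟨θ, b4, ?_⟩⟩, ?_, ?_, ?_, ?_⟩
  · rw [Pi.mul_apply, (hker w).1 hw.2 σ c, mul_zero]
  · rintro _ ⟨w, hw, rfl⟩ σ c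
    exact ⟨(hup w σ c).1, (h.suppR w hw σ (hup w σ c).2).2⟩
  · rintro _ ⟨w, hw, rfl⟩ τ σ c1 c2 c3
    rw [ML.up_apply, if_pos (c1.trans c2.1)]
    refine h.bal w hw τ σ (b1.1.trans c1) c2 fun σ' d1 d2 => ?_
    have := c3 σ' d1 d2
    rwa [ML.up_apply, if_pos (c1.trans d1.1)] at this
  · rintro u _ ⟨w, hw, rfl⟩
    refine ⟨_, h.mul u w hw, funext fun σ => ?_⟩
    simp only [ML.up_apply, Pi.mul_apply]
    split_ifs <;> simp
  · rintro σ ⟨_, ⟨w, hw, rfl⟩, c⟩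
    exact b5 σ ⟨w, hw, (hup w σ c).2⟩ (hup w σ c).1
  · rw [add_comm]
    exact finrank_split _ _
  · rw [add_comm]
    exact finrank_split _ _
  · obtain ⟨F, c1, c2, c3⟩ := g.pure σ0 (hnt σ0 a2)
    obtain ⟨u, c4, c5⟩ := exists_not_mem (g := g) le_rfl c1 c2
      (lt_of_ρ (g := g) c1 (by omega)).not_ge
    refine Nat.one_le_iff_ne_zero.2 fun e => ?_
    have e1 := Submodule.finrank_eq_zero.1 e
    have e2 : ML.up x ((fun σ => lam σ u) * w0) ∈ W.map (ML.up x) := ⟨_, h.mul u w0 hw0, rfl⟩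
    rw [e1, Submodule.mem_bot] at e2
    have e3 := congrFun e2 σ0
    rw [ML.up_apply, if_pos b2, Pi.mul_apply] at e3
    exact mul_ne_zero (l1 σ0 (hnt σ0 a2) F u c4 fun e => c5 (mem_of_sp c1 c2 c4 e)) hσ0 e3
  · have hx := ne_top_of_le_ne_top (hnt σ0 a2) b2
    obtain ⟨u, c2, c4⟩ := exists_not_mem (g := g) le_rfl b1.1 hx (cv_lt b1).not_ge
    let f : R →ₗ[ℝ] (W ⊓ LinearMap.ker (ML.up x) : Submodule ℝ (L → ℝ)) :=
      ((LinearMap.mulLeft ℝ fun σ => lam σ u).domRestrict R).codRestrict _ fun w =>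
        ⟨h.mul u w.1 w.2, (hker _).2 fun σ c => by
          change lam σ u * w.1 σ = 0
          by_cases c' : w.1 σ = 0
          · rw [c', mul_zero]
          · have := hnt σ (h.suppR w.1 w.2 σ c').2
            rw [l0 σ this u (sp_mono c this (mem_sp c2)), zero_mul]⟩
    refine LinearMap.finrank_le_finrank_of_injective (f := f) ?_
    rw [← LinearMap.ker_eq_bot, LinearMap.ker_eq_bot']
    rintro ⟨w, hw⟩ e
    have k1 : ∀ σ, lam σ u * w σ = 0 := fun σ => congrFun (congrArg Subtype.val e) σ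
    refine Subtype.ext (funext fun σ => ?_)
    by_contra c
    refine c (vanish ht (z := u) (fun σ c => ?_) (fun σ c => (h.suppR w hw σ c).2)
      (t - g.ρ B - 1) B (by omega) (h.bal w hw) η e1 (fun σ c => e2 σ ⟨w, hw, c.2⟩)
      (fun e => c4 (mem_of_sp b1.1 hx c2 e)) σ (h.suppR w hw σ c).1)
    by_contra c'
    exact mul_ne_zero (l1 σ (hnt σ (h.suppR w hw σ c).2) x u c2 c') c (k1 σ)

theorem GH.all (ht : t + 2 ≤ g.ρ ⊤) (l0 : ∀ σ, σ ≠ ⊤ → ∀ x ∈ g.sp σ, lam σ x = 0)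
    (l1 : ∀ σ, σ ≠ ⊤ → ∀ G, ∀ v ∈ g.V G, v ∉ g.sp σ → lam σ v ≠ 0) :
    ∀ (s : ℕ) (B : L), g.ρ B + (s + 1) = t → ∀ (n : ℕ) (R W : Submodule ℝ (L → ℝ)),
      finrank ℝ W = n → g.GH lam t B R W →
      finrank ℝ R = 0 ∨ Ub s (finrank ℝ R) ((finrank ℝ W : ℝ) - finrank ℝ R) := by
  intro s
  induction s with
  | zero =>
    intro B hB n R W _ h
    rcases h.step ht (by omega) l0 l1 with e | ⟨x, R', W', R'', W'', -, -, -, -, a, b, c⟩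
    · exact Or.inl e
    refine Or.inr ⟨0, ?_⟩
    have : (finrank ℝ R : ℝ) + 1 ≤ finrank ℝ W := by
      exact_mod_cast (by omega : finrank ℝ R + 1 ≤ finrank ℝ W)
    simp only [lp, vl]
    simp
    linarith
  | succ s ihs =>
    intro B hB n
    induction n using Nat.strong_induction_on with
    | _ n ih =>
    intro R W hn h
    rcases h.step ht (by omega) l0 l1 with
      e | ⟨x, R', W', R'', W'', a1, a2, a3, a4, a5, a6, a7⟩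
    · exact Or.inl e
    · have b1 := ih _ (by omega) R' W' rfl a2
      have b2 := ihs x (by omega) _ R'' W'' rfl a3
      rw [← a4]
      have a4' : (finrank ℝ R' : ℝ) + finrank ℝ R'' = finrank ℝ R := by exact_mod_cast a4
      have a5' : (finrank ℝ W' : ℝ) + finrank ℝ W'' = finrank ℝ W := by exact_mod_cast a5
      have a7' : (finrank ℝ R : ℝ) ≤ finrank ℝ W' := by exact_mod_cast a7
      refine ub_step b1 b2 (fun e => ?_) ?_ ?_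
      · rw [e]
        simp
      · push_cast
        linarith
      · push_cast
        linarith

/-- The restriction theorem at a binomial threshold. -/
theorem GH.inc {s z : ℕ} (h : g.GH lam (s + 1) ⊥ R W) (ht : s + 1 + 2 ≤ g.ρ ⊤)
    (l0 : ∀ σ, σ ≠ ⊤ → ∀ x ∈ g.sp σ, lam σ x = 0)
    (l1 : ∀ σ, σ ≠ ⊤ → ∀ G, ∀ v ∈ g.V G, v ∉ g.sp σ → lam σ v ≠ 0)
    (hz : s + 1 ≤ z) (hR : z.choose (s + 1) ≤ finrank ℝ R) :
    finrank ℝ R + z.choose s ≤ finrank ℝ W := by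
  rcases GH.all ht l0 l1 s ⊥ (by rw [ρ_bot]; omega) _ R W rfl h with e | e
  · have := Nat.choose_pos hz
    omega
  · have := e.use (z := z) (by omega) (by exact_mod_cast hR)
    have h2 : ((finrank ℝ R + z.choose s : ℕ) : ℝ) ≤ finrank ℝ W := by
      push_cast
      linarith
    exact_mod_cast h2

end Geo

end Pool.Agent.Lib.MP_c8fb4d_co.Sph
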