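import Pool.Agent.Lib.MP_c8fb4d_co.SphBase

/-!
Unit inner normals of covering pairs of cells and the diamond relation.
-/

namespace Pool.Agent.Lib.MP_c8fb4d_co.Sph

open Module Finset
open scoped Classical

set_option linter.unusedSectionVars false

variable {L E : Type} [Lattice L] [Fintype L] [BoundedOrder L] [AddCommGroup E] [Module ℝ E]
  [FiniteDimensional ℝ E]

namespace Geo

variable (g : Geo L E)

/-- `τ` is a facet of the cell `σ`. -/
def Cw (τ σ : L) : Prop := Cv g.ρ τ σ ∧ σ ≠ ⊤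

/-- `v` is the unit inner normal of the facet `τ` of `σ`. -/
def IsNu (σ τ : L) (v : E) : Prop :=
  v ∈ g.sp σ ∧ (∀ x ∈ g.sp τ, bf E v x = 0) ∧ bf E v v = 1 ∧ 0 < g.cov τ σ v

variable {g}

theorem Cw.le {τ σ : L} (h : g.Cw τ σ) : τ ≤ σ := h.1.1

theorem Cw.rk {τ σ : L} (h : g.Cw τ σ) : g.ρ τ + 1 = g.ρ σ := h.1.2

theorem Cw.ne {τ σ : L} (h : g.Cw τ σ) : τ ≠ ⊤ := (cv_lt h.1).ne_top

theorem Cw.exists {τ σ : L} (h : g.Cw τ σ) : ∃ v ∈ g.V σ, v ∉ g.V τ :=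
  exists_not_mem le_rfl h.le h.2 (cv_lt h.1).not_ge

theorem prop_cov {τ σ : L} (h : g.Cw τ σ) {i : E} (hi : i ∈ g.V σ) (hi' : i ∉ g.V τ)
    {y : E →ₗ[ℝ] ℝ} (hy : ∀ j ∈ g.sp τ, y j = 0) {x : E} (hx : x ∈ g.sp σ) :
    y x * g.cov τ σ i = y i * g.cov τ σ x := by
  rw [sp_eq_sup h.1 h.2 (mem_sp hi) fun e => hi' (mem_of_sp h.le h.2 hi e)] at hx
  obtain ⟨u, hu, w, hw, rfl⟩ := Submodule.mem_sup.1 hx
  obtain ⟨t, rfl⟩ := Submodule.mem_span_singleton.1 hw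
  simp only [map_add, map_smul, hy u hu, cov_sp h.le h.2 hu, smul_eq_mul]
  ring

theorem mem_sp_of_cov {τ σ : L} (h : g.Cw τ σ) {x : E} (hx : x ∈ g.sp σ)
    (h0 : g.cov τ σ x = 0) : x ∈ g.sp τ := by
  obtain ⟨i, hi, hi'⟩ := h.exists
  rw [sp_eq_sup h.1 h.2 (mem_sp hi) fun e => hi' (mem_of_sp h.le h.2 hi e)] at hx
  obtain ⟨u, hu, w, hw, rfl⟩ := Submodule.mem_sup.1 hx
  obtain ⟨t, rfl⟩ := Submodule.mem_span_singleton.1 hw
  have h3 := cov_pos h.le h.2 hi hi'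
  simp only [map_add, map_smul, cov_sp h.le h.2 hu, smul_eq_mul, zero_add] at h0
  have : t = 0 := (mul_eq_zero.1 h0).resolve_right h3.ne'
  simpa [this] using hu

theorem exists_nu {σ τ : L} (h : g.Cw τ σ) : ∃ v, g.IsNu σ τ v := by
  let f : g.sp σ →ₗ[ℝ] Module.Dual ℝ (g.sp τ) :=
    (bf E).compl₁₂ (g.sp σ).subtype (g.sp τ).subtype
  have hk : LinearMap.ker f ≠ ⊥ := by
    intro hk
    have h1 := LinearMap.finrank_le_finrank_of_injective (LinearMap.ker_eq_bot.1 hk)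
    rw [Subspace.dual_finrank_eq, rank_sp h.2, rank_sp h.ne] at h1
    have h2 := h.rk
    omega
  obtain ⟨⟨n, hn⟩, hn1, hn2⟩ := Submodule.exists_mem_ne_zero_of_ne_bot hk
  have hn0 : n ≠ 0 := fun e => hn2 (Subtype.ext e)
  have horth : ∀ x ∈ g.sp τ, bf E n x = 0 := fun x hx =>
    LinearMap.congr_fun (LinearMap.mem_ker.1 hn1) ⟨x, hx⟩
  have hc : g.cov τ σ n ≠ 0 := fun e => (bf_pos hn0).ne' (horth n (mem_sp_of_cov h hn e))
  have hp := bf_pos hn0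
  have hs : 0 < √(bf E n n) := Real.sqrt_pos.2 hp
  have hs2 : √(bf E n n) * √(bf E n n) = bf E n n := Real.mul_self_sqrt hp.le
  rcases lt_or_gt_of_ne hc with hc | hc
  · refine ⟨(-(√(bf E n n))⁻¹) • n, Submodule.smul_mem _ _ hn, fun x hx => by simp [horth x hx],
      ?_, ?_⟩
    · simp only [map_smul, LinearMap.smul_apply, smul_eq_mul]
      field_simp
      rw [sq, hs2]
    · rw [map_smul, smul_eq_mul]
      exact mul_pos_of_neg_of_neg (neg_neg_of_pos (inv_pos.2 hs)) hc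
  · refine ⟨((√(bf E n n))⁻¹) • n, Submodule.smul_mem _ _ hn, fun x hx => by simp [horth x hx],
      ?_, ?_⟩
    · simp only [map_smul, LinearMap.smul_apply, smul_eq_mul]
      field_simp
      rw [sq, hs2]
    · rw [map_smul, smul_eq_mul]
      exact mul_pos (inv_pos.2 hs) hc

theorem IsNu.sub_mem {σ τ : L} (h : g.Cw τ σ) {v : E} (hv : g.IsNu σ τ v) {x : E}
    (hx : x ∈ g.sp σ) : x - (g.cov τ σ x / g.cov τ σ v) • v ∈ g.sp τ := by
  refine mem_sp_of_cov h (Submodule.sub_mem _ hx (Submodule.smul_mem _ _ hv.1)) ?_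
  rw [map_sub, map_smul, smul_eq_mul, div_mul_cancel₀ _ hv.2.2.2.ne', sub_self]

theorem IsNu.unique {σ τ : L} (h : g.Cw τ σ) {u v : E} (hu : g.IsNu σ τ u)
    (hv : g.IsNu σ τ v) : u = v := by
  set t := g.cov τ σ u / g.cov τ σ v with ht
  have ht0 : 0 < t := div_pos hu.2.2.2 hv.2.2.2
  have h1 := hv.sub_mem h hu.1
  have h2 : u - t • v = 0 := by
    by_contra hc
    have h3 := bf_pos hc
    rw [map_sub (bf E), map_smul (bf E), LinearMap.sub_apply, LinearMap.smul_apply, hu.2.1 _ h1,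
      hv.2.1 _ h1] at h3
    simp at h3
  have h3 : u = t • v := sub_eq_zero.1 h2
  have h4 := hu.2.2.1
  rw [h3] at h4
  simp only [map_smul, LinearMap.smul_apply, smul_eq_mul, hv.2.2.1] at h4
  have : t = 1 := by nlinarith
  rw [h3, this, one_smul]

variable (g) in
/-- The unit inner normal. -/
noncomputable def nu (σ τ : L) : E := if h : g.Cw τ σ then (exists_nu h).choose else 0

theorem nu_spec {σ τ : L} (h : g.Cw τ σ) : g.IsNu σ τ (g.nu σ τ) := by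
  unfold nu
  rw [dif_pos h]
  exact (exists_nu h).choose_spec

theorem nu_of_not {σ τ : L} (h : ¬ g.Cw τ σ) : g.nu σ τ = 0 := dif_neg h

theorem cov_nu_pos {σ τ G π : L} (h : g.Cw τ σ) (hG : τ ≤ G) (hG' : ¬ σ ≤ G) (h1 : σ ≤ π)
    (h2 : G ≤ π) (hπ : π ≠ ⊤) : 0 < g.cov G π (g.nu σ τ) := by
  obtain ⟨i, hi, hi'⟩ := exists_not_mem (g := g) h1 h2 hπ hG'
  have hGt := ne_top_of_le_ne_top hπ h2
  have hiτ : i ∉ g.V τ := fun e => hi' (g.mono τ G hG hGt e)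
  have h3 := prop_cov h hi hiτ (y := g.cov G π)
    (fun j hj => cov_sp h2 hπ (sp_mono hG hGt hj)) (nu_spec h).1
  have h4 := mul_pos (cov_pos h2 hπ (g.mono σ π h1 hπ hi) hi') (nu_spec h).2.2.2
  rw [← h3] at h4
  exact (mul_pos_iff_of_pos_right (cov_pos h.le h.2 hi hiτ)).1 h4

theorem nu_two {τ σ σ' π : L} (h : g.Cw τ σ) (h' : g.Cw τ σ') (k : g.Cw σ π) (k' : g.Cw σ' π)
    (hne : σ ≠ σ') : g.nu π σ = (√(1 - bf E (g.nu σ τ) (g.nu σ' τ) ^ 2))⁻¹ •
      (g.nu σ' τ - bf E (g.nu σ τ) (g.nu σ' τ) • g.nu σ τ) := by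
  have hu := nu_spec h
  have hv := nu_spec h'
  set u := g.nu σ τ
  set v := g.nu σ' τ
  set c := bf E u v with hc
  have hle : ¬ σ' ≤ σ := fun e => hne (eq_of_ρ (g := g) e (by
    have := h.rk; have := h'.rk; omega)).symm
  have p1 : 0 < g.cov σ π v := cov_nu_pos h' h.le hle k'.le k.le k.2
  have p2 : g.cov σ π u = 0 := cov_sp k.le k.2 hu.1
  have p3 : g.cov σ π (v - c • u) = g.cov σ π v := by simp [p2]
  have hm0 : v - c • u ≠ 0 := fun e => by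
    rw [e, map_zero] at p3
    exact p1.ne p3
  have q1 : bf E (v - c • u) u = 0 := by
    simp [hu.2.2.1, bf_comm v u, hc]
  have q2 : bf E (v - c • u) (v - c • u) = 1 - c ^ 2 := by
    rw [map_sub, map_smul, q1]
    simp only [map_sub, map_smul, LinearMap.sub_apply, LinearMap.smul_apply, smul_eq_mul,
      hv.2.2.1, ← hc]
    ring
  have q3 : 0 < 1 - c ^ 2 := q2 ▸ bf_pos hm0
  have hs : 0 < √(1 - c ^ 2) := Real.sqrt_pos.2 q3
  have hs2 : √(1 - c ^ 2) * √(1 - c ^ 2) = 1 - c ^ 2 := Real.mul_self_sqrt q3.le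
  refine IsNu.unique k (nu_spec k) ⟨?_, fun x hx => ?_, ?_, ?_⟩
  · exact Submodule.smul_mem _ _ (Submodule.sub_mem _ (sp_mono k'.le k.2 hv.1)
      (Submodule.smul_mem _ _ (sp_mono k.le k.2 hu.1)))
  · have h1 := hu.sub_mem h hx
    have h2 : bf E (v - c • u) (x - (g.cov τ σ x / g.cov τ σ u) • u) = 0 := by
      rw [map_sub (bf E), map_smul (bf E), LinearMap.sub_apply, LinearMap.smul_apply,
        hu.2.1 _ h1, hv.2.1 _ h1]
      simp
    rw [map_sub, map_smul, q1, smul_zero, sub_zero] at h2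
    rw [map_smul, LinearMap.smul_apply, h2, smul_zero]
  · rw [map_smul, map_smul, LinearMap.smul_apply, q2, smul_eq_mul, smul_eq_mul]
    field_simp
    exact (Real.sq_sqrt q3.le).symm
  · rw [map_smul, p3, smul_eq_mul]
    exact mul_pos (inv_pos.2 hs) p1

theorem diamond_nu {τ σ σ' π : L} (h : g.Cw τ σ) (h' : g.Cw τ σ') (k : g.Cw σ π)
    (k' : g.Cw σ' π) (hne : σ ≠ σ') (y z : E →ₗ[ℝ] ℝ) :
    wedge y z (g.nu π σ) (g.nu σ τ) + wedge y z (g.nu π σ') (g.nu σ' τ) = 0 := by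
  rw [nu_two h h' k k' hne, nu_two h' h k' k hne.symm, bf_comm (g.nu σ' τ)]
  simp only [wedge, map_smul, map_sub, smul_eq_mul]
  ring

theorem diamond_sum (τ π : L) (y z : E →ₗ[ℝ] ℝ) :
    ∑ σ, wedge y z (g.nu π σ) (g.nu σ τ) = 0 := by
  by_cases hex : ∃ σ, g.Cw τ σ ∧ g.Cw σ π
  · obtain ⟨σ, h, k⟩ := hex
    obtain ⟨σ', b1, b2, b4, b5⟩ := dia τ σ π h.1 k.1
    have k' : g.Cw σ' π := ⟨b2, k.2⟩
    have h' : g.Cw τ σ' := ⟨b1, k'.ne⟩
    rw [← diamond_nu h h' k k' b4.symm y z, ← sum_pair (f := fun σ =>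
      wedge y z (g.nu π σ) (g.nu σ τ)) b4.symm]
    symm
    refine sum_subset (subset_univ _) fun u _ hu => ?_
    by_cases c1 : g.Cw τ u
    · by_cases c2 : g.Cw u π
      · exact absurd (by simpa using b5 u c1.1 c2.1) hu
      · simp [wedge, nu_of_not c2]
    · simp [wedge, nu_of_not c1]
  · refine sum_eq_zero fun u _ => ?_
    by_cases c1 : g.Cw τ u
    · simp [wedge, nu_of_not fun c2 => hex ⟨u, c1, c2⟩]
    · simp [wedge, nu_of_not c1]

end Geo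

end Pool.Agent.Lib.MP_c8fb4d_co.Sph
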