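import Pool.Agent.Lib.MP_c8fb4d_co.SphW

/-!
A generic flag of functionals and the dual weights attached to it.
-/

namespace Pool.Agent.Lib.MP_c8fb4d_co.Sph

open Module Finset
open scoped Classical

set_option linter.unusedSectionVars false

variable {L E : Type} [Lattice L] [Fintype L] [BoundedOrder L] [AddCommGroup E] [Module ℝ E]
  [FiniteDimensional ℝ E]

namespace Geo

variable (g : Geo L E)

/-- the first `ρ H` functionals are coordinates on the span of `H` -/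
def Sur (y : ℕ → E →ₗ[ℝ] ℝ) (H : L) : Prop :=
  ∀ b : ℕ → ℝ, ∃ x ∈ g.sp H, ∀ s < g.ρ H, y s x = b s

/-- the functional attached to a cell -/
structure Att (y : ℕ → E →ₗ[ℝ] ℝ) (σ : L) (lam : E →ₗ[ℝ] ℝ) : Prop where
  eq : ∃ co : ℕ → ℝ, ∀ x, lam x = y (g.ρ σ) x + ∑ s ∈ range (g.ρ σ), co s * y s x
  zero : ∀ x ∈ g.sp σ, lam x = 0
  ne : ∀ G, ∀ v ∈ g.V G, v ∉ g.sp σ → lam v ≠ 0
  gen : ∀ G, σ < G → G ≠ ⊤ → lam (g.ip G) ≠ 0
  supp : ∀ G, G ≠ ⊤ → σ ≤ G → g.dw σ lam G ≠ 0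

variable {g}

theorem Sur.inj {y : ℕ → E →ₗ[ℝ] ℝ} {H : L} (h : g.Sur y H) (hH : H ≠ ⊤) {x : E}
    (hx : x ∈ g.sp H) (h0 : ∀ s < g.ρ H, y s x = 0) : x = 0 := by
  let f : g.sp H →ₗ[ℝ] (Fin (g.ρ H) → ℝ) :=
    LinearMap.pi fun s => (y s.1).domRestrict (g.sp H)
  have hs : Function.Surjective f := fun b => by
    obtain ⟨x, hx, hb⟩ := h fun s => if hs : s < g.ρ H then b ⟨s, hs⟩ else 0
    refine ⟨⟨x, hx⟩, funext fun s => ?_⟩
    have := hb s.1 s.2
    rw [dif_pos s.2] at this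
    exact this
  have hi := (LinearMap.injective_iff_surjective_of_finrank_eq_finrank (f := f) (by
    rw [finrank_fin_fun]
    exact rank_sp hH)).2 hs
  have : (⟨x, hx⟩ : g.sp H) = 0 := hi (by
    rw [map_zero]
    exact funext fun s => h0 s.1 s.2)
  exact congrArg Subtype.val this

variable (g)

theorem exists_flag : ∀ T : ℕ, T ≤ g.ρ ⊤ → ∃ (y : ℕ → E →ₗ[ℝ] ℝ)
    (lam : L → E →ₗ[ℝ] ℝ), (∀ σ, g.ρ σ < T → g.Att y σ (lam σ)) ∧
      ∀ H, H ≠ ⊤ → g.ρ H ≤ T → g.Sur y H := by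
  intro T
  induction T with
  | zero =>
    exact fun _ => ⟨0, 0, fun σ h => absurd h (Nat.not_lt_zero _), fun H _ h b =>
      ⟨0, Submodule.zero_mem _, fun s hs => by omega⟩⟩
  | succ T ih =>
    intro hT
    obtain ⟨y, lam, h1, h2⟩ := ih (by omega)
    have hnt : ∀ σ, g.ρ σ = T → σ ≠ ⊤ := fun σ h => ne_top_of_ρ (g := g) (by omega)
    have h3 : ∀ σ : L, ∃ x : ℕ → E, g.ρ σ = T → ∀ s, x s ∈ g.sp σ ∧
        ∀ s' < T, y s' (x s) = if s' = s then 1 else 0 := by
      intro σ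
      by_cases h : g.ρ σ = T
      · choose x hx hx' using fun s => h2 σ (hnt σ h) h.le fun s' => if s' = s then 1 else 0
        exact ⟨x, fun _ s => ⟨hx s, fun s' hs' => hx' s s' (by omega)⟩⟩
      · exact ⟨0, fun e => absurd e h⟩
    choose xx hxx using h3
    let π : L → (E →ₗ[ℝ] ℝ) →ₗ[ℝ] (E →ₗ[ℝ] ℝ) := fun σ =>
      LinearMap.id - ∑ s ∈ range T, (LinearMap.applyₗ (xx σ s)).smulRight (y s)
    have hπ : ∀ σ z x, π σ z x = z x - ∑ s ∈ range T, z (xx σ s) * y s x := by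
      intro σ z x
      simp [π, LinearMap.sum_apply]
    have hπ' : ∀ σ z x, π σ z x = z (x - ∑ s ∈ range T, y s x • xx σ s) := by
      intro σ z x
      rw [hπ]
      simp [mul_comm]
    have hy0 : ∀ σ, g.ρ σ = T → ∀ x, ∀ s' < T,
        y s' (x - ∑ s ∈ range T, y s x • xx σ s) = 0 := by
      intro σ hσ x s' hs'
      rw [map_sub, map_sum, sum_eq_single s']
      · simp [(hxx σ hσ s').2 s' hs']
      · intro s _ hs
        simp [(hxx σ hσ s).2 s' hs', hs.symm]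
      · intro h
        exact absurd (mem_range.2 hs') h
    have hm : ∀ σ, g.ρ σ = T → ∀ c : ℕ → ℝ, ∑ s ∈ range T, c s • xx σ s ∈ g.sp σ :=
      fun σ hσ c => Submodule.sum_mem _ fun s _ => Submodule.smul_mem _ _ (hxx σ hσ s).1
    choose P hP hP0 hP1 using fun σ : L => exists_dual_poly (g := g) σ
    obtain ⟨z, hz⟩ := exists_common (univ.filter fun σ : L => g.ρ σ = T)
      (f := fun σ z => P σ (π σ z)) (fun σ _ => (hP σ).comp (π σ)) (fun σ hσ => by
        obtain ⟨c, hc, hc'⟩ := hP0 σ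
        refine ⟨c, ?_⟩
        have : π σ c = c := LinearMap.ext fun x => by
          rw [hπ', map_sub, hc _ (hm σ (mem_filter.1 hσ).2 _), sub_zero]
        simpa only [this] using hc')
    have hu : ∀ s < T, Function.update y T z s = y s := fun s hs =>
      Function.update_of_ne hs.ne _ _
    have hA : ∀ σ, g.ρ σ = T → g.Att (Function.update y T z) σ (π σ z) := by
      intro σ hσ
      obtain ⟨g1, g2, g3⟩ := hP1 σ _ (hz σ (mem_filter.2 ⟨mem_univ _, hσ⟩))
      refine ⟨⟨fun s => -z (xx σ s), fun x => ?_⟩, fun x hx => ?_, g3, g1, g2⟩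
      · rw [hπ, hσ, Function.update_self, sub_eq_add_neg, ← sum_neg_distrib]
        refine congrArg _ (sum_congr rfl fun s hs => ?_)
        rw [hu s (mem_range.1 hs)]
        ring
      · rw [hπ', (h2 σ (hnt σ hσ) hσ.le).inj (hnt σ hσ) (Submodule.sub_mem _ hx (hm σ hσ _))
          (fun s hs => hy0 σ hσ x s (by omega)), map_zero]
    refine ⟨Function.update y T z, fun σ => if g.ρ σ = T then π σ z else lam σ,
      fun σ hσ => ?_, fun H hHt hH b => ?_⟩
    · by_cases h : g.ρ σ = T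
      · simp only [if_pos h]
        exact hA σ h
      · simp only [if_neg h]
        have k := h1 σ (by omega)
        obtain ⟨co, hco⟩ := k.eq
        refine ⟨⟨co, fun x => ?_⟩, k.zero, k.ne, k.gen, k.supp⟩
        rw [hco, hu _ (by omega)]
        exact congrArg _ (sum_congr rfl fun s hs => by
          rw [hu s (by have := mem_range.1 hs; omega)])
    · by_cases h : g.ρ H ≤ T
      · obtain ⟨x, hx, hx'⟩ := h2 H hHt h b
        exact ⟨x, hx, fun s hs => by rw [hu s (by omega), hx' s hs]⟩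
      · obtain ⟨σ, -, b2, b3⟩ := exists_rank' (g := g) (k := T) (bot_le (a := H))
          (by rw [ρ_bot]; omega) (by omega)
        obtain ⟨i, hi, hi'⟩ := exists_not_mem (g := g) le_rfl b2 hHt
          (lt_of_ρ (g := g) b2 (by omega)).not_ge
        have k := (hA σ b3).ne H i hi fun e => hi' (mem_of_sp b2 hHt hi e)
        rw [hπ'] at k
        set v := i - ∑ s ∈ range T, y s i • xx σ s with hv
        set p := ∑ s ∈ range T, b s • xx σ s with hp
        refine ⟨p + ((b T - z p) / z v) • v, Submodule.add_mem _ (sp_mono b2 hHt (hm σ b3 _))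
          (Submodule.smul_mem _ _ (Submodule.sub_mem _ (mem_sp hi) (sp_mono b2 hHt (hm σ b3 _)))),
          fun s hs => ?_⟩
        by_cases c : s = T
        · rw [c, Function.update_self, map_add, map_smul, smul_eq_mul, div_mul_cancel₀ _ k]
          ring
        · have hs' : s < T := by omega
          rw [hu s hs', map_add, map_smul, hv, hy0 σ b3 _ s hs', smul_zero, add_zero, hp,
            map_sum, sum_eq_single s]
          · simp [(hxx σ b3 s).2 s hs']
          · intro s' _ h'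
            simp [(hxx σ b3 s').2 s hs', h'.symm]
          · intro h'
            exact absurd (mem_range.2 hs') h'

/-- The data used in the dimension count. -/
structure DS where
  lam : L → E →ₗ[ℝ] ℝ
  w : L → L → ℝ
  sl : L → ℝ
  zero : ∀ σ, σ ≠ ⊤ → ∀ x ∈ g.sp σ, lam σ x = 0
  ne : ∀ σ, σ ≠ ⊤ → ∀ G, ∀ v ∈ g.V G, v ∉ g.sp σ → lam σ v ≠ 0
  supp : ∀ G σ, w G σ ≠ 0 → σ ≤ G
  supp' : ∀ G σ, G ≠ ⊤ → σ ≤ G → w G σ ≠ 0
  self : ∀ σ, w σ σ = 1
  rel : ∀ σ, σ ≠ ⊤ → ∀ G, ∀ x ∈ g.sp G, g.dn G (fun G' => w G' σ) x = lam σ x * w G σ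
  tr : ∀ (t : ℕ) (H : L), H ≠ ⊤ → t < g.ρ H → ∀ x, ∃ x' ∈ g.sp H,
    ∀ σ, g.ρ σ = t → lam σ x' = lam σ x
  one : ∀ (t : ℕ) (H : L), H ≠ ⊤ → t < g.ρ H → ∃ x ∈ g.sp H,
    (∀ σ, g.ρ σ = t → lam σ x = 1) ∧ ∀ τ, g.ρ τ < t → lam τ x = 0
  two : ∀ (t : ℕ) (H : L), H ≠ ⊤ → t + 1 < g.ρ H → ∃ x ∈ g.sp H,
    (∀ σ, g.ρ σ = t + 1 → lam σ x = sl σ) ∧ ∀ τ, g.ρ τ = t → lam τ x = 1

theorem exists_ds : Nonempty g.DS := by
  obtain ⟨y, lam, h1, h2⟩ := g.exists_flag (g.ρ ⊤) le_rfl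
  have hA : ∀ σ, σ ≠ ⊤ → g.Att y σ (lam σ) := fun σ h => h1 σ (ρ_lt_top h)
  have hS : ∀ H, H ≠ ⊤ → g.Sur y H := fun H h => h2 H h (ρ_lt_top h).le
  choose! co hco using fun σ h => (h1 σ h).eq
  refine ⟨⟨lam, fun G σ => g.dw σ (lam σ) G, fun σ => co σ (g.ρ σ - 1),
    fun σ h => (hA σ h).zero, fun σ h => (hA σ h).ne, fun G σ h => (Dk_supp _ G h).1,
    fun G σ h h' => (hA σ (ne_top_of_le_ne_top h h')).supp G h h', fun σ => dw_self,
    fun σ h G x hx => dw_rel (hA σ h).zero (hA σ h).gen G hx,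
    fun t H hH ht x => ?_, fun t H hH ht => ?_, fun t H hH ht => ?_⟩⟩
  all_goals have hr := ρ_lt_top (g := g) hH
  · obtain ⟨x', hx, hx'⟩ := hS H hH fun s => y s x
    refine ⟨x', hx, fun σ hσ => ?_⟩
    rw [hco σ (by omega), hco σ (by omega), hx' _ (by omega)]
    exact congrArg _ (sum_congr rfl fun s hs => by
      rw [hx' s (by have := mem_range.1 hs; omega)])
  · obtain ⟨x, hx, hx'⟩ := hS H hH fun s => if s = t then 1 else 0
    refine ⟨x, hx, fun σ hσ => ?_, fun τ hτ => ?_⟩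
    · rw [hco σ (by omega), hσ, hx' _ ht, if_pos rfl, sum_eq_zero, add_zero]
      intro s hs
      have := mem_range.1 hs
      rw [hx' s (by omega), if_neg this.ne, mul_zero]
    · rw [hco τ (by omega), hx' _ (by omega), if_neg hτ.ne, sum_eq_zero, add_zero]
      intro s hs
      have := mem_range.1 hs
      rw [hx' s (by omega), if_neg (by omega), mul_zero]
  · obtain ⟨x, hx, hx'⟩ := hS H hH fun s => if s = t then 1 else 0
    refine ⟨x, hx, fun σ hσ => ?_, fun τ hτ => ?_⟩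
    · rw [hco σ (by omega), hσ, hx' _ ht, if_neg (by omega), zero_add, sum_range_succ,
        hx' t (by omega), if_pos rfl, sum_eq_zero]
      · simp
      intro s hs
      have := mem_range.1 hs
      rw [hx' s (by omega), if_neg this.ne, mul_zero]
    · rw [hco τ (by omega), hτ, hx' _ (by omega), if_pos rfl, sum_eq_zero, add_zero]
      intro s hs
      have := mem_range.1 hs
      rw [hx' s (by omega), if_neg this.ne, mul_zero]

end Geo

end Pool.Agent.Lib.MP_c8fb4d_co.Sph
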