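import Pool.Agent.Lib.MP_c8fb4d_co.SphSet
import Pool.Agent.Lib.MP_c8fb4d_co.SphGH
import Pool.Agent.Lib.MP_c8fb4d_co.Comb

/-!
The spaces spanned by the dual weights and their dimensions.
-/

namespace Pool.Agent.Lib.MP_c8fb4d_co.Sph

open Module Finset
open scoped Classical

set_option linter.unusedSectionVars false

variable {L E : Type} [Lattice L] [Fintype L] [BoundedOrder L] [AddCommGroup E] [Module ℝ E]
  [FiniteDimensional ℝ E]

namespace Geo

variable (g : Geo L E)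

/-- Restriction of weights to the elements of rank `r`. -/
noncomputable def rs (r : ℕ) : (L → ℝ) →ₗ[ℝ] (L → ℝ) :=
  LinearMap.mulLeft ℝ fun σ => if g.ρ σ = r then 1 else 0

variable {g}

theorem rs_apply (r : ℕ) (w : L → ℝ) (σ : L) : g.rs r w σ = if g.ρ σ = r then w σ else 0 := by
  simp [rs]

theorem supp_rs {r : ℕ} {w : L → ℝ} (h : w ∈ LinearMap.range (g.rs r)) {σ : L}
    (hσ : w σ ≠ 0) : g.ρ σ = r := by
  obtain ⟨v, rfl⟩ := h
  by_contra hc
  exact hσ (by rw [rs_apply, if_neg hc])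

theorem mem_range_rs {r : ℕ} {w : L → ℝ} (h : ∀ σ, w σ ≠ 0 → g.ρ σ = r) :
    w ∈ LinearMap.range (g.rs r) :=
  ⟨w, funext fun σ => by
    rw [rs_apply]
    split_ifs with c
    · rfl
    · by_contra c'
      exact c (h σ (Ne.symm c'))⟩

namespace DS

variable (D : g.DS)

/-- The span of the weights of the cells of rank `r` on the cells of rank `t`. -/
noncomputable def U (t r : ℕ) : Submodule ℝ (L → ℝ) :=
  Submodule.span ℝ {v | ∃ G, G ≠ ⊤ ∧ g.ρ G = r ∧ v = g.rs t (D.w G)}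

theorem mem_U {t r : ℕ} {G : L} (h : G ≠ ⊤) (hG : g.ρ G = r) : g.rs t (D.w G) ∈ D.U t r :=
  Submodule.subset_span ⟨G, h, hG, rfl⟩

theorem U_le {t r : ℕ} {V : Submodule ℝ (L → ℝ)}
    (h : ∀ G, G ≠ ⊤ → g.ρ G = r → g.rs t (D.w G) ∈ V) : D.U t r ≤ V :=
  Submodule.span_le.2 (by rintro _ ⟨G, h0, h1, rfl⟩; exact h G h0 h1)

theorem U_le_rs (t r : ℕ) : D.U t r ≤ LinearMap.range (g.rs t) :=
  D.U_le fun _ _ _ => ⟨_, rfl⟩

theorem w_eq_zero {G σ : L} (h : g.ρ G ≤ g.ρ σ) (hne : σ ≠ G) : D.w G σ = 0 := by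
  by_contra c
  exact hne (eq_of_ρ (g := g) (D.supp G σ c) h)

theorem U_self {t : ℕ} (ht : t < g.ρ ⊤) : D.U t t = LinearMap.range (g.rs t) := by
  refine le_antisymm (D.U_le_rs t t) fun x hx => ?_
  have : x = ∑ G, x G • g.rs t (D.w G) := by
    funext σ
    rw [Finset.sum_apply, sum_eq_single σ]
    · by_cases c : x σ = 0
      · simp [c]
      · simp [rs_apply, supp_rs hx c, D.self]
    · intro G _ hG
      by_cases c : x G = 0
      · simp [c]
      · rw [Pi.smul_apply, rs_apply]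
        split_ifs with c'
        · rw [D.w_eq_zero (by rw [c', supp_rs hx c]) hG.symm, smul_zero]
        · simp
    · simp
  rw [this]
  refine Submodule.sum_mem _ fun G _ => ?_
  by_cases c : x G = 0
  · simp [c]
  · exact Submodule.smul_mem _ _
      (D.mem_U (ne_top_of_ρ (g := g) (by rw [supp_rs hx c]; exact ht)) (supp_rs hx c))

theorem mul_mem {t r : ℕ} (h : t ≤ r) {G : L} (h0 : G ≠ ⊤) (hG : g.ρ G = r + 1) (x : E) :
    (fun σ => D.lam σ x) * g.rs t (D.w G) ∈ D.U t r := by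
  obtain ⟨x', hx, hx'⟩ := D.tr t G h0 (by omega) x
  have hr := ρ_lt_top (g := g) h0
  have : (fun σ => D.lam σ x) * g.rs t (D.w G) =
      ∑ G', bf E (g.nu G G') x' • g.rs t (D.w G') := by
    funext σ
    simp only [Finset.sum_apply, Pi.mul_apply, Pi.smul_apply, rs_apply, smul_eq_mul]
    split_ifs with c
    · rw [← hx' σ c, ← D.rel σ (ne_top_of_ρ (g := g) (by omega)) G x' hx, dn]
      exact sum_congr rfl fun _ _ => mul_comm _ _
    · simp
  rw [this]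
  refine Submodule.sum_mem _ fun G' _ => ?_
  by_cases c : g.Cw G' G
  · exact Submodule.smul_mem _ _ (D.mem_U c.ne (by have := c.rk; omega))
  · simp [nu_of_not c]

theorem mul_U {t r : ℕ} (h : t ≤ r) (x : E) {v : L → ℝ} (hv : v ∈ D.U t (r + 1)) :
    (fun σ => D.lam σ x) * v ∈ D.U t r :=
  D.U_le (V := (D.U t r).comap (LinearMap.mulLeft ℝ fun σ => D.lam σ x))
    (fun _ h0 hG => D.mul_mem h h0 hG x) hv

theorem U_succ_le {t r : ℕ} (h : t ≤ r) : D.U t (r + 1) ≤ D.U t r := by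
  refine D.U_le fun G h0 hG => ?_
  obtain ⟨x, -, hx, -⟩ := D.one t G h0 (by omega)
  have := D.mul_mem h h0 hG x
  convert this using 1
  funext σ
  simp only [Pi.mul_apply, rs_apply]
  split_ifs with c
  · rw [hx σ c, one_mul]
  · simp

theorem U_anti {t r r' : ℕ} (h : t ≤ r) (h' : r ≤ r') : D.U t r' ≤ D.U t r := by
  induction r', h' using Nat.le_induction with
  | base => exact le_rfl
  | succ k hk ih => exact (D.U_succ_le (h.trans hk)).trans ih

/-- The map to the weights one rank lower. -/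
noncomputable def be (t k : ℕ) : (L → ℝ) →ₗ[ℝ] (L → ℝ) :=
  LinearMap.pi fun τ => if g.ρ τ = t then
    ∑ σ, (D.sl σ ^ k * D.w σ τ) • LinearMap.proj σ else 0

theorem be_apply (t k : ℕ) (x : L → ℝ) (τ : L) :
    D.be t k x τ = if g.ρ τ = t then ∑ σ, D.sl σ ^ k * D.w σ τ * x σ else 0 := by
  simp only [be, LinearMap.pi_apply]
  split_ifs <;> simp [LinearMap.sum_apply]

theorem be_step {t k : ℕ} {τ : L} (hτ : g.ρ τ = t)
    (ih : ∀ G, G ≠ ⊤ → g.ρ G = t + 1 + k →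
      ∑ σ, D.sl σ ^ k * D.w σ τ * g.rs (t + 1) (D.w G) σ = D.w G τ)
    {H : L} (h0 : H ≠ ⊤) (hH : g.ρ H = t + 1 + k + 1) {x : E} (hx : x ∈ g.sp H) :
    D.lam τ x * D.w H τ =
      ∑ σ, D.lam σ x * (D.sl σ ^ k * D.w σ τ * g.rs (t + 1) (D.w H) σ) := by
  have hr := ρ_lt_top (g := g) h0
  rw [← D.rel τ (ne_top_of_ρ (g := g) (by omega)) H x hx, dn_congr (w' := fun G =>
    ∑ σ, D.sl σ ^ k * D.w σ τ * g.rs (t + 1) (D.w G) σ) fun G c =>
      (ih G c.ne (by have := c.rk; omega)).symm]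
  simp only [dn, sum_mul]
  rw [sum_comm]
  refine sum_congr rfl fun σ _ => ?_
  simp only [rs_apply]
  split_ifs with c
  · have := D.rel σ (ne_top_of_ρ (g := g) (by omega)) H x hx
    rw [dn] at this
    rw [show D.lam σ x * (D.sl σ ^ k * D.w σ τ * D.w H σ) =
      D.sl σ ^ k * D.w σ τ * (D.lam σ x * D.w H σ) by ring, ← this, mul_sum]
    exact sum_congr rfl fun _ _ => by ring
  · simp

theorem be_sum {t : ℕ} {τ : L} (hτ : g.ρ τ = t) : ∀ (k : ℕ) (G : L), G ≠ ⊤ →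
    g.ρ G = t + 1 + k → ∑ σ, D.sl σ ^ k * D.w σ τ * g.rs (t + 1) (D.w G) σ = D.w G τ := by
  intro k
  induction k with
  | zero =>
    intro G _ hG
    rw [sum_eq_single G]
    · simp [rs_apply, hG, D.self]
    · intro σ _ hσ
      rw [rs_apply]
      split_ifs with c
      · rw [D.w_eq_zero (G := G) (by omega) hσ, mul_zero]
      · simp
    · simp
  | succ k ih =>
    intro H h0 hH
    obtain ⟨x, hx, h1, h2⟩ := D.two t H h0 (by omega)
    have := D.be_step hτ ih h0 hH hx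
    rw [h2 τ hτ, one_mul] at this
    rw [this]
    refine sum_congr rfl fun σ _ => ?_
    rw [rs_apply]
    split_ifs with c
    · rw [h1 σ c]
      ring
    · simp

theorem be_w {t k : ℕ} {G : L} (h0 : G ≠ ⊤) (hG : g.ρ G = t + 1 + k) :
    D.be t k (g.rs (t + 1) (D.w G)) = g.rs t (D.w G) := by
  funext τ
  rw [be_apply, rs_apply]
  split_ifs with c
  · exact D.be_sum c k G h0 hG
  · rfl

theorem be_zero {t k : ℕ} {H : L} (h0 : H ≠ ⊤) (hH : g.ρ H = t + 1 + k + 1) :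
    D.be t k (g.rs (t + 1) (D.w H)) = 0 := by
  funext τ
  rw [be_apply, Pi.zero_apply]
  split_ifs with c
  · obtain ⟨x, hx, h1, h2⟩ := D.one (t + 1) H h0 (by omega)
    have := D.be_step c (D.be_sum c k) h0 hH hx
    rw [h2 τ (by omega), zero_mul] at this
    rw [this]
    refine sum_congr rfl fun σ _ => ?_
    rw [rs_apply]
    split_ifs with c'
    · rw [h1 σ c', one_mul]
    · simp
  · rfl

theorem map_be (t k : ℕ) : (D.U (t + 1) (t + 1 + k)).map (D.be t k) = D.U t (t + 1 + k) := by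
  refine le_antisymm (Submodule.map_le_iff_le_comap.2 (D.U_le fun G h0 hG => ?_))
    (D.U_le fun G h0 hG => ⟨_, D.mem_U h0 hG, D.be_w h0 hG⟩)
  rw [Submodule.mem_comap, D.be_w h0 hG]
  exact D.mem_U h0 hG

theorem U_le_ker (t k : ℕ) : D.U (t + 1) (t + 1 + k + 1) ≤ LinearMap.ker (D.be t k) :=
  D.U_le fun _ h0 hG => D.be_zero h0 hG

theorem pascal {t r : ℕ} (h : t + 1 ≤ r) : finrank ℝ (D.U (t + 1) (r + 1)) +
    finrank ℝ (D.U t r) ≤ finrank ℝ (D.U (t + 1) r) := by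
  obtain ⟨k, rfl⟩ := Nat.exists_eq_add_of_le h
  have h1 := finrank_split (D.be t k) (D.U (t + 1) (t + 1 + k))
  rw [D.map_be] at h1
  have h2 := Submodule.finrank_mono (le_inf (D.U_succ_le h) (D.U_le_ker t k))
  omega

theorem bal {t : ℕ} (ht : t + 1 < g.ρ ⊤) {v : L → ℝ} (h1 : v ∈ LinearMap.range (g.rs (t + 1)))
    (h2 : v ∈ LinearMap.ker (D.be t 0)) {τ σ : L} (c : Cv g.ρ τ σ)
    (c' : ∀ σ', Cv g.ρ τ σ' → σ' ≠ σ → v σ' = 0) : v σ = 0 := by
  by_contra h0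
  have r1 : g.ρ σ = t + 1 := supp_rs h1 h0
  have r2 := c.2
  have e := congrFun (LinearMap.mem_ker.1 h2) τ
  rw [be_apply, if_pos (by omega), sum_eq_single σ] at e
  · exact mul_ne_zero (mul_ne_zero (by simp)
      (D.supp' σ τ (ne_top_of_ρ (g := g) (by omega)) c.1)) h0 e
  · intro σ' _ hσ'
    by_contra e'
    have g1 := right_ne_zero_of_mul e'
    have g2 := D.supp σ' τ (right_ne_zero_of_mul (left_ne_zero_of_mul e'))
    have r3 : g.ρ σ' = t + 1 := supp_rs h1 g1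
    exact g1 (c' σ' ⟨g2, by omega⟩ hσ')
  · simp

theorem inc {t r z : ℕ} (h : t + 1 ≤ r) (hz : t + 1 ≤ z)
    (H : z.choose (t + 1) ≤ finrank ℝ (D.U (t + 1) (r + 1))) :
    finrank ℝ (D.U (t + 1) (r + 1)) + z.choose t ≤ finrank ℝ (D.U (t + 1) r) := by
  have ht : t + 1 + 2 ≤ g.ρ ⊤ := by
    by_contra c
    have h1 : D.U (t + 1) (r + 1) = ⊥ := le_bot_iff.1 (D.U_le fun G h0 hG => by
      have := ρ_lt_top (g := g) h0
      omega)
    rw [h1, finrank_bot] at H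
    have := Nat.choose_pos hz
    omega
  refine GH.inc (g := g) (lam := D.lam) ⟨fun _ hv _ hσ => ⟨bot_le, supp_rs (D.U_le_rs _ _ hv) hσ⟩,
    fun v hv τ σ _ c c' => D.bal (by omega) (D.U_le_rs _ _ hv)
      (((D.U_anti (by omega) (by omega)).trans (D.U_le_ker t 0)) hv) c c',
    fun x _ hv => D.mul_U h x hv, g.e0, fun u hu => ?_, fun σ _ v hv _ => g.pos σ v hv⟩
    ht D.zero D.ne hz H
  rw [sp_bot, Submodule.mem_bot] at hu
  rw [hu, map_zero]

theorem kk {m : ML L} (hm : m.ρ = g.ρ) {s n : ℕ} (hn : s + 3 ≤ n) (ht : s + 1 + 1 < g.ρ ⊤)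
    (H : n.choose (s + 1 + 1) ≤ finrank ℝ (D.U (s + 1 + 1) (s + 1 + 1))) :
    n.choose (s + 1) ≤ finrank ℝ (D.U (s + 1) (s + 1)) := by
  obtain ⟨z, rfl⟩ : ∃ z, n = z + 1 := ⟨n - 1, by omega⟩
  have h1 := finrank_split (D.be (s + 1) 0) (D.U (s + 1 + 1) (s + 1 + 1))
  have h2 : (D.U (s + 1 + 1) (s + 1 + 1)).map (D.be (s + 1) 0) = D.U (s + 1) (s + 1 + 1) :=
    D.map_be (s + 1) 0
  rw [h2] at h1
  have h3 : z.choose (s + 1) ≤ finrank ℝ (D.U (s + 1) (s + 1 + 1)) := by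
    by_cases c : z.choose (s + 1 + 1) ≤ finrank ℝ
      (D.U (s + 1 + 1) (s + 1 + 1) ⊓ LinearMap.ker (D.be (s + 1) 0) : Submodule ℝ (L → ℝ))
    · have k : m.GH (fun u σ => if u ≤ σ then 0 else 1) (s + 1 + 1) ⊥
          (D.U (s + 1 + 1) (s + 1 + 1) ⊓ LinearMap.ker (D.be (s + 1) 0))
          (D.U (s + 1 + 1) (s + 1 + 1)) :=
        ⟨fun _ hv _ hσ => ⟨bot_le, hm ▸ supp_rs (D.U_le_rs _ _ hv.1) hσ⟩, fun _ _ _ _ => bot_le,
          fun v hv τ σ _ c c' => D.bal ht (D.U_le_rs _ _ hv.1) hv.2 (hm ▸ c) (hm ▸ c'),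
          fun u _ v hv => by
            rw [D.U_self ht]
            exact mem_range_rs fun σ hσ =>
              supp_rs (D.U_le_rs _ _ hv.1) (right_ne_zero_of_mul hσ)⟩
      have := k.inc (hm ▸ ρ_bot) (hm ▸ ht) (fun u σ _ _ => by simp) (by omega) c
      omega
    · rw [Nat.choose_succ_succ'] at H
      omega
  have h4 := D.inc le_rfl (by omega) h3
  rw [Nat.choose_succ_succ']
  omega

theorem first_le {m : ML L} (hm : m.ρ = g.ρ) {d : ℕ} (hd : g.ρ ⊤ = d + 1) (φ : L → ℝ) (r : ℕ) :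
    (m.first φ r).card ≤ finrank ℝ (D.U r d) := by
  have h6 : ∀ F, Cv m.ρ F ⊤ → g.ρ F = d := fun F h => by
    have := h.2
    rw [hm] at this
    omega
  have h7 : ∀ F, Cv m.ρ F ⊤ → F ≠ ⊤ := fun F h =>
    ne_top_of_ρ (g := g) (by have := h6 F h; omega)
  have key := fun F (hF : F ∈ m.first φ r) => (mem_filter.1 hF).2.2
  choose! e h1 h2 h3 using key
  have hc := fun F (hF : F ∈ m.first φ r) => (mem_filter.1 hF).2.1
  refine tri_indep _ (fun F => g.rs r (D.w F)) e φ (fun F hF => ?_) (fun F hF F' hF' hne h => ?_)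
    _ fun F hF => D.mem_U (h7 F (hc F hF)) (h6 F (hc F hF))
  · rw [rs_apply, if_pos (show g.ρ _ = r from hm ▸ h2 F hF)]
    exact D.supp' F _ (h7 F (hc F hF)) (h1 F hF)
  · rw [rs_apply, if_pos (show g.ρ _ = r from hm ▸ h2 F hF)] at h
    exact h3 F hF F' (hc F' hF') (D.supp F' _ h) hne.symm

theorem dual {m : ML L} (hm : m.ρ = g.ρ) {d i j : ℕ} (hd : g.ρ ⊤ = d + 1) (h : i + j + 1 = d) :
    m.f ⊥ ⊤ d ≤ finrank ℝ (D.U i d) + finrank ℝ (D.U j d) := by
  obtain ⟨φ, hφ⟩ := m.exists_first (hm ▸ ρ_bot)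
  have h1 := hφ i j (by rw [hm]; omega)
  rw [h] at h1
  exact h1.trans (add_le_add (D.first_le hm hd _ _) (D.first_le hm hd _ _))

theorem finrank_self {m : ML L} (hm : m.ρ = g.ρ) (t : ℕ) : finrank ℝ (D.U t t) ≤ m.f ⊥ ⊤ t :=
  finrank_le_card _ _ fun _ hw _ hσ =>
    ML.mem_I.2 ⟨bot_le, le_top, hm ▸ supp_rs (D.U_le_rs _ _ hw) hσ⟩

end DS

end Geo

end Pool.Agent.Lib.MP_c8fb4d_co.Sph
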