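import Pool.Agent.Lib.MP_c8fb4d_co.SphNormal

/-!
Weights on the cells above a cell, attached to a generic functional vanishing on it.
-/

namespace Pool.Agent.Lib.MP_c8fb4d_co.Sph

open Module Finset
open scoped Classical

set_option linter.unusedSectionVars false

theorem exists_common_sub {E : Type} [AddCommGroup E] [Module ℝ E] {κ : Type}
    (W : Submodule ℝ E) (s : Finset κ) {f : κ → E → ℝ} (hf : ∀ k ∈ s, PL (f k))
    (hne : ∀ k ∈ s, ∃ x ∈ W, f k x ≠ 0) : ∃ x ∈ W, ∀ k ∈ s, f k x ≠ 0 := by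
  obtain ⟨x, hx⟩ := exists_common (E := W) s (f := fun k x => f k x.1)
    (fun k hk x v => by
      obtain ⟨p, hp⟩ := hf k hk x.1 v.1
      exact ⟨p, fun t => by simpa using hp t⟩)
    fun k hk => by
      obtain ⟨x, h1, h2⟩ := hne k hk
      exact ⟨⟨x, h1⟩, h2⟩
  exact ⟨x.1, x.2, hx⟩

theorem pl_ev {E : Type} [AddCommGroup E] [Module ℝ E] (x : E) :
    PL fun lam : E →ₗ[ℝ] ℝ => lam x := PL.lin (LinearMap.applyₗ x)

variable {L E : Type} [Lattice L] [Fintype L] [BoundedOrder L] [AddCommGroup E] [Module ℝ E]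
  [FiniteDimensional ℝ E]

namespace Geo

variable (g : Geo L E)

/-- an inner point of a cell -/
noncomputable def ip (G : L) : E := ∑ v ∈ g.V G, v

/-- the weighted sum of the facet normals, tested against a vector -/
noncomputable def dn (G : L) (w : L → ℝ) (x : E) : ℝ := ∑ G', w G' * bf E (g.nu G G') x

/-- The dual weights in corank `k`. -/
noncomputable def Dk (σ : L) (lam : E →ₗ[ℝ] ℝ) : ℕ → L → ℝ
  | 0 => fun G => if G = σ then 1 else 0
  | k + 1 => fun G => g.dn G (Dk σ lam k) (g.ip G) / lam (g.ip G)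

variable {g} {σ : L} {lam : E →ₗ[ℝ] ℝ}

theorem ip_mem (G : L) : g.ip G ∈ g.sp G := Submodule.sum_mem _ fun _ hv => mem_sp hv

theorem cov_ip_pos {x y π : L} (h : x < y) (h' : y ≤ π) (hπ : π ≠ ⊤) :
    0 < g.cov x π (g.ip y) := by
  obtain ⟨i, hi, hi'⟩ := exists_not_mem (g := g) h' (h.le.trans h') hπ h.not_ge
  rw [ip, map_sum]
  exact sum_pos' (fun j hj => (cov_spec (h.le.trans h') hπ (g.mono y π h' hπ hj)).1)
    ⟨i, hi, cov_pos (h.le.trans h') hπ (g.mono y π h' hπ hi) hi'⟩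

theorem dn_eq_zero {G : L} {w : L → ℝ} (h : ∀ G', g.Cw G' G → w G' = 0) (x : E) :
    g.dn G w x = 0 := by
  refine sum_eq_zero fun G' _ => ?_
  by_cases c : g.Cw G' G
  · rw [h G' c, zero_mul]
  · simp [nu_of_not c]

theorem dn_congr {G : L} {w w' : L → ℝ} (h : ∀ G', g.Cw G' G → w G' = w' G') (x : E) :
    g.dn G w x = g.dn G w' x := by
  refine sum_congr rfl fun G' _ => ?_
  by_cases c : g.Cw G' G
  · rw [h G' c]
  · simp [nu_of_not c]

theorem Dk_supp : ∀ (k : ℕ) (G : L), g.Dk σ lam k G ≠ 0 → σ ≤ G ∧ g.ρ G = g.ρ σ + k := by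
  intro k
  induction k with
  | zero =>
    intro G h
    have : G = σ := by
      by_contra hc
      exact h (if_neg hc)
    exact ⟨this.ge, by rw [this, add_zero]⟩
  | succ k ih =>
    intro G h
    by_contra hc
    refine h ?_
    have : g.dn G (g.Dk σ lam k) (g.ip G) = 0 := dn_eq_zero (fun G' c => by
      by_contra h0
      obtain ⟨h1, h2⟩ := ih G' h0
      exact hc ⟨h1.trans c.le, by have := c.rk; omega⟩) _
    simp [Dk, this]

theorem mem_of_orth {G G' : L} (c : g.Cw G' G) {z : E} (hz : z ∈ g.sp G)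
    (h : bf E (g.nu G G') z = 0) : z ∈ g.sp G' := by
  have h1 := (nu_spec c).sub_mem c hz
  have h2 := (nu_spec c).2.1 _ h1
  rw [map_sub, map_smul, h, (nu_spec c).2.2.1, smul_eq_mul, mul_one, zero_sub, neg_eq_zero] at h2
  rwa [h2, zero_smul, sub_zero] at h1

theorem bf_ip_pos {G G' : L} (c : g.Cw G' G) : 0 < bf E (g.nu G G') (g.ip G) := by
  have h1 := (nu_spec c).sub_mem c (ip_mem G)
  have h2 := (nu_spec c).2.1 _ h1
  rw [map_sub, map_smul, (nu_spec c).2.2.1, smul_eq_mul, mul_one, sub_eq_zero] at h2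
  rw [h2]
  exact div_pos (cov_ip_pos (cv_lt c.1) le_rfl c.2) (nu_spec c).2.2.2

theorem dn_wedge {w w' : L → ℝ}
    (H : ∀ G', ∀ z ∈ g.sp G', g.dn G' w' z = lam z * w G') (G : L) {x y : E}
    (hx : x ∈ g.sp G) (hy : y ∈ g.sp G) : g.dn G w x * lam y = g.dn G w y * lam x := by
  rw [← sub_eq_zero]
  have h1 : ∀ G', w G' * bf E (g.nu G G') x * lam y - w G' * bf E (g.nu G G') y * lam x =
      ∑ G'', w' G'' * wedge ((bf E).flip x) ((bf E).flip y) (g.nu G G') (g.nu G' G'') := by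
    intro G'
    by_cases c : g.Cw G' G
    · have hz : bf E (g.nu G G') x • y - bf E (g.nu G G') y • x ∈ g.sp G' :=
        mem_of_orth c (Submodule.sub_mem _ (Submodule.smul_mem _ _ hy)
          (Submodule.smul_mem _ _ hx)) (by simp [mul_comm])
      have h2 := H G' _ hz
      simp only [dn, map_sub, map_smul, smul_eq_mul] at h2
      simp only [wedge, LinearMap.flip_apply]
      rw [show ∑ G'', w' G'' * (bf E (g.nu G G') x * bf E (g.nu G' G'') y -
          bf E (g.nu G' G'') x * bf E (g.nu G G') y) = ∑ G'', w' G'' *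
          (bf E (g.nu G G') x * bf E (g.nu G' G'') y -
          bf E (g.nu G G') y * bf E (g.nu G' G'') x) from
        sum_congr rfl fun G'' _ => by ring, h2]
      ring
    · simp [wedge, nu_of_not c]
  simp only [dn, sum_mul, ← sum_sub_distrib, h1]
  rw [sum_comm]
  refine sum_eq_zero fun G'' _ => ?_
  rw [← mul_sum, diamond_sum, mul_zero]

theorem Dk_rel (hl : ∀ x ∈ g.sp σ, lam x = 0) (hg : ∀ G, σ < G → G ≠ ⊤ → lam (g.ip G) ≠ 0) :
    ∀ (k : ℕ) (G : L), ∀ x ∈ g.sp G,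
      g.dn G (g.Dk σ lam k) x = lam x * g.Dk σ lam (k + 1) G := by
  have key : ∀ (k : ℕ) (w' : L → ℝ),
      (∀ G', ∀ z ∈ g.sp G', g.dn G' w' z = lam z * g.Dk σ lam k G') →
      ∀ G, ∀ x ∈ g.sp G, g.dn G (g.Dk σ lam k) x = lam x * g.Dk σ lam (k + 1) G := by
    intro k w' H G x hx
    by_cases hG : σ < G ∧ G ≠ ⊤
    · have h1 := dn_wedge H G hx (ip_mem G)
      have h2 := hg G hG.1 hG.2
      change _ = lam x * (g.dn G (g.Dk σ lam k) (g.ip G) / lam (g.ip G))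
      field_simp
      linear_combination h1
    · have h1 : ∀ y, g.dn G (g.Dk σ lam k) y = 0 := dn_eq_zero fun G' c => by
        by_contra h0
        exact hG ⟨lt_of_le_of_lt (Dk_supp k G' h0).1 (cv_lt c.1), c.2⟩
      simp [Dk, h1]
  intro k
  induction k with
  | zero =>
    refine key 0 0 fun G' z hz => ?_
    by_cases c : G' = σ
    · rw [hl z (c ▸ hz)]
      simp [dn]
    · simp [dn, Dk, c]
  | succ k ih => exact key _ _ ih

theorem Dk_pos {π : L} (hπ : π ≠ ⊤) (hg : ∀ G, σ < G → G ≤ π → 0 < lam (g.ip G)) :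
    ∀ (k : ℕ) (G : L), G ≤ π → σ ≤ G → g.ρ G = g.ρ σ + k → 0 < g.Dk σ lam k G := by
  intro k
  induction k with
  | zero =>
    intro G _ h1 h2
    have : σ = G := eq_of_ρ (g := g) h1 (le_of_eq h2)
    simp [Dk, this]
  | succ k ih =>
    intro G h0 h1 h2
    refine div_pos ?_ (hg G (lt_of_ρ (g := g) h1 (by omega)) h0)
    obtain ⟨u, b1, b2, b3⟩ := exists_rank' (g := g) (k := g.ρ σ + k) h1
      (Nat.le_add_right _ _) (by omega)
    have c : g.Cw u G := ⟨⟨b2, by omega⟩, ne_top_of_le_ne_top hπ h0⟩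
    refine sum_pos' (fun v _ => ?_)
      ⟨u, mem_univ _, mul_pos (ih u (b2.trans h0) b1 b3) (bf_ip_pos c)⟩
    by_cases c' : g.Cw v G
    · by_cases h0' : g.Dk σ lam k v = 0
      · simp [h0']
      · obtain ⟨d1, d2⟩ := Dk_supp k v h0'
        exact (mul_pos (ih v (c'.le.trans h0) d1 d2) (bf_ip_pos c')).le
    · simp [nu_of_not c']

variable (g) in
/-- The common denominator. -/
noncomputable def dd (σ π : L) (lam : E →ₗ[ℝ] ℝ) : ℝ :=
  ∏ G ∈ univ.filter (fun G => σ < G ∧ G ≤ π), lam (g.ip G)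

theorem Dk_rat (σ π : L) : ∀ (k : ℕ) (G : L), ∃ P : (E →ₗ[ℝ] ℝ) → ℝ, PL P ∧
    ∀ lam, G ≤ π → g.dd σ π lam ≠ 0 → g.Dk σ lam k G * g.dd σ π lam ^ k = P lam := by
  intro k
  induction k with
  | zero => exact fun G => ⟨_, PL.const (if G = σ then 1 else 0), fun lam _ _ => by simp [Dk]⟩
  | succ k ih =>
    intro G
    by_cases hG : σ < G
    swap
    · refine ⟨_, PL.const 0, fun lam _ _ => mul_eq_zero_of_left ?_ _⟩
      by_contra h0
      obtain ⟨h1, h2⟩ := Dk_supp _ G h0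
      exact hG (lt_of_ρ (g := g) h1 (by omega))
    choose P hP hP' using ih
    refine ⟨_, (PL.sum univ fun u _ => (hP u).mul (PL.const (bf E (g.nu G u) (g.ip G)))).mul
      (PL.prod ((univ.filter fun G => σ < G ∧ G ≤ π).erase G) fun u _ => pl_ev (g.ip u)),
      fun lam hGπ hl => ?_⟩
    have hm : G ∈ univ.filter fun G => σ < G ∧ G ≤ π := mem_filter.2 ⟨mem_univ _, hG, hGπ⟩
    have h1 := mul_prod_erase _ (fun u : L => lam (g.ip u)) hm
    have h2 : lam (g.ip G) ≠ 0 := prod_ne_zero_iff.1 hl G hm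
    have h3 : g.dd σ π lam = lam (g.ip G) *
      ∏ u ∈ (univ.filter fun G => σ < G ∧ G ≤ π).erase G, lam (g.ip u) := h1.symm
    generalize ∏ u ∈ (univ.filter fun G => σ < G ∧ G ≤ π).erase G, lam (g.ip u) = R at h3
    have h4 : ∑ u, P u lam * bf E (g.nu G u) (g.ip G) =
        g.dn G (g.Dk σ lam k) (g.ip G) * g.dd σ π lam ^ k := by
      rw [dn, sum_mul]
      refine sum_congr rfl fun u _ => ?_
      by_cases c : g.Cw u G
      · rw [← hP' u lam (c.le.trans hGπ) hl]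
        ring
      · simp [nu_of_not c]
    rw [h4, pow_succ]
    change g.dn G (g.Dk σ lam k) (g.ip G) / lam (g.ip G) * _ = _
    generalize g.dd σ π lam ^ k = D
    rw [h3]
    field_simp

variable (g) in
/-- The dual weights on all cells. -/
noncomputable def dw (σ : L) (lam : E →ₗ[ℝ] ℝ) (G : L) : ℝ := g.Dk σ lam (g.ρ G - g.ρ σ) G

theorem dw_rel (hl : ∀ x ∈ g.sp σ, lam x = 0) (hg : ∀ G, σ < G → G ≠ ⊤ → lam (g.ip G) ≠ 0)
    (G : L) {x : E} (hx : x ∈ g.sp G) : g.dn G (g.dw σ lam) x = lam x * g.dw σ lam G := by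
  by_cases h : g.ρ σ < g.ρ G
  · obtain ⟨k, hk⟩ : ∃ k, g.ρ G - g.ρ σ = k + 1 := ⟨g.ρ G - g.ρ σ - 1, by omega⟩
    rw [dn_congr (w' := g.Dk σ lam k) fun G' c => by
      rw [dw, show g.ρ G' - g.ρ σ = k by have := c.rk; omega], dw, hk]
    exact Dk_rel hl hg k G x hx
  · rw [dn_eq_zero fun G' c => by
      by_contra h0
      have := (Dk_supp _ G' h0).2
      have := c.rk
      omega]
    by_cases c : G = σ
    · rw [hl x (c ▸ hx), zero_mul]
    · rw [dw, show g.ρ G - g.ρ σ = 0 by omega]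
      simp [Dk, c]

theorem dw_self : g.dw σ lam σ = 1 := by simp [dw, Dk]

theorem exists_dual_poly (σ : L) : ∃ P : (E →ₗ[ℝ] ℝ) → ℝ, PL P ∧
    (∃ c : E →ₗ[ℝ] ℝ, (∀ x ∈ g.sp σ, c x = 0) ∧ P c ≠ 0) ∧
    ∀ lam, P lam ≠ 0 → (∀ G, σ < G → G ≠ ⊤ → lam (g.ip G) ≠ 0) ∧
      (∀ G, G ≠ ⊤ → σ ≤ G → g.dw σ lam G ≠ 0) ∧ ∀ G, ∀ v ∈ g.V G, v ∉ g.sp σ → lam v ≠ 0 := by
  choose P hP hP' using fun π => Dk_rat (g := g) σ π (g.ρ π - g.ρ σ) π
  let f : L ⊕ E → (E →ₗ[ℝ] ℝ) → ℝ :=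
    Sum.elim (fun π lam => g.dd σ π lam * P π lam) fun v lam => lam v
  let s : Finset (L ⊕ E) := (univ.filter fun π => σ ≤ π ∧ π ≠ ⊤).disjSum
    ((univ.biUnion g.V).filter fun v => v ∉ g.sp σ)
  have hf : ∀ k ∈ s, PL (f k) := by
    rintro (π | v) _
    · exact (PL.prod _ fun u _ => pl_ev (g.ip u)).mul (hP π)
    · exact pl_ev v
  obtain ⟨c, hc, hc'⟩ := exists_common_sub (g.sp σ).dualAnnihilator s hf (by
    rintro (π | v) hk
    · obtain ⟨h1, h2⟩ := (mem_filter.1 (inl_mem_disjSum.1 hk)).2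
      have hg : ∀ G, σ < G → G ≤ π → 0 < g.cov σ π (g.ip G) := fun G a b => cov_ip_pos a b h2
      have hd : g.dd σ π (g.cov σ π) ≠ 0 := prod_ne_zero_iff.2 fun G hG =>
        (hg G (mem_filter.1 hG).2.1 (mem_filter.1 hG).2.2).ne'
      refine ⟨g.cov σ π, (Submodule.mem_dualAnnihilator _).2 fun w hw => cov_sp h1 h2 hw,
        mul_ne_zero hd ?_⟩
      rw [← hP' π _ le_rfl hd]
      have h3 := ρ_le (g := g) h1
      exact mul_ne_zero (Dk_pos h2 hg _ π le_rfl h1 (by omega)).ne' (pow_ne_zero _ hd)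
    · obtain ⟨y, a1, a2⟩ :=
        Submodule.exists_le_ker_of_notMem (mem_filter.1 (inr_mem_disjSum.1 hk)).2
      exact ⟨y, (Submodule.mem_dualAnnihilator _).2 fun w hw => a2 hw, a1⟩)
  refine ⟨_, PL.prod s hf, ⟨c, (Submodule.mem_dualAnnihilator _).1 hc, prod_ne_zero_iff.2 hc'⟩,
    fun lam h => ?_⟩
  have h1 := fun π (a : σ ≤ π) (b : π ≠ ⊤) => prod_ne_zero_iff.1 h (Sum.inl π)
    (inl_mem_disjSum.2 (mem_filter.2 ⟨mem_univ _, a, b⟩))
  refine ⟨fun G a b => prod_ne_zero_iff.1 (left_ne_zero_of_mul (h1 G a.le b)) G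
    (mem_filter.2 ⟨mem_univ _, a, le_rfl⟩), fun G b a => ?_, fun G v a b =>
    prod_ne_zero_iff.1 h (Sum.inr v) (inr_mem_disjSum.2
      (mem_filter.2 ⟨mem_biUnion.2 ⟨G, mem_univ _, a⟩, b⟩))⟩
  have h2 := right_ne_zero_of_mul (h1 G a b)
  rw [← hP' G _ le_rfl (left_ne_zero_of_mul (h1 G a b))] at h2
  exact left_ne_zero_of_mul h2

end Geo

end Pool.Agent.Lib.MP_c8fb4d_co.Sph
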