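import Pool.Agent.Lib.MP_c8fb4d_co.Eul

/-!
Counting edges in the star of a vertex.
-/

namespace Pool.Agent.Lib.MP_c8fb4d_co

open Finset
open scoped Classical

set_option linter.unusedSectionVars false

variable {L : Type} [Lattice L] [Fintype L] [BoundedOrder L]

namespace ML

variable (m : ML L)

/-- Neighbours of a vertex correspond to the edges at it. -/
theorem nb_card (h0 : m.ρ ⊥ = 0) {p : L} (hp : m.ρ p = 1) (q : L → Prop) [DecidablePred q] :
    (univ.filter fun u => m.ρ u = 1 ∧ m.ρ (u ⊔ p) = 2 ∧ q (u ⊔ p)).card =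
      (univ.filter fun e => m.ρ e = 2 ∧ p ≤ e ∧ q e).card := by
  apply card_bij (fun u _ => u ⊔ p)
  · intro u hu
    simp only [mem_filter, mem_univ, true_and] at hu ⊢
    exact ⟨hu.2.1, le_sup_right, hu.2.2⟩
  · intro u hu u' hu' e
    simp only [mem_filter, mem_univ, true_and] at hu hu'
    obtain ⟨w, -, -, -, -, h⟩ := m.other (x := ⊥) (y := u ⊔ p) (z := p) bot_le le_sup_right
      (by omega) (by omega)
    have n1 : u ≠ p := fun h => by rw [h, sup_idem] at hu; omega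
    have n2 : u' ≠ p := fun h => by rw [h, sup_idem] at hu'; omega
    rw [(h u bot_le le_sup_left (by omega)).resolve_left n1,
      (h u' bot_le (e ▸ le_sup_left) (by omega)).resolve_left n2]
  · intro e he
    simp only [mem_filter, mem_univ, true_and] at he ⊢
    obtain ⟨w, -, a, b, c, -⟩ := m.other (x := ⊥) (y := e) (z := p) bot_le he.2.1
      (by omega) (by omega)
    have : w ⊔ p = e := m.sup_eq_of a he.2.1 (m.not_le_of_ne (by omega) c.symm) (by omega)
    exact ⟨w, ⟨by omega, by rw [this]; exact he.1, by rw [this]; exact he.2.2⟩, this⟩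

/-- At a neighbour `u` of `p`, edges spanning a polygon with `p` correspond to the polygons through
the edge from `u` to `p`. -/
theorem poly_card {p u : L} (hu : m.ρ u = 1) (hup : m.ρ (u ⊔ p) = 2) (q : L → Prop)
    [DecidablePred q] :
    (univ.filter fun e => m.ρ e = 2 ∧ u ≤ e ∧ m.ρ (e ⊔ p) = 3 ∧ q (e ⊔ p)).card =
      (univ.filter fun G => m.ρ G = 3 ∧ u ⊔ p ≤ G ∧ q G).card := by
  apply card_bij (fun e _ => e ⊔ p)
  · intro e he
    simp only [mem_filter, mem_univ, true_and] at he ⊢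
    exact ⟨he.2.2.1, sup_le_sup_right he.2.1 _, he.2.2.2⟩
  · intro e he e' he' h
    simp only [mem_filter, mem_univ, true_and] at he he'
    obtain ⟨w, -, -, -, -, hw⟩ := m.other (x := u) (y := e ⊔ p) (z := u ⊔ p) le_sup_left
      (sup_le_sup_right he.2.1 _) (by omega) (by omega)
    have n1 : e ≠ u ⊔ p := fun h => by rw [h, sup_assoc, sup_idem] at he; omega
    have n2 : e' ≠ u ⊔ p := fun h => by rw [h, sup_assoc, sup_idem] at he'; omega
    rw [(hw e he.2.1 le_sup_left (by omega)).resolve_left n1,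
      (hw e' he'.2.1 (h ▸ le_sup_left) (by omega)).resolve_left n2]
  · intro G hG
    simp only [mem_filter, mem_univ, true_and] at hG ⊢
    obtain ⟨w, a, b, c, d, -⟩ := m.other (x := u) (y := G) (z := u ⊔ p) le_sup_left hG.2.1
      (by omega) (by omega)
    have : w ⊔ p = G := m.sup_eq_of b (le_sup_right.trans hG.2.1)
      (fun h => m.not_le_of_ne (by omega) d.symm (sup_le a h)) (by omega)
    exact ⟨w, ⟨by omega, a, by rw [this]; exact hG.1, by rw [this]; exact hG.2.2⟩, this⟩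

theorem f_eq (x y : L) (k : ℕ) :
    m.f x y k = (univ.filter fun z => m.ρ z = k ∧ x ≤ z ∧ z ≤ y).card := by
  unfold f I
  congr 1
  ext z
  simp only [mem_filter, mem_univ, true_and]
  tauto

theorem f_top_eq (x : L) (k : ℕ) :
    m.f x ⊤ k = (univ.filter fun z => m.ρ z = k ∧ x ≤ z).card := by
  simp [f_eq]

theorem half_edges (h0 : m.ρ ⊥ = 0) (Y : Finset L) (hY : ∀ e ∈ Y, m.ρ e = 2) :
    ∑ u ∈ univ.filter (fun u => m.ρ u = 1), (Y.filter fun e => u ≤ e).card = 2 * Y.card := by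
  rw [double, sum_congr rfl (g := fun _ => 2), sum_const, smul_eq_mul, mul_comm]
  intro e he
  rw [← m.diamond (x := ⊥) (y := e) (k := 1) bot_le (by omega) (by rw [hY e he]), f_eq]
  congr 1
  ext z
  simp

/-- Edges missing `p` inside a family of facets. -/
noncomputable def Y (p : L) (S : Finset L) : Finset L :=
  univ.filter fun e => m.ρ e = 2 ∧ ¬ p ≤ e ∧ ∃ F ∈ S, e ≤ F

/-- Polygons through `p` inside a family of facets. -/
noncomputable def B (p : L) (S : Finset L) : Finset L :=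
  univ.filter fun G => m.ρ G = 3 ∧ p ≤ G ∧ ∃ F ∈ S, G ≤ F

/-- Vertices other than `p` and its neighbours inside a family of facets. -/
noncomputable def M (p : L) (S : Finset L) : Finset L :=
  univ.filter fun u => m.ρ u = 1 ∧ 3 ≤ m.ρ (u ⊔ p) ∧ ∃ F ∈ S, u ≤ F

/-- Neighbours of `p`. -/
noncomputable def Nb (p : L) : Finset L := univ.filter fun u => m.ρ u = 1 ∧ m.ρ (u ⊔ p) = 2

theorem card_Nb (h0 : m.ρ ⊥ = 0) {p : L} (hp : m.ρ p = 1) : (m.Nb p).card = m.f p ⊤ 2 := by
  have := m.nb_card h0 hp fun _ => True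
  simpa [Nb, f_top_eq] using this

theorem star_basic (h0 : m.ρ ⊥ = 0) {p : L} (hp : m.ρ p = 1) (S : Finset L)
    (hS : ∀ F ∈ S, p ≤ F) :
    2 * (m.B p S).card +
      ∑ u ∈ m.Nb p, ((m.Y p S).filter fun e => u ≤ e ∧ 4 ≤ m.ρ (e ⊔ p)).card +
      ∑ u ∈ m.M p S, ((m.Y p S).filter fun e => u ≤ e).card ≤ 2 * (m.Y p S).card := by
  rw [← m.half_edges h0 (m.Y p S) (fun e he => (mem_filter.1 he).2.1)]
  have hdisj : Disjoint (m.Nb p) (m.M p S) := by
    rw [disjoint_left]
    intro u h1 h2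
    have := (mem_filter.1 h1).2.2
    have := (mem_filter.1 h2).2.2.1
    omega
  have hsub : m.Nb p ∪ m.M p S ⊆ univ.filter (fun u => m.ρ u = 1) := by
    intro u hu
    rcases mem_union.1 hu with h | h <;> exact mem_filter.2 ⟨mem_univ _, (mem_filter.1 h).2.1⟩
  refine le_trans ?_ (sum_le_sum_of_subset hsub)
  rw [sum_union hdisj]
  refine Nat.add_le_add_right ?_ _
  have h1 : ∑ u ∈ m.Nb p, ((m.B p S).filter fun G => u ≤ G).card = 2 * (m.B p S).card := by
    rw [double, sum_congr rfl (g := fun _ => 2), sum_const, smul_eq_mul, mul_comm]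
    intro G hG
    obtain ⟨a, b, -⟩ := (mem_filter.1 hG).2
    rw [← m.diamond (x := p) (y := G) (k := 2) b (by omega) (by omega), f_eq,
      ← m.nb_card h0 hp (fun e => e ≤ G)]
    congr 1
    ext u
    simp [Nb, b, and_assoc]
  rw [← h1, ← sum_add_distrib]
  refine sum_le_sum fun u hu => ?_
  obtain ⟨a, b⟩ := (mem_filter.1 hu).2
  have h2 : ((m.B p S).filter fun G => u ≤ G).card =
      ((m.Y p S).filter fun e => u ≤ e ∧ m.ρ (e ⊔ p) = 3).card := by
    have := m.poly_card a b (fun G => ∃ F ∈ S, G ≤ F)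
    refine Eq.trans (congrArg card ?_) (this.symm.trans (congrArg card ?_))
    · ext G
      simp only [B, mem_filter, mem_univ, true_and, sup_le_iff]
      tauto
    · ext e
      simp only [Y, mem_filter, mem_univ, true_and, sup_le_iff]
      constructor
      · rintro ⟨c1, c2, c3, F, c4, c5, -⟩
        refine ⟨⟨c1, fun h => ?_, F, c4, c5⟩, c2, c3⟩
        rw [sup_eq_left.2 h] at c3; omega
      · rintro ⟨⟨c1, -, F, c4, c5⟩, c2, c3⟩
        exact ⟨c1, c2, c3, F, c4, c5, hS F c4⟩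
  rw [h2, ← card_union_of_disjoint]
  · apply card_le_card
    intro e he
    rcases mem_union.1 he with h | h <;>
      exact mem_filter.2 ⟨(mem_filter.1 h).1, (mem_filter.1 h).2.1⟩
  · rw [disjoint_left]
    intro e h1 h2
    have := (mem_filter.1 h1).2.2
    have := (mem_filter.1 h2).2.2
    omega

theorem I_subset_Y {p u F : L} {S : Finset L} (hu : 3 ≤ m.ρ (u ⊔ p)) (hF : F ∈ S) :
    m.I u F 2 ⊆ (m.Y p S).filter fun e => u ≤ e := by
  intro e he
  obtain ⟨a, b, c⟩ := mem_I.1 he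
  refine mem_filter.2 ⟨mem_filter.2 ⟨mem_univ _, c, fun h => ?_, F, hF, b⟩, a⟩
  have := m.ρ_le (sup_le a h)
  omega

theorem deg_M {p u : L} {S : Finset L} (hS : ∀ F ∈ S, m.ρ F = 5) (hu : u ∈ m.M p S) :
    4 ≤ ((m.Y p S).filter fun e => u ≤ e).card := by
  obtain ⟨a, b, F, c, d⟩ := (mem_filter.1 hu).2
  exact (m.atoms_ge (k := 2) (by omega) 4 F d (by have := hS F c; omega)).trans
    (card_le_card (m.I_subset_Y b c))

theorem star_weak (h0 : m.ρ ⊥ = 0) {p : L} (hp : m.ρ p = 1) (S : Finset L)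
    (hS : ∀ F ∈ S, p ≤ F) (hS' : ∀ F ∈ S, m.ρ F = 5) :
    (m.B p S).card + 2 * (m.M p S).card ≤ (m.Y p S).card := by
  have h1 := m.star_basic h0 hp S hS
  have h2 := card_nsmul_le_sum (m.M p S) _ 4 (fun u hu => m.deg_M hS' hu)
  rw [smul_eq_mul] at h2
  omega

/-- The refined count in the full star of `v`. -/
theorem star_strong (h0 : m.ρ ⊥ = 0) (h6 : m.ρ ⊤ = 6) {v w : L} (hv : m.ρ v = 1) (hw : m.ρ w = 1)
    (hvw : m.ρ (w ⊔ v) = 2) : ∃ i : ℕ, i ≤ (m.M v (m.I v ⊤ 5)).card ∧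
      i ≤ (univ.filter fun e => m.ρ e = 2 ∧ w ≤ e ∧ m.ρ (e ⊔ v) = 5).card ∧
      2 * m.f v ⊤ 3 + 2 * (univ.filter fun e => m.ρ e = 2 ∧ w ≤ e ∧
        (m.ρ (e ⊔ v) = 4 ∨ m.ρ (e ⊔ v) = 5)).card + 4 * (m.M v (m.I v ⊤ 5)).card ≤
        2 * (m.Y v (m.I v ⊤ 5)).card + i := by
  set S := m.I v ⊤ 5 with hSdef
  have hS : ∀ F ∈ S, v ≤ F := fun F hF => (mem_I.1 hF).1
  have hS' : ∀ F ∈ S, m.ρ F = 5 := fun F hF => (mem_I.1 hF).2.2
  have hex : ∀ x, m.ρ (x ⊔ v) ≤ 5 → ∃ F ∈ S, x ≤ F := by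
    intro x hx
    obtain ⟨F, a, b, c⟩ := m.exists_rank' (k := 5) (le_top (a := x ⊔ v)) hx (by omega)
    exact ⟨F, mem_I.2 ⟨le_sup_right.trans a, b, c⟩, le_sup_left.trans a⟩
  have h1 := m.star_basic h0 hv S hS
  have hB : (m.B v S).card = m.f v ⊤ 3 := by
    rw [f_top_eq]
    congr 1
    ext G
    simp only [B, mem_filter, mem_univ, true_and]
    refine ⟨fun h => ⟨h.1, h.2.1⟩, fun h => ⟨h.1, h.2, hex G ?_⟩⟩
    rw [sup_eq_left.2 h.2]; omega
  set W := univ.filter fun u => m.ρ u = 1 ∧ m.ρ (u ⊔ w) = 2 ∧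
    (m.ρ (u ⊔ w ⊔ v) = 4 ∨ m.ρ (u ⊔ w ⊔ v) = 5) with hW
  set J := (univ.filter fun e => m.ρ e = 2 ∧ w ≤ e ∧
    (m.ρ (e ⊔ v) = 4 ∨ m.ρ (e ⊔ v) = 5)).card with hJ
  have hWJ : W.card = J := m.nb_card h0 hw fun e => m.ρ (e ⊔ v) = 4 ∨ m.ρ (e ⊔ v) = 5
  set T := W.filter fun u => m.ρ (u ⊔ v) = 5 with hT
  have hmono : ∀ u, m.ρ (u ⊔ v) ≤ m.ρ (u ⊔ w ⊔ v) := fun u =>
    m.ρ_le (sup_le_sup_right le_sup_left _)
  have hedge : ∀ u ∈ W, u ⊔ w ∈ m.Y v S := by
    intro u hu
    obtain ⟨a, b, c⟩ := (mem_filter.1 hu).2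
    refine mem_filter.2 ⟨mem_univ _, b, fun h => ?_, hex _ (by omega)⟩
    rw [sup_eq_left.2 h] at c; omega
  have hWsub : W ⊆ m.Nb v ∪ m.M v S := by
    intro u hu
    obtain ⟨a, b, c⟩ := (mem_filter.1 hu).2
    have hne : ¬ v ≤ u := fun h => by
      rw [sup_eq_left.2 (h.trans le_sup_left)] at c; omega
    have := m.ρ_lt_sup hne
    have := hmono u
    by_cases h : m.ρ (u ⊔ v) = 2
    · exact mem_union_left _ (mem_filter.2 ⟨mem_univ _, a, h⟩)
    · exact mem_union_right _ (mem_filter.2 ⟨mem_univ _, a, by omega, hex u (by omega)⟩)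
  have hwNb : w ∈ m.Nb v := mem_filter.2 ⟨mem_univ _, hw, hvw⟩
  have hwW : w ∉ W := fun h => by
    have := (mem_filter.1 h).2.2.1
    rw [sup_idem] at this; omega
  have h2 : J + ((m.Nb v).filter fun u => u ∈ W).card ≤
      ∑ u ∈ m.Nb v, ((m.Y v S).filter fun e => u ≤ e ∧ 4 ≤ m.ρ (e ⊔ v)).card := by
    rw [← add_sum_erase _ _ hwNb]
    apply Nat.add_le_add
    · apply card_le_card
      intro e he
      obtain ⟨a, b, c⟩ := (mem_filter.1 he).2
      refine mem_filter.2 ⟨mem_filter.2 ⟨mem_univ _, a, fun h => ?_, hex e (by omega)⟩, b, by omega⟩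
      rw [sup_eq_left.2 h] at c; omega
    · have : ((m.Nb v).filter fun u => u ∈ W) ⊆ (m.Nb v).erase w := by
        intro u hu
        exact mem_erase.2 ⟨fun h => hwW (h ▸ (mem_filter.1 hu).2), (mem_filter.1 hu).1⟩
      refine le_trans ?_ (sum_le_sum_of_subset this)
      rw [card_eq_sum_ones]
      refine sum_le_sum fun u hu => card_pos.2 ⟨u ⊔ w, ?_⟩
      have hu' := (mem_filter.1 hu).2
      refine mem_filter.2 ⟨hedge u hu', le_sup_left, ?_⟩
      have := (mem_filter.1 hu').2.2.2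
      omega
  have h3 : 4 * (m.M v S).card + ((m.M v S).filter fun u => u ∈ W ∧ u ∉ T).card ≤
      ∑ u ∈ m.M v S, ((m.Y v S).filter fun e => u ≤ e).card := by
    rw [card_filter, card_eq_sum_ones, mul_sum, ← sum_add_distrib]
    refine sum_le_sum fun u hu => ?_
    split_ifs with h
    · obtain ⟨a, b, F, c, d⟩ := (mem_filter.1 hu).2
      have hle : m.ρ (u ⊔ v) ≤ 4 := by
        have := hmono u
        have := (mem_filter.1 h.1).2.2.2
        have : m.ρ (u ⊔ v) ≠ 5 := fun e => h.2 (mem_filter.2 ⟨h.1, e⟩)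
        omega
      have hF := hS' F c
      obtain ⟨F', c1, -, c3, c4⟩ := m.coatomic' (le_top (a := F)) (le_top (a := u ⊔ v))
        (m.not_le_of_ρ (by omega))
      have hF' : F' ∈ S := mem_I.2 ⟨le_sup_right.trans c1, le_top, by omega⟩
      obtain ⟨e, d1, d2, d3, d4⟩ := m.atomic' (le_sup_left.trans c1) d c4
      have g1 := m.atoms_ge (k := 2) (x := u) (by omega) 4 F' (le_sup_left.trans c1) (by omega)
      have g2 : insert e (m.I u F' 2) ⊆ (m.Y v S).filter fun e => u ≤ e := by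
        intro z hz
        rcases mem_insert.1 hz with rfl | hz
        · exact m.I_subset_Y b c (mem_I.2 ⟨d1, d2, by omega⟩)
        · exact m.I_subset_Y b hF' hz
      have g3 := card_le_card g2
      rw [card_insert_of_notMem (fun h => d4 (mem_I.1 h).2.1)] at g3
      unfold f at g1
      omega
    · simpa using m.deg_M hS' hu
  have h4 : W.card ≤ ((m.Nb v).filter fun u => u ∈ W).card +
      ((m.M v S).filter fun u => u ∈ W ∧ u ∉ T).card + T.card := by
    refine le_trans (card_le_card ?_) ((card_union_le _ _).trans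
      (Nat.add_le_add_right (card_union_le _ _) _))
    intro u hu
    by_cases hT' : u ∈ T
    · exact mem_union_right _ hT'
    · rcases mem_union.1 (hWsub hu) with h | h
      · exact mem_union_left _ (mem_union_left _ (mem_filter.2 ⟨h, hu⟩))
      · exact mem_union_left _ (mem_union_right _ (mem_filter.2 ⟨h, hu, hT'⟩))
  refine ⟨T.card, card_le_card fun u hu => ?_, ?_, by omega⟩
  · obtain ⟨a, b⟩ := mem_filter.1 hu
    exact mem_filter.2 ⟨mem_univ _, (mem_filter.1 a).2.1, by omega, hex u (by omega)⟩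
  · rw [← m.nb_card h0 hw fun e => m.ρ (e ⊔ v) = 5]
    refine card_le_card fun u hu => ?_
    obtain ⟨a, b⟩ := mem_filter.1 hu
    obtain ⟨c, d, e⟩ := (mem_filter.1 a).2
    have := hmono u
    exact mem_filter.2 ⟨mem_univ _, c, d, by omega⟩

end ML

end Pool.Agent.Lib.MP_c8fb4d_co
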